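import Pool.Agent.IDS.Base

set_option autoImplicit false

namespace Pool.Agent.IDS

open Finset

theorem b1_fact (a b : ℕ) (ha : 0 < a) (hb : 0 < b) (p : ℕ) :
    (rd a b).factorization p = a.factorization p - b.factorization p := by
  unfold rd
  rw [Nat.factorization_div (Nat.gcd_dvd_left a b), Nat.factorization_gcd ha.ne' hb.ne']
  simp only [Finsupp.coe_tsub, Pi.sub_apply, Finsupp.inf_apply]
  omega

/-- [IDS-B1] **Structure of good pairs.**

PROOF.  Compare factorizations at every prime `p`
(`Nat.eq_of_factorization_eq`, `Nat.factorization_lcm`, `Nat.factorization_gcd`,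
`Nat.factorization_div`: `(rd x y).factorization p = x.factorization p - y.factorization p`
(truncated), everything positive).  With `x, y` the exponents of `v, w` and `i, j` those of `a, b`,
`GoodAt i j x y`:
* `x = i, y = j`: `max = max i j + 0 + 0`; `x - y = (i - j) + 0 + 0`; etc.
* `i = j = y`, `x = i + 1`: lcm: `i+1 = i + 1 + 0`; `rd v w`: `1 = 0 + 1 + 0`; `rd w v`: `0`.
* `i = j = y`, `x = i - 1`: lcm: `i = i + 0 + 0`; `rd v w`: `0`; `rd w v`: `1 = 0 + 0 + 1`
  (`rd a v` has exponent `1`).
* the two symmetric cases.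
`rd a v` has exponent `i - x ≤ 1` in all cases, so it is squarefree
(`Nat.squarefree_iff_factorization_le_one`). (`omega` does each case.) -/
theorem good_struct (a b v w : ℕ) (ha : 0 < a) (hb : 0 < b) (hv : 0 < v) (hw : 0 < w)
    (h : Good a b v w) :
    Nat.lcm v w = Nat.lcm a b * rd v a * rd w b ∧
    rd v w = rd a b * rd v a * rd b w ∧
    rd w v = rd b a * rd w b * rd a v ∧
    Squarefree (rd a v) ∧ Squarefree (rd b w) := by
  have hall : ∀ p : ℕ, GoodAt (a.factorization p) (b.factorization p) (v.factorization p)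
      (w.factorization p) := by
    intro p
    by_cases hp : p.Prime
    · exact h p hp
    · simp only [Nat.factorization_eq_zero_of_not_prime _ hp]
      exact Or.inl ⟨rfl, rfl⟩
  have r1 : rd v a ≠ 0 := (rd_pos hv).ne'
  have r2 : rd w b ≠ 0 := (rd_pos hw).ne'
  have r3 : rd a v ≠ 0 := (rd_pos ha).ne'
  have r4 : rd b w ≠ 0 := (rd_pos hb).ne'
  have r5 : rd a b ≠ 0 := (rd_pos ha).ne'
  have r6 : rd b a ≠ 0 := (rd_pos hb).ne'
  have r7 : rd v w ≠ 0 := (rd_pos hv).ne'
  have r8 : rd w v ≠ 0 := (rd_pos hw).ne'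
  have l1 : Nat.lcm v w ≠ 0 := Nat.lcm_ne_zero hv.ne' hw.ne'
  have l2 : Nat.lcm a b ≠ 0 := Nat.lcm_ne_zero ha.ne' hb.ne'
  refine ⟨?_, ?_, ?_, ?_, ?_⟩
  · apply Nat.eq_of_factorization_eq l1 (mul_ne_zero (mul_ne_zero l2 r1) r2)
    intro p
    rw [Nat.factorization_mul (mul_ne_zero l2 r1) r2, Nat.factorization_mul l2 r1,
      Nat.factorization_lcm hv.ne' hw.ne', Nat.factorization_lcm ha.ne' hb.ne']
    simp only [Finsupp.coe_add, Pi.add_apply, Finsupp.sup_apply, b1_fact v a hv ha,
      b1_fact w b hw hb]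
    have := hall p
    unfold GoodAt at this
    omega
  · apply Nat.eq_of_factorization_eq r7 (mul_ne_zero (mul_ne_zero r5 r1) r4)
    intro p
    rw [Nat.factorization_mul (mul_ne_zero r5 r1) r4, Nat.factorization_mul r5 r1]
    simp only [Finsupp.coe_add, Pi.add_apply, b1_fact v a hv ha,
      b1_fact a b ha hb, b1_fact b w hb hw, b1_fact v w hv hw]
    have := hall p
    unfold GoodAt at this
    omega
  · apply Nat.eq_of_factorization_eq r8 (mul_ne_zero (mul_ne_zero r6 r2) r3)
    intro p
    rw [Nat.factorization_mul (mul_ne_zero r6 r2) r3, Nat.factorization_mul r6 r2]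
    simp only [Finsupp.coe_add, Pi.add_apply, b1_fact w b hw hb,
      b1_fact b a hb ha, b1_fact a v ha hv, b1_fact w v hw hv]
    have := hall p
    unfold GoodAt at this
    omega
  · apply Nat.squarefree_of_factorization_le_one r3
    intro p
    rw [b1_fact a v ha hv]
    have := hall p
    unfold GoodAt at this
    omega
  · apply Nat.squarefree_of_factorization_le_one r4
    intro p
    rw [b1_fact b w hb hw]
    have := hall p
    unfold GoodAt at this
    omega

end Pool.Agent.IDS
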