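import Pool.Agent.IDS.Base

set_option autoImplicit false

namespace Pool.Agent.IDS

open Finset

theorem b2_tot_mul (m n : ℕ) : Nat.totient (m * n) ≤ m * Nat.totient n := by
  induction m using Nat.strong_induction_on generalizing n with
  | _ m ih =>
    rcases Nat.eq_zero_or_pos m with rfl | hm
    · simp
    have hgpos : 0 < Nat.gcd m n := Nat.gcd_pos_of_pos_left n hm
    have key := Nat.totient_gcd_mul_totient_mul m n
    have hφg : 0 < Nat.totient (Nat.gcd m n) := Nat.totient_pos.mpr hgpos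
    obtain ⟨l, hl⟩ := Nat.gcd_dvd_left m n
    by_cases h1 : Nat.gcd m n = 1
    · rw [Nat.totient_mul (Nat.coprime_iff_gcd_eq_one.mpr h1)]
      exact Nat.mul_le_mul_right _ (Nat.totient_le m)
    · have hlpos : 0 < l := by
        rcases Nat.eq_zero_or_pos l with h | h
        · rw [h, mul_zero] at hl; omega
        · exact h
      have hlm : l < m := by
        have : 2 ≤ Nat.gcd m n := by omega
        calc l < 2 * l := by omega
          _ ≤ Nat.gcd m n * l := Nat.mul_le_mul_right _ this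
          _ = m := hl.symm
      have h3 := ih l hlm (Nat.gcd m n)
      have hl' : l * Nat.gcd m n = m := by rw [mul_comm]; exact hl.symm
      rw [hl'] at h3
      have h2 : Nat.totient m * Nat.gcd m n ≤ m * Nat.totient (Nat.gcd m n) := by
        calc Nat.totient m * Nat.gcd m n ≤ (l * Nat.totient (Nat.gcd m n)) * Nat.gcd m n :=
              Nat.mul_le_mul_right _ h3
          _ = (l * Nat.gcd m n) * Nat.totient (Nat.gcd m n) := by ring
          _ = m * Nat.totient (Nat.gcd m n) := by rw [hl']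
      apply Nat.le_of_mul_le_mul_left _ hφg
      calc Nat.totient (Nat.gcd m n) * Nat.totient (m * n)
          = Nat.totient m * Nat.totient n * Nat.gcd m n := key
        _ = (Nat.totient m * Nat.gcd m n) * Nat.totient n := by ring
        _ ≤ (m * Nat.totient (Nat.gcd m n)) * Nat.totient n := Nat.mul_le_mul_right _ h2
        _ = Nat.totient (Nat.gcd m n) * (m * Nat.totient n) := by ring

/-- [IDS-B2] PROOF. `v * rd a v = a * rd v a` (`rd_mul`), so
`φ v * φ (rd a v) ≤ φ (v * rd a v)` (super-multiplicativity: `Nat.totient_super_multiplicative`)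
`= φ (a * rd v a) ≤ rd v a * φ a` (`φ (m n) ≤ m φ n`: `Nat.totient_gcd_mul_totient_mul`:
`φ(gcd) φ(mn) = φ(m) φ(n) gcd`, `gcd ≤ m`-type estimate; or
`φ(mn) = mn ∏_{p ∣ mn} (1 - 1/p) ≤ m · n ∏_{p ∣ n} (1-1/p)`). -/
theorem tot_le (a v : ℕ) (ha : 0 < a) (hv : 0 < v) :
    Nat.totient v * Nat.totient (rd a v) ≤ rd v a * Nat.totient a := by
  calc Nat.totient v * Nat.totient (rd a v) ≤ Nat.totient (v * rd a v) :=
        Nat.totient_super_multiplicative _ _
    _ = Nat.totient (rd v a * a) := by rw [rd_mul a v, mul_comm]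
    _ ≤ rd v a * Nat.totient a := b2_tot_mul _ _

theorem b2_tot_prod (s : Finset ℕ) (hs : ∀ p ∈ s, p.Prime) :
    (Nat.totient (∏ p ∈ s, p) : ℝ) = ∏ p ∈ s, ((p : ℝ) - 1) := by
  classical
  induction s using Finset.induction_on with
  | empty => simp
  | insert q s hq ih =>
    have hqp : q.Prime := hs q (Finset.mem_insert_self _ _)
    have hs' : ∀ p ∈ s, p.Prime := fun p hp => hs p (Finset.mem_insert_of_mem hp)
    have hcop : Nat.Coprime q (∏ p ∈ s, p) := by
      apply Nat.Coprime.prod_right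
      intro p hp
      rw [Nat.coprime_primes hqp (hs' p hp)]
      rintro rfl
      exact hq hp
    rw [Finset.prod_insert hq, Finset.prod_insert hq, Nat.totient_mul hcop, Nat.cast_mul, ih hs',
      Nat.totient_prime hqp, Nat.cast_sub hqp.one_lt.le, Nat.cast_one]

/-- [IDS-B2] `∑_{d ∣ a squarefree} 1/φ(d) = a/φ(a)`.

PROOF.  Both sides are `∏_{p ∣ a} (1 + 1/(p-1))`: the squarefree divisors of `a` are the products
of subsets of `a.primeFactors` (`Nat.sum_divisors_filter_squarefree`), `φ` is multiplicative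
(`Nat.totient` of a product of distinct primes is `∏ (p - 1)`), `Finset.prod_one_add`, and
`Nat.totient_eq_mul_prod_factors` / `Nat.totient_mul_prod_primeFactors`. -/
theorem sum_inv_tot (a : ℕ) (ha : 0 < a) :
    ∑ d ∈ a.divisors.filter Squarefree, (1 : ℝ) / (Nat.totient d : ℝ) =
      (a : ℝ) / (Nat.totient a : ℝ) := by
  classical
  rw [Nat.sum_divisors_filter_squarefree ha.ne']
  have h1 : (UniqueFactorizationMonoid.normalizedFactors a).toFinset = a.primeFactors := by
    rw [Nat.factors_eq]; rfl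
  rw [h1]
  have h2 : ∀ i ∈ a.primeFactors.powerset, (1 : ℝ) / (Nat.totient i.val.prod : ℝ) =
      ∏ p ∈ i, ((p : ℝ) - 1)⁻¹ := by
    intro i hi
    rw [Finset.mem_powerset] at hi
    have h3 : i.val.prod = ∏ p ∈ i, p := by
      simp [Finset.prod_val]
    rw [h3, b2_tot_prod i (fun p hp => Nat.prime_of_mem_primeFactors (hi hp)), one_div,
      Finset.prod_inv_distrib]
  rw [Finset.sum_congr rfl h2, ← Finset.prod_one_add]
  have hφ : (Nat.totient a : ℝ) ≠ 0 := by
    have := Nat.totient_pos.mpr ha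
    positivity
  have hp1 : ∀ p ∈ a.primeFactors, ((p : ℝ) - 1) ≠ 0 := by
    intro p hp
    have := (Nat.prime_of_mem_primeFactors hp).one_lt
    have h : (1 : ℝ) < p := by exact_mod_cast this
    linarith
  have h4 := Nat.totient_mul_prod_primeFactors a
  have h5 : (Nat.totient a : ℝ) * ∏ p ∈ a.primeFactors, (p : ℝ) =
      a * ∏ p ∈ a.primeFactors, ((p : ℝ) - 1) := by
    have h6 : (∏ p ∈ a.primeFactors, ((p : ℝ) - 1)) =
        ((∏ p ∈ a.primeFactors, (p - 1) : ℕ) : ℝ) := by
      rw [Nat.cast_prod]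
      apply Finset.prod_congr rfl
      intro p hp
      rw [Nat.cast_sub (Nat.prime_of_mem_primeFactors hp).one_lt.le, Nat.cast_one]
    rw [h6, ← Nat.cast_mul, ← h4, Nat.cast_mul, Nat.cast_prod]
  have h7 : ∏ p ∈ a.primeFactors, (1 + ((p : ℝ) - 1)⁻¹) =
      (∏ p ∈ a.primeFactors, (p : ℝ)) / ∏ p ∈ a.primeFactors, ((p : ℝ) - 1) := by
    rw [← Finset.prod_div_distrib]
    apply Finset.prod_congr rfl
    intro p hp
    have := hp1 p hp
    field_simp
    ring
  rw [h7, div_eq_div_iff (Finset.prod_ne_zero_iff.mpr hp1) hφ]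
  rw [← h5]
  ring

/-- [IDS-B2] **Mass of a cell.**

PROOF.  The map `v ↦ (rd v a, rd a v)` is injective on positive `v` (`v * rd a v = a * rd v a`), and
maps `V` to `{1..N-1} × (squarefree divisors of a)`.  `φ v ≤ rd v a * φ a / φ (rd a v)` by
`tot_le`.  So `∑_{v∈V} φ v ≤ ∑_{n<N} ∑_{d} n φ(a)/φ(d) = (N(N-1)/2) φ(a) · a/φ(a) ≤ N² a`. -/
theorem cell_mass (a : ℕ) (ha : 0 < a) (V : Finset ℕ) (N : ℕ)
    (hV : ∀ v ∈ V, 0 < v ∧ Squarefree (rd a v) ∧ rd v a < N) :
    ∑ v ∈ V, (Nat.totient v : ℝ) ≤ (N : ℝ) ^ 2 * a := by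
  classical
  have hφa : (0 : ℝ) < (Nat.totient a : ℝ) := by
    have := Nat.totient_pos.mpr ha
    positivity
  let g : ℕ × ℕ → ℝ := fun x => (x.1 : ℝ) * (Nat.totient a * (1 / (Nat.totient x.2 : ℝ)))
  have hg0 : ∀ x, 0 ≤ g x := fun x => by positivity
  have hinj : Set.InjOn (fun v => (rd v a, rd a v)) (V : Set ℕ) := by
    intro v hv w hw h
    simp only [Prod.mk.injEq] at h
    have e1 := rd_mul a v
    have e2 := rd_mul a w
    rw [h.1, h.2, ← e2] at e1
    have hp : 0 < rd a w := rd_pos ha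
    exact Nat.eq_of_mul_eq_mul_right hp e1
  calc ∑ v ∈ V, (Nat.totient v : ℝ) ≤ ∑ v ∈ V, g (rd v a, rd a v) := by
        apply Finset.sum_le_sum
        intro v hv
        have h1 := tot_le a v ha (hV v hv).1
        have h2 : (0 : ℝ) < (Nat.totient (rd a v) : ℝ) := by
          have := Nat.totient_pos.mpr (rd_pos (b := v) ha)
          exact_mod_cast this
        have h3 : (Nat.totient v : ℝ) * (Nat.totient (rd a v) : ℝ) ≤
            (rd v a : ℝ) * (Nat.totient a : ℝ) := by exact_mod_cast h1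
        have h4 : g (rd v a, rd a v) =
            ((rd v a : ℝ) * (Nat.totient a : ℝ)) / (Nat.totient (rd a v) : ℝ) := by
          simp only [g]; ring
        rw [h4, le_div_iff₀ h2]
        exact h3
    _ = ∑ x ∈ V.image (fun v => (rd v a, rd a v)), g x := by
        rw [Finset.sum_image hinj]
    _ ≤ ∑ x ∈ (Finset.range N) ×ˢ (a.divisors.filter Squarefree), g x := by
        apply Finset.sum_le_sum_of_subset_of_nonneg
        · intro x hx
          obtain ⟨v, hv, rfl⟩ := Finset.mem_image.1 hx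
          obtain ⟨h1, h2, h3⟩ := hV v hv
          refine Finset.mem_product.2 ⟨Finset.mem_range.2 h3, Finset.mem_filter.2 ⟨?_, h2⟩⟩
          rw [Nat.mem_divisors]
          exact ⟨⟨Nat.gcd a v, (rd_mul_gcd a v).symm⟩, ha.ne'⟩
        · intro x _ _
          exact hg0 x
    _ = (∑ n ∈ Finset.range N, (n : ℝ)) *
          (Nat.totient a * ∑ d ∈ a.divisors.filter Squarefree, (1 : ℝ) / (Nat.totient d : ℝ)) := by
        rw [Finset.sum_product, Finset.sum_mul]
        apply Finset.sum_congr rfl
        intro n _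
        rw [Finset.mul_sum, Finset.mul_sum]
    _ = (∑ n ∈ Finset.range N, (n : ℝ)) * a := by
        rw [sum_inv_tot a ha]
        congr 1
        field_simp
    _ ≤ (N : ℝ) ^ 2 * a := by
        apply mul_le_mul_of_nonneg_right _ (by positivity)
        calc ∑ n ∈ Finset.range N, (n : ℝ) ≤ ∑ n ∈ Finset.range N, (N : ℝ) := by
              apply Finset.sum_le_sum
              intro n hn
              exact_mod_cast (Finset.mem_range.1 hn).le
          _ = (N : ℝ) ^ 2 := by
              rw [Finset.sum_const, Finset.card_range, nsmul_eq_mul, sq]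

end Pool.Agent.IDS
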