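import Pool.Agent.IDS.B1
import Pool.Agent.IDS.B2

set_option autoImplicit false

namespace Pool.Agent.IDS

open Finset

theorem c2b_side (a : ℕ) (ha : 0 < a) (V : Finset ℕ) (μ : ℕ → ℝ) (A k : ℕ) (c : ℝ) (hc : 0 ≤ c)
    (h : ∀ v ∈ V, 0 < v ∧ Squarefree (rd a v) ∧ rd v a < 2 ^ (A + 1) ∧
      μ v ≤ c * ((Nat.totient v : ℝ) * (1 / 2 : ℝ) ^ k)) :
    ms μ V ≤ c * (1 / 2 : ℝ) ^ k * (4 * 2 ^ (2 * A) * a) := by
  have h1 : ms μ V ≤ ∑ v ∈ V, c * (1 / 2 : ℝ) ^ k * (Nat.totient v : ℝ) := by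
    unfold ms
    refine Finset.sum_le_sum (fun v hv => ?_)
    refine (h v hv).2.2.2.trans (le_of_eq (by ring))
  rw [← Finset.mul_sum] at h1
  have h2 := cell_mass a ha V (2 ^ (A + 1)) (fun v hv => ⟨(h v hv).1, (h v hv).2.1, (h v hv).2.2.1⟩)
  refine h1.trans ?_
  refine mul_le_mul_of_nonneg_left ?_ (by positivity)
  refine h2.trans (le_of_eq ?_)
  push_cast
  rw [pow_succ, pow_mul', ]
  ring

/-- [IDS-C2b] **Trivial cell bound.**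

PROOF.  The cell is contained in `Vc × Wc`, where `Vc`, `Wc` are the images of the cell under the
projections; `em ≤ ms μ Vc * ms μ Wc` (`em_le_mul`).  For `v ∈ Vc`: `Squarefree (rd a v)` by
`good_struct`, `rd v a < 2^(A+1)`, `μ v ≤ c₁ φ v (1/2)^k`; `cell_mass` with `N = 2^(A+1)`:
`ms μ Vc ≤ c₁ (1/2)^k 4^{A+1} a`, the same for `Wc`. -/
theorem cell_bound (S : Finset ℕ) (κ : ℕ → ℕ) (μ : ℕ → ℝ) (hμ : ∀ v, 0 ≤ μ v)
    (E' : Finset (ℕ × ℕ)) (a b : ℕ) (ha : 0 < a) (hb : 0 < b)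
    (hS : ∀ v ∈ S, 0 < v) (hE : E' ⊆ S ×ˢ S) (hG : ∀ e ∈ E', Good a b e.1 e.2)
    (A k A' k' : ℕ) (c₁ c₂ : ℝ) (hc₁ : 0 ≤ c₁) (hc₂ : 0 ≤ c₂)
    (h₁ : ∀ v ∈ S, κ v = k → μ v ≤ c₁ * ((Nat.totient v : ℝ) * (1 / 2 : ℝ) ^ k))
    (h₂ : ∀ w ∈ S, κ w = k' → μ w ≤ c₂ * ((Nat.totient w : ℝ) * (1 / 2 : ℝ) ^ k')) :
    em μ μ (cell a b κ E' A k A' k') ≤
      16 * (c₁ * c₂) * a * b * 2 ^ (2 * A + 2 * A') * (1 / 2 : ℝ) ^ (k + k') := by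
  classical
  set Vc := (cell a b κ E' A k A' k').image Prod.fst with hVc
  set Wc := (cell a b κ E' A k A' k').image Prod.snd with hWc
  have hsub : cell a b κ E' A k A' k' ⊆ Vc ×ˢ Wc := by
    intro e he
    rw [Finset.mem_product]
    exact ⟨Finset.mem_image_of_mem _ he, Finset.mem_image_of_mem _ he⟩
  have hmem : ∀ e ∈ cell a b κ E' A k A' k', e.1 ∈ S ∧ e.2 ∈ S ∧ Good a b e.1 e.2 ∧
      rd e.1 a < 2 ^ (A + 1) ∧ κ e.1 = k ∧ rd e.2 b < 2 ^ (A' + 1) ∧ κ e.2 = k' := by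
    intro e he
    unfold cell at he
    rw [Finset.mem_filter] at he
    obtain ⟨he1, h1, h2, h3, h4, h5, h6⟩ := he
    have := hE he1
    rw [Finset.mem_product] at this
    exact ⟨this.1, this.2, hG e he1, h2, h3, h5, h6⟩
  have hV : ∀ v ∈ Vc, 0 < v ∧ Squarefree (rd a v) ∧ rd v a < 2 ^ (A + 1) ∧
      μ v ≤ c₁ * ((Nat.totient v : ℝ) * (1 / 2 : ℝ) ^ k) := by
    intro v hv
    rw [hVc, Finset.mem_image] at hv
    obtain ⟨e, he, rfl⟩ := hv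
    obtain ⟨m1, m2, m3, m4, m5, m6, m7⟩ := hmem e he
    exact ⟨hS _ m1, (good_struct a b e.1 e.2 ha hb (hS _ m1) (hS _ m2) m3).2.2.2.1, m4,
      h₁ _ m1 m5⟩
  have hW : ∀ w ∈ Wc, 0 < w ∧ Squarefree (rd b w) ∧ rd w b < 2 ^ (A' + 1) ∧
      μ w ≤ c₂ * ((Nat.totient w : ℝ) * (1 / 2 : ℝ) ^ k') := by
    intro w hw
    rw [hWc, Finset.mem_image] at hw
    obtain ⟨e, he, rfl⟩ := hw
    obtain ⟨m1, m2, m3, m4, m5, m6, m7⟩ := hmem e he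
    exact ⟨hS _ m2, (good_struct a b e.1 e.2 ha hb (hS _ m1) (hS _ m2) m3).2.2.2.2, m6,
      h₂ _ m2 m7⟩
  have e1 := c2b_side a ha Vc μ A k c₁ hc₁ hV
  have e2 := c2b_side b hb Wc μ A' k' c₂ hc₂ hW
  refine (em_le_mul hμ hμ hsub).trans ?_
  refine (mul_le_mul e1 e2 (ms_nonneg hμ _) (by positivity)).trans (le_of_eq ?_)
  rw [pow_add, pow_add]
  ring

end Pool.Agent.IDS
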