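import Pool.Agent.IDS.Base

set_option autoImplicit false

namespace Pool.Agent.IDS

open Finset

/-- [IDS-C5a] **Few sizes of `rd a v`.**  `S` a set with at most `L` dyadic sizes; among the `v ∈ S`
with `rd v a ∈ [2^A, 2^{A+1})` there are at most `3 L` dyadic sizes of `rd a v`.

PROOF.  `v * rd a v = a * rd v a`.  With `ℓ = log₂ v`, `B = log₂ (rd a v)`, `s = log₂ a`:
`2^{ℓ+B} ≤ v rd a v = a rd v a < 2^{s+A+2}` and `2^{s+A} ≤ a rd v a = v rd a v < 2^{ℓ+B+2}`, so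
`ℓ + B ≤ s + A + 1` and `s + A ≤ ℓ + B + 1`: for each `ℓ` at most three values
`B ∈ {s+A-ℓ-1, s+A-ℓ, s+A-ℓ+1}`. -/
theorem few_sizes (a A : ℕ) (ha : 0 < a) (S : Finset ℕ)
    (hS : ∀ v ∈ S, 0 < v ∧ 2 ^ A ≤ rd v a ∧ rd v a < 2 ^ (A + 1)) :
    (S.image (fun v => Nat.log 2 (rd a v))).card ≤ 3 * (S.image (Nat.log 2)).card := by
  classical
  have hsub : S.image (fun v => Nat.log 2 (rd a v)) ⊆ (S.image (Nat.log 2)).biUnion
      (fun l => {Nat.log 2 a + A + 1 - l, Nat.log 2 a + A - l, Nat.log 2 a + A - 1 - l}) := by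
    intro B hB
    obtain ⟨v, hv, rfl⟩ := Finset.mem_image.1 hB
    obtain ⟨h1, h2, h3⟩ := hS v hv
    refine Finset.mem_biUnion.2 ⟨Nat.log 2 v, Finset.mem_image_of_mem _ hv, ?_⟩
    have hr : 0 < rd a v := rd_pos ha
    have e := rd_mul a v
    have v1 := Nat.pow_log_le_self 2 h1.ne'
    have v2 := Nat.lt_pow_succ_log_self (b := 2) (by norm_num) v
    have a1 := Nat.pow_log_le_self 2 ha.ne'
    have a2 := Nat.lt_pow_succ_log_self (b := 2) (by norm_num) a
    have r1 := Nat.pow_log_le_self 2 hr.ne'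
    have r2 := Nat.lt_pow_succ_log_self (b := 2) (by norm_num) (rd a v)
    have k1 : 2 ^ (Nat.log 2 v + Nat.log 2 (rd a v)) < 2 ^ (Nat.log 2 a + A + 2) := by
      calc 2 ^ (Nat.log 2 v + Nat.log 2 (rd a v)) = 2 ^ (Nat.log 2 v) * 2 ^ (Nat.log 2 (rd a v)) :=
            pow_add _ _ _
        _ ≤ v * rd a v := Nat.mul_le_mul v1 r1
        _ = a * rd v a := e
        _ < 2 ^ (Nat.log 2 a + 1) * 2 ^ (A + 1) :=
            Nat.mul_lt_mul_of_lt_of_lt a2 h3
        _ = 2 ^ (Nat.log 2 a + A + 2) := by rw [← pow_add]; congr 1; ring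
    have k2 : 2 ^ (Nat.log 2 a + A) < 2 ^ (Nat.log 2 v + Nat.log 2 (rd a v) + 2) := by
      calc 2 ^ (Nat.log 2 a + A) = 2 ^ (Nat.log 2 a) * 2 ^ A := pow_add _ _ _
        _ ≤ a * rd v a := Nat.mul_le_mul a1 h2
        _ = v * rd a v := e.symm
        _ < 2 ^ (Nat.log 2 v + 1) * 2 ^ (Nat.log 2 (rd a v) + 1) :=
            Nat.mul_lt_mul_of_lt_of_lt v2 r2
        _ = 2 ^ (Nat.log 2 v + Nat.log 2 (rd a v) + 2) := by rw [← pow_add]; congr 1; ring
    have k3 := (Nat.pow_lt_pow_iff_right (a := 2) (by norm_num)).1 k1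
    have k4 := (Nat.pow_lt_pow_iff_right (a := 2) (by norm_num)).1 k2
    simp only [Finset.mem_insert, Finset.mem_singleton]
    omega
  calc (S.image (fun v => Nat.log 2 (rd a v))).card
      ≤ ((S.image (Nat.log 2)).biUnion (fun l => ({Nat.log 2 a + A + 1 - l, Nat.log 2 a + A - l,
        Nat.log 2 a + A - 1 - l} : Finset ℕ))).card := Finset.card_le_card hsub
    _ ≤ (S.image (Nat.log 2)).card * 3 := by
        apply Finset.card_biUnion_le_card_mul
        intro l _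
        exact Finset.card_le_three
    _ = 3 * (S.image (Nat.log 2)).card := mul_comm _ _

end Pool.Agent.IDS
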