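import Pool.Agent.IDS.A4

set_option autoImplicit false

namespace Pool.Agent.IDS

open Finset

/-- induction over the primes -/
theorem a5_claim (θ η : ℝ) (F : ℕ → ℝ) (hF : ∀ p, 0 ≤ F p)
    (hstep : ∀ (p : ℕ), p.Prime → ∀ (μ ν : ℕ → ℝ), (∀ v, 0 ≤ μ v) → (∀ v, 0 ≤ ν v) →
      ∀ (V W : Finset ℕ) (E : Finset (ℕ × ℕ)), E ⊆ V ×ˢ W → 0 < em μ ν E →
      StepOK θ p (F p) (((p : ℝ) ^ η)⁻¹) μ ν V W E)
    (μ ν : ℕ → ℝ) (hμ : ∀ v, 0 ≤ μ v) (hν : ∀ v, 0 ≤ ν v)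
    (V W : Finset ℕ) (E : Finset (ℕ × ℕ)) (hE : E ⊆ V ×ˢ W) (h0 : 0 < em μ ν E)
    (P : Finset ℕ) (hP : ∀ p ∈ P, p.Prime) :
    ∃ (V' W' : Finset ℕ) (E' : Finset (ℕ × ℕ)) (i j : ℕ → ℕ),
      V' ⊆ V ∧ W' ⊆ W ∧ E' ⊆ E ∧ E' ⊆ V' ×ˢ W' ∧
      (∀ e ∈ E', ∀ p ∈ P, GoodAt (i p) (j p) (e.1.factorization p) (e.2.factorization p)) ∧
      0 < em μ ν E' ∧
      em μ ν E * (ms μ V' * ms ν W') ^ θ *
          (∏ p ∈ P, (((p : ℝ) ^ η)⁻¹) ^ ((i p - j p) + (j p - i p))) ≤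
        (∏ p ∈ P, F p) * (em μ ν E' * (ms μ V * ms ν W) ^ θ) := by
  induction P using Finset.induction_on with
  | empty =>
    refine ⟨V, W, E, fun _ => 0, fun _ => 0, subset_rfl, subset_rfl, subset_rfl, hE, ?_, h0, ?_⟩
    · intro e _ p hp
      exact absurd hp (Finset.notMem_empty p)
    · simp
  | insert q P hq ih =>
    obtain ⟨V', W', E', i, j, hV', hW', hE', hEVW, hgood, hem, hineq⟩ :=
      ih (fun p hp => hP p (Finset.mem_insert_of_mem hp))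
    obtain ⟨V'', W'', E'', i0, j0, hV'', hW'', hE'', hEVW'', hgood'', hem'', hineq''⟩ :=
      hstep q (hP q (Finset.mem_insert_self q P)) μ ν hμ hν V' W' E' hEVW hem
    refine ⟨V'', W'', E'', fun p => if p = q then i0 else i p,
      fun p => if p = q then j0 else j p, hV''.trans hV', hW''.trans hW', hE''.trans hE', hEVW'',
      ?_, hem'', ?_⟩
    · intro e he p hp
      rcases Finset.mem_insert.1 hp with h | h
      · subst h
        simp only [if_true]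
        exact hgood'' e he
      · have hpq : p ≠ q := fun h' => hq (h' ▸ h)
        simp only [if_neg hpq]
        exact hgood e (hE'' he) p h
    · rw [Finset.prod_insert hq, Finset.prod_insert hq]
      simp only [if_true]
      have h5 : (∏ p ∈ P, (((p : ℝ) ^ η)⁻¹) ^ (((if p = q then i0 else i p) -
          (if p = q then j0 else j p)) + ((if p = q then j0 else j p) -
          (if p = q then i0 else i p)))) =
          ∏ p ∈ P, (((p : ℝ) ^ η)⁻¹) ^ ((i p - j p) + (j p - i p)) := by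
        refine Finset.prod_congr rfl (fun p hp => ?_)
        have hpq : p ≠ q := fun h' => hq (h' ▸ hp)
        simp only [if_neg hpq]
      rw [h5]
      set Λ : ℝ := ∏ p ∈ P, (((p : ℝ) ^ η)⁻¹) ^ ((i p - j p) + (j p - i p)) with hΛ
      set l : ℝ := (((q : ℝ) ^ η)⁻¹) ^ ((i0 - j0) + (j0 - i0)) with hl
      have hΛ0 : 0 ≤ Λ := Finset.prod_nonneg (fun p _ => by positivity)
      have hl0 : 0 ≤ l := by positivity
      have hQ0 : 0 ≤ ∏ p ∈ P, F p := Finset.prod_nonneg (fun p _ => hF p)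
      have hB : 0 < (ms μ V' * ms ν W') ^ θ :=
        Real.rpow_pos_of_pos (hem.trans_le (em_le_mul hμ hν hEVW)) θ
      have hB'' : 0 ≤ (ms μ V'' * ms ν W'') ^ θ :=
        Real.rpow_nonneg (mul_nonneg (ms_nonneg hμ _) (ms_nonneg hν _)) θ
      have hB0 : 0 ≤ (ms μ V * ms ν W) ^ θ :=
        Real.rpow_nonneg (mul_nonneg (ms_nonneg hμ _) (ms_nonneg hν _)) θ
      have hm := mul_le_mul hineq hineq'' (by positivity) (by positivity)
      have hAB : 0 < em μ ν E' * (ms μ V' * ms ν W') ^ θ := mul_pos hem hB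
      refine le_of_mul_le_mul_right ?_ hAB
      calc em μ ν E * (ms μ V'' * ms ν W'') ^ θ * (l * Λ) *
            (em μ ν E' * (ms μ V' * ms ν W') ^ θ)
          = em μ ν E * (ms μ V' * ms ν W') ^ θ * Λ *
            (em μ ν E' * (ms μ V'' * ms ν W'') ^ θ * l) := by ring
        _ ≤ (∏ p ∈ P, F p) * (em μ ν E' * (ms μ V * ms ν W) ^ θ) *
            (F q * (em μ ν E'' * (ms μ V' * ms ν W') ^ θ)) := hm
        _ = F q * (∏ p ∈ P, F p) * (em μ ν E'' * (ms μ V * ms ν W) ^ θ) *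
            (em μ ν E' * (ms μ V' * ms ν W') ^ θ) := by ring

theorem a5_prod_pos (P : Finset ℕ) (hP : ∀ p ∈ P, p.Prime) (f : ℕ → ℕ) :
    0 < ∏ p ∈ P, p ^ f p :=
  Finset.prod_pos (fun p hp => pow_pos (hP p hp).pos _)

theorem a5_fac (P : Finset ℕ) (hP : ∀ p ∈ P, p.Prime) (f : ℕ → ℕ) (q : ℕ) :
    (∏ p ∈ P, p ^ f p).factorization q = if q ∈ P then f q else 0 := by
  rw [Nat.factorization_prod (fun p hp => (pow_pos (hP p hp).pos _).ne'), Finsupp.finsetSum_apply]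
  have h1 : ∀ p ∈ P, (p ^ f p).factorization q = if p = q then f q else 0 := by
    intro p hp
    rw [(hP p hp).factorization_pow, Finsupp.single_apply]
    by_cases h : p = q
    · rw [if_pos h, if_pos h, h]
    · rw [if_neg h, if_neg h]
  rw [Finset.sum_congr rfl h1, Finset.sum_ite_eq']

theorem a5_rd (P : Finset ℕ) (hP : ∀ p ∈ P, p.Prime) (i j : ℕ → ℕ) :
    rd (∏ p ∈ P, p ^ i p) (∏ p ∈ P, p ^ j p) * rd (∏ p ∈ P, p ^ j p) (∏ p ∈ P, p ^ i p) =
      ∏ p ∈ P, p ^ ((i p - j p) + (j p - i p)) := by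
  have hi := a5_prod_pos P hP i
  have hj := a5_prod_pos P hP j
  have e1 := rd_pos (b := ∏ p ∈ P, p ^ j p) hi
  have e2 := rd_pos (b := ∏ p ∈ P, p ^ i p) hj
  apply Nat.eq_of_factorization_eq (Nat.mul_pos e1 e2).ne'
    (a5_prod_pos P hP fun p => (i p - j p) + (j p - i p)).ne'
  intro q
  rw [Nat.factorization_mul e1.ne' e2.ne', a5_fac P hP]
  unfold rd
  rw [Nat.factorization_div (Nat.gcd_dvd_left _ _), Nat.factorization_div (Nat.gcd_dvd_left _ _),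
    Nat.factorization_gcd hi.ne' hj.ne', Nat.factorization_gcd hj.ne' hi.ne']
  simp only [Finsupp.coe_add, Finsupp.coe_tsub, Pi.add_apply, Pi.sub_apply, Finsupp.inf_apply,
    a5_fac P hP]
  by_cases h : q ∈ P
  · simp only [if_pos h]
    omega
  · simp only [if_neg h]
    omega

/-- [IDS-A5] **Selection lemma.**

PROOF.  Take `F` from `step`.  Claim, by induction on a finite set `P` of primes: there are
`V' ⊆ V, W' ⊆ W, E' ⊆ E ∩ V' × W'` and `i j : ℕ → ℕ` with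
`∀ e ∈ E', ∀ p ∈ P, GoodAt (i p) (j p) (v_p e.1) (v_p e.2)`, `0 < em E'` and
`em E * (ms V' * ms W')^θ * ∏_{p∈P} lam_p^{|i_p - j_p|} ≤ (∏_{p∈P} F p) (em E' * (ms V * ms W)^θ)`,
`lam_p = (p^η)⁻¹`.  Step: apply `step` at the new prime to `(V', W', E')` and multiply the two
inequalities (all quantities are `≥ 0`, and `em E' > 0`, `(ms V' ms W')^θ > 0` can be cancelled).
Apply the claim to the set `P` of all primes dividing some component of an edge of `E`, or some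
element of `V ∪ W` (all elements are positive).  Put `a = ∏_{p∈P} p^{i_p}`, `b = ∏_{p∈P} p^{j_p}`
(`Nat.factorization_prod_pow`-type: `a.factorization p = i_p` for `p ∈ P`, `0` otherwise).  For a
prime `p ∉ P` all four exponents are `0`, so `GoodAt 0 0 0 0`.  Finally
`∏_{p∈P} p^{|i_p-j_p|} = rd a b * rd b a` (compare factorizations:
`(rd a b).factorization p = i_p - j_p`), hence
`∏ lam_p^{|i_p-j_p|} = ((rd a b * rd b a : ℝ)^η)⁻¹`. -/
theorem select (θ η : ℝ) (h1 : 1 / 2 < θ) (h2 : θ < 1) (hη : 0 < η)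
    (h3 : 1 - θ < 2 * θ * η) (h4 : 1 - θ < (2 - θ) * η) :
    ∃ C : ℝ, 0 < C ∧ ∀ (μ ν : ℕ → ℝ), (∀ v, 0 ≤ μ v) → (∀ v, 0 ≤ ν v) →
      ∀ (V W : Finset ℕ) (E : Finset (ℕ × ℕ)), (∀ v ∈ V, 0 < v) → (∀ w ∈ W, 0 < w) →
      E ⊆ V ×ˢ W → 0 < em μ ν E →
      ∃ (V' W' : Finset ℕ) (E' : Finset (ℕ × ℕ)) (a b : ℕ), 0 < a ∧ 0 < b ∧
        V' ⊆ V ∧ W' ⊆ W ∧ E' ⊆ E ∧ E' ⊆ V' ×ˢ W' ∧ (∀ e ∈ E', Good a b e.1 e.2) ∧
        0 < em μ ν E' ∧
        em μ ν E * (ms μ V' * ms ν W') ^ θ ≤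
          C * (em μ ν E' * (ms μ V * ms ν W) ^ θ * ((rd a b : ℝ) * rd b a) ^ η) := by
  obtain ⟨F, hF1, ⟨C, hC⟩, hstep⟩ := step θ η h1 h2 hη h3 h4
  have hC0 : 0 < C := by
    have h := hC ∅
    rw [Finset.prod_empty] at h
    linarith
  refine ⟨C, hC0, ?_⟩
  intro μ ν hμ hν V W E hV hW hE h0
  set P : Finset ℕ := (V ∪ W).biUnion (fun v => v.primeFactors) with hP
  have hPp : ∀ p ∈ P, p.Prime := by
    intro p hp
    rw [hP, Finset.mem_biUnion] at hp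
    obtain ⟨v, _, hv⟩ := hp
    exact Nat.prime_of_mem_primeFactors hv
  obtain ⟨V', W', E', i, j, hV', hW', hE', hEVW, hgood, hem, hineq⟩ :=
    a5_claim θ η F (fun p => zero_le_one.trans (hF1 p)) hstep μ ν hμ hν V W E hE h0 P hPp
  have hfac : ∀ v, (v ∈ V ∨ v ∈ W) → ∀ p, p.Prime → p ∉ P → v.factorization p = 0 := by
    intro v hv p hp hpP
    apply Nat.factorization_eq_zero_of_not_dvd
    intro hdvd
    apply hpP
    rw [hP, Finset.mem_biUnion]
    have hv0 : v ≠ 0 := by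
      rcases hv with h | h
      · exact (hV v h).ne'
      · exact (hW v h).ne'
    exact ⟨v, Finset.mem_union.2 hv, Nat.mem_primeFactors.2 ⟨hp, hdvd, hv0⟩⟩
  refine ⟨V', W', E', ∏ p ∈ P, p ^ i p, ∏ p ∈ P, p ^ j p, a5_prod_pos P hPp i,
    a5_prod_pos P hPp j, hV', hW', hE', hEVW, ?_, hem, ?_⟩
  · intro e he p hp
    rw [a5_fac P hPp, a5_fac P hPp]
    by_cases hpP : p ∈ P
    · rw [if_pos hpP, if_pos hpP]
      exact hgood e he p hpP
    · rw [if_neg hpP, if_neg hpP]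
      have h5 := Finset.mem_product.1 (hE (hE' he))
      rw [hfac e.1 (Or.inl h5.1) p hp hpP, hfac e.2 (Or.inr h5.2) p hp hpP]
      exact Or.inl ⟨rfl, rfl⟩
  · have h5 : (∏ p ∈ P, (((p : ℝ) ^ η)⁻¹) ^ ((i p - j p) + (j p - i p))) =
        ((((rd (∏ p ∈ P, p ^ i p) (∏ p ∈ P, p ^ j p) : ℕ) : ℝ) *
          (rd (∏ p ∈ P, p ^ j p) (∏ p ∈ P, p ^ i p) : ℕ)) ^ η)⁻¹ := by
      rw [← Nat.cast_mul, a5_rd P hPp i j]
      push_cast
      rw [← Real.finsetProd_rpow _ _ (fun p _ => by positivity), ← Finset.prod_inv_distrib]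
      refine Finset.prod_congr rfl (fun p _ => ?_)
      rw [inv_pow, ← Real.rpow_natCast, ← Real.rpow_mul (Nat.cast_nonneg p), mul_comm,
        Real.rpow_mul (Nat.cast_nonneg p), Real.rpow_natCast]
    rw [h5] at hineq
    set R : ℝ := (((rd (∏ p ∈ P, p ^ i p) (∏ p ∈ P, p ^ j p) : ℕ) : ℝ) *
          (rd (∏ p ∈ P, p ^ j p) (∏ p ∈ P, p ^ i p) : ℕ)) ^ η with hR
    have hRpos : 0 < R := by
      rw [hR]
      have e1 := rd_pos (b := ∏ p ∈ P, p ^ j p) (a5_prod_pos P hPp i)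
      have e2 := rd_pos (b := ∏ p ∈ P, p ^ i p) (a5_prod_pos P hPp j)
      positivity
    have h6 : em μ ν E * (ms μ V' * ms ν W') ^ θ ≤
        (∏ p ∈ P, F p) * (em μ ν E' * (ms μ V * ms ν W) ^ θ) * R := by
      have h7 := mul_le_mul_of_nonneg_right hineq hRpos.le
      rwa [mul_assoc, inv_mul_cancel₀ hRpos.ne', mul_one] at h7
    refine h6.trans ?_
    have h8 : 0 ≤ em μ ν E' * (ms μ V * ms ν W) ^ θ * R := by
      have e1 := ms_nonneg hμ V
      have e2 := ms_nonneg hν W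
      positivity
    have h9 := mul_le_mul_of_nonneg_right (hC P) h8
    calc (∏ p ∈ P, F p) * (em μ ν E' * (ms μ V * ms ν W) ^ θ) * R =
        (∏ p ∈ P, F p) * (em μ ν E' * (ms μ V * ms ν W) ^ θ * R) := by ring
      _ ≤ _ := h9

end Pool.Agent.IDS
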