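import Pool.Agent.IDS.Base

set_option autoImplicit false

namespace Pool.Agent.IDS

open Finset

/-- Schur's test -/
theorem c1_schur {ι : Type*} (P : Finset ι) (w : ι → ι → ℝ) (x y : ι → ℝ)
    (hw : ∀ a b, 0 ≤ w a b) (C : ℝ) (hr : ∀ a ∈ P, ∑ b ∈ P, w a b ≤ C)
    (hc : ∀ b ∈ P, ∑ a ∈ P, w a b ≤ C) :
    (∑ a ∈ P, ∑ b ∈ P, w a b * (x a * y b)) ^ 2 ≤
      (C * ∑ a ∈ P, x a ^ 2) * (C * ∑ b ∈ P, y b ^ 2) := by
  have h1 := Finset.sum_mul_sq_le_sq_mul_sq (P ×ˢ P)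
    (fun p : ι × ι => Real.sqrt (w p.1 p.2) * x p.1)
    (fun p : ι × ι => Real.sqrt (w p.1 p.2) * y p.2)
  have e1 : ∑ p ∈ P ×ˢ P, (Real.sqrt (w p.1 p.2) * x p.1) * (Real.sqrt (w p.1 p.2) * y p.2) =
      ∑ a ∈ P, ∑ b ∈ P, w a b * (x a * y b) := by
    rw [Finset.sum_product]
    refine Finset.sum_congr rfl fun a _ => Finset.sum_congr rfl fun b _ => ?_
    have h2 := Real.mul_self_sqrt (hw a b)
    calc _ = (Real.sqrt (w a b) * Real.sqrt (w a b)) * (x a * y b) := by ring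
      _ = _ := by rw [h2]
  have e2 : ∑ p ∈ P ×ˢ P, (Real.sqrt (w p.1 p.2) * x p.1) ^ 2 ≤ C * ∑ a ∈ P, x a ^ 2 := by
    rw [Finset.sum_product, Finset.mul_sum]
    refine Finset.sum_le_sum fun a ha => ?_
    have h2 : ∀ b, (Real.sqrt (w a b) * x a) ^ 2 = w a b * x a ^ 2 := fun b => by
      rw [mul_pow, Real.sq_sqrt (hw a b)]
    simp only [h2]
    rw [← Finset.sum_mul]
    exact mul_le_mul_of_nonneg_right (hr a ha) (sq_nonneg _)
  have e3 : ∑ p ∈ P ×ˢ P, (Real.sqrt (w p.1 p.2) * y p.2) ^ 2 ≤ C * ∑ b ∈ P, y b ^ 2 := by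
    rw [Finset.sum_product_right, Finset.mul_sum]
    refine Finset.sum_le_sum fun b hb => ?_
    have h2 : ∀ a, (Real.sqrt (w a b) * y b) ^ 2 = w a b * y b ^ 2 := fun a => by
      rw [mul_pow, Real.sq_sqrt (hw a b)]
    simp only [h2]
    rw [← Finset.sum_mul]
    exact mul_le_mul_of_nonneg_right (hc b hb) (sq_nonneg _)
  rw [e1] at h1
  refine h1.trans (mul_le_mul e2 e3 (Finset.sum_nonneg fun _ _ => sq_nonneg _) ?_)
  exact (Finset.sum_nonneg fun _ _ => sq_nonneg _).trans e2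

/-- `∑ x_i^{2θ} ≤ (∑ x_i)^{2θ}` -/
theorem c1_pow {ι : Type*} (P : Finset ι) (x : ι → ℝ) (hx : ∀ i, 0 ≤ x i) (θ : ℝ)
    (h1 : 1 / 2 < θ) :
    ∑ i ∈ P, (x i ^ θ) ^ 2 ≤ ((∑ i ∈ P, x i) ^ θ) ^ 2 := by
  have hθ : 0 ≤ θ := by linarith
  have hX : 0 ≤ ∑ i ∈ P, x i := Finset.sum_nonneg fun i _ => hx i
  have key : ∀ z : ℝ, 0 ≤ z → (z ^ θ) ^ 2 = z * z ^ (2 * θ - 1) := by
    intro z hz
    rw [← Real.rpow_natCast, ← Real.rpow_mul hz]
    have : θ * ((2 : ℕ) : ℝ) = 1 + (2 * θ - 1) := by push_cast; ring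
    rw [this, Real.rpow_add_of_nonneg hz (by norm_num) (by linarith), Real.rpow_one]
  rw [key _ hX, Finset.sum_mul]
  refine Finset.sum_le_sum fun i hi => ?_
  rw [key _ (hx i)]
  refine mul_le_mul_of_nonneg_left ?_ (hx i)
  exact Real.rpow_le_rpow (hx i) (Finset.single_le_sum (f := x) (fun j _ => hx j) hi)
    (by linarith)

/-- geometric sum below a bound: `∑_{2^n ≤ X} g^n ≤ X^{log₂ g} / (1 - 1/g)` -/
theorem c1_geo (s : ℝ) (hs : 0 < s) (X : ℝ) (hX : 0 < X) (K : ℕ) :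
    ∑ n ∈ range K, (if (2 : ℝ) ^ n ≤ X then ((2 : ℝ) ^ s) ^ n else 0) ≤
      X ^ s / (1 - ((2 : ℝ) ^ s)⁻¹) := by
  set g : ℝ := (2 : ℝ) ^ s with hg
  have hg1 : 1 < g := Real.one_lt_rpow (by norm_num) hs
  have hg0 : 0 < g := by linarith
  have hgi : g⁻¹ < 1 := inv_lt_one_of_one_lt₀ hg1
  have hden : 0 < 1 - g⁻¹ := by linarith
  induction K with
  | zero =>
    simp only [range_zero, sum_empty]
    positivity
  | succ K ih =>
    by_cases hK : (2 : ℝ) ^ K ≤ X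
    · have h1 : ∑ n ∈ range (K + 1), (if (2 : ℝ) ^ n ≤ X then g ^ n else 0) ≤
          ∑ n ∈ range (K + 1), g ^ n := by
        refine Finset.sum_le_sum fun n _ => ?_
        split_ifs
        · exact le_rfl
        · positivity
      refine h1.trans ?_
      have h2 : g ^ K ≤ X ^ s := by
        have : g ^ K = ((2 : ℝ) ^ K) ^ s := by
          rw [hg, Real.rpow_pow_comm (by norm_num)]
        rw [this]
        exact Real.rpow_le_rpow (by positivity) hK hs.le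
      rw [geom_sum_eq hg1.ne', div_le_div_iff₀ (by linarith) hden]
      have h3 : (g ^ (K + 1) - 1) * (1 - g⁻¹) ≤ g ^ K * (g - 1) := by
        have h4 : g * g⁻¹ = 1 := mul_inv_cancel₀ hg0.ne'
        have h5 : (g ^ (K + 1) - 1) * (1 - g⁻¹) =
            g ^ K * (g - 1) - (1 - g⁻¹) + g ^ K * (1 - g * g⁻¹) := by ring
        rw [h5, h4]
        nlinarith
      exact h3.trans (mul_le_mul_of_nonneg_right h2 (by linarith))
    · rw [Finset.sum_range_succ, if_neg hK, add_zero]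
      exact ih

/-- geometric tail -/
theorem c1_tail (d : ℝ) (hd0 : 0 < d) (hd1 : d < 1) (k K : ℕ) :
    ∑ n ∈ range K, (if k ≤ n then d ^ n else 0) ≤ d ^ k / (1 - d) := by
  have hden : 0 < 1 - d := by linarith
  rw [le_div_iff₀ hden]
  have h : ∀ K, (∑ n ∈ range K, (if k ≤ n then d ^ n else 0)) * (1 - d) ≤
      d ^ k - d ^ (max k K) := by
    intro K
    induction K with
    | zero => simp
    | succ K ih =>
      rw [Finset.sum_range_succ, add_mul]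
      by_cases hk : k ≤ K
      · rw [if_pos hk]
        have e1 : max k K = K := max_eq_right hk
        have e2 : max k (K + 1) = K + 1 := max_eq_right (by omega)
        rw [e1] at ih
        rw [e2]
        have : d ^ K * (1 - d) = d ^ K - d ^ (K + 1) := by ring
        linarith
      · rw [if_neg hk, zero_mul, add_zero]
        have e1 : max k K = k := max_eq_left (by omega)
        have e2 : max k (K + 1) = k := max_eq_left (by omega)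
        rw [e1] at ih
        rw [e2]
        exact ih
  refine (h K).trans ?_
  have := pow_pos hd0 (max k K)
  linarith

/-- geometric sum before a bound -/
theorem c1_head (d : ℝ) (hd0 : 0 < d) (hd1 : d < 1) (k K : ℕ) :
    ∑ n ∈ range K, (if n ≤ k then d ^ (k - n) else 0) ≤ 1 / (1 - d) := by
  have hden : 0 < 1 - d := by linarith
  have h1 : ∑ n ∈ range K, (if n ≤ k then d ^ (k - n) else 0) =
      ∑ n ∈ (range K).filter (fun n => n ≤ k), d ^ (k - n) := by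
    rw [Finset.sum_filter]
  rw [h1]
  have h2 : ∑ n ∈ (range K).filter (fun n => n ≤ k), d ^ (k - n) ≤ ∑ m ∈ range (k + 1), d ^ m := by
    rw [← Finset.sum_image (f := fun m => d ^ m) (g := fun n => k - n)
      (s := (range K).filter (fun n => n ≤ k))]
    · refine Finset.sum_le_sum_of_subset_of_nonneg ?_ (fun m _ _ => by positivity)
      intro m hm
      simp only [Finset.mem_image, Finset.mem_filter, Finset.mem_range] at hm ⊢
      obtain ⟨n, ⟨_, hn⟩, rfl⟩ := hm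
      omega
    · intro a ha b hb hab
      simp only [Finset.coe_filter, Finset.mem_range, Set.mem_ofPred_eq] at ha hb
      have : k - a = k - b := hab
      omega
  refine h2.trans ?_
  rw [geom_sum_eq hd1.ne, le_div_iff₀ hden]
  have hne : d - 1 ≠ 0 := by linarith
  have : (d ^ (k + 1) - 1) / (d - 1) * (1 - d) = 1 - d ^ (k + 1) := by
    field_simp
    ring
  rw [this]
  have := pow_pos hd0 (k + 1)
  linarith

/-- the weight -/
noncomputable def c1_w (η T : ℝ) (a b : ℕ × ℕ) : ℝ :=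
  if a.2 ≤ b.2 ∧ (2 : ℝ) ^ (a.1 + b.1) ≤ T * 2 ^ a.2 then
    ((2 : ℝ) ^ η) ^ (2 * a.1 + 2 * b.1) * (((2 : ℝ) ^ η)⁻¹) ^ (a.2 + b.2) else 0

theorem c1_w_nonneg (η T : ℝ) (a b : ℕ × ℕ) : 0 ≤ c1_w η T a b := by
  unfold c1_w
  split_ifs
  · positivity
  · exact le_rfl

/-- `(T 2^k / 2^A)^{2η}` -/
theorem c1_scale (η T : ℝ) (hT : 0 < T) (k A : ℕ) :
    (T * 2 ^ k / 2 ^ A) ^ (2 * η) =
      T ^ (2 * η) * (((2 : ℝ) ^ η) ^ (2 * k) * (((2 : ℝ) ^ η)⁻¹) ^ (2 * A)) := by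
  have h2 : (0 : ℝ) ≤ 2 := by norm_num
  have key : ∀ n : ℕ, ((2 : ℝ) ^ n) ^ (2 * η) = ((2 : ℝ) ^ η) ^ (2 * n) := by
    intro n
    rw [← Real.rpow_natCast, ← Real.rpow_mul h2, ← Real.rpow_natCast, ← Real.rpow_mul h2]
    congr 1
    push_cast
    ring
  rw [Real.div_rpow (by positivity) (by positivity), Real.mul_rpow hT.le (by positivity), key, key,
    inv_pow, mul_div_assoc, div_eq_mul_inv]

theorem c1_row (η T : ℝ) (hη : 0 < η) (hT : 0 < T) (K : ℕ) (a : ℕ × ℕ) :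
    ∑ b ∈ range K ×ˢ range K, c1_w η T a b ≤
      (1 / (1 - ((2 : ℝ) ^ (2 * η))⁻¹)) * (1 / (1 - ((2 : ℝ) ^ η)⁻¹)) * T ^ (2 * η) := by
  set β : ℝ := (2 : ℝ) ^ η with hβ
  have hβ1 : 1 < β := Real.one_lt_rpow (by norm_num) hη
  have hβ0 : 0 < β := by linarith
  have hβi : β⁻¹ < 1 := inv_lt_one_of_one_lt₀ hβ1
  have hγ : (2 : ℝ) ^ (2 * η) = β ^ 2 := by
    rw [hβ, ← Real.rpow_natCast, ← Real.rpow_mul (by norm_num)]
    congr 1
    push_cast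
    ring
  have hden1 : 0 < 1 - β⁻¹ := by linarith
  have hden2 : 0 < 1 - (β ^ 2)⁻¹ := by
    have : (β ^ 2)⁻¹ < 1 := inv_lt_one_of_one_lt₀ (one_lt_pow₀ hβ1 two_ne_zero)
    linarith
  rw [Finset.sum_product]
  have hX : 0 < T * 2 ^ a.2 / 2 ^ a.1 := by positivity
  -- factor the sum
  have h1 : ∀ A' ∈ range K, ∑ k' ∈ range K, c1_w η T a (A', k') =
      (β ^ (2 * a.1) * (β⁻¹) ^ a.2) *
        ((if (2 : ℝ) ^ A' ≤ T * 2 ^ a.2 / 2 ^ a.1 then ((2 : ℝ) ^ (2 * η)) ^ A' else 0) *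
          ∑ k' ∈ range K, (if a.2 ≤ k' then (β⁻¹) ^ k' else 0)) := by
    intro A' _
    have hiff : (2 : ℝ) ^ A' ≤ T * 2 ^ a.2 / 2 ^ a.1 ↔
        (2 : ℝ) ^ (a.1 + A') ≤ T * 2 ^ a.2 := by
      rw [le_div_iff₀ (by positivity), pow_add, mul_comm]
    rw [Finset.mul_sum, Finset.mul_sum]
    refine Finset.sum_congr rfl fun k' _ => ?_
    unfold c1_w
    simp only [hiff]
    by_cases hA : (2 : ℝ) ^ (a.1 + A') ≤ T * 2 ^ a.2
    · by_cases hk : a.2 ≤ k'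
      · rw [if_pos ⟨hk, hA⟩, if_pos hA, if_pos hk, hγ, ← hβ]
        ring
      · rw [if_neg (fun h => hk h.1), if_neg hk]
        ring
    · rw [if_neg (fun h => hA h.2), if_neg hA]
      ring
  rw [Finset.sum_congr rfl h1, ← Finset.mul_sum, ← Finset.sum_mul]
  have h2 := c1_geo (2 * η) (by linarith) (T * 2 ^ a.2 / 2 ^ a.1) hX K
  have h3 := c1_tail β⁻¹ (inv_pos.2 hβ0) hβi a.2 K
  have h4 : 0 ≤ ∑ k' ∈ range K, (if a.2 ≤ k' then (β⁻¹) ^ k' else 0) :=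
    Finset.sum_nonneg fun n _ => by
      split_ifs
      · positivity
      · exact le_rfl
  have h5 : 0 ≤ (T * 2 ^ a.2 / 2 ^ a.1) ^ (2 * η) / (1 - ((2 : ℝ) ^ (2 * η))⁻¹) := by
    rw [hγ]
    exact div_nonneg (Real.rpow_nonneg hX.le _) hden2.le
  refine (mul_le_mul_of_nonneg_left (mul_le_mul h2 h3 h4 h5) (by positivity)).trans (le_of_eq ?_)
  rw [c1_scale η T hT, ← hβ]
  have h6 : β * β⁻¹ = 1 := mul_inv_cancel₀ hβ0.ne'
  have h7 : β ^ (2 * a.1) * (β⁻¹) ^ (2 * a.1) = 1 := by rw [← mul_pow, h6, one_pow]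
  have h8 : β ^ (2 * a.2) * ((β⁻¹) ^ a.2 * (β⁻¹) ^ a.2) = 1 := by
    rw [← pow_add, ← two_mul, ← mul_pow, h6, one_pow]
  calc β ^ (2 * a.1) * (β⁻¹) ^ a.2 *
      (T ^ (2 * η) * (β ^ (2 * a.2) * (β⁻¹) ^ (2 * a.1)) / (1 - ((2 : ℝ) ^ (2 * η))⁻¹) *
        ((β⁻¹) ^ a.2 / (1 - β⁻¹))) =
      (1 / (1 - ((2 : ℝ) ^ (2 * η))⁻¹)) * (1 / (1 - β⁻¹)) * T ^ (2 * η) *
        (β ^ (2 * a.1) * (β⁻¹) ^ (2 * a.1)) *
        (β ^ (2 * a.2) * ((β⁻¹) ^ a.2 * (β⁻¹) ^ a.2)) := by ring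
    _ = _ := by rw [h7, h8, mul_one, mul_one]

theorem c1_col (η T : ℝ) (hη : 0 < η) (hT : 0 < T) (K : ℕ) (b : ℕ × ℕ) :
    ∑ a ∈ range K ×ˢ range K, c1_w η T a b ≤
      (1 / (1 - ((2 : ℝ) ^ (2 * η))⁻¹)) * (1 / (1 - ((2 : ℝ) ^ η)⁻¹)) * T ^ (2 * η) := by
  set β : ℝ := (2 : ℝ) ^ η with hβ
  have hβ1 : 1 < β := Real.one_lt_rpow (by norm_num) hη
  have hβ0 : 0 < β := by linarith
  have hβi : β⁻¹ < 1 := inv_lt_one_of_one_lt₀ hβ1
  have hγ : (2 : ℝ) ^ (2 * η) = β ^ 2 := by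
    rw [hβ, ← Real.rpow_natCast, ← Real.rpow_mul (by norm_num)]
    congr 1
    push_cast
    ring
  have hden1 : 0 < 1 - β⁻¹ := by linarith
  have hden2 : 0 < 1 - (β ^ 2)⁻¹ := by
    have : (β ^ 2)⁻¹ < 1 := inv_lt_one_of_one_lt₀ (one_lt_pow₀ hβ1 two_ne_zero)
    linarith
  have h6 : β * β⁻¹ = 1 := mul_inv_cancel₀ hβ0.ne'
  rw [Finset.sum_product_right]
  have h1 : ∀ k ∈ range K, ∑ A ∈ range K, c1_w η T (A, k) b ≤
      (1 / (1 - ((2 : ℝ) ^ (2 * η))⁻¹)) * T ^ (2 * η) *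
        (if k ≤ b.2 then (β⁻¹) ^ (b.2 - k) else 0) := by
    intro k _
    have hX : 0 < T * 2 ^ k / 2 ^ b.1 := by positivity
    by_cases hk : k ≤ b.2
    · rw [if_pos hk]
      have e1 : ∑ A ∈ range K, c1_w η T (A, k) b =
          (β ^ (2 * b.1) * (β⁻¹) ^ (k + b.2)) * ∑ A ∈ range K,
            (if (2 : ℝ) ^ A ≤ T * 2 ^ k / 2 ^ b.1 then ((2 : ℝ) ^ (2 * η)) ^ A else 0) := by
        rw [Finset.mul_sum]
        refine Finset.sum_congr rfl fun A _ => ?_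
        have hiff : (2 : ℝ) ^ A ≤ T * 2 ^ k / 2 ^ b.1 ↔ (2 : ℝ) ^ (A + b.1) ≤ T * 2 ^ k := by
          rw [le_div_iff₀ (by positivity), pow_add]
        unfold c1_w
        simp only [hiff]
        by_cases hA : (2 : ℝ) ^ (A + b.1) ≤ T * 2 ^ k
        · rw [if_pos ⟨hk, hA⟩, if_pos hA, hγ, ← hβ]
          ring
        · rw [if_neg (fun h => hA h.2), if_neg hA]
          ring
      rw [e1]
      have h2 := c1_geo (2 * η) (by linarith) (T * 2 ^ k / 2 ^ b.1) hX K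
      refine (mul_le_mul_of_nonneg_left h2 (by positivity)).trans (le_of_eq ?_)
      rw [c1_scale η T hT, ← hβ]
      have h7 : β ^ (2 * b.1) * (β⁻¹) ^ (2 * b.1) = 1 := by rw [← mul_pow, h6, one_pow]
      have h8 : β ^ (2 * k) * (β⁻¹) ^ (k + b.2) = (β⁻¹) ^ (b.2 - k) := by
        have : k + b.2 = 2 * k + (b.2 - k) := by omega
        rw [this, pow_add, ← mul_assoc, ← mul_pow, h6, one_pow, one_mul]
      calc β ^ (2 * b.1) * (β⁻¹) ^ (k + b.2) *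
          (T ^ (2 * η) * (β ^ (2 * k) * (β⁻¹) ^ (2 * b.1)) / (1 - ((2 : ℝ) ^ (2 * η))⁻¹)) =
          (1 / (1 - ((2 : ℝ) ^ (2 * η))⁻¹)) * T ^ (2 * η) *
            (β ^ (2 * k) * (β⁻¹) ^ (k + b.2)) * (β ^ (2 * b.1) * (β⁻¹) ^ (2 * b.1)) := by ring
        _ = _ := by rw [h7, h8, mul_one]
    · rw [if_neg hk, mul_zero]
      refine le_of_eq (Finset.sum_eq_zero fun A _ => ?_)
      unfold c1_w
      rw [if_neg (fun h => hk h.1)]
  refine (Finset.sum_le_sum h1).trans ?_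
  rw [← Finset.mul_sum]
  have h3 := c1_head β⁻¹ (inv_pos.2 hβ0) hβi b.2 K
  have h4 : 0 ≤ (1 / (1 - ((2 : ℝ) ^ (2 * η))⁻¹)) * T ^ (2 * η) := by
    rw [hγ]
    positivity
  refine (mul_le_mul_of_nonneg_left h3 h4).trans (le_of_eq ?_)
  ring

/-- both bounds together -/
theorem c1_both (θ : ℝ) (h1 : 1 / 2 < θ) (h2 : θ < 1) (x p q : ℝ) (hx : 0 ≤ x) (hp : x ≤ p)
    (hq : x ≤ q) : x ≤ p ^ θ * q ^ (1 - θ) := by
  have e : x = x ^ θ * x ^ (1 - θ) := by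
    rw [← Real.rpow_add_of_nonneg hx (by linarith) (by linarith)]
    simp
  calc x = x ^ θ * x ^ (1 - θ) := e
    _ ≤ p ^ θ * q ^ (1 - θ) := by
      refine mul_le_mul (Real.rpow_le_rpow hx hp (by linarith))
        (Real.rpow_le_rpow hx hq (by linarith)) (Real.rpow_nonneg hx _)
        (Real.rpow_nonneg (hx.trans hp) _)

/-- [IDS-C1] **Summation over cells.**

PROOF.  `e ≤ (M N)^θ (S 2^{2A+2A'} (1/2)^{k+k'})^{1-θ}` (both bounds, `e = e^θ e^{1-θ}`), Schur's test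
for the weight `w = (2^{2A+2A'-k-k'})^{1-θ}` on the support, and `∑ M^{2θ} ≤ (∑ M)^{2θ}`. -/
theorem fs (θ : ℝ) (h1 : 1 / 2 < θ) (h2 : θ < 1) :
    ∃ C : ℝ, 0 < C ∧ ∀ (M N : ℕ → ℕ → ℝ) (e : ℕ → ℕ → ℕ → ℕ → ℝ) (K : ℕ) (S T : ℝ),
      0 ≤ S → 0 < T → (∀ A k, 0 ≤ M A k) → (∀ A k, 0 ≤ N A k) → (∀ A k A' k', 0 ≤ e A k A' k') →
      (∀ A k A' k', e A k A' k' ≤ M A k * N A' k') →
      (∀ A k A' k', e A k A' k' ≤ S * 2 ^ (2 * A + 2 * A') * (1 / 2 : ℝ) ^ (k + k')) →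
      (∀ A k A' k', ¬ (k ≤ k' ∧ (2 : ℝ) ^ (A + A') ≤ T * 2 ^ k) → e A k A' k' = 0) →
      ∑ A ∈ range K, ∑ k ∈ range K, ∑ A' ∈ range K, ∑ k' ∈ range K, e A k A' k' ≤
        C * (∑ A ∈ range K, ∑ k ∈ range K, M A k) ^ θ *
          (∑ A ∈ range K, ∑ k ∈ range K, N A k) ^ θ * S ^ (1 - θ) * T ^ (2 * (1 - θ)) := by
  obtain ⟨η, hη⟩ : ∃ η, η = 1 - θ := ⟨_, rfl⟩
  have hη0 : 0 < η := by rw [hη]; linarith
  have hβ1 : 1 < (2 : ℝ) ^ η := Real.one_lt_rpow (by norm_num) hη0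
  have hγ1 : 1 < (2 : ℝ) ^ (2 * η) := Real.one_lt_rpow (by norm_num) (by linarith)
  have hd1 : 0 < 1 - ((2 : ℝ) ^ η)⁻¹ := by
    have := inv_lt_one_of_one_lt₀ hβ1
    linarith
  have hd2 : 0 < 1 - ((2 : ℝ) ^ (2 * η))⁻¹ := by
    have := inv_lt_one_of_one_lt₀ hγ1
    linarith
  refine ⟨(1 / (1 - ((2 : ℝ) ^ (2 * η))⁻¹)) * (1 / (1 - ((2 : ℝ) ^ η)⁻¹)), by positivity, ?_⟩
  intro M N e K S T hS hT hM hN he heM heS hsupp
  rw [← hη]
  set C₀ : ℝ := (1 / (1 - ((2 : ℝ) ^ (2 * η))⁻¹)) * (1 / (1 - ((2 : ℝ) ^ η)⁻¹)) with hC₀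
  have hC₀pos : 0 < C₀ := by positivity
  set P := range K ×ˢ range K with hP
  have hsum : ∀ f : ℕ → ℕ → ℝ, ∑ A ∈ range K, ∑ k ∈ range K, f A k = ∑ a ∈ P, f a.1 a.2 := by
    intro f
    rw [hP, Finset.sum_product]
  have hpt : ∀ a b : ℕ × ℕ, e a.1 a.2 b.1 b.2 ≤
      S ^ η * (c1_w η T a b * ((M a.1 a.2) ^ θ * (N b.1 b.2) ^ θ)) := by
    intro a b
    unfold c1_w
    by_cases hc : a.2 ≤ b.2 ∧ (2 : ℝ) ^ (a.1 + b.1) ≤ T * 2 ^ a.2
    · rw [if_pos hc]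
      have h3 := c1_both θ h1 h2 _ _ _ (he a.1 a.2 b.1 b.2) (heM _ _ _ _) (heS _ _ _ _)
      refine h3.trans (le_of_eq ?_)
      have h2' : (0 : ℝ) ≤ 2 := by norm_num
      have key : ∀ n : ℕ, ((2 : ℝ) ^ n) ^ η = ((2 : ℝ) ^ η) ^ n := by
        intro n
        rw [Real.rpow_pow_comm h2']
      have key2 : ∀ n : ℕ, ((1 / 2 : ℝ) ^ n) ^ η = (((2 : ℝ) ^ η)⁻¹) ^ n := by
        intro n
        rw [one_div, inv_pow, Real.inv_rpow (by positivity), key, inv_pow]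
      rw [← hη, Real.mul_rpow (hM _ _) (hN _ _), Real.mul_rpow (by positivity) (by positivity),
        Real.mul_rpow hS (by positivity), key, key2]
      ring
    · rw [if_neg hc, hsupp _ _ _ _ hc]
      simp
  have hschur := c1_schur P (c1_w η T) (fun a => (M a.1 a.2) ^ θ) (fun b => (N b.1 b.2) ^ θ)
    (c1_w_nonneg η T) (C₀ * T ^ (2 * η)) (fun a _ => c1_row η T hη0 hT K a)
    (fun b _ => c1_col η T hη0 hT K b)
  have hMs : 0 ≤ ∑ a ∈ P, M a.1 a.2 := Finset.sum_nonneg fun a _ => hM _ _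
  have hNs : 0 ≤ ∑ a ∈ P, N a.1 a.2 := Finset.sum_nonneg fun a _ => hN _ _
  have hT2 : 0 ≤ T ^ (2 * η) := Real.rpow_nonneg hT.le _
  have hmain : ∑ a ∈ P, ∑ b ∈ P, c1_w η T a b * ((M a.1 a.2) ^ θ * (N b.1 b.2) ^ θ) ≤
      C₀ * T ^ (2 * η) * ((∑ a ∈ P, M a.1 a.2) ^ θ * (∑ a ∈ P, N a.1 a.2) ^ θ) := by
    have hl : 0 ≤ ∑ a ∈ P, ∑ b ∈ P, c1_w η T a b * ((M a.1 a.2) ^ θ * (N b.1 b.2) ^ θ) :=
      Finset.sum_nonneg fun a _ => Finset.sum_nonneg fun b _ =>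
        mul_nonneg (c1_w_nonneg η T a b)
          (mul_nonneg (Real.rpow_nonneg (hM _ _) _) (Real.rpow_nonneg (hN _ _) _))
    have hr : 0 ≤ C₀ * T ^ (2 * η) *
        ((∑ a ∈ P, M a.1 a.2) ^ θ * (∑ a ∈ P, N a.1 a.2) ^ θ) :=
      mul_nonneg (mul_nonneg hC₀pos.le hT2)
        (mul_nonneg (Real.rpow_nonneg hMs _) (Real.rpow_nonneg hNs _))
    rw [← pow_le_pow_iff_left₀ hl hr two_ne_zero]
    refine hschur.trans ?_
    have hm := c1_pow P (fun a => M a.1 a.2) (fun a => hM _ _) θ h1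
    have hn := c1_pow P (fun a => N a.1 a.2) (fun a => hN _ _) θ h1
    have hCT : 0 ≤ C₀ * T ^ (2 * η) := mul_nonneg hC₀pos.le hT2
    refine (mul_le_mul (mul_le_mul_of_nonneg_left hm hCT) (mul_le_mul_of_nonneg_left hn hCT)
      (mul_nonneg hCT (Finset.sum_nonneg fun _ _ => sq_nonneg _))
      (mul_nonneg hCT (sq_nonneg _))).trans (le_of_eq ?_)
    ring
  have hL : ∑ A ∈ range K, ∑ k ∈ range K, ∑ A' ∈ range K, ∑ k' ∈ range K, e A k A' k' =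
      ∑ a ∈ P, ∑ b ∈ P, e a.1 a.2 b.1 b.2 := by
    rw [hsum (fun A k => ∑ A' ∈ range K, ∑ k' ∈ range K, e A k A' k')]
    refine Finset.sum_congr rfl fun a _ => ?_
    exact hsum (fun A' k' => e a.1 a.2 A' k')
  rw [hL, hsum M, hsum N]
  calc ∑ a ∈ P, ∑ b ∈ P, e a.1 a.2 b.1 b.2 ≤
      ∑ a ∈ P, ∑ b ∈ P, S ^ η * (c1_w η T a b * ((M a.1 a.2) ^ θ * (N b.1 b.2) ^ θ)) :=
        Finset.sum_le_sum fun a _ => Finset.sum_le_sum fun b _ => hpt a b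
    _ = S ^ η * ∑ a ∈ P, ∑ b ∈ P, c1_w η T a b * ((M a.1 a.2) ^ θ * (N b.1 b.2) ^ θ) := by
        simp only [Finset.mul_sum]
    _ ≤ S ^ η * (C₀ * T ^ (2 * η) *
          ((∑ a ∈ P, M a.1 a.2) ^ θ * (∑ a ∈ P, N a.1 a.2) ^ θ)) :=
        mul_le_mul_of_nonneg_left hmain (Real.rpow_nonneg hS _)
    _ = _ := by ring

end Pool.Agent.IDS
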