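import Pool.Agent.IDS.A5
import Pool.Agent.IDS.B1
import Pool.Agent.IDS.C1

set_option autoImplicit false

namespace Pool.Agent.IDS

open Finset

theorem c2a_mem_cell {a b : ℕ} {κ : ℕ → ℕ} {E : Finset (ℕ × ℕ)} {A k A' k' : ℕ} {e : ℕ × ℕ}
    (h1 : 0 < rd e.1 a) (h2 : 0 < rd e.2 b) :
    e ∈ cell a b κ E A k A' k' ↔ e ∈ E ∧
      ((Nat.log 2 (rd e.1 a), κ e.1), (Nat.log 2 (rd e.2 b), κ e.2)) = ((A, k), (A', k')) := by
  unfold cell
  rw [Finset.mem_filter]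
  refine and_congr_right fun _ => ?_
  simp only [Prod.mk.injEq]
  constructor
  · rintro ⟨a1, a2, a3, a4, a5, a6⟩
    exact ⟨⟨Nat.log_eq_of_pow_le_of_lt_pow a1 a2, a3⟩, Nat.log_eq_of_pow_le_of_lt_pow a4 a5, a6⟩
  · rintro ⟨⟨a1, a2⟩, a3, a4⟩
    refine ⟨?_, ?_, a2, ?_, ?_, a4⟩
    · rw [← a1]; exact Nat.pow_log_le_self 2 h1.ne'
    · rw [← a1]; exact Nat.lt_pow_succ_log_self (by norm_num) _
    · rw [← a3]; exact Nat.pow_log_le_self 2 h2.ne'
    · rw [← a3]; exact Nat.lt_pow_succ_log_self (by norm_num) _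

theorem c2a_sum_cells (a b : ℕ) (κ : ℕ → ℕ) (μ : ℕ → ℝ) (E : Finset (ℕ × ℕ))
    (hpos : ∀ e ∈ E, 0 < rd e.1 a ∧ 0 < rd e.2 b) :
    ∃ K : ℕ, em μ μ E = ∑ A ∈ range K, ∑ k ∈ range K, ∑ A' ∈ range K, ∑ k' ∈ range K,
      em μ μ (cell a b κ E A k A' k') := by
  set g : ℕ × ℕ → (ℕ × ℕ) × (ℕ × ℕ) := fun e =>
    ((Nat.log 2 (rd e.1 a), κ e.1), (Nat.log 2 (rd e.2 b), κ e.2)) with hg
  set K : ℕ := (∑ e ∈ E, (Nat.log 2 (rd e.1 a) + κ e.1 + Nat.log 2 (rd e.2 b) + κ e.2)) + 1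
    with hK
  refine ⟨K, ?_⟩
  have hmap : ∀ e ∈ E, g e ∈ (range K ×ˢ range K) ×ˢ (range K ×ˢ range K) := by
    intro e he
    have h1 : (Nat.log 2 (rd e.1 a) + κ e.1 + Nat.log 2 (rd e.2 b) + κ e.2) ≤
        ∑ e ∈ E, (Nat.log 2 (rd e.1 a) + κ e.1 + Nat.log 2 (rd e.2 b) + κ e.2) :=
      Finset.single_le_sum (f := fun e : ℕ × ℕ =>
        (Nat.log 2 (rd e.1 a) + κ e.1 + Nat.log 2 (rd e.2 b) + κ e.2))
        (fun _ _ => Nat.zero_le _) he
    simp only [hg, Finset.mem_product, Finset.mem_range]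
    refine ⟨⟨?_, ?_⟩, ?_, ?_⟩ <;> omega
  have h2 := Finset.sum_fiberwise_of_maps_to hmap (fun e => μ e.1 * μ e.2)
  unfold em
  rw [← h2, Finset.sum_product, Finset.sum_product]
  refine Finset.sum_congr rfl fun A _ => Finset.sum_congr rfl fun k _ => ?_
  rw [Finset.sum_product]
  refine Finset.sum_congr rfl fun A' _ => Finset.sum_congr rfl fun k' _ => ?_
  refine Finset.sum_congr ?_ fun _ _ => rfl
  ext e
  rw [Finset.mem_filter]
  constructor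
  · rintro ⟨he, hge⟩
    exact (c2a_mem_cell (hpos e he).1 (hpos e he).2).2 ⟨he, hge⟩
  · intro he
    have heE : e ∈ E := (Finset.mem_filter.1 he).1
    exact (c2a_mem_cell (hpos e heE).1 (hpos e heE).2).1 he

theorem c2a_sum_vert (a : ℕ) (κ : ℕ → ℕ) (μ : ℕ → ℝ) (hμ : ∀ v, 0 ≤ μ v) (V : Finset ℕ)
    (K : ℕ) :
    ∑ A ∈ range K, ∑ k ∈ range K,
      ms μ (V.filter fun v => (Nat.log 2 (rd v a), κ v) = (A, k)) ≤ ms μ V := by
  unfold ms
  rw [← Finset.sum_product' (range K) (range K)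
    (f := fun A k => ∑ v ∈ V with (Nat.log 2 (rd v a), κ v) = (A, k), μ v)]
  have h := Finset.sum_fiberwise_eq_sum_filter V (range K ×ˢ range K)
    (fun v => (Nat.log 2 (rd v a), κ v)) μ
  refine (le_of_eq h).trans ?_
  exact Finset.sum_le_sum_of_subset_of_nonneg (Finset.filter_subset _ _) fun v _ _ => hμ v

/-- [IDS-C2a] **General bound from cell bounds.**

PROOF.  `C = C_select * C_fs`.  If `em μ μ E = 0` (it is `≥ 0`), the claim is trivial (`H ≥ 0`).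
Otherwise `select` with `V = W = S`, `ν = μ` gives `V', W', E', a, b`.  Let
`M A k = ms μ (V'.filter (2^A ≤ rd v a < 2^(A+1) ∧ κ v = k))`, `N A' k'` the same with `W', b`,
`e A k A' k' = em μ μ (cell a b κ E' A k A' k')`.  Every edge of `E'` lies in exactly one cell
(`A = Nat.log 2 (rd e.1 a)`), so with `K` large `em E' = ∑∑∑∑ e`, and `∑∑ M ≤ ms μ V'`,
`∑∑ N ≤ ms μ W'` (disjoint filters).  `e ≤ M N` by `em_le_mul`.  Put `l = lcm a b`, `T = t / l`,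
`S' = G a b * a * b`.  If a cell contains an edge `(v, w)` then `k = κ v ≤ κ w = k'` and
`t ≥ lcm v w (1/2)^k = l * rd v a * rd w b * (1/2)^k ≥ l 2^{A+A'} (1/2)^k` (`good_struct`), so
`2^{A+A'} ≤ T 2^k`; otherwise `e = 0`.  `fs` gives
`em E' ≤ C_fs (ms V' ms W')^θ (G a b)^{1-θ} (a b)^{1-θ} (t/l)^{2(1-θ)}`, and
`(ab)^{1-θ} / l^{2(1-θ)} = (rd a b * rd b a)^{-(1-θ)}` because `l² = a b · rd a b · rd b a`.
Since `0 < em E' ≤ ms V' ms W'`, dividing by `(ms V' ms W')^θ > 0`: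
`em E ≤ C_select C_fs (ms S)^{2θ} t^{2(1-θ)} (G a b)^{1-θ} (rd a b rd b a)^{η-(1-θ)}`
`≤ C H (ms S)^{2θ} t^{2(1-θ)}`. -/
theorem gen (θ η : ℝ) (h1 : 1 / 2 < θ) (h2 : θ < 1) (hη : 0 < η)
    (h3 : 1 - θ < 2 * θ * η) (h4 : 1 - θ < (2 - θ) * η) :
    ∃ C : ℝ, 0 < C ∧ ∀ (S : Finset ℕ) (κ : ℕ → ℕ) (μ : ℕ → ℝ) (E : Finset (ℕ × ℕ))
      (t H : ℝ) (G : ℕ → ℕ → ℝ), (∀ v, 0 ≤ μ v) → (∀ v ∈ S, 0 < v) → 0 < t → 0 ≤ H →
      E ⊆ S ×ˢ S →
      (∀ e ∈ E, κ e.1 ≤ κ e.2 ∧ (Nat.lcm e.1 e.2 : ℝ) * (1 / 2 : ℝ) ^ κ e.1 ≤ t) →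
      (∀ a b, 0 ≤ G a b) →
      (∀ a b, 0 < a → 0 < b →
        (G a b) ^ (1 - θ) * ((rd a b : ℝ) * rd b a) ^ (η - (1 - θ)) ≤ H) →
      (∀ a b, 0 < a → 0 < b → ∀ E' ⊆ E, (∀ e ∈ E', Good a b e.1 e.2) → ∀ A k A' k',
        em μ μ (cell a b κ E' A k A' k') ≤
          G a b * a * b * 2 ^ (2 * A + 2 * A') * (1 / 2 : ℝ) ^ (k + k')) →
      em μ μ E ≤ C * H * (ms μ S) ^ (2 * θ) * t ^ (2 * (1 - θ)) := by
  obtain ⟨Cs, hCs, hsel⟩ := select θ η h1 h2 hη h3 h4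
  obtain ⟨Cf, hCf, hfs⟩ := fs θ h1 h2
  refine ⟨Cs * Cf, mul_pos hCs hCf, ?_⟩
  intro S κ μ E t H G hμ hS ht hH hE hlev hG hGH hcell
  have hmsS : 0 ≤ ms μ S := ms_nonneg hμ S
  have hrhs : 0 ≤ Cs * Cf * H * (ms μ S) ^ (2 * θ) * t ^ (2 * (1 - θ)) := by positivity
  rcases (em_nonneg hμ hμ E).eq_or_lt with h0 | h0
  · rw [← h0]
    exact hrhs
  have hmsSpos : 0 < ms μ S := by
    rcases hmsS.eq_or_lt with h | h
    · exfalso
      have := em_le_mul hμ hμ hE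
      rw [← h] at this
      linarith
    · exact h
  obtain ⟨V', W', E', a, b, ha, hb, hV', hW', hE'E, hE'VW, hgood, hpos, hineq⟩ :=
    hsel μ μ hμ hμ S S E hS hS hE h0
  have hep : ∀ e ∈ E', 0 < e.1 ∧ 0 < e.2 := by
    intro e he
    have := Finset.mem_product.1 (hE (hE'E he))
    exact ⟨hS _ this.1, hS _ this.2⟩
  obtain ⟨K, hK⟩ := c2a_sum_cells a b κ μ E'
    fun e he => ⟨rd_pos (hep e he).1, rd_pos (hep e he).2⟩
  set l : ℕ := Nat.lcm a b with hl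
  have hlpos : 0 < l := Nat.lcm_pos ha hb
  have hlR : (0 : ℝ) < l := by exact_mod_cast hlpos
  have haR : (0 : ℝ) < a := by exact_mod_cast ha
  have hbR : (0 : ℝ) < b := by exact_mod_cast hb
  have hr1 : (0 : ℝ) < rd a b := by exact_mod_cast rd_pos ha
  have hr2 : (0 : ℝ) < rd b a := by exact_mod_cast rd_pos hb
  set r : ℝ := (rd a b : ℝ) * rd b a with hr
  have hrpos : 0 < r := mul_pos hr1 hr2
  -- apply `fs`
  have hfs' := hfs (fun A k => ms μ (V'.filter fun v => (Nat.log 2 (rd v a), κ v) = (A, k)))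
    (fun A k => ms μ (W'.filter fun v => (Nat.log 2 (rd v b), κ v) = (A, k)))
    (fun A k A' k' => em μ μ (cell a b κ E' A k A' k')) K (G a b * a * b) (t / l)
    (by have := hG a b; positivity) (by positivity)
    (fun A k => ms_nonneg hμ _) (fun A k => ms_nonneg hμ _)
    (fun A k A' k' => em_nonneg hμ hμ _)
    (by
      intro A k A' k'
      refine em_le_mul hμ hμ ?_
      intro e he
      have heE : e ∈ E' := (Finset.mem_filter.1 he).1
      have h5 := ((c2a_mem_cell (rd_pos (hep e heE).1) (rd_pos (hep e heE).2)).1 he).2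
      have h6 := Finset.mem_product.1 (hE'VW heE)
      simp only [Prod.mk.injEq] at h5
      rw [Finset.mem_product, Finset.mem_filter, Finset.mem_filter]
      exact ⟨⟨h6.1, by rw [h5.1.1, h5.1.2]⟩, h6.2, by rw [h5.2.1, h5.2.2]⟩)
    (fun A k A' k' => hcell a b ha hb E' hE'E hgood A k A' k')
    (by
      intro A k A' k' hnot
      by_contra hne
      apply hnot
      have hne' : (cell a b κ E' A k A' k').Nonempty := by
        rw [Finset.nonempty_iff_ne_empty]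
        intro hemp
        apply hne
        simp [hemp, em]
      obtain ⟨e, he⟩ := hne'
      obtain ⟨heE, c1, c2, c3, c4, c5, c6⟩ := Finset.mem_filter.1 he
      obtain ⟨d1, d2⟩ := hlev e (hE'E heE)
      obtain ⟨e1, -, -, -, -⟩ := good_struct a b e.1 e.2 ha hb (hep e heE).1 (hep e heE).2
        (hgood e heE)
      rw [c3, c6] at d1
      rw [c3, e1] at d2
      refine ⟨d1, ?_⟩
      have f1 : (2 : ℝ) ^ A ≤ (rd e.1 a : ℝ) := by exact_mod_cast c1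
      have f2 : (2 : ℝ) ^ A' ≤ (rd e.2 b : ℝ) := by exact_mod_cast c4
      have f3 : (2 : ℝ) ^ (A + A') ≤ (rd e.1 a : ℝ) * rd e.2 b := by
        rw [pow_add]
        exact mul_le_mul f1 f2 (by positivity) (by positivity)
      push_cast at d2
      rw [div_mul_eq_mul_div, le_div_iff₀ hlR]
      have f4 : (1 / 2 : ℝ) ^ k * 2 ^ k = 1 := by
        rw [← mul_pow]; norm_num
      have f5 : (0 : ℝ) < 2 ^ k := by positivity
      calc (2 : ℝ) ^ (A + A') * l ≤ (rd e.1 a : ℝ) * rd e.2 b * l :=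
            mul_le_mul_of_nonneg_right f3 hlR.le
        _ = (l * (rd e.1 a : ℝ) * rd e.2 b * (1 / 2 : ℝ) ^ k) * 2 ^ k := by
            linear_combination -((rd e.1 a : ℝ) * rd e.2 b * l) * f4
        _ ≤ t * 2 ^ k := mul_le_mul_of_nonneg_right d2 f5.le)
  rw [← hK] at hfs'
  set x1 := ms μ V' with hx1
  set x2 := ms μ W' with hx2
  have hx : em μ μ E' ≤ x1 * x2 := em_le_mul hμ hμ hE'VW
  have hx10 : 0 ≤ x1 := ms_nonneg hμ _
  have hx20 : 0 ≤ x2 := ms_nonneg hμ _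
  have hxpos : 0 < x1 * x2 := lt_of_lt_of_le hpos hx
  have hM1 := c2a_sum_vert a κ μ hμ V' K
  have hN1 := c2a_sum_vert b κ μ hμ W' K
  have hθ0 : 0 ≤ θ := by linarith
  have h1θ : 0 ≤ 1 - θ := by linarith
  have hM0 : 0 ≤ ∑ A ∈ range K, ∑ k ∈ range K,
      ms μ (V'.filter fun v => (Nat.log 2 (rd v a), κ v) = (A, k)) :=
    Finset.sum_nonneg fun _ _ => Finset.sum_nonneg fun _ _ => ms_nonneg hμ _
  have hN0 : 0 ≤ ∑ A ∈ range K, ∑ k ∈ range K,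
      ms μ (W'.filter fun v => (Nat.log 2 (rd v b), κ v) = (A, k)) :=
    Finset.sum_nonneg fun _ _ => Finset.sum_nonneg fun _ _ => ms_nonneg hμ _
  have hM2 := Real.rpow_le_rpow hM0 hM1 hθ0
  have hN2 := Real.rpow_le_rpow hN0 hN1 hθ0
  have hSn : 0 ≤ G a b * a * b := by have := hG a b; positivity
  have hbound : em μ μ E' ≤ Cf * (x1 * x2) ^ θ * ((G a b * a * b) ^ (1 - θ) *
      (t / l) ^ (2 * (1 - θ))) := by
    rw [Real.mul_rpow hx10 hx20]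
    calc em μ μ E' ≤ _ := hfs'
      _ ≤ Cf * x1 ^ θ * x2 ^ θ * (G a b * a * b) ^ (1 - θ) * (t / l) ^ (2 * (1 - θ)) := by
          gcongr
      _ = _ := by ring
  -- the factor
  have hlr : (l : ℝ) ^ 2 = a * b * r := by
    have e1 : (l : ℝ) = a * rd b a := by
      have := lcm_eq a b
      rw [hl, this]
      push_cast
      rfl
    have e2 : (l : ℝ) = b * rd a b := by
      have := lcm_eq b a
      rw [hl, Nat.lcm_comm, this]
      push_cast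
      rfl
    calc (l : ℝ) ^ 2 = l * l := sq _
      _ = (a * rd b a) * (b * rd a b) := by
          nth_rewrite 1 [e1]
          rw [e2]
      _ = a * b * r := by rw [hr]; ring
  have hfac : (G a b * a * b) ^ (1 - θ) * (t / l) ^ (2 * (1 - θ)) =
      (G a b) ^ (1 - θ) * t ^ (2 * (1 - θ)) * r ^ (-(1 - θ)) := by
    have e1 : (G a b * a * b) ^ (1 - θ) = (G a b) ^ (1 - θ) * ((a : ℝ) * b) ^ (1 - θ) := by
      rw [mul_assoc, Real.mul_rpow (hG a b) (by positivity)]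
    have e2 : (t / l) ^ (2 * (1 - θ)) = t ^ (2 * (1 - θ)) / (((a : ℝ) * b) ^ (1 - θ) *
        r ^ (1 - θ)) := by
      rw [Real.div_rpow ht.le hlR.le]
      congr 1
      rw [Real.rpow_mul hlR.le, ← Real.mul_rpow (by positivity) hrpos.le]
      congr 1
      rw [Real.rpow_two]
      exact hlr
    rw [e1, e2, Real.rpow_neg hrpos.le]
    have e3 : ((a : ℝ) * b) ^ (1 - θ) ≠ 0 := (Real.rpow_pos_of_pos (by positivity) _).ne'
    have e4 : r ^ (1 - θ) ≠ 0 := (Real.rpow_pos_of_pos hrpos _).ne'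
    field_simp
  rw [hfac] at hbound
  have hxθ : 0 < (x1 * x2) ^ θ := Real.rpow_pos_of_pos hxpos _
  have hSS : (ms μ S * ms μ S) ^ θ = (ms μ S) ^ (2 * θ) := by
    rw [Real.mul_rpow hmsS hmsS, two_mul, Real.rpow_add hmsSpos]
  rw [hSS] at hineq
  have hsθ : 0 ≤ (ms μ S) ^ (2 * θ) := Real.rpow_nonneg hmsS _
  have hrη : 0 < r ^ η := Real.rpow_pos_of_pos hrpos _
  have htt : 0 ≤ t ^ (2 * (1 - θ)) := Real.rpow_nonneg ht.le _
  have hkey : em μ μ E * (x1 * x2) ^ θ ≤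
      (Cs * Cf * H * (ms μ S) ^ (2 * θ) * t ^ (2 * (1 - θ))) * (x1 * x2) ^ θ := by
    calc em μ μ E * (x1 * x2) ^ θ ≤ Cs * (em μ μ E' * (ms μ S) ^ (2 * θ) * r ^ η) := hineq
      _ ≤ Cs * ((Cf * (x1 * x2) ^ θ * ((G a b) ^ (1 - θ) * t ^ (2 * (1 - θ)) *
            r ^ (-(1 - θ)))) * (ms μ S) ^ (2 * θ) * r ^ η) := by
          gcongr
      _ = Cs * Cf * ((G a b) ^ (1 - θ) * (r ^ (-(1 - θ)) * r ^ η)) * (ms μ S) ^ (2 * θ) *
            t ^ (2 * (1 - θ)) * (x1 * x2) ^ θ := by ring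
      _ = Cs * Cf * ((G a b) ^ (1 - θ) * r ^ (η - (1 - θ))) * (ms μ S) ^ (2 * θ) *
            t ^ (2 * (1 - θ)) * (x1 * x2) ^ θ := by
          rw [← Real.rpow_add hrpos]
          ring_nf
      _ ≤ Cs * Cf * H * (ms μ S) ^ (2 * θ) * t ^ (2 * (1 - θ)) * (x1 * x2) ^ θ := by
          have := hGH a b ha hb
          gcongr
      _ = _ := by ring
  exact le_of_mul_le_mul_right hkey hxθ

end Pool.Agent.IDS
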