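import Pool.Agent.IDS.C2a
import Pool.Agent.IDS.C2b

set_option autoImplicit false

namespace Pool.Agent.IDS

open Finset

/-- [IDS-C3] **First kappa bound** (no alignment), for every `t > 0` and every `θ ∈ (1/2, 3/5]`.

PROOF.  `η = (1-θ)(2θ+1)/(4θ)`.  Then `2θη = (1-θ)(θ + 1/2) > 1-θ`, and
`(2-θ)η = (1-θ)(2-θ)(2θ+1)/(4θ) > 1-θ` since `(2-θ)(2θ+1) - 4θ = 2 - θ - 2θ² > 0` for `θ ≤ 3/5`;
and `η ≤ 1-θ` since `2θ+1 ≤ 4θ`.  So `gen` applies, with `E` the set of the statement, `G a b = 16`,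
`H = 16^{1-θ}` (`rd a b * rd b a ≥ 1` and the exponent `η - (1-θ) ≤ 0`), and the cell bound
`cell_bound` with `c₁ = c₂ = 1`. -/
theorem kappa (θ : ℝ) (h1 : 1 / 2 < θ) (h2 : θ ≤ 3 / 5) :
    ∃ C : ℝ, 0 < C ∧ ∀ (S : Finset ℕ) (κ : ℕ → ℕ) (μ : ℕ → ℝ) (t : ℝ), (∀ v, 0 ≤ μ v) →
      (∀ v ∈ S, 0 < v ∧ μ v ≤ (Nat.totient v : ℝ) * (1 / 2 : ℝ) ^ κ v) → 0 < t →
      em μ μ ((S ×ˢ S).filter (fun e => κ e.1 ≤ κ e.2 ∧
        (Nat.lcm e.1 e.2 : ℝ) * (1 / 2 : ℝ) ^ κ e.1 ≤ t)) ≤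
        C * (ms μ S) ^ (2 * θ) * t ^ (2 * (1 - θ)) := by
  have hθ0 : 0 < θ := by linarith
  have hθ1 : 0 < 1 - θ := by linarith
  set η : ℝ := (1 - θ) * (2 * θ + 1) / (4 * θ) with hη
  have hηm : η * (4 * θ) = (1 - θ) * (2 * θ + 1) := by
    rw [hη]; field_simp
  have hη0 : 0 < η := by rw [hη]; positivity
  have h3 : 1 - θ < 2 * θ * η := by nlinarith
  have h4 : 1 - θ < (2 - θ) * η := by
    have : (1 - θ) * (4 * θ) < (2 - θ) * η * (4 * θ) := by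
      have e : (2 - θ) * η * (4 * θ) = (2 - θ) * ((1 - θ) * (2 * θ + 1)) := by
        rw [← hηm]; ring
      rw [e]
      nlinarith [mul_pos hθ1 (show (0:ℝ) < 2 - θ - 2 * θ ^ 2 by nlinarith)]
    exact lt_of_mul_lt_mul_right this (by positivity)
  have h5 : η ≤ 1 - θ := by
    have : η * (4 * θ) ≤ (1 - θ) * (4 * θ) := by rw [hηm]; nlinarith
    exact le_of_mul_le_mul_right this (by positivity)
  obtain ⟨C, hC, hgen⟩ := gen θ η h1 (by linarith) hη0 h3 h4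
  refine ⟨C * (16 : ℝ) ^ (1 - θ), by positivity, ?_⟩
  intro S κ μ t hμ hS ht
  refine hgen S κ μ _ t ((16 : ℝ) ^ (1 - θ)) (fun _ _ => 16) hμ (fun v hv => (hS v hv).1) ht
    (by positivity) (Finset.filter_subset _ _) ?_ (fun _ _ => by norm_num) ?_ ?_
  · intro e he
    exact (Finset.mem_filter.mp he).2
  · intro a b ha hb
    have r1 : (1 : ℝ) ≤ (rd a b : ℝ) * rd b a := by
      have e1 : (1 : ℝ) ≤ rd a b := by exact_mod_cast rd_pos (b := b) ha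
      have e2 : (1 : ℝ) ≤ rd b a := by exact_mod_cast rd_pos (b := a) hb
      nlinarith
    have r2 : ((rd a b : ℝ) * rd b a) ^ (η - (1 - θ)) ≤ 1 :=
      Real.rpow_le_one_of_one_le_of_nonpos r1 (by linarith)
    have r3 : (0 : ℝ) ≤ (16 : ℝ) ^ (1 - θ) := by positivity
    nlinarith
  · intro a b ha hb E' hE' hG A k A' k'
    have hE'' : E' ⊆ S ×ˢ S := hE'.trans (Finset.filter_subset _ _)
    have hb1 := cell_bound S κ μ hμ E' a b ha hb (fun v hv => (hS v hv).1) hE'' hG A k A' k' 1 1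
      (by norm_num) (by norm_num)
      (fun v hv hk => by rw [one_mul, ← hk]; exact (hS v hv).2)
      (fun v hv hk => by rw [one_mul, ← hk]; exact (hS v hv).2)
    refine hb1.trans (le_of_eq ?_)
    norm_num

end Pool.Agent.IDS
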