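import Pool.Agent.IDS.T10

set_option autoImplicit false

namespace Pool.Agent.IDS

open Finset

/-- logarithms are absorbed by a small power -/
theorem t11_log (C1 : ℕ) (s : ℝ) (hs : 0 < s) (R : ℝ) (hR : 1 ≤ R) :
    (C1 : ℝ) * Real.log R / Real.log 2 + 1 ≤ (C1 / (Real.log 2 * s) + 1) * R ^ s := by
  have hl2 : 0 < Real.log 2 := Real.log_pos (by norm_num)
  have h1 : Real.log R ≤ R ^ s / s := Real.log_le_rpow_div (by linarith) hs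
  have h2 : 1 ≤ R ^ s := Real.one_le_rpow hR hs.le
  have h3 : (C1 : ℝ) * Real.log R / Real.log 2 ≤ C1 * (R ^ s / s) / Real.log 2 := by gcongr
  have h4 : (C1 : ℝ) * (R ^ s / s) / Real.log 2 = C1 / (Real.log 2 * s) * R ^ s := by
    field_simp
  rw [h4] at h3
  linarith

theorem t11_geom (U : ℕ) : ∑ u ∈ range U, ((1 / 2 : ℝ) ^ ((1 : ℝ) / 2)) ^ u ≤ 4 := by
  set x := (1 / 2 : ℝ) ^ ((1 : ℝ) / 2) with hx
  have hx0 : 0 ≤ x := by positivity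
  have hx1 : x ≤ 3 / 4 := by
    rw [hx, ← Real.sqrt_eq_rpow]
    rw [show (3 / 4 : ℝ) = Real.sqrt ((3 / 4) ^ 2) by rw [Real.sqrt_sq (by norm_num)]]
    exact Real.sqrt_le_sqrt (by norm_num)
  have h1 : (∑ u ∈ range U, x ^ u) * (1 - x) = 1 - x ^ U := by
    have := geom_sum_mul x U
    linarith
  have h2 : (∑ u ∈ range U, x ^ u) * (1 - x) ≤ 1 := by
    rw [h1]
    have : 0 ≤ x ^ U := by positivity
    linarith
  have h3 : 0 ≤ ∑ u ∈ range U, x ^ u := Finset.sum_nonneg fun u _ => by positivity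
  nlinarith

/-- [IDS-T11] **Second kappa bound, regime II** (`m, m' ≤ R^{C1}`).

PROOF.  Every edge of the set lies in exactly one piece of `kappaII_piece` with
`u = κ w - κ v`, `i = log₂ (rd v w)`, `j = log₂ (rd w v)`; nonempty pieces have
`2^i, 2^j ≤ R^{C1}`, so `i, j ≤ C1 log₂ R`: at most `(C1 log₂ R + 1)²` pairs `(i, j)`.
`∑_u (2^{-1/2})^u ≤ 4`.  So the total is
`≤ 4 C (C1 log₂ R + 1)² W^{1+1/(2n)} R^{-(1+1/n)}`, and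
`(C1 log₂ R + 1)² ≤ C' R^{1/(2n)}` (`Real.log_le_rpow_div`). -/
theorem kappaII (γ c : ℝ) (τ C1 : ℕ) (h : FT γ c τ) (ε : ℝ) (hε : 0 < ε) :
    ∃ (ξ C : ℝ), 0 < ξ ∧ ξ ≤ 1 / 2 ∧ 0 < C ∧
      ∀ (S : Finset ℕ) (κ : ℕ → ℕ) (Ω L μ : ℕ → ℝ), Dat ε S κ Ω L μ →
      ∀ (R : ℝ), 1 ≤ R →
      em μ μ ((S ×ˢ S).filter (fun e => κ e.1 ≤ κ e.2 ∧ e.1 ≠ e.2 ∧
        (Nat.lcm e.1 e.2 : ℝ) * (1 / 2 : ℝ) ^ κ e.1 ≤ 1 / R ∧
        nd (γ * ((rd e.2 e.1 : ℝ) - rd e.1 e.2)) ≤ 2 / R ∧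
        (rd e.1 e.2 : ℝ) ≤ R ^ C1 ∧ (rd e.2 e.1 : ℝ) ≤ R ^ C1)) ≤
        C * (ms μ S) ^ (1 + ξ) * R ^ (-(1 + ξ)) := by
  obtain ⟨n, C, hn, hC, hpiece⟩ := kappaII_piece γ c τ C1 h ε hε
  have hnr : (1 : ℝ) ≤ n := by exact_mod_cast hn
  set ξ : ℝ := 1 / (2 * (n : ℝ)) with hξ
  have hξ0 : 0 < ξ := by rw [hξ]; positivity
  have hξ1 : ξ ≤ 1 / 2 := by
    rw [hξ]
    apply one_div_le_one_div_of_le (by norm_num)
    linarith
  have h2ξ : 1 / (n : ℝ) = 2 * ξ := by rw [hξ]; field_simp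
  set K : ℝ := C1 / (Real.log 2 * (ξ / 2)) + 1 with hK
  have hl2 : 0 < Real.log 2 := Real.log_pos (by norm_num)
  have hK0 : 0 < K := by
    have : 0 ≤ C1 / (Real.log 2 * (ξ / 2)) := by positivity
    linarith
  refine ⟨ξ, 4 * C * K ^ 2, hξ0, hξ1, by positivity, ?_⟩
  intro S κ Ω L μ hD R hR
  have hR0 : (0 : ℝ) < R := by linarith
  have hW : 0 ≤ ms μ S := ms_nonneg hD.mu0 S
  set E := (S ×ˢ S).filter (fun e => κ e.1 ≤ κ e.2 ∧ e.1 ≠ e.2 ∧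
        (Nat.lcm e.1 e.2 : ℝ) * (1 / 2 : ℝ) ^ κ e.1 ≤ 1 / R ∧
        nd (γ * ((rd e.2 e.1 : ℝ) - rd e.1 e.2)) ≤ 2 / R ∧
        (rd e.1 e.2 : ℝ) ≤ R ^ C1 ∧ (rd e.2 e.1 : ℝ) ≤ R ^ C1) with hE
  set P : ℕ × ℕ × ℕ → Finset (ℕ × ℕ) := fun t => (S ×ˢ S).filter (fun e =>
        κ e.2 = κ e.1 + t.2.2 ∧ e.1 ≠ e.2 ∧
        (Nat.lcm e.1 e.2 : ℝ) * (1 / 2 : ℝ) ^ κ e.1 ≤ 1 / R ∧
        nd (γ * ((rd e.2 e.1 : ℝ) - rd e.1 e.2)) ≤ 2 / R ∧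
        (rd e.1 e.2 : ℝ) ≤ R ^ C1 ∧ (rd e.2 e.1 : ℝ) ≤ R ^ C1 ∧
        2 ^ t.1 ≤ rd e.1 e.2 ∧ rd e.1 e.2 < 2 ^ (t.1 + 1) ∧
        2 ^ t.2.1 ≤ rd e.2 e.1 ∧ rd e.2 e.1 < 2 ^ (t.2.1 + 1)) with hP
  set N : ℕ := ⌊(C1 : ℝ) * Real.log R / Real.log 2⌋₊ + 1 with hN
  set U : ℕ := (∑ v ∈ S, κ v) + 1 with hU
  have hlogR : 0 ≤ Real.log R := Real.log_nonneg hR
  have hNr : (N : ℝ) ≤ K * R ^ (ξ / 2) := by
    refine le_trans ?_ (t11_log C1 (ξ / 2) (by positivity) R hR)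
    rw [hN]
    push_cast
    have : (⌊(C1 : ℝ) * Real.log R / Real.log 2⌋₊ : ℝ) ≤ (C1 : ℝ) * Real.log R / Real.log 2 :=
      Nat.floor_le (by positivity)
    linarith
  have hlt : ∀ a : ℕ, 0 < a → (a : ℝ) ≤ R ^ C1 → Nat.log 2 a < N := by
    intro a ha haR
    have h1 : ((2 : ℝ)) ^ (Nat.log 2 a) ≤ R ^ C1 := by
      have : 2 ^ Nat.log 2 a ≤ a := Nat.pow_log_le_self 2 ha.ne'
      have h2 : ((2 : ℝ)) ^ (Nat.log 2 a) ≤ a := by exact_mod_cast this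
      exact h2.trans haR
    have h2 := Real.log_le_log (by positivity) h1
    rw [Real.log_pow, Real.log_pow] at h2
    have h3 : (Nat.log 2 a : ℝ) ≤ (C1 : ℝ) * Real.log R / Real.log 2 := by
      rw [le_div_iff₀ hl2]; exact h2
    rw [hN]
    have := Nat.le_floor h3
    omega
  set key : ℕ × ℕ → ℕ × ℕ × ℕ := fun e =>
    (Nat.log 2 (rd e.1 e.2), Nat.log 2 (rd e.2 e.1), κ e.2 - κ e.1) with hkey
  have hmaps : ∀ e ∈ E, key e ∈ range N ×ˢ (range N ×ˢ range U) := by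
    intro e he
    rw [hE, mem_filter, mem_product] at he
    obtain ⟨⟨hv, hw⟩, hk, hne, hlcm, hnd, hr1, hr2⟩ := he
    rw [hkey]
    simp only [mem_product, mem_range]
    refine ⟨hlt _ (rd_pos (hD.pos _ hv)) hr1, hlt _ (rd_pos (hD.pos _ hw)) hr2, ?_⟩
    have : κ e.2 ≤ ∑ v ∈ S, κ v := single_le_sum (f := fun v => κ v) (fun _ _ => Nat.zero_le _) hw
    omega
  have hfib : em μ μ E ≤ ∑ t ∈ range N ×ˢ (range N ×ˢ range U), em μ μ (P t) := by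
    unfold em
    rw [← sum_fiberwise_of_maps_to hmaps]
    refine sum_le_sum fun t _ => ?_
    apply sum_le_sum_of_subset_of_nonneg
    · intro e he
      rw [mem_filter, hE, mem_filter, mem_product] at he
      obtain ⟨⟨⟨hv, hw⟩, hk, hne, hlcm, hnd, hr1, hr2⟩, hke⟩ := he
      rw [hP]
      simp only [mem_filter, mem_product]
      rw [← hke, hkey]
      simp only
      refine ⟨⟨hv, hw⟩, by omega, hne, hlcm, hnd, hr1, hr2,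
        Nat.pow_log_le_self 2 (rd_pos (hD.pos _ hv)).ne', Nat.lt_pow_succ_log_self (by norm_num) _,
        Nat.pow_log_le_self 2 (rd_pos (hD.pos _ hw)).ne', Nat.lt_pow_succ_log_self (by norm_num) _⟩
    · intro e _ _
      exact mul_nonneg (hD.mu0 _) (hD.mu0 _)
  set B : ℝ := C * (ms μ S) ^ (1 + ξ) * R ^ (-(1 + 2 * ξ)) with hB
  have hB0 : 0 ≤ B := by rw [hB]; positivity
  have hpc : ∀ t ∈ range N ×ˢ (range N ×ˢ range U), em μ μ (P t) ≤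
      B * ((1 / 2 : ℝ) ^ ((1 : ℝ) / 2)) ^ t.2.2 := by
    intro t _
    have h1 := hpiece S κ Ω L μ hD R hR t.1 t.2.1 t.2.2
    rw [h2ξ] at h1
    rw [hP, hB]
    exact h1
  have hN0 : (0 : ℝ) ≤ N := Nat.cast_nonneg _
  calc em μ μ E ≤ ∑ t ∈ range N ×ˢ (range N ×ˢ range U), em μ μ (P t) := hfib
    _ ≤ ∑ t ∈ range N ×ˢ (range N ×ˢ range U), B * ((1 / 2 : ℝ) ^ ((1 : ℝ) / 2)) ^ t.2.2 :=
        sum_le_sum hpc
    _ = N * (N * (B * ∑ u ∈ range U, ((1 / 2 : ℝ) ^ ((1 : ℝ) / 2)) ^ u)) := by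
        rw [sum_product]
        simp only [sum_product, ← mul_sum, sum_const, card_range, nsmul_eq_mul]
        ring
    _ ≤ N * (N * (B * 4)) := by
        have := t11_geom U
        gcongr
    _ = (N : ℝ) ^ 2 * (4 * B) := by ring
    _ ≤ (K * R ^ (ξ / 2)) ^ 2 * (4 * B) := by gcongr
    _ = 4 * C * K ^ 2 * (ms μ S) ^ (1 + ξ) * ((R ^ (ξ / 2)) ^ 2 * R ^ (-(1 + 2 * ξ))) := by
        rw [hB]; ring
    _ = 4 * C * K ^ 2 * (ms μ S) ^ (1 + ξ) * R ^ (-(1 + ξ)) := by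
        congr 1
        rw [← Real.rpow_natCast, ← Real.rpow_mul hR0.le, ← Real.rpow_add hR0]
        congr 1
        push_cast
        ring

end Pool.Agent.IDS
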