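import Pool.Agent.IDS.Base

set_option autoImplicit false

namespace Pool.Agent.IDS

open Finset MeasureTheory

/-- [IDS-O2a] **Residues in an arc.**

PROOF.  `m = q/g, m' = r/g` with `g = gcd(q, r)` (`m = rd q r`, `m' = rd r q`), so `q b/r = m b/m'`.
As `b` runs over `range r = range (g m')`, `b mod m'` takes every value exactly `g` times and
`m b mod m'` is a permutation of the residues mod `m'` (`m, m'` coprime).  So the count is
`g · #{j ∈ range m' : nd (x + j/m') ≤ ρ}`.  For such a `j` choose `n ∈ ℤ` with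
`|x + j/m' - n| ≤ ρ`; then `J = j - n m'` is an integer with `|x + J/m'| ≤ ρ`, i.e. in a closed
interval of length `2ρ m'`, which contains at most `2ρ m' + 1` integers; `j ↦ J` is injective as
`J ≡ j mod m'`.  So the count is `≤ g (2ρ m' + 1)`, `g m' = r`. -/
theorem arc_count (q r : ℕ) (hq : 1 ≤ q) (hr : 1 ≤ r) (x ρ : ℝ) (h0 : 0 ≤ ρ) :
    (((range r).filter (fun b : ℕ => nd (x + q * b / r) ≤ ρ)).card : ℝ) ≤
      r * (2 * ρ + 1 / (rd r q : ℝ)) := by
  classical
  set g := Nat.gcd q r with hg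
  set m := rd q r with hm
  set m' := rd r q with hm'
  have hm'0 : 0 < m' := rd_pos (by omega)
  have hg0 : 0 < g := Nat.gcd_pos_of_pos_left r (by omega)
  have hmg : m * g = q := rd_mul_gcd q r
  have hm'g : m' * g = r := by rw [hg, Nat.gcd_comm]; exact rd_mul_gcd r q
  have hcop : Nat.Coprime m m' := rd_coprime (by omega)
  have hm'R : (0 : ℝ) < m' := by exact_mod_cast hm'0
  have hgR : (0 : ℝ) < g := by exact_mod_cast hg0
  have hqb : ∀ b : ℕ, (q : ℝ) * b / r = (m * b : ℝ) / m' := by
    intro b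
    rw [← hmg, ← hm'g]
    push_cast
    field_simp
  set S := (range r).filter (fun b : ℕ => nd (x + q * b / r) ≤ ρ) with hS
  let F : ℕ → ℤ := fun b => (m * b : ℤ) - round (x + (q : ℝ) * b / r) * m'
  -- fibres
  have hfib : ∀ J ∈ S.image F, (S.filter (fun b => F b = J)).card ≤ g := by
    intro J _
    have h1 : (S.filter (fun b => F b = J)).card ≤ (range g).card := by
      apply Finset.card_le_card_of_injOn (fun b => b / m')
      · intro b hb
        simp only [Finset.coe_filter, Set.mem_setOf_eq, hS, Finset.mem_filter,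
          Finset.mem_range] at hb
        simp only [Finset.coe_range, Set.mem_Iio]
        rw [Nat.div_lt_iff_lt_mul hm'0, mul_comm, hm'g]
        exact hb.1.1
      · intro b hb b' hb' hbb
        simp only [Finset.coe_filter, Set.mem_setOf_eq] at hb hb'
        have h2 : F b = F b' := hb.2.trans hb'.2.symm
        have h3 : (m * b : ℤ) ≡ (m * b' : ℤ) [ZMOD m'] := by
          have h4 : (m * b : ℤ) - (m * b' : ℤ) =
              (round (x + (q : ℝ) * b / r) - round (x + (q : ℝ) * b' / r)) * m' := by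
            simp only [F] at h2
            linarith
          exact (Int.modEq_iff_dvd.2 ⟨_, h4.trans (mul_comm _ _)⟩).symm
        have h5 : m * b ≡ m * b' [MOD m'] := by
          rw [← Int.natCast_modEq_iff]
          push_cast
          exact h3
        have h6 : b ≡ b' [MOD m'] := Nat.ModEq.cancel_left_of_coprime hcop.symm h5
        have h7 : b % m' = b' % m' := h6
        have h8 : b / m' = b' / m' := hbb
        rw [← Nat.div_add_mod b m', ← Nat.div_add_mod b' m', h7, h8]
    rwa [Finset.card_range] at h1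
  have hcard := Finset.card_le_mul_card_image S g hfib
  -- image
  have himg : S.image F ⊆ Finset.Icc ⌈-(m' : ℝ) * (x + ρ)⌉ ⌊(m' : ℝ) * (ρ - x)⌋ := by
    intro J hJ
    obtain ⟨b, hb, rfl⟩ := Finset.mem_image.1 hJ
    rw [hS, Finset.mem_filter] at hb
    have h1 := abs_le.1 (show |(x + (q : ℝ) * b / r) - round (x + (q : ℝ) * b / r)| ≤ ρ from hb.2)
    set R := round (x + (q : ℝ) * b / r) with hR
    have h2 : ((F b : ℤ) : ℝ) = m' * ((q : ℝ) * b / r) - R * m' := by
      simp only [F]
      rw [hqb b] at hR ⊢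
      push_cast
      rw [← hR]
      field_simp
    rw [Finset.mem_Icc, Int.ceil_le, Int.le_floor, h2]
    constructor
    · nlinarith [h1.1]
    · nlinarith [h1.2]
  have hcard2 : ((S.image F).card : ℝ) ≤ 2 * ρ * m' + 1 := by
    have h1 := Finset.card_le_card himg
    rw [Int.card_Icc] at h1
    have h2 : ((⌊(m' : ℝ) * (ρ - x)⌋ + 1 - ⌈-(m' : ℝ) * (x + ρ)⌉).toNat : ℝ) ≤
        2 * ρ * m' + 1 := by
      have h3 := Int.floor_le ((m' : ℝ) * (ρ - x))
      have h4 := Int.le_ceil (-(m' : ℝ) * (x + ρ))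
      rcases le_total 0 (⌊(m' : ℝ) * (ρ - x)⌋ + 1 - ⌈-(m' : ℝ) * (x + ρ)⌉) with h5 | h5
      · have h6 : (((⌊(m' : ℝ) * (ρ - x)⌋ + 1 - ⌈-(m' : ℝ) * (x + ρ)⌉).toNat : ℤ) : ℝ) =
            ((⌊(m' : ℝ) * (ρ - x)⌋ + 1 - ⌈-(m' : ℝ) * (x + ρ)⌉ : ℤ) : ℝ) := by
          rw [Int.toNat_of_nonneg h5]
        rw [Int.cast_natCast] at h6
        rw [h6]
        push_cast
        nlinarith
      · rw [Int.toNat_of_nonpos h5]
        push_cast
        positivity
    refine le_trans ?_ h2
    exact_mod_cast h1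
  have h9 : (S.card : ℝ) ≤ g * (2 * ρ * m' + 1) := by
    refine le_trans (by exact_mod_cast hcard : (S.card : ℝ) ≤ g * (S.image F).card) ?_
    exact mul_le_mul_of_nonneg_left hcard2 hgR.le
  refine h9.trans (le_of_eq ?_)
  rw [← hm'g]
  push_cast
  field_simp

end Pool.Agent.IDS
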