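import Pool.Agent.IDS.O1
import Pool.Agent.IDS.O2a

set_option autoImplicit false

namespace Pool.Agent.IDS

open Finset MeasureTheory

theorem o2b_cont : Continuous nd := by
  have h : LipschitzWith 1 nd := by
    refine LipschitzWith.of_dist_le_mul fun x y => ?_
    rw [Real.dist_eq, Real.dist_eq, NNReal.coe_one, one_mul, abs_le]
    have h1 := nd_add_le y (x - y)
    have h2 := nd_add_le x (y - x)
    have h3 := nd_le_abs (x - y) 0
    have h4 := nd_le_abs (y - x) 0
    rw [Int.cast_zero, sub_zero] at h3 h4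
    rw [abs_sub_comm y x] at h4
    rw [add_sub_cancel] at h1 h2
    constructor <;> linarith
  exact h.continuous

theorem o2b_nd_add_nat (x : ℝ) (n : ℕ) : nd (x + n) = nd x := by
  have := nd_add_int x n
  simpa using this

/-- indicator -/
noncomputable def o2b_f (γ : ℝ) (q : ℕ) (ρ : ℝ) (x : ℝ) : ℝ := if nd (q * x - γ) ≤ ρ then 1 else 0

theorem o2b_f_meas (γ : ℝ) (q : ℕ) (ρ : ℝ) : Measurable (o2b_f γ q ρ) := by
  unfold o2b_f
  refine Measurable.ite ?_ measurable_const measurable_const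
  exact measurableSet_le (o2b_cont.measurable.comp ((measurable_const.mul measurable_id).sub_const γ))
    measurable_const

theorem o2b_f_nonneg (γ : ℝ) (q : ℕ) (ρ x : ℝ) : 0 ≤ o2b_f γ q ρ x := by
  unfold o2b_f; split_ifs <;> norm_num

theorem o2b_f_le (γ : ℝ) (q : ℕ) (ρ x : ℝ) : o2b_f γ q ρ x ≤ 1 := by
  unfold o2b_f; split_ifs <;> norm_num

theorem o2b_f_per (γ : ℝ) (q : ℕ) (ρ : ℝ) : Function.Periodic (o2b_f γ q ρ) 1 := by
  intro x
  unfold o2b_f
  have : (q : ℝ) * (x + 1) - γ = (q * x - γ) + q := by ring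
  rw [this, o2b_nd_add_nat]

theorem o2b_int (F : ℝ → ℝ) (hF : Measurable F) (C : ℝ) (hb : ∀ x, |F x| ≤ C) (a b : ℝ) :
    IntervalIntegrable F volume a b := by
  rw [intervalIntegrable_iff]
  refine Measure.integrableOn_of_bounded (M := C) ?_ hF.aestronglyMeasurable
    (Filter.Eventually.of_forall fun x => hb x)
  rw [Set.uIoc]
  exact measure_Ioc_lt_top.ne

theorem o2b_vol (γ : ℝ) (r : ℕ) (σ : ℝ) (q : ℕ) (ρ : ℝ) :
    (volume (EE γ q ρ ∩ EE γ r σ)).toReal = ∫ x in (0 : ℝ)..1, o2b_f γ q ρ x * o2b_f γ r σ x := by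
  rw [intervalIntegral.integral_of_le zero_le_one, ← integral_Icc_eq_integral_Ioc]
  have hA : MeasurableSet {x : ℝ | nd (q * x - γ) ≤ ρ ∧ nd (r * x - γ) ≤ σ} := by
    refine (measurableSet_le (o2b_cont.measurable.comp
      ((measurable_const.mul measurable_id).sub_const γ)) measurable_const).inter
      (measurableSet_le (o2b_cont.measurable.comp
      ((measurable_const.mul measurable_id).sub_const γ)) measurable_const)
  have e1 : (fun x => o2b_f γ q ρ x * o2b_f γ r σ x) =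
      Set.indicator {x : ℝ | nd (q * x - γ) ≤ ρ ∧ nd (r * x - γ) ≤ σ} (fun _ => (1 : ℝ)) := by
    funext x
    unfold o2b_f
    by_cases h1 : nd (q * x - γ) ≤ ρ <;> by_cases h2 : nd (r * x - γ) ≤ σ
    · rw [if_pos h1, if_pos h2, Set.indicator_of_mem (show x ∈ {x : ℝ | nd (q * x - γ) ≤ ρ ∧
        nd (r * x - γ) ≤ σ} from ⟨h1, h2⟩)]
      norm_num
    · rw [if_neg h2, Set.indicator_of_notMem (show x ∉ {x : ℝ | nd (q * x - γ) ≤ ρ ∧
        nd (r * x - γ) ≤ σ} from fun h => h2 h.2)]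
      norm_num
    · rw [if_neg h1, Set.indicator_of_notMem (show x ∉ {x : ℝ | nd (q * x - γ) ≤ ρ ∧
        nd (r * x - γ) ≤ σ} from fun h => h1 h.1)]
      norm_num
    · rw [if_neg h1, Set.indicator_of_notMem (show x ∉ {x : ℝ | nd (q * x - γ) ≤ ρ ∧
        nd (r * x - γ) ≤ σ} from fun h => h1 h.1)]
      norm_num
  rw [e1, integral_indicator hA]
  simp only [integral_const, smul_eq_mul, mul_one]
  rw [Measure.real, Measure.restrict_apply MeasurableSet.univ, Set.univ_inter]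
  rw [Measure.restrict_apply hA]
  congr 2
  ext x
  unfold EE
  constructor
  · rintro ⟨⟨h1, h2⟩, ⟨-, h3⟩⟩; exact ⟨⟨h2, h3⟩, h1⟩
  · rintro ⟨⟨h2, h3⟩, h1⟩; exact ⟨⟨h1, h2⟩, ⟨h1, h3⟩⟩

/-- [IDS-O2b] **One-sided overlap estimate.** -/
theorem overlap_one (γ : ℝ) (q r : ℕ) (ρ σ : ℝ) (hq : 1 ≤ q) (hr : 1 ≤ r)
    (h0 : 0 ≤ ρ) (h1 : ρ ≤ 1 / 2) (h2 : 0 ≤ σ) (h3 : σ ≤ 1 / 2) :
    (volume (EE γ q ρ ∩ EE γ r σ)).toReal ≤ 2 * σ * (2 * ρ + 1 / (rd r q : ℝ)) := by
  have hr0 : (0 : ℝ) < r := by exact_mod_cast hr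
  rw [o2b_vol]
  set f := o2b_f γ q ρ with hf
  set g := o2b_f γ r σ with hg
  have hfm : Measurable f := o2b_f_meas γ q ρ
  have hgm : Measurable g := o2b_f_meas γ r σ
  have hper : Function.Periodic (fun x => f x * g x) 1 := by
    intro x
    simp only
    rw [hf, hg, o2b_f_per γ q ρ x, o2b_f_per γ r σ x]
  -- shift by `b / r`
  have hshift : ∀ b : ℕ, ∫ x in (0 : ℝ)..1, f x * g x = ∫ x in (0 : ℝ)..1, f (x + b / r) * g x := by
    intro b
    have e1 : ∀ x, f (x + b / r) * g x = f (x + b / r) * g (x + b / r) := by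
      intro x
      congr 1
      rw [hg]
      unfold o2b_f
      have : (r : ℝ) * (x + b / r) - γ = (r * x - γ) + b := by field_simp; ring
      rw [this, o2b_nd_add_nat]
    simp_rw [e1]
    have e2 := intervalIntegral.integral_comp_add_right (a := 0) (b := 1) (fun x => f x * g x)
      ((b : ℝ) / r)
    rw [e2]
    have e3 := hper.intervalIntegral_add_eq 0 (0 + (b : ℝ) / r)
    rw [zero_add] at e3
    rw [e3]
    congr 1
    ring
  have hsum : (r : ℝ) * ∫ x in (0 : ℝ)..1, f x * g x =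
      ∫ x in (0 : ℝ)..1, (∑ b ∈ range r, f (x + b / r)) * g x := by
    have e1 : ∀ x, (∑ b ∈ range r, f (x + (b : ℝ) / r)) * g x =
        ∑ b ∈ range r, f (x + (b : ℝ) / r) * g x := fun x => Finset.sum_mul _ _ _
    simp_rw [e1]
    rw [intervalIntegral.integral_finsetSum]
    · rw [← Finset.sum_congr rfl (fun b _ => hshift b)]
      simp
    · intro b _
      have hm : Measurable fun x => f (x + (b : ℝ) / r) * g x :=
        (hfm.comp (measurable_id.add_const ((b : ℝ) / r))).mul hgm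
      refine o2b_int _ hm 1 ?_ 0 1
      intro x
      rw [abs_mul, abs_of_nonneg (o2b_f_nonneg γ q ρ _), abs_of_nonneg (o2b_f_nonneg γ r σ _)]
      exact mul_le_one₀ (o2b_f_le γ q ρ _) (o2b_f_nonneg γ r σ _) (o2b_f_le γ r σ _)
  have hcount : ∀ x, ∑ b ∈ range r, f (x + (b : ℝ) / r) ≤ r * (2 * ρ + 1 / (rd r q : ℝ)) := by
    intro x
    have h4 := arc_count q r hq hr (q * x - γ) ρ h0
    refine le_trans (le_of_eq ?_) h4
    rw [Finset.card_filter]
    push_cast
    refine Finset.sum_congr rfl fun b _ => ?_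
    rw [hf]
    unfold o2b_f
    have : (q : ℝ) * (x + b / r) - γ = q * x - γ + q * b / r := by ring
    rw [this]
  have hgint : ∫ x in (0 : ℝ)..1, g x = 2 * σ := by
    have h5 := volume_EE γ r σ hr h2 h3
    have h6 := o2b_vol γ r σ r σ
    rw [Set.inter_self, h5] at h6
    rw [h6]
    refine intervalIntegral.integral_congr fun x _ => ?_
    rw [hg]
    unfold o2b_f
    split_ifs <;> norm_num
  have hle : (r : ℝ) * ∫ x in (0 : ℝ)..1, f x * g x ≤
      (r * (2 * ρ + 1 / (rd r q : ℝ))) * (2 * σ) := by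
    rw [hsum, ← hgint, ← intervalIntegral.integral_const_mul]
    have hconst : 0 ≤ (r : ℝ) * (2 * ρ + 1 / (rd r q : ℝ)) := by positivity
    refine intervalIntegral.integral_mono_on zero_le_one ?_ ?_ fun x _ => ?_
    · have hm : Measurable fun x => (∑ b ∈ range r, f (x + (b : ℝ) / r)) * g x :=
        (Finset.measurable_sum (range r) fun (b : ℕ) _ =>
          (hfm.comp (measurable_id.add_const ((b : ℝ) / r)))).mul hgm
      refine o2b_int _ hm (r * (2 * ρ + 1 / (rd r q : ℝ))) ?_ 0 1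
      intro x
      rw [abs_mul, abs_of_nonneg (o2b_f_nonneg γ r σ _),
        abs_of_nonneg (Finset.sum_nonneg fun b _ => o2b_f_nonneg γ q ρ _)]
      calc (∑ b ∈ range r, f (x + (b : ℝ) / r)) * g x ≤ (r * (2 * ρ + 1 / (rd r q : ℝ))) * 1 :=
            mul_le_mul (hcount x) (o2b_f_le γ r σ _) (o2b_f_nonneg γ r σ _) hconst
        _ = _ := mul_one _
    · have hm : Measurable fun x => (r * (2 * ρ + 1 / (rd r q : ℝ))) * g x :=
        measurable_const.mul hgm
      refine o2b_int _ hm (r * (2 * ρ + 1 / (rd r q : ℝ))) ?_ 0 1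
      intro x
      rw [abs_mul, abs_of_nonneg (o2b_f_nonneg γ r σ _), abs_of_nonneg hconst]
      calc _ ≤ (r * (2 * ρ + 1 / (rd r q : ℝ))) * 1 :=
            mul_le_mul_of_nonneg_left (o2b_f_le γ r σ _) hconst
        _ = _ := mul_one _
    · exact mul_le_mul_of_nonneg_right (hcount x) (o2b_f_nonneg γ r σ _)
  have hfin : (r : ℝ) * ∫ x in (0 : ℝ)..1, f x * g x ≤
      r * (2 * σ * (2 * ρ + 1 / (rd r q : ℝ))) := by
    refine hle.trans (le_of_eq ?_)
    ring
  exact le_of_mul_le_mul_left hfin hr0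

end Pool.Agent.IDS
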