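import Pool.Agent.IDS.Base

set_option autoImplicit false

namespace Pool.Agent.IDS

open Finset

/-- [IDS-K1] **Rotation points in a short arc, no small multiple.**

PROOF.  If `x < x'` are both in the set and `x' - x ≤ J`, then with `j = x' - x`:
`nd (j ω) = nd ((ω x' - ϑ) - (ω x - ϑ)) ≤ 2κ` (`nd_sub_le`), contradicting `h`.  So consecutive
elements differ by more than `J`, and the map `x ↦ (x - m) / J` (natural division) is injective on
the set, with values in `{0, ..., X/J}`: at most `X/J + 1` elements. -/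
theorem rot_sparse (ω ϑ κ : ℝ) (m X J : ℕ) (hJ : 1 ≤ J)
    (h : ∀ j : ℕ, 1 ≤ j → j ≤ J → 2 * κ < nd (j * ω)) :
    (((Ico m (m + X)).filter (fun x : ℕ => nd (ω * x - ϑ) ≤ κ)).card : ℝ) ≤
      (X : ℝ) / J + 1 := by
  classical
  have hgap : ∀ x x' : ℕ, nd (ω * x - ϑ) ≤ κ → nd (ω * x' - ϑ) ≤ κ → x < x' → J < x' - x := by
    intro x x' hx hx' hlt
    by_contra hcon
    push Not at hcon
    have h1 := h (x' - x) (by omega) hcon
    have h2 := nd_sub_le (ω * x' - ϑ) (ω * x - ϑ)
    have h3 : (ω * x' - ϑ) - (ω * x - ϑ) = ((x' - x : ℕ) : ℝ) * ω := by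
      rw [Nat.cast_sub hlt.le]
      ring
    rw [h3] at h2
    linarith
  have hJ0 : 0 < J := hJ
  have hcard : ((Ico m (m + X)).filter (fun x : ℕ => nd (ω * x - ϑ) ≤ κ)).card ≤
      (range (X / J + 1)).card := by
    apply Finset.card_le_card_of_injOn (fun x => (x - m) / J)
    · intro x hx
      rw [Finset.mem_coe, mem_filter, mem_Ico] at hx
      rw [Finset.mem_coe, mem_range]
      have : (x - m) / J ≤ X / J := Nat.div_le_div_right (by omega)
      exact Nat.lt_succ_of_le this
    · intro x hx x' hx' heq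
      rw [Finset.mem_coe, mem_filter, mem_Ico] at hx hx'
      simp only at heq
      have key : ∀ y y' : ℕ, m ≤ y → y < y' → (y - m) / J = (y' - m) / J → y' - y < J := by
        intro y y' hy hlt he
        have e1 := Nat.div_add_mod (y - m) J
        have e2 := Nat.div_add_mod (y' - m) J
        have e3 := Nat.mod_lt (y' - m) hJ0
        rw [he] at e1
        omega
      rcases lt_trichotomy x x' with hlt | heq' | hlt
      · have h1 := hgap x x' hx.2 hx'.2 hlt
        have h2 := key x x' hx.1.1 hlt heq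
        omega
      · exact heq'
      · have h1 := hgap x' x hx'.2 hx.2 hlt
        have h2 := key x' x hx'.1.1 hlt heq.symm
        omega
  rw [card_range] at hcard
  have h1 : (((Ico m (m + X)).filter (fun x : ℕ => nd (ω * x - ϑ) ≤ κ)).card : ℝ) ≤
      ((X / J + 1 : ℕ) : ℝ) := by exact_mod_cast hcard
  refine h1.trans ?_
  push_cast
  have h2 : ((X / J : ℕ) : ℝ) ≤ (X : ℝ) / J := Nat.cast_div_le
  linarith

end Pool.Agent.IDS
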