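import Pool.Agent.IDS.Base

set_option autoImplicit false

namespace Pool.Agent.IDS

open Finset

theorem k1b_card (T : Finset ℤ) (L : ℝ) (hL : 0 ≤ L) (h : ∀ a ∈ T, ∀ b ∈ T, (a : ℝ) - b ≤ L) :
    (T.card : ℝ) ≤ L + 1 := by
  rcases T.eq_empty_or_nonempty with h0 | h0
  · rw [h0, Finset.card_empty, Nat.cast_zero]
    linarith
  · have h1 : T ⊆ Finset.Icc (T.min' h0) (T.max' h0) :=
      fun a ha => Finset.mem_Icc.2 ⟨T.min'_le a ha, T.le_max' a ha⟩
    have h2 := Finset.card_le_card h1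
    rw [Int.card_Icc] at h2
    have h3 := h _ (T.max'_mem h0) _ (T.min'_mem h0)
    have h4 : T.min' h0 ≤ T.max' h0 := T.min'_le _ (T.max'_mem h0)
    have h5 : ((T.card : ℤ)) ≤ T.max' h0 + 1 - T.min' h0 := by omega
    have h6 : (T.card : ℝ) ≤ (T.max' h0 : ℝ) + 1 - T.min' h0 := by exact_mod_cast h5
    linarith

theorem k1b_cardN (T : Finset ℕ) (L : ℝ) (hL : 0 ≤ L) (h : ∀ a ∈ T, ∀ b ∈ T, (a : ℝ) - b ≤ L) :
    (T.card : ℝ) ≤ L + 1 := by
  have h1 := k1b_card (T.map Nat.castEmbedding) L hL (by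
    intro a ha b hb
    obtain ⟨a', ha', rfl⟩ := Finset.mem_map.1 ha
    obtain ⟨b', hb', rfl⟩ := Finset.mem_map.1 hb
    simpa using h a' ha' b' hb')
  rwa [Finset.card_map] at h1

theorem k1b_class (A : Finset ℕ) (c s κ L : ℝ) (hs : 0 < |s|) (hκ : 0 ≤ κ) (hL : 0 ≤ L)
    (hdiff : ∀ y ∈ A, ∀ y' ∈ A, (y : ℝ) - y' ≤ L)
    (hn : ∀ y ∈ A, ∃ n : ℤ, |c + y * s - n| ≤ κ) :
    (A.card : ℝ) ≤ (L * |s| + 2 * κ + 1) * (2 * κ / |s| + 1) := by
  have hr : ∀ y ∈ A, |c + y * s - round (c + y * s)| ≤ κ := by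
    intro y hy
    obtain ⟨n, hn⟩ := hn y hy
    exact (round_le _ n).trans hn
  set g : ℕ → ℤ := fun y => round (c + y * s) with hg
  have h1 : (A.card : ℝ) = ∑ b ∈ A.image g, ((A.filter (fun y => g y = b)).card : ℝ) := by
    rw [Finset.card_eq_sum_card_image g A]
    push_cast
    rfl
  have h2 : ∀ b ∈ A.image g, ((A.filter (fun y => g y = b)).card : ℝ) ≤ 2 * κ / |s| + 1 := by
    intro b _
    apply k1b_cardN _ _ (by positivity)
    intro y hy y' hy'
    rw [Finset.mem_filter] at hy hy'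
    have e1 := hr y hy.1
    have e2 := hr y' hy'.1
    have e3 : round (c + y * s) = b := hy.2
    have e4 : round (c + y' * s) = b := hy'.2
    rw [e3] at e1
    rw [e4] at e2
    have e5 : |((y : ℝ) - y') * s| ≤ 2 * κ := by
      have e6 : ((y : ℝ) - y') * s = (c + y * s - b) - (c + y' * s - b) := by ring
      rw [e6]
      exact (abs_sub _ _).trans (by linarith)
    rw [abs_mul] at e5
    rw [le_div_iff₀ hs]
    exact (mul_le_mul_of_nonneg_right (le_abs_self _) hs.le).trans e5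
  have h3 : ((A.image g).card : ℝ) ≤ L * |s| + 2 * κ + 1 := by
    apply k1b_card _ _ (by positivity)
    intro b hb b' hb'
    obtain ⟨y, hy, rfl⟩ := Finset.mem_image.1 hb
    obtain ⟨y', hy', rfl⟩ := Finset.mem_image.1 hb'
    have e1 := abs_le.1 (hr y hy)
    have e2 := abs_le.1 (hr y' hy')
    have e5 : |(y : ℝ) - y'| ≤ L := by
      rw [abs_le]
      constructor
      · have := hdiff y' hy' y hy
        linarith
      · exact hdiff y hy y' hy'
    have e6 : ((y : ℝ) - y') * s ≤ L * |s| := by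
      refine (le_abs_self _).trans ?_
      rw [abs_mul]
      exact mul_le_mul_of_nonneg_right e5 hs.le
    show (round (c + y * s) : ℝ) - (round (c + y' * s) : ℝ) ≤ L * |s| + 2 * κ
    have e7 : ((y : ℝ) - y') * s = y * s - y' * s := by ring
    linarith [e1.1, e1.2, e2.1, e2.2]
  calc (A.card : ℝ) = ∑ b ∈ A.image g, ((A.filter (fun y => g y = b)).card : ℝ) := h1
    _ ≤ ∑ b ∈ A.image g, (2 * κ / |s| + 1) := Finset.sum_le_sum h2
    _ = (A.image g).card * (2 * κ / |s| + 1) := by rw [Finset.sum_const, nsmul_eq_mul]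
    _ ≤ (L * |s| + 2 * κ + 1) * (2 * κ / |s| + 1) :=
        mul_le_mul_of_nonneg_right h3 (by positivity)

/-- [IDS-K1] **Rotation points in a short arc, with a small multiple.**

PROOF.  Let `ρ = nd (j ω) > 0`, `s = j ω - round (j ω)`, `|s| = ρ`.  Split `[m, m+X)` into the `j`
residue classes mod `j`; the elements of one class are `x₀ + j y`, `0 ≤ y < Y`, with
`Y ≤ X/j + 1`; modulo `1`: `ω (x₀ + j y) - ϑ ≡ c₀ + y s`, so the condition is
`|c₀ + y s - n| ≤ κ` for some integer `n`.  For a fixed `n` at most `2κ/ρ + 1` values of `y` satisfy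
this (an interval of length `2κ/ρ`), and the relevant `n` lie in an interval of length
`(Y-1)ρ + 2κ`, so there are at most `(Y-1)ρ + 2κ + 1 ≤ Xρ/j + 2κ + 1` of them.
Total: `j (Xρ/j + 2κ + 1)(2κ/ρ + 1) = (Xρ + (2κ+1) j)(2κ/ρ + 1)
= 2κX + Xρ + (2κ+1) j (2κ/ρ+1) ≤ 4κX + (5/4) j · 4κ/ρ`, using `ρ ≤ 2κ` (so `1 ≤ 2κ/ρ`) and
`κ ≤ 1/8`. -/
theorem rot_dense (ω ϑ κ : ℝ) (m X j : ℕ) (hκ : κ ≤ 1 / 8) (hj : 1 ≤ j)
    (h0 : 0 < nd (j * ω)) (h1 : nd (j * ω) ≤ 2 * κ) :
    (((Ico m (m + X)).filter (fun x : ℕ => nd (ω * x - ϑ) ≤ κ)).card : ℝ) ≤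
      4 * κ * X + 5 * κ * j / nd (j * ω) := by
  classical
  have hκ0 : 0 < κ := by linarith
  have hj0 : (0 : ℝ) < j := by exact_mod_cast hj
  set S := (Ico m (m + X)).filter (fun x : ℕ => nd (ω * x - ϑ) ≤ κ) with hS
  set s : ℝ := j * ω - round (j * ω) with hsdef
  have hsabs : |s| = nd (j * ω) := rfl
  have hs : 0 < |s| := by rw [hsabs]; exact h0
  have h2 : (S.card : ℝ) = ∑ r ∈ range j, ((S.filter (fun x => x % j = r)).card : ℝ) := by
    rw [Finset.card_eq_sum_card_fiberwise (f := fun x => x % j) (t := range j)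
      (fun x _ => Finset.mem_coe.2 (Finset.mem_range.2 (Nat.mod_lt x hj)))]
    push_cast
    rfl
  have h3 : ∀ r ∈ range j, ((S.filter (fun x => x % j = r)).card : ℝ) ≤
      ((X : ℝ) / j * |s| + 2 * κ + 1) * (2 * κ / |s| + 1) := by
    intro r _
    have h4 : (S.filter (fun x => x % j = r)).card =
        ((S.filter (fun x => x % j = r)).image (fun x => x / j)).card := by
      rw [Finset.card_image_of_injOn]
      intro x hx x' hx' hxx
      rw [Finset.mem_coe, Finset.mem_filter] at hx hx'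
      have e1 := Nat.div_add_mod x j
      have e2 := Nat.div_add_mod x' j
      have e3 : x / j = x' / j := hxx
      rw [← e1, ← e2, e3, hx.2, hx'.2]
    rw [h4]
    apply k1b_class _ (ω * r - ϑ) s κ _ hs hκ0.le (by positivity)
    · intro y hy y' hy'
      obtain ⟨x, hx, rfl⟩ := Finset.mem_image.1 hy
      obtain ⟨x', hx', rfl⟩ := Finset.mem_image.1 hy'
      rw [Finset.mem_filter] at hx hx'
      have m1 := (Finset.mem_filter.1 hx.1).1
      have m2 := (Finset.mem_filter.1 hx'.1).1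
      rw [Finset.mem_Ico] at m1 m2
      have e1 := Nat.div_add_mod x j
      have e2 := Nat.div_add_mod x' j
      rw [hx.2] at e1
      rw [hx'.2] at e2
      have e3 : (j : ℝ) * ((x / j : ℕ) : ℝ) + r = x := by exact_mod_cast e1
      have e4 : (j : ℝ) * ((x' / j : ℕ) : ℝ) + r = x' := by exact_mod_cast e2
      have e5 : (x : ℝ) - x' ≤ X := by
        have : x ≤ x' + X := by omega
        have : (x : ℝ) ≤ x' + X := by exact_mod_cast this
        linarith
      rw [le_div_iff₀ hj0]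
      nlinarith
    · intro y hy
      obtain ⟨x, hx, rfl⟩ := Finset.mem_image.1 hy
      rw [Finset.mem_filter] at hx
      have m1 := (Finset.mem_filter.1 hx.1).2
      have e1 := Nat.div_add_mod x j
      rw [hx.2] at e1
      have e3 : (j : ℝ) * ((x / j : ℕ) : ℝ) + r = x := by exact_mod_cast e1
      obtain ⟨n, hn⟩ := exists_int_abs_sub_eq_nd (ω * x - ϑ)
      have key : ∀ y : ℕ, (j : ℝ) * y + r = x → ∃ n : ℤ, |ω * r - ϑ + y * s - n| ≤ κ := by
        intro y hy
        refine ⟨n - (y : ℤ) * round ((j : ℝ) * ω), ?_⟩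
        have e4 : ω * r - ϑ + (y : ℝ) * s -
            ((n - (y : ℤ) * round ((j : ℝ) * ω) : ℤ) : ℝ) = ω * x - ϑ - n := by
          rw [← hy, hsdef]
          push_cast
          ring
        rw [e4, hn]
        exact m1
      exact key _ e3
  have h5 : (S.card : ℝ) ≤ j * (((X : ℝ) / j * |s| + 2 * κ + 1) * (2 * κ / |s| + 1)) := by
    rw [h2]
    refine (Finset.sum_le_sum h3).trans ?_
    rw [Finset.sum_const, Finset.card_range, nsmul_eq_mul]
  refine h5.trans ?_
  rw [← hsabs]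
  rw [← hsabs] at h1
  set ρ := |s| with hρ
  have h6 : (j : ℝ) * (((X : ℝ) / j * ρ + 2 * κ + 1) * (2 * κ / ρ + 1)) =
      2 * κ * X + X * ρ + (2 * κ + 1) * j * (2 * κ / ρ + 1) := by
    field_simp
    ring
  rw [h6]
  have h7 : 1 ≤ 2 * κ / ρ := by
    rw [le_div_iff₀ hs]
    linarith
  have h8 : (X : ℝ) * ρ ≤ X * (2 * κ) := mul_le_mul_of_nonneg_left h1 (Nat.cast_nonneg X)
  have h9 : (2 * κ + 1) * j * (2 * κ / ρ + 1) ≤ (5 / 4) * j * (2 * (2 * κ / ρ)) := by
    apply mul_le_mul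
    · apply mul_le_mul_of_nonneg_right _ hj0.le
      linarith
    · linarith
    · positivity
    · positivity
  have h10 : (5 / 4) * (j : ℝ) * (2 * (2 * κ / ρ)) = 5 * κ * j / ρ := by
    field_simp
    ring
  rw [h10] at h9
  linarith

end Pool.Agent.IDS
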