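import Pool.Agent.IDS.T7a

set_option autoImplicit false

namespace Pool.Agent.IDS

open Finset Matrix

/-- label sequences from `v` to `v'` -/
def t8_A (Lam : Finset (ℕ × ℕ × ℕ × ℕ)) (k : ℕ) (v v' : ℕ) :
    Finset (Fin k → ℕ × ℕ × ℕ × ℕ) :=
  (Fintype.piFinset (fun _ : Fin k => Lam)).filter (fun f =>
    v' * ∏ i, ((f i).1 * (f i).2.2.2) = v * ∏ i, ((f i).2.1 * (f i).2.2.1))

/-- labels of one step from `v` to `v'` -/
def t8_B (Lam : Finset (ℕ × ℕ × ℕ × ℕ)) (v v' : ℕ) : Finset (ℕ × ℕ × ℕ × ℕ) :=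
  Lam.filter (fun l => v' * (l.1 * l.2.2.2) = v * (l.2.1 * l.2.2.1))

theorem t8_B_le_A (Lam : Finset (ℕ × ℕ × ℕ × ℕ)) (v v' : ℕ) :
    (t8_B Lam v v').card ≤ (t8_A Lam 1 v v').card := by
  refine Finset.card_le_card_of_injOn (fun l => fun _ : Fin 1 => l) ?_ ?_
  · intro l hl
    simp only [t8_B, Finset.coe_filter, Set.mem_ofPred_eq] at hl
    simp only [t8_A, Finset.coe_filter, Set.mem_ofPred_eq, Fintype.mem_piFinset]
    refine ⟨fun _ => hl.1, ?_⟩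
    simpa using hl.2
  · intro a _ b _ hab
    exact congrFun hab 0

/-- concatenation of label sequences -/
theorem t8_step (Lam : Finset (ℕ × ℕ × ℕ × ℕ))
    (hLpos : ∀ l ∈ Lam, 0 < l.1 ∧ 0 < l.2.1 ∧ 0 < l.2.2.1 ∧ 0 < l.2.2.2)
    (V : Finset ℕ) (k : ℕ) (v v' : ℕ) :
    ∑ t : V, (t8_A Lam k v t).card * (t8_B Lam t v').card ≤ (t8_A Lam (k + 1) v v').card := by
  classical
  have h1 : ∑ t : V, (t8_A Lam k v t).card * (t8_B Lam t v').card =
      ((Finset.univ : Finset V).sigma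
        (fun t => (t8_A Lam k v t) ×ˢ (t8_B Lam t v'))).card := by
    rw [Finset.card_sigma]
    refine Finset.sum_congr rfl fun t _ => ?_
    rw [Finset.card_product]
  rw [h1]
  refine Finset.card_le_card_of_injOn
    (fun p : (Σ _ : V, (Fin k → ℕ × ℕ × ℕ × ℕ) × (ℕ × ℕ × ℕ × ℕ)) =>
      (Fin.snoc (α := fun _ => ℕ × ℕ × ℕ × ℕ) p.2.1 p.2.2 :
        Fin (k + 1) → ℕ × ℕ × ℕ × ℕ)) ?_ ?_
  · rintro ⟨t, f, l⟩ hp
    simp only [Finset.coe_sigma, Set.mem_sigma_iff, Finset.mem_coe, Finset.mem_product, t8_A,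
      t8_B, Finset.mem_filter, Fintype.mem_piFinset] at hp
    obtain ⟨_, ⟨hf, hfe⟩, hl, hle⟩ := hp
    simp only [t8_A, Finset.coe_filter, Set.mem_ofPred_eq, Fintype.mem_piFinset]
    refine ⟨?_, ?_⟩
    · intro i
      refine Fin.lastCases ?_ (fun j => ?_) i
      · rw [Fin.snoc_last]; exact hl
      · rw [Fin.snoc_castSucc]; exact hf j
    · rw [Fin.prod_univ_castSucc, Fin.prod_univ_castSucc]
      simp only [Fin.snoc_castSucc, Fin.snoc_last]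
      calc v' * ((∏ i, ((f i).1 * (f i).2.2.2)) * (l.1 * l.2.2.2)) =
          (∏ i, ((f i).1 * (f i).2.2.2)) * (v' * (l.1 * l.2.2.2)) := by ring
        _ = (∏ i, ((f i).1 * (f i).2.2.2)) * (t * (l.2.1 * l.2.2.1)) := by rw [hle]
        _ = (t * ∏ i, ((f i).1 * (f i).2.2.2)) * (l.2.1 * l.2.2.1) := by ring
        _ = (v * ∏ i, ((f i).2.1 * (f i).2.2.1)) * (l.2.1 * l.2.2.1) := by rw [hfe]
        _ = _ := by ring
  · rintro ⟨t, f, l⟩ hp ⟨t', f', l'⟩ hp' heq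
    have heq' : (Fin.snoc (α := fun _ => ℕ × ℕ × ℕ × ℕ) f l : Fin (k + 1) → ℕ × ℕ × ℕ × ℕ) =
      Fin.snoc (α := fun _ => ℕ × ℕ × ℕ × ℕ) f' l' := heq
    have hff : f = f' := by
      funext i
      have := congrFun heq' i.castSucc
      rwa [Fin.snoc_castSucc, Fin.snoc_castSucc] at this
    have hll : l = l' := by
      have := congrFun heq' (Fin.last k)
      rwa [Fin.snoc_last, Fin.snoc_last] at this
    subst hff hll
    simp only [Finset.coe_sigma, Set.mem_sigma_iff, Finset.mem_coe, Finset.mem_product, t8_A,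
      t8_B, Finset.mem_filter, Fintype.mem_piFinset] at hp hp'
    obtain ⟨_, ⟨hf, hfe⟩, _, _⟩ := hp
    obtain ⟨_, ⟨_, hfe'⟩, _, _⟩ := hp'
    have hpos : 0 < ∏ i, ((f i).1 * (f i).2.2.2) :=
      Finset.prod_pos fun i _ => Nat.mul_pos (hLpos _ (hf i)).1 (hLpos _ (hf i)).2.2.2
    have htt : (t : ℕ) = t' := by
      apply Nat.eq_of_mul_eq_mul_right hpos
      rw [hfe, hfe']
    have htt' : t = t' := Subtype.ext htt
    subst htt'
    rfl

/-- one step -/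
theorem t8_one (V W : Finset ℕ) (μ ν : ℕ → ℝ) (hμ : ∀ v, 0 ≤ μ v)
    (E : Finset (ℕ × ℕ)) (hE : E ⊆ V ×ˢ W)
    (Lam : Finset (ℕ × ℕ × ℕ × ℕ)) (y : ℝ) (hy : 0 ≤ y)
    (hV : ∀ v ∈ V, 0 < v) (hW : ∀ w ∈ W, 0 < w ∧ ν w ≤ y)
    (hLam : ∀ v v' w, (v, w) ∈ E → (v', w) ∈ E → (rd v w, rd w v, rd v' w, rd w v') ∈ Lam)
    (i j : V) :
    SM μ ν V W E i j ≤ Real.sqrt (μ i) * Real.sqrt (μ j) * y * ((t8_B Lam i j).card : ℝ) := by
  classical
  unfold SM
  rw [← Finset.sum_filter]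
  have h1 : ∑ w ∈ W.filter (fun w => ((i : ℕ), w) ∈ E ∧ ((j : ℕ), w) ∈ E),
      ν w * (Real.sqrt (μ i) * Real.sqrt (μ j)) ≤
      ∑ w ∈ W.filter (fun w => ((i : ℕ), w) ∈ E ∧ ((j : ℕ), w) ∈ E),
        y * (Real.sqrt (μ i) * Real.sqrt (μ j)) := by
    refine Finset.sum_le_sum fun w hw => ?_
    exact mul_le_mul_of_nonneg_right (hW w (Finset.mem_filter.1 hw).1).2 (by positivity)
  refine h1.trans ?_
  rw [Finset.sum_const, nsmul_eq_mul]
  have h2 : (W.filter (fun w => ((i : ℕ), w) ∈ E ∧ ((j : ℕ), w) ∈ E)).card ≤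
      (t8_B Lam i j).card := by
    refine Finset.card_le_card_of_injOn
      (fun w => (rd i w, rd w i, rd j w, rd w j)) ?_ ?_
    · intro w hw
      simp only [Finset.coe_filter, Set.mem_ofPred_eq] at hw
      obtain ⟨_, h3, h4⟩ := hw
      simp only [t8_B, Finset.coe_filter, Set.mem_ofPred_eq]
      refine ⟨hLam _ _ _ h3 h4, ?_⟩
      have e1 : (i : ℕ) * rd w i = w * rd i w := rd_mul w i
      have e2 : (j : ℕ) * rd w j = w * rd j w := rd_mul w j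
      calc (j : ℕ) * (rd i w * rd w j) = ((j : ℕ) * rd w j) * rd i w := by ring
        _ = (w * rd j w) * rd i w := by rw [e2]
        _ = (w * rd i w) * rd j w := by ring
        _ = ((i : ℕ) * rd w i) * rd j w := by rw [e1]
        _ = _ := by ring
    · intro w hw w' hw' heq
      simp only [Prod.mk.injEq] at heq
      obtain ⟨h3, h4, -, -⟩ := heq
      have e1 : (i : ℕ) * rd w i = w * rd i w := rd_mul w i
      have e2 : (i : ℕ) * rd w' i = w' * rd i w' := rd_mul w' i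
      rw [← h3, ← h4, e1] at e2
      exact Nat.eq_of_mul_eq_mul_right (rd_pos (hV i i.2)) e2
  have h3 : ((W.filter (fun w => ((i : ℕ), w) ∈ E ∧ ((j : ℕ), w) ∈ E)).card : ℝ) ≤
      ((t8_B Lam i j).card : ℝ) := by exact_mod_cast h2
  calc ((W.filter (fun w => ((i : ℕ), w) ∈ E ∧ ((j : ℕ), w) ∈ E)).card : ℝ) *
        (y * (Real.sqrt (μ i) * Real.sqrt (μ j))) ≤
      ((t8_B Lam i j).card : ℝ) * (y * (Real.sqrt (μ i) * Real.sqrt (μ j))) :=
        mul_le_mul_of_nonneg_right h3 (by positivity)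
    _ = _ := by ring

/-- powers -/
theorem t8_pow (V W : Finset ℕ) (μ ν : ℕ → ℝ) (hμ : ∀ v, 0 ≤ μ v) (hν : ∀ v, 0 ≤ ν v)
    (E : Finset (ℕ × ℕ)) (hE : E ⊆ V ×ˢ W)
    (Lam : Finset (ℕ × ℕ × ℕ × ℕ)) (x y : ℝ) (hy : 0 ≤ y)
    (hV : ∀ v ∈ V, 0 < v ∧ μ v ≤ x) (hW : ∀ w ∈ W, 0 < w ∧ ν w ≤ y)
    (hLpos : ∀ l ∈ Lam, 0 < l.1 ∧ 0 < l.2.1 ∧ 0 < l.2.2.1 ∧ 0 < l.2.2.2)
    (hLam : ∀ v v' w, (v, w) ∈ E → (v', w) ∈ E → (rd v w, rd w v, rd v' w, rd w v') ∈ Lam)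
    (k : ℕ) (i j : V) :
    ((SM μ ν V W E) ^ (k + 1)) i j ≤
      Real.sqrt (μ i) * Real.sqrt (μ j) * x ^ k * y ^ (k + 1) *
        ((t8_A Lam (k + 1) i j).card : ℝ) := by
  have hone := t8_one V W μ ν hμ E hE Lam y hy (fun v hv => (hV v hv).1) hW hLam
  have hS0 : ∀ i j : V, 0 ≤ SM μ ν V W E i j := by
    intro i j
    unfold SM
    refine Finset.sum_nonneg fun w _ => ?_
    split_ifs
    · exact mul_nonneg (hν w) (by positivity)
    · exact le_rfl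
  induction k generalizing i j with
  | zero =>
    rw [zero_add, pow_one, pow_zero, mul_one, pow_one]
    refine (hone i j).trans ?_
    refine mul_le_mul_of_nonneg_left ?_ (by positivity)
    exact_mod_cast t8_B_le_A Lam i j
  | succ k ih =>
    have hx : 0 ≤ x := (hμ i).trans (hV i i.2).2
    rw [pow_succ, Matrix.mul_apply]
    have h1 : ∀ t : V, ((SM μ ν V W E) ^ (k + 1)) i t * SM μ ν V W E t j ≤
        Real.sqrt (μ i) * Real.sqrt (μ j) * x ^ (k + 1) * y ^ (k + 2) *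
          (((t8_A Lam (k + 1) i t).card * (t8_B Lam t j).card : ℕ) : ℝ) := by
      intro t
      refine (mul_le_mul (ih i t) (hone t j) (hS0 t j) (by positivity)).trans ?_
      have hsq : Real.sqrt (μ t) * Real.sqrt (μ t) = μ t := Real.mul_self_sqrt (hμ t)
      have e : Real.sqrt (μ i) * Real.sqrt (μ t) * x ^ k * y ^ (k + 1) *
          ((t8_A Lam (k + 1) i t).card : ℝ) *
          (Real.sqrt (μ t) * Real.sqrt (μ j) * y * ((t8_B Lam t j).card : ℝ)) =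
          (Real.sqrt (μ t) * Real.sqrt (μ t)) * (Real.sqrt (μ i) * Real.sqrt (μ j) * x ^ k *
            y ^ (k + 2) * (((t8_A Lam (k + 1) i t).card : ℝ) * ((t8_B Lam t j).card : ℝ))) := by
        ring
      rw [e, hsq]
      have h2 : μ t * (Real.sqrt (μ i) * Real.sqrt (μ j) * x ^ k *
            y ^ (k + 2) * (((t8_A Lam (k + 1) i t).card : ℝ) * ((t8_B Lam t j).card : ℝ))) ≤
          x * (Real.sqrt (μ i) * Real.sqrt (μ j) * x ^ k *
            y ^ (k + 2) * (((t8_A Lam (k + 1) i t).card : ℝ) * ((t8_B Lam t j).card : ℝ))) :=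
        mul_le_mul_of_nonneg_right (hV t t.2).2 (by positivity)
      refine h2.trans (le_of_eq ?_)
      push_cast
      ring
    refine (Finset.sum_le_sum fun t _ => h1 t).trans ?_
    rw [← Finset.mul_sum, ← Nat.cast_sum]
    refine mul_le_mul_of_nonneg_left ?_ (by positivity)
    exact_mod_cast t8_step Lam hLpos V (k + 1) i j

/-- [IDS-T8] **Powers of the walk matrix.**  Labels `λ = (m, m', l, l')`.

PROOF.  For a step `v → w → v'` (edges `(v,w)`, `(v',w)` of `E`) put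
`m = rd v w, m' = rd w v, l = rd v' w, l' = rd w v'`; `v m' = w m`, `v' l' = w l` (`rd_mul`), so
`v' m l' = v m' l`, and for given `v` the label determines `w` (`w m = v m'`, `m > 0`).
For `v, v' ∈ V` and `k ≥ 0` let
`A_k(v, v') = #{f : Fin k → Lam | v' ∏ (m_i l'_i) = v ∏ (m'_i l_i)}`.
Claim: `(S^k)(v, v') ≤ √(μ v) √(μ v') x^{k-1} y^k A_k(v, v')` for `k ≥ 1`; induction on `k`.
(Remark: the hypothesis `0 ≤ y` is needed for `W = ∅`.) -/
theorem pow_bound (V W : Finset ℕ) (μ ν : ℕ → ℝ) (hμ : ∀ v, 0 ≤ μ v) (hν : ∀ v, 0 ≤ ν v)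
    (E : Finset (ℕ × ℕ)) (hE : E ⊆ V ×ˢ W)
    (Lam : Finset (ℕ × ℕ × ℕ × ℕ)) (x y : ℝ)
    (hV : ∀ v ∈ V, 0 < v ∧ μ v ≤ x) (hW : ∀ w ∈ W, 0 < w ∧ ν w ≤ y)
    (hLpos : ∀ l ∈ Lam, 0 < l.1 ∧ 0 < l.2.1 ∧ 0 < l.2.2.1 ∧ 0 < l.2.2.2)
    (hLam : ∀ v v' w, (v, w) ∈ E → (v', w) ∈ E → (rd v w, rd w v, rd v' w, rd w v') ∈ Lam)
    (hy : 0 ≤ y) (n : ℕ) (hn : 1 ≤ n) :
    Matrix.trace ((SM μ ν V W E) ^ n) ≤
      ms μ V * x ^ (n - 1) * y ^ n *
        (((Fintype.piFinset (fun _ : Fin n => Lam)).filter (fun f =>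
          ∏ i, ((f i).1 * (f i).2.2.2) = ∏ i, ((f i).2.1 * (f i).2.2.1))).card : ℝ) := by
  obtain ⟨k, rfl⟩ : ∃ k, n = k + 1 := ⟨n - 1, by omega⟩
  rw [Nat.add_sub_cancel]
  unfold Matrix.trace
  have h1 : ∀ i : V, Matrix.diag ((SM μ ν V W E) ^ (k + 1)) i ≤
      μ i * (x ^ k * y ^ (k + 1) *
        (((Fintype.piFinset (fun _ : Fin (k + 1) => Lam)).filter (fun f =>
          ∏ i, ((f i).1 * (f i).2.2.2) = ∏ i, ((f i).2.1 * (f i).2.2.1))).card : ℝ)) := by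
    intro i
    rw [Matrix.diag_apply]
    refine (t8_pow V W μ ν hμ hν E hE Lam x y hy hV hW hLpos hLam k i i).trans (le_of_eq ?_)
    have hA : t8_A Lam (k + 1) i i = (Fintype.piFinset (fun _ : Fin (k + 1) => Lam)).filter
        (fun f => ∏ i, ((f i).1 * (f i).2.2.2) = ∏ i, ((f i).2.1 * (f i).2.2.1)) := by
      unfold t8_A
      refine Finset.filter_congr fun f _ => ?_
      exact Nat.mul_right_inj (Nat.pos_iff_ne_zero.1 (hV i i.2).1)
    rw [hA, Real.mul_self_sqrt (hμ i)]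
    ring
  refine (Finset.sum_le_sum fun i _ => h1 i).trans (le_of_eq ?_)
  rw [← Finset.sum_mul, Finset.univ_eq_attach, Finset.sum_attach V (fun v => μ v)]
  unfold ms
  ring

end Pool.Agent.IDS
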