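import Pool.Agent.IDS.T6
import Pool.Agent.IDS.T8

set_option autoImplicit false

namespace Pool.Agent.IDS

open Finset

/-- an admissible label: a pair `(m, m')` of coprime aligned numbers with dyadic sizes `i, j` -/
def LabOK (γ R : ℝ) (C1 i j m m' : ℕ) : Prop :=
  Nat.Coprime m m' ∧ m ≠ m' ∧ 2 ^ i ≤ m ∧ m < 2 ^ (i + 1) ∧ 2 ^ j ≤ m' ∧ m' < 2 ^ (j + 1) ∧
    nd (γ * ((m' : ℝ) - m)) ≤ 2 / R ∧ (m : ℝ) ≤ R ^ C1 ∧ (m' : ℝ) ≤ R ^ C1

theorem t9_big (γ c : ℝ) (τ : ℕ) (h : FT γ c τ) (R : ℝ) (hR : 1 ≤ R) (m m' M : ℕ)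
    (hne : m ≠ m') (hnd : nd (γ * ((m' : ℝ) - m)) ≤ 2 / R) (hm : m < 2 * M) (hm' : m' < 2 * M) :
    c * R / 4 ≤ (2 * (M : ℝ)) ^ τ := by
  obtain ⟨hc, _, hft⟩ := h
  -- the difference
  obtain ⟨q, hq1, hqM, hqnd⟩ : ∃ q : ℕ, 1 ≤ q ∧ q ≤ 2 * M ∧ nd (q * γ) ≤ 2 / R := by
    rcases lt_or_gt_of_ne hne with hlt | hlt
    · refine ⟨m' - m, by omega, by omega, ?_⟩
      have e : ((m' - m : ℕ) : ℝ) * γ = γ * ((m' : ℝ) - m) := by
        rw [Nat.cast_sub hlt.le]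
        ring
      rw [e]
      exact hnd
    · refine ⟨m - m', by omega, by omega, ?_⟩
      have e : ((m - m' : ℕ) : ℝ) * γ = -(γ * ((m' : ℝ) - m)) := by
        rw [Nat.cast_sub hlt.le]
        ring
      rw [e, nd_neg]
      exact hnd
  have h1 := (hft q hq1).trans hqnd
  have hq0 : (0 : ℝ) < (q : ℝ) ^ τ := by
    have : (0 : ℝ) < q := by exact_mod_cast hq1
    positivity
  have hR0 : 0 < R := by linarith
  rw [div_le_div_iff₀ hq0 hR0] at h1
  have h2 : (q : ℝ) ^ τ ≤ (2 * (M : ℝ)) ^ τ := by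
    apply pow_le_pow_left₀ (by positivity)
    exact_mod_cast hqM
  nlinarith

/-- the index equivalence -/
def t9e (n : ℕ) : Fin n ⊕ Fin n ≃ Fin (2 * n) :=
  finSumFinEquiv.trans (finCongr (two_mul n).symm)

/-- two functions on `Fin n` as one function on `Fin (2 n)` -/
def t9J {n : ℕ} (u v : Fin n → ℕ) (k : Fin (2 * n)) : ℕ := Sum.elim u v ((t9e n).symm k)

theorem t9J_inl {n : ℕ} (u v : Fin n → ℕ) (k : Fin n) : t9J u v (t9e n (Sum.inl k)) = u k := by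
  simp [t9J]

theorem t9J_inr {n : ℕ} (u v : Fin n → ℕ) (k : Fin n) : t9J u v (t9e n (Sum.inr k)) = v k := by
  simp [t9J]

theorem t9_all {n : ℕ} {P : Fin (2 * n) → Prop} (h1 : ∀ k : Fin n, P (t9e n (Sum.inl k)))
    (h2 : ∀ k : Fin n, P (t9e n (Sum.inr k))) (k : Fin (2 * n)) : P k := by
  obtain ⟨s, rfl⟩ := (t9e n).surjective k
  rcases s with s | s
  · exact h1 s
  · exact h2 s

theorem t9J_prod {n : ℕ} {A : Type*} [CommMonoid A] (g : ℕ → A) (u v : Fin n → ℕ) :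
    ∏ k, g (t9J u v k) = (∏ k, g (u k)) * ∏ k, g (v k) := by
  rw [← Equiv.prod_comp (t9e n) (fun k => g (t9J u v k)), Fintype.prod_sum_type]
  simp only [t9J_inl, t9J_inr]

theorem t9J_inj {n : ℕ} {u v u' v' : Fin n → ℕ} (h : t9J u v = t9J u' v') : u = u' ∧ v = v' := by
  constructor
  · funext k
    rw [← t9J_inl u v k, h, t9J_inl]
  · funext k
    rw [← t9J_inr u v k, h, t9J_inr]

/-- [IDS-T9] **Number of closed label sequences.**

PROOF.  `n0` from `cw_count` (and `n ≥ 1`).  Let `F` be the filtered set; if it is empty, done.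
To `f ∈ F` associate `p(f) = (y, z)`, `y, z : Fin (2n) → ℕ`:
`y k = m'_k, z k = m_k` for `k < n` and `y (n+k) = l_k, z (n+k) = l'_k`
(`f k = (m_k, m'_k, l_k, l'_k)`); `f ↦ p(f)` is injective.  `∏ y = ∏ m' ∏ l = ∏ m ∏ l' = ∏ z`.
`Y k = 2^j` for `k < n`, `Y k = 2^i` for `k ≥ n`; `2^i, 2^j ≤ R^{C1}` as `F ≠ ∅`, `n ≥ 1`.
If `i ≤ j` take `Lg = {k < n}`, `M = 2^j`; if `j < i` take `Lg = {k ≥ n}`, `M = 2^i`
(`nd (γ (l - l')) = nd (γ (l' - l))`).  `c R/4 ≤ (2M)^τ`: for one label `(m, m')` put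
`q = |m' - m| ≥ 1`, `q < 2M`, `c/q^τ ≤ nd (γ (m'-m)) ≤ 2/R`.
`∏ Y = (2^{i+j})^n`. -/
theorem labels_count (γ c : ℝ) (τ C1 : ℕ) (h : FT γ c τ) :
    ∃ n0 : ℕ, ∀ n : ℕ, n0 ≤ n → ∃ C : ℝ, 1 ≤ C ∧ ∀ (R : ℝ), 1 ≤ R → ∀ (i j : ℕ)
      (Lam : Finset (ℕ × ℕ × ℕ × ℕ)),
      (∀ l ∈ Lam, LabOK γ R C1 i j l.1 l.2.1 ∧ LabOK γ R C1 i j l.2.2.1 l.2.2.2) →
      (((Fintype.piFinset (fun _ : Fin n => Lam)).filter (fun f =>
          ∏ k, ((f k).1 * (f k).2.2.2) = ∏ k, ((f k).2.1 * (f k).2.2.1))).card : ℝ) ≤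
        C * ((2 : ℝ) ^ (i + j)) ^ n * R ^ (-((C1 : ℝ) + 3)) := by
  classical
  obtain ⟨n0, hn0⟩ := cw_count γ c τ C1 h
  refine ⟨max n0 1, fun n hn => ?_⟩
  obtain ⟨C, hC1, hC⟩ := hn0 n ((le_max_left _ _).trans hn)
  have hn1 : 1 ≤ n := (le_max_right _ _).trans hn
  refine ⟨C, hC1, ?_⟩
  intro R hR i j Lam hLam
  set F := (Fintype.piFinset (fun _ : Fin n => Lam)).filter (fun f =>
    ∏ k, ((f k).1 * (f k).2.2.2) = ∏ k, ((f k).2.1 * (f k).2.2.1)) with hF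
  rcases F.eq_empty_or_nonempty with hFe | ⟨f0, hf0⟩
  · rw [hFe, card_empty, Nat.cast_zero]
    positivity
  have hFmem : ∀ f ∈ F, ∀ k, f k ∈ Lam := by
    intro f hf k
    rw [hF, mem_filter, Fintype.mem_piFinset] at hf
    exact hf.1 k
  have hFprod : ∀ f ∈ F, ∏ k, ((f k).1 * (f k).2.2.2) = ∏ k, ((f k).2.1 * (f k).2.2.1) := by
    intro f hf
    rw [hF, mem_filter] at hf
    exact hf.2
  -- one label
  obtain ⟨⟨_, hne0, hi1, hi2, hj1, hj2, hnd0, hi3, hj3⟩, _⟩ := hLam _ (hFmem f0 hf0 ⟨0, hn1⟩)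
  set m0 := (f0 ⟨0, hn1⟩).1 with hm0
  set m0' := (f0 ⟨0, hn1⟩).2.1 with hm0'
  have hiR : ((2 ^ i : ℕ) : ℝ) ≤ R ^ C1 := le_trans (by exact_mod_cast hi1) hi3
  have hjR : ((2 ^ j : ℕ) : ℝ) ≤ R ^ C1 := le_trans (by exact_mod_cast hj1) hj3
  -- the pairs
  let P : (Fin n → ℕ × ℕ × ℕ × ℕ) → (Fin (2 * n) → ℕ) × (Fin (2 * n) → ℕ) := fun f =>
    (t9J (fun k => (f k).2.1) (fun k => (f k).2.2.1),
      t9J (fun k => (f k).1) (fun k => (f k).2.2.2))
  have hPinj : Function.Injective P := by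
    intro f g hfg
    have h1 := t9J_inj (Prod.ext_iff.1 hfg).1
    have h2 := t9J_inj (Prod.ext_iff.1 hfg).2
    funext k
    have a1 := congrFun h1.1 k
    have a2 := congrFun h1.2 k
    have a3 := congrFun h2.1 k
    have a4 := congrFun h2.2 k
    exact Prod.ext a3 (Prod.ext a1 (Prod.ext a2 a4))
  let Y : Fin (2 * n) → ℕ := t9J (fun _ => 2 ^ j) (fun _ => 2 ^ i)
  have hY : ∀ k, 1 ≤ Y k ∧ (Y k : ℝ) ≤ R ^ C1 := by
    apply t9_all
    · intro k
      simp only [Y, t9J_inl]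
      exact ⟨Nat.one_le_two_pow, hjR⟩
    · intro k
      simp only [Y, t9J_inr]
      exact ⟨Nat.one_le_two_pow, hiR⟩
  have hT : ∀ p ∈ F.image P, (∀ k, Y k ≤ p.1 k ∧ p.1 k < 2 * Y k) ∧ (∀ k, 0 < p.2 k) ∧
        (∀ k, Nat.Coprime (p.1 k) (p.2 k)) ∧ ∏ k, p.1 k = ∏ k, p.2 k ∧
        (∀ k, nd (γ * ((p.1 k : ℝ) - p.2 k)) ≤ 2 / R) ∧
        (∀ k, (p.1 k : ℝ) ≤ R ^ C1) := by
    intro p hp
    rw [mem_image] at hp
    obtain ⟨f, hf, rfl⟩ := hp
    have hl := fun k => hLam _ (hFmem f hf k)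
    refine ⟨?_, ?_, ?_, ?_, ?_, ?_⟩
    · apply t9_all
      · intro k
        simp only [P, Y, t9J_inl]
        obtain ⟨⟨_, _, _, _, h5, h6, _, _, _⟩, _⟩ := hl k
        exact ⟨h5, by rw [pow_succ] at h6; omega⟩
      · intro k
        simp only [P, Y, t9J_inr]
        obtain ⟨_, ⟨_, _, h5, h6, _, _, _, _, _⟩⟩ := hl k
        exact ⟨h5, by rw [pow_succ] at h6; omega⟩
    · apply t9_all
      · intro k
        simp only [P, t9J_inl]
        obtain ⟨⟨_, _, h5, _, _, _, _, _, _⟩, _⟩ := hl k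
        exact lt_of_lt_of_le (by positivity) h5
      · intro k
        simp only [P, t9J_inr]
        obtain ⟨_, ⟨_, _, _, _, h5, _, _, _, _⟩⟩ := hl k
        exact lt_of_lt_of_le (by positivity) h5
    · apply t9_all
      · intro k
        simp only [P, t9J_inl]
        exact (hl k).1.1.symm
      · intro k
        simp only [P, t9J_inr]
        exact (hl k).2.1
    · have h1 := t9J_prod (fun x => x) (fun k => (f k).2.1) (fun k => (f k).2.2.1)
      have h2 := t9J_prod (fun x => x) (fun k => (f k).1) (fun k => (f k).2.2.2)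
      have h3 := hFprod f hf
      rw [prod_mul_distrib, prod_mul_distrib] at h3
      simp only [P]
      rw [h1, h2]
      exact h3.symm
    · apply t9_all
      · intro k
        simp only [P, t9J_inl]
        exact (hl k).1.2.2.2.2.2.2.1
      · intro k
        simp only [P, t9J_inr]
        have h5 := (hl k).2.2.2.2.2.2.2.1
        rw [← nd_neg] at h5
        have e : -(γ * (((f k).2.2.2 : ℝ) - (f k).2.2.1)) =
            γ * (((f k).2.2.1 : ℝ) - (f k).2.2.2) := by ring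
        rw [e] at h5
        exact h5
    · apply t9_all
      · intro k
        simp only [P, t9J_inl]
        exact (hl k).1.2.2.2.2.2.2.2.2
      · intro k
        simp only [P, t9J_inr]
        exact (hl k).2.2.2.2.2.2.2.2.1
  have hprodY : ∏ k, (Y k : ℝ) = ((2 : ℝ) ^ (i + j)) ^ n := by
    have h1 := t9J_prod (n := n) (fun x => (x : ℝ)) (fun _ => 2 ^ j) (fun _ => 2 ^ i)
    simp only [Y]
    rw [h1]
    simp only [prod_const, card_univ, Fintype.card_fin]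
    push_cast
    rw [← mul_pow, ← pow_add, add_comm j i]
  have hcard : (F.image P).card = F.card := card_image_of_injective _ hPinj
  rw [← hcard, ← hprodY]
  rcases le_or_gt i j with hij | hij
  · -- left half
    have hle : (2 : ℕ) ^ i ≤ 2 ^ j := Nat.pow_le_pow_right (by norm_num) hij
    apply hC R hR (univ.map ((Function.Embedding.inl).trans (t9e n).toEmbedding))
      (by rw [card_map, card_univ, Fintype.card_fin]) Y (2 ^ j) hY ?_ Nat.one_le_two_pow hjR ?_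
    · intro p hp
      obtain ⟨a1, a2, a3, a4, a5, a6⟩ := hT p hp
      exact ⟨a1, a2, a3, a4, fun k _ => a5 k, a6⟩
    · intro k hk
      rw [mem_map] at hk
      obtain ⟨k', _, rfl⟩ := hk
      exact t9J_inl _ _ k'
    · apply t9_big γ c τ h R hR m0 m0' (2 ^ j) hne0 hnd0
      · rw [pow_succ] at hi2
        omega
      · rw [pow_succ] at hj2
        omega
  · -- right half
    have hle : (2 : ℕ) ^ j ≤ 2 ^ i := Nat.pow_le_pow_right (by norm_num) hij.le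
    apply hC R hR (univ.map ((Function.Embedding.inr).trans (t9e n).toEmbedding))
      (by rw [card_map, card_univ, Fintype.card_fin]) Y (2 ^ i) hY ?_ Nat.one_le_two_pow hiR ?_
    · intro p hp
      obtain ⟨a1, a2, a3, a4, a5, a6⟩ := hT p hp
      exact ⟨a1, a2, a3, a4, fun k _ => a5 k, a6⟩
    · intro k hk
      rw [mem_map] at hk
      obtain ⟨k', _, rfl⟩ := hk
      exact t9J_inr _ _ k'
    · apply t9_big γ c τ h R hR m0 m0' (2 ^ i) hne0 hnd0
      · rw [pow_succ] at hi2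
        omega
      · rw [pow_succ] at hj2
        omega

end Pool.Agent.IDS
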