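import Pool.Agent.IDS.T7b
import Pool.Agent.IDS.T9

set_option autoImplicit false

namespace Pool.Agent.IDS

open Finset

theorem t10_alg (N : ℕ) (R a b q : ℝ) (hR : 0 < R) (ha : 0 < a) (hb : 0 < b) :
    (1 / (R * b)) ^ N * (q / (R * a)) ^ (N + 1) * (a * b) ^ (N + 1) =
      q ^ (N + 1) * b / R ^ (2 * N + 1) := by
  rw [div_pow, div_pow, one_pow, mul_pow, mul_pow, mul_pow]
  field_simp
  ring

theorem t10_final (n C1 : ℕ) (R W q b C em cd tr : ℝ) (hn : 1 ≤ n) (hR : 1 ≤ R) (hW : 0 ≤ W)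
    (hq : 0 ≤ q) (hb : 0 < b) (hC : 1 ≤ C) (a : ℝ) (ha : 0 < a)
    (hbR : b ≤ R ^ C1)
    (hcd : cd ≤ C * (a * b) ^ n * R ^ (-((C1 : ℝ) + 3)))
    (htr : tr ≤ W * (1 / (R * b)) ^ (n - 1) * (q / (R * a)) ^ n * cd)
    (hem : em ^ (2 * n) ≤ W ^ n * W ^ n * tr) :
    em ^ (2 * n) ≤ C ^ (2 * n) * W ^ (2 * n + 1) * (1 / R ^ (2 * n + 2)) * q ^ n := by
  obtain ⟨N, rfl⟩ : ∃ N, n = N + 1 := ⟨n - 1, by omega⟩
  rw [Nat.add_sub_cancel] at htr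
  have hR0 : 0 < R := by linarith
  have h1 : R ^ (-((C1 : ℝ) + 3)) = 1 / R ^ (C1 + 3) := by
    rw [Real.rpow_neg hR0.le, one_div]
    congr 1
    have : (C1 : ℝ) + 3 = ((C1 + 3 : ℕ) : ℝ) := by push_cast; ring
    rw [this, Real.rpow_natCast]
  rw [h1] at hcd
  have h2 : W * (1 / (R * b)) ^ N * (q / (R * a)) ^ (N + 1) * cd ≤
      W * (1 / (R * b)) ^ N * (q / (R * a)) ^ (N + 1) *
        (C * (a * b) ^ (N + 1) * (1 / R ^ (C1 + 3))) :=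
    mul_le_mul_of_nonneg_left hcd (by positivity)
  have h3 : W * (1 / (R * b)) ^ N * (q / (R * a)) ^ (N + 1) *
        (C * (a * b) ^ (N + 1) * (1 / R ^ (C1 + 3))) =
      W * C * (q ^ (N + 1) * b / R ^ (2 * N + 1)) * (1 / R ^ (C1 + 3)) := by
    rw [← t10_alg N R a b q hR0 ha hb]
    ring
  have h4 : W * C * (q ^ (N + 1) * b / R ^ (2 * N + 1)) * (1 / R ^ (C1 + 3)) ≤
      W * C * (q ^ (N + 1) * R ^ C1 / R ^ (2 * N + 1)) * (1 / R ^ (C1 + 3)) := by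
    apply mul_le_mul_of_nonneg_right _ (by positivity)
    apply mul_le_mul_of_nonneg_left _ (by positivity)
    apply div_le_div_of_nonneg_right _ (by positivity)
    exact mul_le_mul_of_nonneg_left hbR (by positivity)
  have h5 : W * C * (q ^ (N + 1) * R ^ C1 / R ^ (2 * N + 1)) * (1 / R ^ (C1 + 3)) =
      W * C * q ^ (N + 1) * (1 / R ^ (2 * (N + 1) + 2)) := by
    have e1 : R ^ (2 * N + 1) * R ^ (C1 + 3) = R ^ C1 * R ^ (2 * (N + 1) + 2) := by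
      rw [← pow_add, ← pow_add]
      congr 1
      ring
    have e2 : R ^ C1 / (R ^ (2 * N + 1) * R ^ (C1 + 3)) = 1 / R ^ (2 * (N + 1) + 2) := by
      rw [e1]
      field_simp
    calc W * C * (q ^ (N + 1) * R ^ C1 / R ^ (2 * N + 1)) * (1 / R ^ (C1 + 3)) =
        W * C * q ^ (N + 1) * (R ^ C1 / (R ^ (2 * N + 1) * R ^ (C1 + 3))) := by field_simp
      _ = _ := by rw [e2]
  have h6 : tr ≤ W * C * q ^ (N + 1) * (1 / R ^ (2 * (N + 1) + 2)) :=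
    htr.trans (h2.trans (h3.le.trans (h4.trans h5.le)))
  have h7 : C ≤ C ^ (2 * (N + 1)) := le_self_pow₀ hC (by omega)
  calc em ^ (2 * (N + 1)) ≤ W ^ (N + 1) * W ^ (N + 1) * tr := hem
    _ ≤ W ^ (N + 1) * W ^ (N + 1) * (W * C * q ^ (N + 1) * (1 / R ^ (2 * (N + 1) + 2))) :=
      mul_le_mul_of_nonneg_left h6 (by positivity)
    _ = C * W ^ (2 * (N + 1) + 1) * (1 / R ^ (2 * (N + 1) + 2)) * q ^ (N + 1) := by ring
    _ ≤ _ := by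
      apply mul_le_mul_of_nonneg_right _ (by positivity)
      apply mul_le_mul_of_nonneg_right _ (by positivity)
      exact mul_le_mul_of_nonneg_right h7 (by positivity)

theorem t10_comb (n : ℕ) (em V W' W X Y cd tr : ℝ) (hV0 : 0 ≤ V) (hV : V ≤ W) (hW0 : 0 ≤ W')
    (hW : W' ≤ W) (hX : 0 ≤ X) (hY : 0 ≤ Y) (hcd : 0 ≤ cd) (htr : tr ≤ V * X * Y * cd)
    (hem : em ≤ V ^ n * W' ^ n * tr) : em ≤ W ^ n * W ^ n * (W * X * Y * cd) := by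
  have hW2 : 0 ≤ W := hV0.trans hV
  have h1 : V ^ n ≤ W ^ n := pow_le_pow_left₀ hV0 hV _
  have h2 : W' ^ n ≤ W ^ n := pow_le_pow_left₀ hW0 hW _
  have h3 := mul_le_mul h1 h2 (pow_nonneg hW0 _) (pow_nonneg hW2 _)
  have h4 : V * X * Y * cd ≤ W * X * Y * cd :=
    mul_le_mul_of_nonneg_right (mul_le_mul_of_nonneg_right
      (mul_le_mul_of_nonneg_right hV hX) hY) hcd
  have h5 : 0 ≤ W * X * Y * cd := by positivity
  calc em ≤ V ^ n * W' ^ n * tr := hem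
    _ ≤ V ^ n * W' ^ n * (W * X * Y * cd) :=
      mul_le_mul_of_nonneg_left (htr.trans h4) (by positivity)
    _ ≤ _ := mul_le_mul_of_nonneg_right h3 h5

/-- the root of the right-hand side -/
theorem t10_rhs (n : ℕ) (hn : 1 ≤ n) (C W R : ℝ) (u : ℕ) (hW : 0 ≤ W) (hR : 1 ≤ R) :
    (C * W ^ (1 + 1 / (2 * (n : ℝ))) * R ^ (-(1 + 1 / (n : ℝ))) *
      ((1 / 2 : ℝ) ^ ((1 : ℝ) / 2)) ^ u) ^ (2 * n) =
    C ^ (2 * n) * W ^ (2 * n + 1) * (1 / R ^ (2 * n + 2)) * ((1 / 2 : ℝ) ^ u) ^ n := by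
  have hn0 : (n : ℝ) ≠ 0 := by
    have : 0 < (n : ℝ) := by exact_mod_cast hn
    exact this.ne'
  have h1 : (W ^ (1 + 1 / (2 * (n : ℝ)))) ^ (2 * n) = W ^ (2 * n + 1) := by
    rw [← Real.rpow_natCast, ← Real.rpow_mul hW, ← Real.rpow_natCast]
    congr 1
    push_cast
    field_simp
  have h2 : (R ^ (-(1 + 1 / (n : ℝ)))) ^ (2 * n) = 1 / R ^ (2 * n + 2) := by
    have h5 : 1 / R ^ (2 * n + 2) = R ^ (-((2 * n + 2 : ℕ) : ℝ)) := by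
      rw [Real.rpow_neg (by linarith), Real.rpow_natCast, one_div]
    rw [h5, ← Real.rpow_natCast, ← Real.rpow_mul (by linarith)]
    congr 1
    push_cast
    field_simp
  have h3 : (((1 / 2 : ℝ) ^ ((1 : ℝ) / 2)) ^ u) ^ (2 * n) = ((1 / 2 : ℝ) ^ u) ^ n := by
    have h4 : ((1 / 2 : ℝ) ^ ((1 : ℝ) / 2)) ^ 2 = 1 / 2 := by
      rw [← Real.rpow_natCast, ← Real.rpow_mul (by norm_num)]
      norm_num
    rw [← pow_mul, ← pow_mul]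
    calc ((1 / 2 : ℝ) ^ ((1 : ℝ) / 2)) ^ (u * (2 * n)) =
        (((1 / 2 : ℝ) ^ ((1 : ℝ) / 2)) ^ 2) ^ (u * n) := by
          rw [← pow_mul]
          congr 1
          ring
      _ = _ := by rw [h4]
  rw [mul_pow, mul_pow, mul_pow, h1, h2, h3]

/-- [IDS-T10] **Regime II, one dyadic piece.**

PROOF.  Let `n = 2^r` with `r ≥ 1`, `n ≥ n0` (`labels_count`), `E` the set of the statement, `V, W'`
its images under the projections, `Lam` the (finite) set of all `(m,m',l,l')` with both pairs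
`LabOK` (filter of a product of `range`s; classical decidability).  For an edge `(v,w) ∈ E`:
`(rd v w, rd w v)` is `LabOK` (coprime: `rd_coprime`; `≠` because `v ≠ w` and `v rd w v = w rd v w`).
`lcm v w = v rd w v = w rd v w` (`lcm_eq`), so `v (1/2)^{κ v} ≤ 1/(R 2^j)` and, as
`(1/2)^{κ w} = (1/2)^u (1/2)^{κ v}`, `w (1/2)^{κ w} ≤ (1/2)^u/(R 2^i)`; `μ v ≤ φ v (1/2)^{κ v} ≤
v (1/2)^{κ v}` (`Dat.mu_le`, `Nat.totient_le`).  So with `x = 1/(R 2^j)`, `y = (1/2)^u/(R 2^i)`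
`trace_ineq`, `pow_bound`, `labels_count` give
`(em E)^{2n} ≤ W^{2n} · W x^{n-1} y^n · C (2^{i+j})^n R^{-(C1+3)}`, `W = ms μ S`
(`ms μ V ≤ W` etc., `ms_mono`).  `x^{n-1} y^n (2^{i+j})^n = R^{-(2n-1)} 2^j (1/2)^{un}` and
`2^j ≤ R^{C1}` if `E ≠ ∅`; so `(em E)^{2n} ≤ C W^{2n+1} R^{-(2n+2)} (1/2)^{un}`; take `2n`-th roots. -/
theorem kappaII_piece (γ c : ℝ) (τ C1 : ℕ) (h : FT γ c τ) (ε : ℝ) (hε : 0 < ε) :
    ∃ (n : ℕ) (C : ℝ), 1 ≤ n ∧ 1 ≤ C ∧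
      ∀ (S : Finset ℕ) (κ : ℕ → ℕ) (Ω L μ : ℕ → ℝ), Dat ε S κ Ω L μ →
      ∀ (R : ℝ), 1 ≤ R → ∀ (i j u : ℕ),
      em μ μ ((S ×ˢ S).filter (fun e => κ e.2 = κ e.1 + u ∧ e.1 ≠ e.2 ∧
        (Nat.lcm e.1 e.2 : ℝ) * (1 / 2 : ℝ) ^ κ e.1 ≤ 1 / R ∧
        nd (γ * ((rd e.2 e.1 : ℝ) - rd e.1 e.2)) ≤ 2 / R ∧
        (rd e.1 e.2 : ℝ) ≤ R ^ C1 ∧ (rd e.2 e.1 : ℝ) ≤ R ^ C1 ∧
        2 ^ i ≤ rd e.1 e.2 ∧ rd e.1 e.2 < 2 ^ (i + 1) ∧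
        2 ^ j ≤ rd e.2 e.1 ∧ rd e.2 e.1 < 2 ^ (j + 1))) ≤
        C * (ms μ S) ^ (1 + 1 / (2 * (n : ℝ))) * R ^ (-(1 + 1 / (n : ℝ))) *
          ((1 / 2 : ℝ) ^ ((1 : ℝ) / 2)) ^ u := by
  obtain ⟨n0, hn0⟩ := labels_count γ c τ C1 h
  obtain ⟨n, hnn⟩ : ∃ n, n = 2 ^ (n0 + 1) := ⟨_, rfl⟩
  have hn1 : 1 ≤ n := by
    rw [hnn]
    exact Nat.one_le_two_pow
  obtain ⟨C, hC, hcount⟩ := hn0 n (by
    rw [hnn]
    exact (Nat.le_succ n0).trans (Nat.lt_two_pow_self (n := n0 + 1)).le)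
  refine ⟨n, C, hn1, hC, ?_⟩
  intro S κ Ω L μ hdat R hR i j u
  obtain ⟨E, hE⟩ : ∃ E, E = (S ×ˢ S).filter (fun e => κ e.2 = κ e.1 + u ∧ e.1 ≠ e.2 ∧
        (Nat.lcm e.1 e.2 : ℝ) * (1 / 2 : ℝ) ^ κ e.1 ≤ 1 / R ∧
        nd (γ * ((rd e.2 e.1 : ℝ) - rd e.1 e.2)) ≤ 2 / R ∧
        (rd e.1 e.2 : ℝ) ≤ R ^ C1 ∧ (rd e.2 e.1 : ℝ) ≤ R ^ C1 ∧
        2 ^ i ≤ rd e.1 e.2 ∧ rd e.1 e.2 < 2 ^ (i + 1) ∧
        2 ^ j ≤ rd e.2 e.1 ∧ rd e.2 e.1 < 2 ^ (j + 1)) := ⟨_, rfl⟩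
  rw [← hE]
  have hR0 : 0 < R := by linarith
  have hW0 : 0 ≤ ms μ S := ms_nonneg hdat.mu0 S
  have hrhs0 : 0 ≤ C * (ms μ S) ^ (1 + 1 / (2 * (n : ℝ))) *
      R ^ (-(1 + 1 / (n : ℝ))) * ((1 / 2 : ℝ) ^ ((1 : ℝ) / 2)) ^ u := by
    positivity
  rcases E.eq_empty_or_nonempty with hemp | hne
  · rw [hemp]
    unfold em
    rw [Finset.sum_empty]
    exact hrhs0
  rw [← pow_le_pow_iff_left₀ (em_nonneg hdat.mu0 hdat.mu0 E) hrhs0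
    (by omega : 2 * n ≠ 0), t10_rhs _ hn1 C _ R u hW0 hR]
  have hmem : ∀ v w, (v, w) ∈ E → v ∈ S ∧ w ∈ S ∧ κ w = κ v + u ∧ v ≠ w ∧
      (Nat.lcm v w : ℝ) * (1 / 2 : ℝ) ^ κ v ≤ 1 / R ∧
        nd (γ * ((rd w v : ℝ) - rd v w)) ≤ 2 / R ∧
        (rd v w : ℝ) ≤ R ^ C1 ∧ (rd w v : ℝ) ≤ R ^ C1 ∧
        2 ^ i ≤ rd v w ∧ rd v w < 2 ^ (i + 1) ∧
        2 ^ j ≤ rd w v ∧ rd w v < 2 ^ (j + 1) := by
    intro v w hvw
    rw [hE, Finset.mem_filter, Finset.mem_product] at hvw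
    exact ⟨hvw.1.1, hvw.1.2, hvw.2⟩
  have hbR : (2 : ℝ) ^ j ≤ R ^ C1 := by
    obtain ⟨⟨v, w⟩, he⟩ := hne
    obtain ⟨-, -, -, -, -, -, -, h8, -, -, h11, -⟩ := hmem v w he
    have : ((2 ^ j : ℕ) : ℝ) ≤ (rd w v : ℝ) := by exact_mod_cast h11
    push_cast at this
    exact this.trans h8
  -- the labels
  obtain ⟨Lam, hLam⟩ : ∃ Lam : Finset (ℕ × ℕ × ℕ × ℕ), ∀ l, l ∈ Lam ↔
      (LabOK γ R C1 i j l.1 l.2.1 ∧ LabOK γ R C1 i j l.2.2.1 l.2.2.2) := by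
    classical
    refine ⟨(Finset.range (2 ^ (i + 1)) ×ˢ Finset.range (2 ^ (j + 1)) ×ˢ
      Finset.range (2 ^ (i + 1)) ×ˢ Finset.range (2 ^ (j + 1))).filter (fun l =>
        LabOK γ R C1 i j l.1 l.2.1 ∧ LabOK γ R C1 i j l.2.2.1 l.2.2.2), fun l => ?_⟩
    rw [Finset.mem_filter, Finset.mem_product, Finset.mem_product, Finset.mem_product,
      Finset.mem_range, Finset.mem_range, Finset.mem_range, Finset.mem_range]
    constructor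
    · exact fun h => h.2
    · exact fun h => ⟨⟨h.1.2.2.2.1, h.1.2.2.2.2.2.1, h.2.2.2.2.1, h.2.2.2.2.2.2.1⟩, h⟩
  have hlab : ∀ v w, (v, w) ∈ E → LabOK γ R C1 i j (rd v w) (rd w v) := by
    intro v w hvw
    obtain ⟨h1, h2, h3, h4, h5, h6, h7, h8, h9, h10, h11, h12⟩ := hmem v w hvw
    refine ⟨rd_coprime (hdat.pos v h1), ?_, h9, h10, h11, h12, h6, h7, h8⟩
    intro heq
    apply h4
    have h13 := rd_mul w v
    rw [heq] at h13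
    exact (Nat.eq_of_mul_eq_mul_right (rd_pos (hdat.pos w h2)) h13)
  have hVS : E.image Prod.fst ⊆ S := by
    intro v hv
    obtain ⟨⟨v', w⟩, he, rfl⟩ := Finset.mem_image.1 hv
    exact (hmem _ _ he).1
  have hWS : E.image Prod.snd ⊆ S := by
    intro w hw
    obtain ⟨⟨v, w'⟩, he, rfl⟩ := Finset.mem_image.1 hw
    exact (hmem _ _ he).2.1
  have hEVW : E ⊆ E.image Prod.fst ×ˢ E.image Prod.snd := by
    intro e he
    rw [Finset.mem_product]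
    exact ⟨Finset.mem_image_of_mem _ he, Finset.mem_image_of_mem _ he⟩
  have hmuS : ∀ v ∈ S, μ v ≤ v * (1 / 2 : ℝ) ^ κ v := by
    intro v hv
    refine (hdat.mu_le hε hv).trans ?_
    apply mul_le_mul_of_nonneg_right _ (by positivity)
    exact_mod_cast Nat.totient_le v
  have htr := trace_ineq (n0 + 1) (by omega) (E.image Prod.fst) (E.image Prod.snd) μ μ
    hdat.mu0 hdat.mu0 E hEVW
  rw [← hnn] at htr
  have hpow := pow_bound (E.image Prod.fst) (E.image Prod.snd) μ μ hdat.mu0 hdat.mu0 E hEVW Lam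
    (1 / (R * 2 ^ j)) ((1 / 2 : ℝ) ^ u / (R * 2 ^ i)) ?_ ?_ ?_ ?_ (by positivity) n hn1
  · have hcd := hcount R hR i j Lam (fun l hl => (hLam l).1 hl)
    have hVle : ms μ (E.image Prod.fst) ≤ ms μ S := ms_mono hdat.mu0 hVS
    have hWle : ms μ (E.image Prod.snd) ≤ ms μ S := ms_mono hdat.mu0 hWS
    have hV0 : 0 ≤ ms μ (E.image Prod.fst) := ms_nonneg hdat.mu0 _
    have hW0' : 0 ≤ ms μ (E.image Prod.snd) := ms_nonneg hdat.mu0 _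
    rw [pow_add 2 i j] at hcd
    have hx0 : (0 : ℝ) ≤ (1 / (R * 2 ^ j)) ^ (n - 1) := by positivity
    have hy0 : (0 : ℝ) ≤ ((1 / 2 : ℝ) ^ u / (R * 2 ^ i)) ^ n := by positivity
    refine t10_final n C1 R (ms μ S) ((1 / 2 : ℝ) ^ u) (2 ^ j) C _ _
      (ms μ S * (1 / (R * 2 ^ j)) ^ (n - 1) *
        ((1 / 2 : ℝ) ^ u / (R * 2 ^ i)) ^ n * _) hn1 hR hW0 (by positivity)
      (by positivity) hC (2 ^ i) (by positivity) hbR hcd le_rfl ?_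
    exact t10_comb n _ _ _ _ _ _ _ _ hV0 hVle hW0' hWle hx0 hy0 (Nat.cast_nonneg _) hpow htr
  · intro v hv
    obtain ⟨⟨v', w⟩, he, rfl⟩ := Finset.mem_image.1 hv
    obtain ⟨h1, h2, h3, h4, h5, h6, h7, h8, h9, h10, h11, h12⟩ := hmem v' w he
    refine ⟨hdat.pos _ h1, (hmuS _ h1).trans ?_⟩
    show (v' : ℝ) * (1 / 2 : ℝ) ^ κ v' ≤ _
    rw [lcm_eq, Nat.cast_mul] at h5
    rw [le_div_iff₀ (by positivity)]
    rw [le_div_iff₀ hR0] at h5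
    have h13 : ((2 : ℝ) ^ j) ≤ (rd w v' : ℝ) := by exact_mod_cast h11
    calc (v' : ℝ) * (1 / 2 : ℝ) ^ κ v' * (R * 2 ^ j) =
        (v' : ℝ) * (1 / 2 : ℝ) ^ κ v' * R * 2 ^ j := by ring
      _ ≤ (v' : ℝ) * (1 / 2 : ℝ) ^ κ v' * R * rd w v' :=
        mul_le_mul_of_nonneg_left h13 (by positivity)
      _ = (v' : ℝ) * (rd w v' : ℝ) * (1 / 2 : ℝ) ^ κ v' * R := by ring
      _ ≤ 1 := h5
  · intro w hw
    obtain ⟨⟨v, w'⟩, he, rfl⟩ := Finset.mem_image.1 hw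
    obtain ⟨h1, h2, h3, h4, h5, h6, h7, h8, h9, h10, h11, h12⟩ := hmem v w' he
    refine ⟨hdat.pos _ h2, (hmuS _ h2).trans ?_⟩
    show (w' : ℝ) * (1 / 2 : ℝ) ^ κ w' ≤ _
    rw [Nat.lcm_comm, lcm_eq, Nat.cast_mul] at h5
    rw [le_div_iff₀ (by positivity), h3, pow_add]
    rw [le_div_iff₀ hR0] at h5
    have h13 : ((2 : ℝ) ^ i) ≤ (rd v w' : ℝ) := by exact_mod_cast h9
    calc (w' : ℝ) * ((1 / 2 : ℝ) ^ κ v * (1 / 2 : ℝ) ^ u) * (R * 2 ^ i) =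
        (w' : ℝ) * (1 / 2 : ℝ) ^ κ v * (1 / 2 : ℝ) ^ u * R * 2 ^ i := by ring
      _ ≤ (w' : ℝ) * (1 / 2 : ℝ) ^ κ v * (1 / 2 : ℝ) ^ u * R * rd v w' :=
        mul_le_mul_of_nonneg_left h13 (by positivity)
      _ = ((w' : ℝ) * (rd v w' : ℝ) * (1 / 2 : ℝ) ^ κ v * R) * (1 / 2 : ℝ) ^ u := by ring
      _ ≤ 1 * (1 / 2 : ℝ) ^ u := mul_le_mul_of_nonneg_right h5 (by positivity)
      _ = _ := one_mul _
  · intro l hl
    obtain ⟨h1, h2⟩ := (hLam l).1 hl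
    exact ⟨lt_of_lt_of_le (by positivity) h1.2.2.1, lt_of_lt_of_le (by positivity) h1.2.2.2.2.1,
      lt_of_lt_of_le (by positivity) h2.2.2.1, lt_of_lt_of_le (by positivity) h2.2.2.2.2.1⟩
  · intro v v' w h1 h2
    exact (hLam _).2 ⟨hlab v w h1, hlab v' w h2⟩

end Pool.Agent.IDS
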