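import Pool.Agent.IDS.Base
import Pool.Agent.Lib.helper69.DivisorBound

set_option autoImplicit false

namespace Pool.Agent.IDS

open Finset

/-- [IDS-T3] **Number of ordered factorizations.**

PROOF.  Every `f i` divides `b`, so `T ⊆ Fintype.piFinset (fun _ => b.divisors)`, whose cardinality
is `d(b)^{card ι} ≤ d(b)^m`; `d(b) ≤ C₀ b^{δ/(m+1)}`
(`Pool.Agent.Lib.helper69.card_divisors_le_rpow`), so `card T ≤ C₀^m b^{δ m/(m+1)} ≤ C₀^m b^δ`. -/
theorem card_factor (m : ℕ) (δ : ℝ) (hδ : 0 < δ) :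
    ∃ C : ℝ, 1 ≤ C ∧ ∀ (ι : Type) [Fintype ι] [DecidableEq ι], Fintype.card ι ≤ m →
      ∀ (b : ℕ) (T : Finset (ι → ℕ)), 0 < b → (∀ f ∈ T, ∏ i, f i = b) →
      (T.card : ℝ) ≤ C * (b : ℝ) ^ δ := by
  obtain ⟨C₀, hC₀, hdiv⟩ := Pool.Agent.Lib.helper69.card_divisors_le_rpow (δ / (m + 1))
    (by positivity)
  refine ⟨C₀ ^ m, one_le_pow₀ hC₀, ?_⟩
  intro ι _ _ hι b T hb hT
  have hsub : T ⊆ Fintype.piFinset (fun _ : ι => b.divisors) := by
    intro f hf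
    rw [Fintype.mem_piFinset]
    intro i
    rw [Nat.mem_divisors]
    refine ⟨?_, hb.ne'⟩
    rw [← hT f hf]
    exact Finset.dvd_prod_of_mem f (Finset.mem_univ i)
  have hcard : T.card ≤ b.divisors.card ^ Fintype.card ι := by
    refine (Finset.card_le_card hsub).trans (le_of_eq ?_)
    rw [Fintype.card_piFinset]
    simp
  have hd1 : 1 ≤ b.divisors.card := by
    rw [Nat.one_le_iff_ne_zero, Finset.card_ne_zero]
    exact ⟨1, Nat.one_mem_divisors.mpr hb.ne'⟩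
  have hcard2 : T.card ≤ b.divisors.card ^ m :=
    hcard.trans (Nat.pow_le_pow_right hd1 hι)
  have hbR : (1 : ℝ) ≤ b := by exact_mod_cast hb
  calc (T.card : ℝ) ≤ ((b.divisors.card ^ m : ℕ) : ℝ) := by exact_mod_cast hcard2
    _ = (b.divisors.card : ℝ) ^ m := by push_cast; rfl
    _ ≤ (C₀ * (b : ℝ) ^ (δ / (m + 1))) ^ m :=
        pow_le_pow_left₀ (by positivity) (hdiv b hb) m
    _ = C₀ ^ m * (b : ℝ) ^ (δ / (m + 1) * m) := by
        rw [mul_pow, Real.rpow_mul (by positivity), Real.rpow_natCast]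
    _ ≤ C₀ ^ m * (b : ℝ) ^ δ := by
        apply mul_le_mul_of_nonneg_left _ (by positivity)
        apply Real.rpow_le_rpow_of_exponent_le hbR
        rw [div_mul_eq_mul_div, div_le_iff₀ (by positivity)]
        nlinarith

/-- [IDS-T3] **Number of tuples with product in `[Y, 2Y)`.**

PROOF.  Sum `card_factor` over the `Y` values `b ∈ [Y, 2Y)` of the product, `b ≤ 2Y`. -/
theorem card_dyadic (m : ℕ) (δ : ℝ) (hδ : 0 < δ) :
    ∃ C : ℝ, 1 ≤ C ∧ ∀ (ι : Type) [Fintype ι] [DecidableEq ι], Fintype.card ι ≤ m →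
      ∀ (Y : ℕ) (T : Finset (ι → ℕ)), 1 ≤ Y →
      (∀ f ∈ T, Y ≤ ∏ i, f i ∧ ∏ i, f i < 2 * Y) →
      (T.card : ℝ) ≤ C * (Y : ℝ) * (Y : ℝ) ^ δ := by
  obtain ⟨C₀, hC₀, hcf⟩ := card_factor m δ hδ
  refine ⟨C₀ * (2 : ℝ) ^ δ, ?_, ?_⟩
  · have : (1 : ℝ) ≤ (2 : ℝ) ^ δ := Real.one_le_rpow (by norm_num) hδ.le
    nlinarith
  intro ι _ _ hι Y T hY hT
  have hYR : (1 : ℝ) ≤ Y := by exact_mod_cast hY
  have hsum : T.card = ∑ b ∈ Finset.Ico Y (2 * Y), (T.filter (fun f => ∏ i, f i = b)).card := by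
    apply Finset.card_eq_sum_card_fiberwise
    intro f hf
    simp only [Finset.coe_Ico, Set.mem_Ico]
    exact hT f hf
  have hb : ∀ b ∈ Finset.Ico Y (2 * Y),
      ((T.filter (fun f => ∏ i, f i = b)).card : ℝ) ≤ C₀ * (2 * (Y : ℝ)) ^ δ := by
    intro b hb
    rw [Finset.mem_Ico] at hb
    have h1 := hcf ι hι b (T.filter (fun f => ∏ i, f i = b)) (by omega)
      (fun f hf => (Finset.mem_filter.mp hf).2)
    refine h1.trans ?_
    apply mul_le_mul_of_nonneg_left _ (by linarith)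
    apply Real.rpow_le_rpow (by positivity) _ hδ.le
    have : (b : ℝ) < ((2 * Y : ℕ) : ℝ) := by exact_mod_cast hb.2
    push_cast at this
    exact this.le
  rw [hsum]
  push_cast
  refine (Finset.sum_le_sum hb).trans (le_of_eq ?_)
  rw [Finset.sum_const, Nat.card_Ico, nsmul_eq_mul, Real.mul_rpow (by norm_num) (by positivity)]
  have : ((2 * Y - Y : ℕ) : ℝ) = Y := by
    congr 1
    omega
  rw [this]
  ring

/-- [IDS-T3] **Number of tuples with product `≤ P`.**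

PROOF.  Sum `card_factor` over the at most `P` values `1 ≤ b ≤ P` of the product. -/
theorem card_le_prod (m : ℕ) (δ : ℝ) (hδ : 0 < δ) :
    ∃ C : ℝ, 1 ≤ C ∧ ∀ (ι : Type) [Fintype ι] [DecidableEq ι], Fintype.card ι ≤ m →
      ∀ (P : ℝ) (T : Finset (ι → ℕ)), 1 ≤ P →
      (∀ f ∈ T, (∀ i, 0 < f i) ∧ ((∏ i, f i : ℕ) : ℝ) ≤ P) →
      (T.card : ℝ) ≤ C * P * P ^ δ := by
  obtain ⟨C₀, hC₀, hcf⟩ := card_factor m δ hδ
  refine ⟨C₀, hC₀, ?_⟩
  intro ι _ _ hι P T hP hT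
  have hP0 : (0 : ℝ) ≤ P := by linarith
  have hsum : T.card = ∑ b ∈ Finset.Icc 1 ⌊P⌋₊, (T.filter (fun f => ∏ i, f i = b)).card := by
    apply Finset.card_eq_sum_card_fiberwise
    intro f hf
    simp only [Finset.coe_Icc, Set.mem_Icc]
    refine ⟨Nat.one_le_iff_ne_zero.mpr (Finset.prod_ne_zero_iff.mpr
      (fun i _ => ((hT f hf).1 i).ne')), ?_⟩
    exact Nat.le_floor (hT f hf).2
  have hb : ∀ b ∈ Finset.Icc 1 ⌊P⌋₊,
      ((T.filter (fun f => ∏ i, f i = b)).card : ℝ) ≤ C₀ * P ^ δ := by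
    intro b hb
    rw [Finset.mem_Icc] at hb
    have h1 := hcf ι hι b (T.filter (fun f => ∏ i, f i = b)) (by omega)
      (fun f hf => (Finset.mem_filter.mp hf).2)
    refine h1.trans ?_
    apply mul_le_mul_of_nonneg_left _ (by linarith)
    apply Real.rpow_le_rpow (by positivity) _ hδ.le
    exact (Nat.le_floor_iff hP0).mp hb.2
  rw [hsum]
  push_cast
  refine (Finset.sum_le_sum hb).trans ?_
  rw [Finset.sum_const, Nat.card_Icc, nsmul_eq_mul]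
  have h2 : ((⌊P⌋₊ + 1 - 1 : ℕ) : ℝ) ≤ P := by
    rw [Nat.add_sub_cancel]
    exact Nat.floor_le hP0
  have h3 : 0 ≤ C₀ * P ^ δ := by positivity
  calc ((⌊P⌋₊ + 1 - 1 : ℕ) : ℝ) * (C₀ * P ^ δ) ≤ P * (C₀ * P ^ δ) :=
        mul_le_mul_of_nonneg_right h2 h3
    _ = C₀ * P * P ^ δ := by ring

end Pool.Agent.IDS
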