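import Pool.Agent.IDS.T3

set_option autoImplicit false

namespace Pool.Agent.IDS

open Finset

/-- [IDS-T4a] **Rows outside of `I`.**  The matrices of `T` vanish outside of the rows `J`.

PROOF.  The rows are chosen independently: `T ⊆ Fintype.piFinset A`, `A i = {0}` for `i ∉ J`, and
for `i ∈ J` `A i` = the finite set of the rows occurring, `(A i).card ≤ C₀ Y_i Y_i^{δ'}` by
`card_dyadic` with `ι = Fin N`, `m = N`, `δ' = δ/((N+1)(C1+1))`; `Y_i^{δ'} ≤ R^{C1 δ'}`, and the product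
over the at most `N` rows of `R^{C1 δ'}` is `≤ R^δ`. -/
theorem rows_count (N C1 : ℕ) (δ : ℝ) (hδ : 0 < δ) :
    ∃ C : ℝ, 1 ≤ C ∧ ∀ (R : ℝ), 1 ≤ R → ∀ (J : Finset (Fin N)) (Y : Fin N → ℕ),
      (∀ i, 1 ≤ Y i ∧ (Y i : ℝ) ≤ R ^ C1) → ∀ T : Finset (Fin N → Fin N → ℕ),
      (∀ d ∈ T, (∀ i, i ∉ J → ∀ j, d i j = 0) ∧
        ∀ i ∈ J, Y i ≤ ∏ j, d i j ∧ ∏ j, d i j < 2 * Y i) →
      (T.card : ℝ) ≤ C * (∏ i ∈ J, (Y i : ℝ)) * R ^ δ := by
  classical
  obtain ⟨C₀, hC₀, hcd⟩ := card_dyadic N (δ / ((N + 1) * (C1 + 1))) (by positivity)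
  refine ⟨C₀ ^ N, one_le_pow₀ hC₀, ?_⟩
  intro R hR J Y hY T hT
  have hR0 : (0 : ℝ) < R := by linarith
  set δ' : ℝ := δ / ((N + 1) * (C1 + 1)) with hδ'
  have hδ'0 : 0 < δ' := by rw [hδ']; positivity
  set A : Fin N → Finset (Fin N → ℕ) := fun i =>
    if i ∈ J then T.image (fun d => d i) else {0} with hA
  have hsub : T ⊆ Fintype.piFinset A := by
    intro d hd
    rw [Fintype.mem_piFinset]
    intro i
    by_cases hi : i ∈ J
    · simp only [hA, if_pos hi]
      exact Finset.mem_image_of_mem _ hd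
    · simp only [hA, if_neg hi, Finset.mem_singleton]
      funext j
      exact (hT d hd).1 i hi j
  have hcard : (T.card : ℝ) ≤ ∏ i, ((A i).card : ℝ) := by
    have := Finset.card_le_card hsub
    rw [Fintype.card_piFinset] at this
    exact_mod_cast this
  have hRp : (1 : ℝ) ≤ R ^ ((C1 : ℝ) * δ') := Real.one_le_rpow hR (by positivity)
  have hi : ∀ i ∈ (Finset.univ : Finset (Fin N)), ((A i).card : ℝ) ≤
      C₀ * (if i ∈ J then (Y i : ℝ) else 1) * R ^ ((C1 : ℝ) * δ') := by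
    intro i _
    by_cases hi : i ∈ J
    · simp only [hA, if_pos hi]
      have h1 := hcd (Fin N) (by simp) (Y i) (T.image (fun d => d i)) (hY i).1 (by
        intro f hf
        rw [Finset.mem_image] at hf
        obtain ⟨d, hd, rfl⟩ := hf
        exact (hT d hd).2 i hi)
      refine h1.trans ?_
      apply mul_le_mul_of_nonneg_left _ (by positivity)
      rw [Real.rpow_mul hR0.le, Real.rpow_natCast]
      exact Real.rpow_le_rpow (by positivity) (hY i).2 hδ'0.le
    · simp only [hA, if_neg hi, Finset.card_singleton, Nat.cast_one, mul_one]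
      nlinarith
  refine hcard.trans ((Finset.prod_le_prod (fun _ _ => by positivity) hi).trans ?_)
  rw [Finset.prod_mul_distrib, Finset.prod_mul_distrib, Finset.prod_const, Finset.prod_const,
    Finset.card_univ, Fintype.card_fin, Finset.prod_ite_mem, Finset.univ_inter]
  apply mul_le_mul_of_nonneg_left _ (by positivity)
  rw [← Real.rpow_natCast, ← Real.rpow_mul hR0.le]
  apply Real.rpow_le_rpow_of_exponent_le hR
  rw [hδ', mul_div_assoc', div_mul_eq_mul_div, div_le_iff₀ (by positivity)]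
  have hN : (0 : ℝ) ≤ N := by positivity
  have hC : (0 : ℝ) ≤ C1 := by positivity
  nlinarith [mul_nonneg hN hC, mul_nonneg (mul_nonneg hN hC) hδ.le, mul_nonneg hN hδ.le,
    mul_nonneg hC hδ.le]

end Pool.Agent.IDS
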