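import Pool.Agent.IDS.Base

set_option autoImplicit false

namespace Pool.Agent.IDS

open Finset

/-- a divisor of a product splits. -/
theorem t2a_split : ∀ (n : ℕ) (z : Fin n → ℕ) (a : ℕ), a ∣ ∏ j, z j →
    ∃ d : Fin n → ℕ, (∀ j, d j ∣ z j) ∧ ∏ j, d j = a := by
  intro n
  induction n with
  | zero =>
    intro z a h
    refine ⟨fun j => j.elim0, fun j => j.elim0, ?_⟩
    simp only [Finset.univ_eq_empty, Finset.prod_empty] at h ⊢
    exact (Nat.dvd_one.1 h).symm
  | succ n ih =>
    intro z a h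
    rw [Fin.prod_univ_succ] at h
    obtain ⟨a1, a2, h1, h2, h3⟩ := exists_dvd_and_dvd_of_dvd_mul h
    obtain ⟨d, hd, hd'⟩ := ih (fun j => z j.succ) a2 h2
    refine ⟨Fin.cons a1 d, ?_, ?_⟩
    · intro j
      refine Fin.cases ?_ (fun j => ?_) j
      · simpa using h1
      · simpa using hd j
    · rw [Fin.prod_univ_succ]
      simp only [Fin.cons_zero, Fin.cons_succ]
      rw [hd', h3]

theorem t2a_aux : ∀ (m n : ℕ) (y : Fin m → ℕ) (z : Fin n → ℕ), (∀ i, 0 < y i) →
    (∀ j, 0 < z j) → ∏ i, y i = ∏ j, z j →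
    ∃ d : Fin m → Fin n → ℕ, (∀ i, y i = ∏ j, d i j) ∧ (∀ j, z j = ∏ i, d i j) := by
  intro m
  induction m with
  | zero =>
    intro n y z hy hz h
    refine ⟨fun i => i.elim0, fun i => i.elim0, fun j => ?_⟩
    simp only [Finset.univ_eq_empty, Finset.prod_empty] at h ⊢
    have h1 : z j ∣ ∏ j, z j := Finset.dvd_prod_of_mem z (Finset.mem_univ j)
    rw [← h] at h1
    exact Nat.dvd_one.1 h1
  | succ m ih =>
    intro n y z hy hz h
    rw [Fin.prod_univ_succ] at h
    obtain ⟨e, he, he'⟩ := t2a_split n z (y 0) (by rw [← h]; exact dvd_mul_right _ _)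
    have h1 : ∀ j, z j = e j * (z j / e j) := fun j => (Nat.mul_div_cancel' (he j)).symm
    have he0 : ∀ j, 0 < e j := fun j => Nat.pos_of_dvd_of_pos (he j) (hz j)
    have h2 : ∏ i : Fin m, y i.succ = ∏ j, z j / e j := by
      have h3 : ∏ j, z j = (∏ j, e j) * ∏ j, z j / e j := by
        rw [← Finset.prod_mul_distrib]
        exact Finset.prod_congr rfl (fun j _ => h1 j)
      rw [h3, he'] at h
      exact Nat.eq_of_mul_eq_mul_left (hy 0) h
    obtain ⟨d, hd, hd'⟩ := ih n (fun i => y i.succ) (fun j => z j / e j) (fun i => hy _)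
      (fun j => Nat.div_pos (Nat.le_of_dvd (hz j) (he j)) (he0 j)) h2
    refine ⟨Fin.cons e d, ?_, ?_⟩
    · intro i
      refine Fin.cases ?_ (fun i => ?_) i
      · simpa using he'.symm
      · simpa using hd i
    · intro j
      rw [Fin.prod_univ_succ]
      simp only [Fin.cons_zero, Fin.cons_succ]
      rw [← hd' j]
      exact h1 j

/-- [IDS-T2] **Common refinement of two factorizations.**

PROOF.  Prove it for `y : Fin m → ℕ`, `z : Fin n → ℕ` (any `m, n`), by induction on `m`.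
`m = 0`: `∏ z = 1`, all `z j = 1`, and the empty product is `1`.  Step: `y 0 ∣ ∏ z`, so there are
`d 0 j ∣ z j` with `∏_j d 0 j = y 0` (induction over the product, with
`exists_dvd_and_dvd_of_dvd_mul` / `Nat.exists_dvd_and_dvd_of_dvd_mul`-like decomposition; or
`Finset.exists_dvd_prod...`).  Replace `z j` by `z j / d 0 j` and use the induction hypothesis for
the remaining `y i` (`Fin.prod_univ_succ`, `Fin.cons`). -/
theorem refinement (N : ℕ) (y z : Fin N → ℕ) (hy : ∀ i, 0 < y i) (hz : ∀ i, 0 < z i)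
    (h : ∏ i, y i = ∏ i, z i) :
    ∃ d : Fin N → Fin N → ℕ, (∀ i, y i = ∏ j, d i j) ∧ (∀ j, z j = ∏ i, d i j) :=
  t2a_aux N N y z hy hz h

end Pool.Agent.IDS
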