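import Pool.Agent.IDS.Base

set_option autoImplicit false

namespace Pool.Agent.IDS

open Finset

theorem t2b_step (N : ℕ) (f : Fin N → Fin N → ℝ) (hf : ∀ i j, 0 ≤ f i j) (hf0 : ∀ i, f i i = 0)
    (I : Finset (Fin N)) (hI : 3 ≤ I.card) :
    ∃ i ∈ I, (∑ a ∈ I.erase i, ∑ b ∈ I.erase i, f a b) * (I.card : ℝ) ≤
      ((I.card : ℝ) - 2) * ∑ a ∈ I, ∑ b ∈ I, f a b := by
  have hne : I.Nonempty := Finset.card_pos.1 (by omega)
  set Φ : ℝ := ∑ a ∈ I, ∑ b ∈ I, f a b with hΦ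
  have hs : (0 : ℝ) < I.card := by exact_mod_cast (by omega : 0 < I.card)
  have h1 : ∑ i ∈ I, (∑ b ∈ I, f i b + ∑ a ∈ I, f a i) = 2 * Φ := by
    rw [Finset.sum_add_distrib, Finset.sum_comm (f := fun i a => f a i), ← hΦ]
    ring
  obtain ⟨i, hi, h2⟩ : ∃ i ∈ I, 2 * Φ / I.card ≤ ∑ b ∈ I, f i b + ∑ a ∈ I, f a i := by
    apply Finset.exists_le_of_sum_le hne
    rw [h1, Finset.sum_const, nsmul_eq_mul]
    apply le_of_eq
    field_simp
  refine ⟨i, hi, ?_⟩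
  have h3 : ∀ g : Fin N → ℝ, ∑ b ∈ I.erase i, g b = ∑ b ∈ I, g b - g i := by
    intro g
    rw [← Finset.add_sum_erase I g hi]
    ring
  have h4 : ∑ a ∈ I.erase i, ∑ b ∈ I.erase i, f a b =
      Φ - ∑ a ∈ I, f a i - ∑ b ∈ I, f i b := by
    rw [h3 (fun a => ∑ b ∈ I.erase i, f a b)]
    simp only [h3]
    rw [Finset.sum_sub_distrib, hf0]
    ring
  rw [h4]
  have h5 : 2 * Φ ≤ (∑ b ∈ I, f i b + ∑ a ∈ I, f a i) * I.card := by
    rw [div_le_iff₀ hs] at h2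
    exact h2
  nlinarith [h5]

theorem t2b_down (N : ℕ) (f : Fin N → Fin N → ℝ) (hf : ∀ i j, 0 ≤ f i j) (hf0 : ∀ i, f i i = 0)
    (L : Finset (Fin N)) (t : ℕ) (ht : 2 ≤ t) (k : ℕ) (hk : k + t ≤ L.card) :
    ∃ I : Finset (Fin N), I ⊆ L ∧ I.card + k = L.card ∧
      (∑ a ∈ I, ∑ b ∈ I, f a b) * ((L.card : ℝ) * ((L.card : ℝ) - 1)) ≤
        ((I.card : ℝ) * ((I.card : ℝ) - 1)) * ∑ a ∈ L, ∑ b ∈ L, f a b := by
  induction k with
  | zero => exact ⟨L, subset_rfl, by omega, le_of_eq (mul_comm _ _)⟩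
  | succ k ih =>
    obtain ⟨I, hIL, hIc, hI⟩ := ih (by omega)
    obtain ⟨i, hi, h1⟩ := t2b_step N f hf hf0 I (by omega)
    have hc : (I.erase i).card = I.card - 1 := Finset.card_erase_of_mem hi
    refine ⟨I.erase i, (Finset.erase_subset _ _).trans hIL, by rw [hc]; omega, ?_⟩
    have hcr : (((I.erase i).card : ℕ) : ℝ) = (I.card : ℝ) - 1 := by
      rw [hc, Nat.cast_sub (by omega), Nat.cast_one]
    rw [hcr]
    set A := ∑ a ∈ I.erase i, ∑ b ∈ I.erase i, f a b with hA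
    set B := ∑ a ∈ I, ∑ b ∈ I, f a b with hB
    set C := ∑ a ∈ L, ∑ b ∈ L, f a b with hC
    have hs3 : (3 : ℝ) ≤ I.card := by exact_mod_cast (by omega : 3 ≤ I.card)
    have hn3 : (3 : ℝ) ≤ L.card := by exact_mod_cast (by omega : 3 ≤ L.card)
    set s : ℝ := (I.card : ℝ) with hs
    set n : ℝ := (L.card : ℝ) with hn
    have h2 : (A * (n * (n - 1))) * s ≤ ((s - 1) * (s - 1 - 1) * C) * s := by
      have h3 : A * s * (n * (n - 1)) ≤ (s - 2) * B * (n * (n - 1)) :=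
        mul_le_mul_of_nonneg_right h1 (by nlinarith)
      have h4 : (s - 2) * (B * (n * (n - 1))) ≤ (s - 2) * (s * (s - 1) * C) :=
        mul_le_mul_of_nonneg_left hI (by linarith)
      nlinarith [h3, h4]
    exact le_of_mul_le_mul_right h2 (by linarith)

/-- [IDS-T2] **A subset with small internal weight.**

PROOF.  Put `n = L.card`, `Φ(I) = ∑_{i∈I} ∑_{j∈I.erase i} w i j`.  Claim: for every `s` with
`t ≤ s ≤ n` there is `I ⊆ L`, `I.card = s`, `Φ(I) ≤ (s(s-1)/(n(n-1))) Φ(L)`.  Downward induction on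
`s`: `s = n`: `I = L`.  From `s` to `s - 1` (`s ≥ 3`): `∑_{i∈I} (row_i + column_i) = 2 Φ(I)`, so some
`i ∈ I` has `row_i + column_i ≥ 2Φ(I)/s`; removing it leaves `Φ(I.erase i) ≤ (1 - 2/s) Φ(I)`, and
`(s-2)/s · s(s-1) = (s-1)(s-2)`.  Finally `Φ(L) ≤ n B`. -/
theorem choose_subset (N : ℕ) (L : Finset (Fin N)) (t : ℕ) (ht : 2 ≤ t) (htL : t ≤ L.card)
    (w : Fin N → Fin N → ℝ) (hw : ∀ i j, 0 ≤ w i j) (B : ℝ) (hB : ∀ i ∈ L, ∑ j, w i j ≤ B) :
    ∃ I : Finset (Fin N), I ⊆ L ∧ I.card = t ∧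
      ∑ i ∈ I, ∑ j ∈ I.erase i, w i j ≤ (t : ℝ) * (t - 1) / ((L.card : ℝ) - 1) * B := by
  classical
  let f : Fin N → Fin N → ℝ := fun i j => if i = j then 0 else w i j
  have hf : ∀ i j, 0 ≤ f i j := by
    intro i j
    simp only [f]
    split_ifs
    · exact le_rfl
    · exact hw i j
  have hf0 : ∀ i, f i i = 0 := fun i => by simp [f]
  obtain ⟨I, hIL, hIc, hI⟩ := t2b_down N f hf hf0 L t ht (L.card - t) (by omega)
  have hIt : I.card = t := by omega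
  refine ⟨I, hIL, hIt, ?_⟩
  have h1 : ∀ J : Finset (Fin N), ∑ i ∈ J, ∑ j ∈ J.erase i, w i j = ∑ i ∈ J, ∑ j ∈ J, f i j := by
    intro J
    apply Finset.sum_congr rfl
    intro i hi
    rw [← Finset.add_sum_erase J (f i) hi, hf0, zero_add]
    apply Finset.sum_congr rfl
    intro j hj
    simp only [f]
    rw [if_neg (Finset.ne_of_mem_erase hj).symm]
  have h2 : ∑ i ∈ L, ∑ j ∈ L, f i j ≤ L.card * B := by
    rw [← nsmul_eq_mul]
    apply Finset.sum_le_card_nsmul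
    intro i hi
    refine le_trans ?_ (hB i hi)
    refine (Finset.sum_le_sum_of_subset_of_nonneg (Finset.subset_univ L)
      (fun j _ _ => hf i j)).trans ?_
    apply Finset.sum_le_sum
    intro j _
    simp only [f]
    split_ifs
    · exact hw i j
    · exact le_rfl
  rw [h1, ]
  rw [hIt] at hI
  have hn2 : (2 : ℝ) ≤ L.card := by exact_mod_cast (by omega : 2 ≤ L.card)
  have ht2 : (2 : ℝ) ≤ t := by exact_mod_cast ht
  have h3 : (∑ a ∈ I, ∑ b ∈ I, f a b) * ((L.card : ℝ) - 1) * L.card ≤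
      ((t : ℝ) * (t - 1) * B) * L.card := by
    have h4 : ((t : ℝ) * (t - 1)) * ∑ a ∈ L, ∑ b ∈ L, f a b ≤ (t : ℝ) * (t - 1) * (L.card * B) :=
      mul_le_mul_of_nonneg_left h2 (by nlinarith)
    nlinarith [h4, hI]
  have h5 := le_of_mul_le_mul_right h3 (by linarith)
  rw [div_mul_eq_mul_div, le_div_iff₀ (by linarith)]
  exact h5

end Pool.Agent.IDS
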