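import Pool.Agent.IDS.Base

set_option autoImplicit false

namespace Pool.Agent.IDS

open Finset MeasureTheory

/-- the set of `x ∈ [0,1]` with `‖q x - γ‖ ≤ ρ` -/
def EE (γ : ℝ) (q : ℕ) (ρ : ℝ) : Set ℝ := {x | x ∈ Set.Icc (0 : ℝ) 1 ∧ nd (q * x - γ) ≤ ρ}

theorem o1_measurable_nd : Measurable nd := by
  have h : nd = fun x : ℝ => |x - ((⌊x + 1 / 2⌋ : ℤ) : ℝ)| := by
    funext x
    rw [nd, round_eq]
  rw [h]
  have h2 : Measurable fun x : ℝ => ((⌊x + 1 / 2⌋ : ℤ) : ℝ) := by
    have h3 : Measurable fun x : ℝ => ⌊x + 1 / 2⌋ := (measurable_id.add_const _).floor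
    exact (measurable_from_top (f := fun n : ℤ => (n : ℝ))).comp h3
  exact (measurable_id.sub h2).abs

theorem o1_measurableSet (γ : ℝ) (q : ℕ) (ρ : ℝ) :
    MeasurableSet {x : ℝ | nd (q * x - γ) ≤ ρ} := by
  have h : Measurable fun x : ℝ => nd (q * x - γ) :=
    o1_measurable_nd.comp ((measurable_id.const_mul _).sub_const _)
  exact measurableSet_le h measurable_const

theorem o1_EE_eq (γ : ℝ) (q : ℕ) (ρ : ℝ) :
    EE γ q ρ = Set.Icc (0 : ℝ) 1 ∩ {x : ℝ | nd (q * x - γ) ≤ ρ} := rfl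

/-- [IDS-O1] `EE` is measurable (`round` is measurable, `nd` is measurable; or `nd` is continuous). -/
theorem measurableSet_EE (γ : ℝ) (q : ℕ) (ρ : ℝ) : MeasurableSet (EE γ q ρ) := by
  rw [o1_EE_eq]
  exact measurableSet_Icc.inter (o1_measurableSet γ q ρ)

theorem o1_nd_eq {y : ℝ} (h1 : -(1 / 2) ≤ y) (h2 : y ≤ 1 / 2) : nd y = |y| := by
  rcases eq_or_lt_of_le h2 with rfl | h3
  · unfold nd
    have : round (1 / 2 : ℝ) = 1 := by norm_num [round_eq]
    rw [this]
    norm_num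
  · unfold nd
    have : round y = 0 := by
      rw [round_eq_zero_iff]
      exact ⟨h1, h3⟩
    rw [this]
    simp

/-- [IDS-O1] **Measure of one set.**

PROOF.  Up to a null set `EE` is `{x ∈ (0,1] : ‖q x - γ‖ ≤ ρ}`.  The indicator
`g(y) = 1[nd y ≤ ρ]` is 1-periodic and interval integrable;
`∫_0^1 g(q x - γ) dx = (1/q) ∫_{-γ}^{q-γ} g = ∫_0^1 g = 2ρ`
(`intervalIntegral.integral_comp_mul_sub`, `Function.Periodic.intervalIntegral_add_eq`; for
`0 ≤ ρ ≤ 1/2`: `∫_{-1/2}^{1/2} g = 2ρ` since `nd y = |y|` on `(-1/2, 1/2)`). -/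
theorem volume_EE (γ : ℝ) (q : ℕ) (ρ : ℝ) (hq : 1 ≤ q) (h0 : 0 ≤ ρ) (h1 : ρ ≤ 1 / 2) :
    (volume (EE γ q ρ)).toReal = 2 * ρ := by
  set T : Set ℝ := {y | nd y ≤ ρ} with hT
  have hTm : MeasurableSet T := measurableSet_le o1_measurable_nd measurable_const
  set g : ℝ → ℝ := T.indicator (fun _ => (1 : ℝ)) with hg
  have hqr : (0 : ℝ) < q := by exact_mod_cast hq
  have hper : Function.Periodic g 1 := by
    intro y
    have h2 : nd (y + 1) = nd y := by
      have := nd_add_int y 1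
      simpa using this
    rw [hg]
    simp only [Set.indicator, hT, Set.mem_ofPred_eq, h2]
  have hint : ∀ t₁ t₂ : ℝ, IntervalIntegrable g volume t₁ t₂ := by
    intro t₁ t₂
    rw [intervalIntegrable_iff]
    apply Integrable.indicator _ hTm
    exact integrableOn_const (by simp)
  -- one period
  have hset : (volume (Set.Ioc (-(1 / 2) : ℝ) (-(1 / 2) + 1) ∩ T)).toReal = 2 * ρ := by
    have e1 : volume (Set.Ioc (-(1 / 2) : ℝ) (-(1 / 2) + 1) ∩ T) = ENNReal.ofReal (2 * ρ) := by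
      apply le_antisymm
      · have h2 : Set.Ioc (-(1 / 2) : ℝ) (-(1 / 2) + 1) ∩ T ⊆ Set.Icc (-ρ) ρ := by
          rintro y ⟨hy1, hy2⟩
          have h3 : nd y ≤ ρ := hy2
          rw [o1_nd_eq hy1.1.le (by linarith [hy1.2])] at h3
          exact abs_le.1 h3
        refine (measure_mono h2).trans (le_of_eq ?_)
        rw [Real.volume_Icc]
        congr 1
        ring
      · have h2 : Set.Ioc (-ρ) ρ ⊆ Set.Ioc (-(1 / 2) : ℝ) (-(1 / 2) + 1) ∩ T := by
          intro y hy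
          have h3 : y ∈ Set.Ioc (-(1 / 2) : ℝ) (-(1 / 2) + 1) :=
            ⟨by linarith [hy.1], by linarith [hy.2]⟩
          refine ⟨h3, ?_⟩
          show nd y ≤ ρ
          rw [o1_nd_eq h3.1.le (by linarith [h3.2])]
          exact abs_le.2 ⟨hy.1.le, hy.2⟩
        refine le_trans (le_of_eq ?_) (measure_mono h2)
        rw [Real.volume_Ioc]
        congr 1
        ring
    rw [e1, ENNReal.toReal_ofReal (by linarith)]
  have hone : ∫ y in (-(1 / 2) : ℝ)..(-(1 / 2) + 1), g y = 2 * ρ := by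
    rw [intervalIntegral.integral_of_le (by norm_num), hg, setIntegral_indicator hTm,
      setIntegral_const, smul_eq_mul, mul_one, measureReal_def, hset]
  have hEE : (volume (EE γ q ρ)).toReal = ∫ x in (0 : ℝ)..1, g (q * x - γ) := by
    have e1 : (fun x : ℝ => g (q * x - γ)) =
        ({x : ℝ | nd (q * x - γ) ≤ ρ}).indicator (fun _ => (1 : ℝ)) := by
      funext x
      rw [hg]
      simp only [Set.indicator, hT, Set.mem_ofPred_eq]
    rw [e1, intervalIntegral.integral_of_le (by norm_num),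
      setIntegral_indicator (o1_measurableSet γ q ρ), setIntegral_const, smul_eq_mul, mul_one,
      measureReal_def, o1_EE_eq]
    congr 1
    apply measure_congr
    exact Ioc_ae_eq_Icc.symm.inter (Filter.EventuallyEq.refl _ _)
  rw [hEE, intervalIntegral.integral_comp_mul_sub g hqr.ne' γ]
  have e2 : (q : ℝ) * 1 - γ = (q : ℝ) * 0 - γ + (q : ℤ) • (1 : ℝ) := by
    simp
    ring
  rw [e2, hper.intervalIntegral_add_zsmul_eq (q : ℤ) _ hint, hper.intervalIntegral_add_eq _ (-(1 / 2)),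
    hone]
  simp
  field_simp

end Pool.Agent.IDS
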