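import Pool.Agent.IDS.Base

set_option autoImplicit false

namespace Pool.Agent.IDS

open Finset MeasureTheory Filter

/-- The limsup set of the problem for the choice `I_q = Z_q`: the `x ∈ [0,1]` such that for
infinitely many `q ≥ 1` some `a ∈ {0, ..., q-1}` satisfies `‖x - (a+γ)/q‖ ≤ ψ(q)/q`. -/
def LimSet (γ : ℝ) (ψ : ℕ → ℝ) : Set ℝ :=
  {x | x ∈ Set.Icc (0 : ℝ) 1 ∧ ∃ᶠ q : ℕ in atTop,
    1 ≤ q ∧ ∃ a : ℕ, a < q ∧ nd (x - ((a : ℝ) + γ) / q) ≤ ψ q / q}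

/-- [IDS-Z3a] PROOF.  `x - (a+γ)/q` is within `t` of an integer `n` iff `q x - γ` is within `q t` of
the integer `a + n q`, and every integer is `a + n q` with `0 ≤ a < q`. -/
theorem exists_residue_iff (γ x t : ℝ) (q : ℕ) (hq : 1 ≤ q) :
    (∃ a : ℕ, a < q ∧ nd (x - ((a : ℝ) + γ) / q) ≤ t / q) ↔ nd (q * x - γ) ≤ t := by
  have hq0 : (0 : ℝ) < (q : ℝ) := by exact_mod_cast hq
  have key : ∀ (a : ℝ) (n : ℤ), |(q : ℝ) * x - γ - (a + n * q)| =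
      (q : ℝ) * |x - (a + γ) / q - n| := by
    intro a n
    have h1 : (q : ℝ) * |x - (a + γ) / q - n| = |(q : ℝ) * (x - (a + γ) / q - n)| := by
      rw [abs_mul, abs_of_pos hq0]
    rw [h1]
    congr 1
    field_simp
    ring
  constructor
  · rintro ⟨a, _, ha⟩
    obtain ⟨n, hn⟩ := exists_int_abs_sub_eq_nd (x - ((a : ℝ) + γ) / q)
    have h1 := nd_le_abs ((q : ℝ) * x - γ) ((a : ℤ) + n * q)
    push_cast at h1
    rw [key (a : ℝ) n, hn] at h1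
    refine h1.trans ?_
    rw [le_div_iff₀ hq0] at ha
    linarith
  · intro h
    obtain ⟨N, hN⟩ := exists_int_abs_sub_eq_nd ((q : ℝ) * x - γ)
    have hqZ : (0 : ℤ) < (q : ℤ) := by exact_mod_cast hq
    have hm0 : 0 ≤ N % (q : ℤ) := Int.emod_nonneg _ hqZ.ne'
    have hm1 : N % (q : ℤ) < q := Int.emod_lt_of_pos _ hqZ
    refine ⟨(N % (q : ℤ)).toNat, by omega, ?_⟩
    have hcast : (((N % (q : ℤ)).toNat : ℕ) : ℝ) = ((N % (q : ℤ) : ℤ) : ℝ) := by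
      have : (((N % (q : ℤ)).toNat : ℕ) : ℤ) = N % (q : ℤ) := Int.toNat_of_nonneg hm0
      exact_mod_cast this
    rw [hcast]
    have hdiv : ((N : ℤ) : ℝ) = ((N % (q : ℤ) : ℤ) : ℝ) + ((N / (q : ℤ) : ℤ) : ℝ) * q := by
      have h2 : N % (q : ℤ) + N / (q : ℤ) * (q : ℤ) = N := Int.emod_add_ediv_mul N (q : ℤ)
      have h3 := congrArg (Int.cast : ℤ → ℝ) h2
      push_cast at h3
      linarith
    rw [hdiv, key] at hN
    have h4 := nd_le_abs (x - (((N % (q : ℤ) : ℤ) : ℝ) + γ) / q) (N / (q : ℤ))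
    rw [le_div_iff₀ hq0]
    nlinarith

end Pool.Agent.IDS
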