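import Pool.Agent.IDS.Base

set_option autoImplicit false

namespace Pool.Agent.IDS

open Finset

/-- [IDS-A0] **Matching inequality.**  Let `θ ≥ 1/2`, `x, y ≥ 0`, and let `s` be a finite set of
pairs on which both projections are injective.  Then
`∑_{(i,j) ∈ s} (x_i y_j)^θ ≤ (X Y)^θ`, if `X ≥ ∑_{fst s} x`, `Y ≥ ∑_{snd s} y`.

PROOF.  Put `a_q = x_{q.1} y_{q.2}`.  Each `a_q ≤ X Y` (single terms of the sums), hence
`a_q^θ = a_q^{θ-1/2} a_q^{1/2} ≤ (XY)^{θ-1/2} √(x_{q.1}) √(y_{q.2})` (`Real.rpow_le_rpow`,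
`θ - 1/2 ≥ 0`; if `a_q = 0` use `θ > 0`).  By Cauchy-Schwarz
`∑ √x √y ≤ √(∑ x_{q.1}) √(∑ y_{q.2}) ≤ √X √Y = (XY)^{1/2}` (the sums over `q ∈ s` are the sums over
the images, `Finset.sum_image` with the injectivity).  Multiply. -/
theorem matching (θ : ℝ) (h1 : 1 / 2 ≤ θ) (s : Finset (ℕ × ℕ)) (x y : ℕ → ℝ)
    (hx : ∀ i, 0 ≤ x i) (hy : ∀ j, 0 ≤ y j)
    (hf : Set.InjOn Prod.fst (s : Set (ℕ × ℕ))) (hs : Set.InjOn Prod.snd (s : Set (ℕ × ℕ)))
    (X Y : ℝ) (hX : ∑ i ∈ s.image Prod.fst, x i ≤ X) (hY : ∑ j ∈ s.image Prod.snd, y j ≤ Y) :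
    ∑ q ∈ s, (x q.1 * y q.2) ^ θ ≤ (X * Y) ^ θ := by
  have hX0 : 0 ≤ X := le_trans (Finset.sum_nonneg fun i _ => hx i) hX
  have hY0 : 0 ≤ Y := le_trans (Finset.sum_nonneg fun i _ => hy i) hY
  have hθ : 0 < θ := by linarith
  have hterm : ∀ q ∈ s, (x q.1 * y q.2) ^ θ ≤ (X * Y) ^ (θ - 1 / 2) * (√(x q.1) * √(y q.2)) := by
    intro q hq
    have hxq : x q.1 ≤ X := le_trans
      (Finset.single_le_sum (f := x) (fun i _ => hx i) (Finset.mem_image_of_mem Prod.fst hq)) hX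
    have hyq : y q.2 ≤ Y := le_trans
      (Finset.single_le_sum (f := y) (fun i _ => hy i) (Finset.mem_image_of_mem Prod.snd hq)) hY
    have ha0 : 0 ≤ x q.1 * y q.2 := mul_nonneg (hx _) (hy _)
    have ha : x q.1 * y q.2 ≤ X * Y := mul_le_mul hxq hyq (hy _) hX0
    rcases ha0.eq_or_lt with h0 | h0
    · rw [← h0, Real.zero_rpow hθ.ne']
      positivity
    · have e1 : (x q.1 * y q.2) ^ θ = (x q.1 * y q.2) ^ (θ - 1 / 2) * (x q.1 * y q.2) ^ (1 / 2 : ℝ) := by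
        rw [← Real.rpow_add h0]; congr 1; ring
      rw [e1, ← Real.sqrt_eq_rpow, Real.sqrt_mul (hx _)]
      exact mul_le_mul_of_nonneg_right (Real.rpow_le_rpow ha0 ha (by linarith)) (by positivity)
  have hcs : ∑ q ∈ s, √(x q.1) * √(y q.2) ≤ √X * √Y := by
    refine le_trans (Real.sum_sqrt_mul_sqrt_le s (fun q => hx q.1) (fun q => hy q.2)) ?_
    have e1 : ∑ q ∈ s, x q.1 = ∑ i ∈ s.image Prod.fst, x i :=
      (Finset.sum_image (f := x) (g := Prod.fst) hf).symm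
    have e2 : ∑ q ∈ s, y q.2 = ∑ i ∈ s.image Prod.snd, y i :=
      (Finset.sum_image (f := y) (g := Prod.snd) hs).symm
    rw [e1, e2]
    exact mul_le_mul (Real.sqrt_le_sqrt hX) (Real.sqrt_le_sqrt hY) (Real.sqrt_nonneg _)
      (Real.sqrt_nonneg _)
  have hp : 0 ≤ (X * Y) ^ (θ - 1 / 2) := Real.rpow_nonneg (mul_nonneg hX0 hY0) _
  calc ∑ q ∈ s, (x q.1 * y q.2) ^ θ
      ≤ ∑ q ∈ s, (X * Y) ^ (θ - 1 / 2) * (√(x q.1) * √(y q.2)) := Finset.sum_le_sum hterm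
    _ = (X * Y) ^ (θ - 1 / 2) * ∑ q ∈ s, √(x q.1) * √(y q.2) := by rw [Finset.mul_sum]
    _ ≤ (X * Y) ^ (θ - 1 / 2) * (√X * √Y) := mul_le_mul_of_nonneg_left hcs hp
    _ = (X * Y) ^ θ := by
        rw [← Real.sqrt_mul hX0]
        rcases (mul_nonneg hX0 hY0).eq_or_lt with h0 | h0
        · rw [← h0, Real.zero_rpow hθ.ne', Real.sqrt_zero, mul_zero]
        · rw [Real.sqrt_eq_rpow, ← Real.rpow_add h0]
          congr 1
          ring

/-- tails of the geometric series -/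
theorem a0_geom {lam : ℝ} (hl0 : 0 < lam) (hl1 : lam < 1) (U : Finset ℕ) (D : ℕ)
    (hU : ∀ u ∈ U, D ≤ u) : ∑ u ∈ U, lam ^ u ≤ lam ^ D / (1 - lam) := by
  have hinj : Set.InjOn (fun u : ℕ => u - D) (U : Set ℕ) := by
    intro a ha b hb hab
    have h1 := hU a ha
    have h2 := hU b hb
    simp only at hab
    omega
  have e1 : ∑ u ∈ U, lam ^ u = lam ^ D * ∑ v ∈ U.image (fun u => u - D), lam ^ v := by
    rw [Finset.sum_image hinj, Finset.mul_sum]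
    refine Finset.sum_congr rfl fun u hu => ?_
    rw [← pow_add]
    congr 1
    have := hU u hu
    omega
  rw [e1, div_eq_mul_inv]
  apply mul_le_mul_of_nonneg_left _ (by positivity)
  exact sum_le_hasSum _ (fun i _ => by positivity) (hasSum_geometric_of_lt_one hl0.le hl1)

/-- `∑_{d ∈ T} lam^{|d|}` for `T ⊆ ℤ`, `|d| ≥ D` on the nonnegative part and `|d| ≥ D'` on the negative
part. -/
theorem a0_int {lam : ℝ} (hl0 : 0 < lam) (hl1 : lam < 1) (T : Finset ℤ) (D D' : ℕ)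
    (h1 : ∀ d ∈ T, 0 ≤ d → D ≤ d.natAbs) (h2 : ∀ d ∈ T, d < 0 → D' ≤ d.natAbs) :
    ∑ d ∈ T, lam ^ d.natAbs ≤ (lam ^ D + lam ^ D') / (1 - lam) := by
  rw [← Finset.sum_filter_add_sum_filter_not T (fun d => 0 ≤ d), add_div]
  refine add_le_add ?_ ?_
  · have hinj : Set.InjOn Int.natAbs (T.filter fun d => 0 ≤ d : Set ℤ) := by
      intro a ha b hb hab
      have ha' := (Finset.mem_filter.1 ha).2
      have hb' := (Finset.mem_filter.1 hb).2
      omega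
    rw [← Finset.sum_image (f := fun u => lam ^ u) hinj]
    refine a0_geom hl0 hl1 _ _ fun u hu => ?_
    obtain ⟨d, hd, rfl⟩ := Finset.mem_image.1 hu
    exact h1 d (Finset.mem_filter.1 hd).1 (Finset.mem_filter.1 hd).2
  · have hinj : Set.InjOn Int.natAbs (T.filter fun d => ¬ 0 ≤ d : Set ℤ) := by
      intro a ha b hb hab
      have ha' := (Finset.mem_filter.1 ha).2
      have hb' := (Finset.mem_filter.1 hb).2
      omega
    rw [← Finset.sum_image (f := fun u => lam ^ u) hinj]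
    refine a0_geom hl0 hl1 _ _ fun u hu => ?_
    obtain ⟨d, hd, rfl⟩ := Finset.mem_image.1 hu
    exact h2 d (Finset.mem_filter.1 hd).1 (not_le.1 (Finset.mem_filter.1 hd).2)

/-- the signed shift -/
def a0_sh (q : ℕ × ℕ) : ℤ := (q.1 : ℤ) - q.2

theorem a0_sh_abs (q : ℕ × ℕ) : (q.1 - q.2) + (q.2 - q.1) = (a0_sh q).natAbs := by
  unfold a0_sh
  omega

theorem a0_fiber (θ lam : ℝ) (h1 : 1 / 2 ≤ θ) (hl0 : 0 < lam)
    (s : Finset (ℕ × ℕ)) (x y : ℕ → ℝ) (hx : ∀ i, 0 ≤ x i) (hy : ∀ j, 0 ≤ y j)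
    (X Y : ℝ) (hX : ∑ i ∈ s.image Prod.fst, x i ≤ X) (hY : ∑ j ∈ s.image Prod.snd, y j ≤ Y) :
    ∑ q ∈ s, (x q.1 * y q.2) ^ θ * lam ^ ((q.1 - q.2) + (q.2 - q.1)) ≤
      (X * Y) ^ θ * ∑ d ∈ s.image a0_sh, lam ^ d.natAbs := by
  rw [← Finset.sum_fiberwise_of_maps_to (t := s.image a0_sh) (g := a0_sh)
    (fun q hq => Finset.mem_image_of_mem _ hq), Finset.mul_sum]
  refine Finset.sum_le_sum fun d _ => ?_
  have e1 : ∑ q ∈ s with a0_sh q = d, (x q.1 * y q.2) ^ θ * lam ^ ((q.1 - q.2) + (q.2 - q.1))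
      = (∑ q ∈ s with a0_sh q = d, (x q.1 * y q.2) ^ θ) * lam ^ d.natAbs := by
    rw [Finset.sum_mul]
    refine Finset.sum_congr rfl fun q hq => ?_
    rw [a0_sh_abs, (Finset.mem_filter.1 hq).2]
  rw [e1]
  apply mul_le_mul_of_nonneg_right _ (by positivity)
  have hsub : (s.filter fun q => a0_sh q = d) ⊆ s := Finset.filter_subset _ _
  refine matching θ h1 _ x y hx hy ?_ ?_ X Y ?_ ?_
  · intro a ha b hb hab
    have ha' := (Finset.mem_filter.1 ha).2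
    have hb' := (Finset.mem_filter.1 hb).2
    unfold a0_sh at ha' hb'
    apply Prod.ext hab
    omega
  · intro a ha b hb hab
    have ha' := (Finset.mem_filter.1 ha).2
    have hb' := (Finset.mem_filter.1 hb).2
    unfold a0_sh at ha' hb'
    refine Prod.ext ?_ hab
    omega
  · exact le_trans (Finset.sum_le_sum_of_subset_of_nonneg (Finset.image_subset_image hsub)
      fun i _ _ => hx i) hX
  · exact le_trans (Finset.sum_le_sum_of_subset_of_nonneg (Finset.image_subset_image hsub)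
      fun i _ _ => hy i) hY

/-- [IDS-A0] Sum over all pairs with weight `lam ^ |i - j|`.

PROOF.  Split `s` according to the (signed) shift `q.1 - q.2 = d ∈ ℤ`; for fixed `d` both
projections are injective, so `matching` bounds the part by `(XY)^θ lam^{|d|}` (the partial images
are contained in the full images, `x, y ≥ 0`).  `∑_{d ∈ ℤ} lam^{|d|} = (1+lam)/(1-lam)`:
for the finitely many occurring `d` bound the sum by the two geometric series (`d = 0`, `d > 0`,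
`d < 0`; `Finset` geometric sums `≤ 1/(1-lam)`). -/
theorem matching_sum0 (θ lam : ℝ) (h1 : 1 / 2 ≤ θ) (hl0 : 0 < lam) (hl1 : lam < 1)
    (s : Finset (ℕ × ℕ)) (x y : ℕ → ℝ) (hx : ∀ i, 0 ≤ x i) (hy : ∀ j, 0 ≤ y j)
    (X Y : ℝ) (hX : ∑ i ∈ s.image Prod.fst, x i ≤ X) (hY : ∑ j ∈ s.image Prod.snd, y j ≤ Y) :
    ∑ q ∈ s, (x q.1 * y q.2) ^ θ * lam ^ ((q.1 - q.2) + (q.2 - q.1)) ≤
      (X * Y) ^ θ * ((1 + lam) / (1 - lam)) := by
  have hX0 : 0 ≤ X := le_trans (Finset.sum_nonneg fun i _ => hx i) hX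
  have hY0 : 0 ≤ Y := le_trans (Finset.sum_nonneg fun i _ => hy i) hY
  refine le_trans (a0_fiber θ lam h1 hl0 s x y hx hy X Y hX hY) ?_
  apply mul_le_mul_of_nonneg_left _ (Real.rpow_nonneg (mul_nonneg hX0 hY0) _)
  have h := a0_int hl0 hl1 (s.image a0_sh) 0 1 (fun d _ _ => Nat.zero_le _)
    (fun d _ hd => by omega)
  rwa [pow_zero, pow_one] at h

/-- [IDS-A0] The same with all shifts `≥ D ≥ 1`: `∑_{|d| ≥ D} lam^{|d|} = 2 lam^D/(1-lam)`. -/
theorem matching_sum (θ lam : ℝ) (h1 : 1 / 2 ≤ θ) (hl0 : 0 < lam) (hl1 : lam < 1)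
    (s : Finset (ℕ × ℕ)) (x y : ℕ → ℝ) (hx : ∀ i, 0 ≤ x i) (hy : ∀ j, 0 ≤ y j)
    (D : ℕ) (hD1 : 1 ≤ D) (hD : ∀ q ∈ s, D ≤ (q.1 - q.2) + (q.2 - q.1))
    (X Y : ℝ) (hX : ∑ i ∈ s.image Prod.fst, x i ≤ X) (hY : ∑ j ∈ s.image Prod.snd, y j ≤ Y) :
    ∑ q ∈ s, (x q.1 * y q.2) ^ θ * lam ^ ((q.1 - q.2) + (q.2 - q.1)) ≤
      (X * Y) ^ θ * (2 * lam ^ D / (1 - lam)) := by
  have hX0 : 0 ≤ X := le_trans (Finset.sum_nonneg fun i _ => hx i) hX
  have hY0 : 0 ≤ Y := le_trans (Finset.sum_nonneg fun i _ => hy i) hY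
  refine le_trans (a0_fiber θ lam h1 hl0 s x y hx hy X Y hX hY) ?_
  apply mul_le_mul_of_nonneg_left _ (Real.rpow_nonneg (mul_nonneg hX0 hY0) _)
  have hall : ∀ d ∈ s.image a0_sh, D ≤ d.natAbs := by
    intro d hd
    obtain ⟨q, hq, rfl⟩ := Finset.mem_image.1 hd
    rw [← a0_sh_abs]
    exact hD q hq
  have h := a0_int hl0 hl1 (s.image a0_sh) D D (fun d hd _ => hall d hd) (fun d hd _ => hall d hd)
  rwa [← two_mul] at h

end Pool.Agent.IDS
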