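import Pool.Agent.IDS.A0

set_option autoImplicit false

namespace Pool.Agent.IDS

open Finset

/-- analytic part: from the inequality between `X, Y` to the bound for `Z = X + Y` -/
theorem a1_Z (θ : ℝ) (h1 : 1 / 2 < θ) (h2 : θ < 1) (lam X Y : ℝ) (hlam : 0 < lam)
    (hX : 0 ≤ X) (hY : 0 ≤ Y) (hZ4 : X + Y ≤ 1 / 4) (hZ8 : (X + Y) ^ (2 * θ - 1) ≤ 1 / 8)
    (h : θ * (X + Y) ≤ X * Y + 2 * (X * Y) ^ θ + 4 * lam * (X ^ θ + Y ^ θ)) :
    X + Y ≤ (32 * lam) ^ (1 / (1 - θ)) := by
  set Z := X + Y with hZ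
  have hθ0 : 0 < θ := by linarith
  have hZ0 : 0 ≤ Z := by positivity
  rcases eq_or_lt_of_le hZ0 with h0 | h0
  · rw [← h0]; positivity
  have e1 : X * Y ≤ Z / 16 := by
    have : X * Y ≤ Z ^ 2 / 4 := by rw [hZ]; nlinarith [sq_nonneg (X - Y)]
    nlinarith
  have e2 : (X * Y) ^ θ ≤ (Z / 2) ^ (2 * θ) := by
    rw [Real.rpow_mul (by positivity), Real.rpow_ofNat]
    refine Real.rpow_le_rpow (by positivity) ?_ hθ0.le
    rw [hZ]; nlinarith [sq_nonneg (X - Y)]
  have e3 : 2 * (Z / 2) ^ (2 * θ) ≤ Z ^ (2 * θ) := by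
    rw [Real.div_rpow hZ0 (by norm_num)]
    have h5 : (2 : ℝ) ≤ (2 : ℝ) ^ (2 * θ) := by
      have := Real.rpow_le_rpow_of_exponent_le (x := 2) (by norm_num) (show (1 : ℝ) ≤ 2 * θ by linarith)
      rwa [Real.rpow_one] at this
    have h6 : 0 ≤ Z ^ (2 * θ) := by positivity
    rw [← mul_div_assoc, div_le_iff₀ (by positivity)]
    nlinarith
  have e4 : Z ^ (2 * θ) ≤ Z / 8 := by
    have : (2 : ℝ) * θ = 1 + (2 * θ - 1) := by ring
    rw [this, Real.rpow_add h0, Real.rpow_one]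
    nlinarith
  have e5 : X ^ θ ≤ Z ^ θ := Real.rpow_le_rpow hX (by rw [hZ]; linarith) hθ0.le
  have e6 : Y ^ θ ≤ Z ^ θ := Real.rpow_le_rpow hY (by rw [hZ]; linarith) hθ0.le
  have e7 : Z ≤ 32 * lam * Z ^ θ := by
    have h7 : 4 * lam * (X ^ θ + Y ^ θ) ≤ 8 * lam * Z ^ θ := by nlinarith
    have h8 : 1 / 2 * Z ≤ θ * Z := by nlinarith
    linarith
  have e8 : Z ^ (1 - θ) ≤ 32 * lam := by
    rw [Real.rpow_sub h0, Real.rpow_one, div_le_iff₀ (by positivity)]
    exact e7
  have h1θ : 0 < 1 - θ := by linarith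
  calc Z = (Z ^ (1 - θ)) ^ (1 / (1 - θ)) := by
        rw [← Real.rpow_mul hZ0]
        rw [mul_one_div_cancel h1θ.ne', Real.rpow_one]
    _ ≤ (32 * lam) ^ (1 / (1 - θ)) :=
        Real.rpow_le_rpow (by positivity) e8 (by positivity)

/-- the diagonal cell -/
theorem a1_diag (θ : ℝ) (h1 : 1 / 2 < θ) (h2 : θ < 1) (X Y : ℝ) (hX : 0 ≤ X) (hX1 : X ≤ 1)
    (hY : 0 ≤ Y) (hY1 : Y ≤ 1) : ((1 - X) * (1 - Y)) ^ θ ≤ 1 - θ * (X + Y) + X * Y := by
  rw [Real.mul_rpow (by linarith) (by linarith)]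
  have a1 : (1 - X) ^ θ ≤ 1 - θ * X := by
    have := rpow_one_add_le_one_add_mul_self (s := -X) (by linarith) (p := θ) (by linarith)
      (by linarith)
    have e : 1 + -X = 1 - X := by ring
    rw [e] at this
    linarith
  have a2 : (1 - Y) ^ θ ≤ 1 - θ * Y := by
    have := rpow_one_add_le_one_add_mul_self (s := -Y) (by linarith) (p := θ) (by linarith)
      (by linarith)
    have e : 1 + -Y = 1 - Y := by ring
    rw [e] at this
    linarith
  have b1 : 0 ≤ (1 - X) ^ θ := Real.rpow_nonneg (by linarith) _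
  have b2 : 0 ≤ 1 - θ * Y := by nlinarith
  calc (1 - X) ^ θ * (1 - Y) ^ θ ≤ (1 - θ * X) * (1 - θ * Y) := by
        apply mul_le_mul a1 a2 (Real.rpow_nonneg (by linarith) _) (b1.trans a1)
    _ = 1 - θ * (X + Y) + θ ^ 2 * (X * Y) := by ring
    _ ≤ 1 - θ * (X + Y) + X * Y := by
        have : θ ^ 2 ≤ 1 := by nlinarith
        have : 0 ≤ X * Y := by positivity
        nlinarith

theorem a1_img_fst (N k : ℕ) (x : ℕ → ℝ) (hx : ∀ i, 0 ≤ x i) (s : Finset (ℕ × ℕ))
    (hs : ∀ q ∈ s, q.1 ∈ (range N).filter (fun i => i ≠ k)) (hk : k ∈ range N)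
    (h1 : ∑ i ∈ range N, x i = 1) : ∑ i ∈ s.image Prod.fst, x i ≤ 1 - x k := by
  have h2 : ∑ i ∈ (range N).filter (fun i => i ≠ k), x i = 1 - x k := by
    have h3 := Finset.sum_filter_add_sum_filter_not (range N) (fun i => i ≠ k) x
    rw [h1] at h3
    have h4 : (range N).filter (fun i => ¬ i ≠ k) = {k} := by
      ext i
      simp only [mem_filter, mem_singleton, not_not]
      constructor
      · exact fun h => h.2
      · rintro rfl; exact ⟨hk, rfl⟩
    rw [h4, sum_singleton] at h3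
    linarith
  rw [← h2]
  refine Finset.sum_le_sum_of_subset_of_nonneg ?_ (fun i _ _ => hx i)
  intro i hi
  obtain ⟨q, hq, rfl⟩ := mem_image.1 hi
  exact hs q hq

theorem a1_img_snd (N k : ℕ) (x : ℕ → ℝ) (hx : ∀ i, 0 ≤ x i) (s : Finset (ℕ × ℕ))
    (hs : ∀ q ∈ s, q.2 ∈ (range N).filter (fun i => i ≠ k)) (hk : k ∈ range N)
    (h1 : ∑ i ∈ range N, x i = 1) : ∑ i ∈ s.image Prod.snd, x i ≤ 1 - x k := by
  have h2 : ∑ i ∈ (range N).filter (fun i => i ≠ k), x i = 1 - x k := by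
    have h3 := Finset.sum_filter_add_sum_filter_not (range N) (fun i => i ≠ k) x
    rw [h1] at h3
    have h4 : (range N).filter (fun i => ¬ i ≠ k) = {k} := by
      ext i
      simp only [mem_filter, mem_singleton, not_not]
      constructor
      · exact fun h => h.2
      · rintro rfl; exact ⟨hk, rfl⟩
    rw [h4, sum_singleton] at h3
    linarith
  rw [← h2]
  refine Finset.sum_le_sum_of_subset_of_nonneg ?_ (fun i _ _ => hx i)
  intro i hi
  obtain ⟨q, hq, rfl⟩ := mem_image.1 hi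
  exact hs q hq

theorem a1_img_one (N : ℕ) (x : ℕ → ℝ) (hx : ∀ i, 0 ≤ x i) (t : Finset ℕ) (ht : t ⊆ range N)
    (h1 : ∑ i ∈ range N, x i = 1) : ∑ i ∈ t, x i ≤ 1 := by
  rw [← h1]
  exact Finset.sum_le_sum_of_subset_of_nonneg ht (fun i _ _ => hx i)

/-- [IDS-A1] **One-prime inequality.** -/
theorem opi (θ : ℝ) (h1 : 1 / 2 < θ) (h2 : θ < 1) :
    ∃ l0 : ℝ, 0 < l0 ∧ l0 ≤ 1 / 3 ∧ ∀ lam : ℝ, 0 < lam → lam ≤ l0 →
      ∀ (N : ℕ) (x y : ℕ → ℝ) (e : ℕ → ℕ → ℝ),
      (∀ i, 0 ≤ x i) → (∀ j, 0 ≤ y j) → (∀ i j, 0 ≤ e i j) →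
      ∑ i ∈ range N, x i = 1 → ∑ j ∈ range N, y j = 1 →
      ∑ i ∈ range N, ∑ j ∈ range N, e i j = 1 →
      (∀ i < N, ∀ j < N, e i j ≤ (x i * y j) ^ θ * lam ^ ((i - j) + (j - i))) →
      ∃ k < N, ∑ i ∈ range N, ∑ j ∈ range N, (if GoodAt k k i j then 0 else e i j) ≤
        2 * (32 * lam) ^ (2 * θ / (1 - θ)) + 8 * lam ^ 2 * (32 * lam) ^ (θ / (1 - θ)) := by
  have ht : 0 < θ - 1 / 2 := by linarith
  have ht2 : 0 < 2 * θ - 1 := by linarith
  have hθ0 : 0 < θ := by linarith
  have h1θ : 0 < 1 - θ := by linarith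
  set η : ℝ := min (1 / 4) ((1 / 8 : ℝ) ^ (1 / (2 * θ - 1))) with hη
  have hηpos : 0 < η := lt_min (by norm_num) (by positivity)
  have hη4 : η ≤ 1 / 4 := min_le_left _ _
  have hη8 : η ^ (2 * θ - 1) ≤ 1 / 8 := by
    calc η ^ (2 * θ - 1) ≤ ((1 / 8 : ℝ) ^ (1 / (2 * θ - 1))) ^ (2 * θ - 1) :=
          Real.rpow_le_rpow hηpos.le (min_le_right _ _) ht2.le
      _ = 1 / 8 := by
          rw [← Real.rpow_mul (by norm_num), one_div_mul_cancel ht2.ne', Real.rpow_one]
  refine ⟨min (1 / 3) (η * (θ - 1 / 2) / 8), lt_min (by norm_num) (by positivity),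
    min_le_left _ _, ?_⟩
  intro lam hlam hlam0 N x y e hx hy he hx1 hy1 he1 hele
  have hlam3 : lam ≤ 1 / 3 := hlam0.trans (min_le_left _ _)
  have hlam1 : lam < 1 := by linarith
  have hlamη : 8 * lam ≤ η * (θ - 1 / 2) := by
    have := hlam0.trans (min_le_right _ _)
    linarith
  set z : ℝ := 4 * lam / (θ - 1 / 2) with hz
  have hz0 : 0 < z := by positivity
  have hzη : 2 * z ≤ η := by
    rw [hz, ← mul_div_assoc, div_le_iff₀ ht]
    linarith
  have hz1 : z ≤ 1 / 8 := by linarith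
  have hNpos : 0 < N := by
    rcases Nat.eq_zero_or_pos N with h | h
    · subst h; simp at hx1
    · exact h
  have hxle : ∀ i < N, x i ≤ 1 := fun i hi => by
    rw [← hx1]; exact Finset.single_le_sum (fun j _ => hx j) (mem_range.2 hi)
  have hyle : ∀ i < N, y i ≤ 1 := fun i hi => by
    rw [← hy1]; exact Finset.single_le_sum (fun j _ => hy j) (mem_range.2 hi)
  -- maximal index
  obtain ⟨k, hkN, hkmax⟩ := Finset.exists_max_image (range N) (fun i => x i * y i)
    ⟨0, mem_range.2 hNpos⟩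
  have hkN' : k < N := mem_range.1 hkN
  set s : Finset (ℕ × ℕ) := range N ×ˢ range N with hs
  set w : ℕ × ℕ → ℝ := fun q => (x q.1 * y q.2) ^ θ * lam ^ ((q.1 - q.2) + (q.2 - q.1)) with hw
  have hew : ∀ q ∈ s, e q.1 q.2 ≤ w q := fun q hq => by
    rw [hs, mem_product, mem_range, mem_range] at hq
    exact hele q.1 hq.1 q.2 hq.2
  have htot : ∑ q ∈ s, e q.1 q.2 = 1 := by rw [hs, sum_product]; exact he1
  -- geometric constants
  have c1 : 2 * lam ^ 1 / (1 - lam) ≤ 4 * lam := by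
    rw [div_le_iff₀ (by linarith)]; nlinarith
  have c2 : 2 * lam ^ 2 / (1 - lam) ≤ 4 * lam ^ 2 := by
    rw [div_le_iff₀ (by linarith)]; nlinarith [sq_nonneg lam]
  have c0 : (1 + lam) / (1 - lam) ≤ 2 := by
    rw [div_le_iff₀ (by linarith)]; linarith
  -- step 1: the diagonal
  have hM : 1 - 4 * lam ≤ ∑ i ∈ range N, (x i * y i) ^ θ := by
    have hsplit := Finset.sum_filter_add_sum_filter_not s (fun q => q.1 = q.2) (fun q => e q.1 q.2)
    have hd : ∑ q ∈ s.filter (fun q => q.1 = q.2), e q.1 q.2 ≤ ∑ i ∈ range N, (x i * y i) ^ θ := by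
      calc ∑ q ∈ s.filter (fun q => q.1 = q.2), e q.1 q.2
          ≤ ∑ q ∈ s.filter (fun q => q.1 = q.2), (x q.1 * y q.1) ^ θ := by
            refine Finset.sum_le_sum fun q hq => ?_
            rw [mem_filter] at hq
            have := hew q hq.1
            simp only [hw] at this
            rw [← hq.2] at this ⊢
            simpa using this
        _ = ∑ i ∈ (s.filter (fun q => q.1 = q.2)).image Prod.fst, (x i * y i) ^ θ := by
            rw [Finset.sum_image]
            intro a ha b hb hab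
            rw [Finset.coe_filter] at ha hb
            have ha2 := ha.2
            have hb2 := hb.2
            exact Prod.ext hab (by rw [← ha2, ← hb2]; exact hab)
        _ ≤ ∑ i ∈ range N, (x i * y i) ^ θ := by
            refine Finset.sum_le_sum_of_subset_of_nonneg ?_
              (fun i _ _ => Real.rpow_nonneg (mul_nonneg (hx i) (hy i)) _)
            intro i hi
            obtain ⟨q, hq, rfl⟩ := mem_image.1 hi
            rw [mem_filter, hs, mem_product] at hq
            exact hq.1.1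
    have ho : ∑ q ∈ s.filter (fun q => ¬ q.1 = q.2), e q.1 q.2 ≤ 4 * lam := by
      have h5 := matching_sum θ lam h1.le hlam hlam1 (s.filter (fun q => ¬ q.1 = q.2)) x y hx hy 1
        le_rfl (by
          intro q hq
          rw [mem_filter] at hq
          have := hq.2
          omega) 1 1
        (a1_img_one N x hx _ (by
          intro i hi
          obtain ⟨q, hq, rfl⟩ := mem_image.1 hi
          rw [mem_filter, hs, mem_product] at hq
          exact hq.1.1) hx1)
        (a1_img_one N y hy _ (by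
          intro i hi
          obtain ⟨q, hq, rfl⟩ := mem_image.1 hi
          rw [mem_filter, hs, mem_product] at hq
          exact hq.1.2) hy1)
      rw [one_mul, Real.one_rpow, one_mul] at h5
      refine le_trans ?_ (h5.trans c1)
      exact Finset.sum_le_sum fun q hq => hew q (mem_filter.1 hq).1
    rw [htot] at hsplit
    linarith
  -- step 2
  set P : ℝ := x k * y k with hP
  have hP0 : 0 ≤ P := mul_nonneg (hx k) (hy k)
  have hPz : 1 - z ≤ P := by
    by_contra hcon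
    push Not at hcon
    have h5 : ∑ i ∈ range N, (x i * y i) ^ θ ≤ P ^ (θ - 1 / 2) := by
      calc ∑ i ∈ range N, (x i * y i) ^ θ
          ≤ ∑ i ∈ range N, P ^ (θ - 1 / 2) * ((x i + y i) / 2) := by
            refine Finset.sum_le_sum fun i hi => ?_
            have hxy0 : 0 ≤ x i * y i := mul_nonneg (hx i) (hy i)
            rcases eq_or_lt_of_le hxy0 with h0 | h0
            · rw [← h0, Real.zero_rpow hθ0.ne']
              have := hx i
              have := hy i
              positivity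
            · have : θ = (θ - 1 / 2) + 1 / 2 := by ring
              rw [this, Real.rpow_add h0]
              have e1 : (x i * y i) ^ (θ - 1 / 2) ≤ P ^ (θ - 1 / 2) :=
                Real.rpow_le_rpow hxy0 (hkmax i hi) ht.le
              have e2 : (x i * y i) ^ (1 / 2 : ℝ) ≤ (x i + y i) / 2 := by
                rw [← Real.sqrt_eq_rpow, Real.sqrt_le_left (by have := hx i; have := hy i; positivity)]
                nlinarith [sq_nonneg (x i - y i)]
              rw [show θ - 1 / 2 + 1 / 2 - 1 / 2 = θ - 1 / 2 by ring]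
              exact mul_le_mul e1 e2 (by positivity) (by positivity)
        _ = P ^ (θ - 1 / 2) := by
            rw [← Finset.mul_sum, ← Finset.sum_div, Finset.sum_add_distrib, hx1, hy1]
            ring
    have h6 : P ^ (θ - 1 / 2) < (1 - z) ^ (θ - 1 / 2) := Real.rpow_lt_rpow hP0 hcon ht
    have h7 : (1 - z) ^ (θ - 1 / 2) ≤ 1 - 4 * lam := by
      have h8 := rpow_one_add_le_one_add_mul_self (s := -z) (by linarith) (p := θ - 1 / 2)
        (by linarith) (by linarith)
      have e1 : 1 + -z = 1 - z := by ring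
      rw [e1] at h8
      have h9 : (θ - 1 / 2) * z = 4 * lam := by
        rw [hz]; exact mul_div_cancel₀ _ ht.ne'
      linarith
    linarith
  set X : ℝ := 1 - x k with hX
  set Y : ℝ := 1 - y k with hY
  have hX0 : 0 ≤ X := by rw [hX]; linarith [hxle k hkN']
  have hY0 : 0 ≤ Y := by rw [hY]; linarith [hyle k hkN']
  have hXz : X ≤ z := by
    have h5 : P ≤ x k := by rw [hP]; nlinarith [hx k, hyle k hkN']
    rw [hX]; linarith
  have hYz : Y ≤ z := by
    have h5 : P ≤ y k := by rw [hP]; nlinarith [hy k, hxle k hkN']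
    rw [hY]; linarith
  have hX1 : X ≤ 1 := by linarith
  have hY1 : Y ≤ 1 := by linarith
  -- cells
  have hRow : ∀ D : ℕ, 1 ≤ D → ∑ q ∈ s.filter (fun q => q.1 = k ∧ D ≤ (q.1 - q.2) + (q.2 - q.1)),
      e q.1 q.2 ≤ Y ^ θ * (2 * lam ^ D / (1 - lam)) := by
    intro D hD
    have h5 := matching_sum θ lam h1.le hlam hlam1
      (s.filter (fun q => q.1 = k ∧ D ≤ (q.1 - q.2) + (q.2 - q.1))) x y hx hy D hD (by
        intro q hq
        exact (mem_filter.1 hq).2.2) 1 Y
      (a1_img_one N x hx _ (by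
          intro i hi
          obtain ⟨q, hq, rfl⟩ := mem_image.1 hi
          rw [mem_filter, hs, mem_product] at hq
          exact hq.1.1) hx1)
      (a1_img_snd N k y hy _ (by
          intro q hq
          rw [mem_filter, hs, mem_product] at hq
          rw [mem_filter]
          refine ⟨hq.1.2, ?_⟩
          have := hq.2
          omega) hkN hy1)
    rw [one_mul] at h5
    refine le_trans ?_ h5
    exact Finset.sum_le_sum fun q hq => hew q (mem_filter.1 hq).1
  have hCol : ∀ D : ℕ, 1 ≤ D → ∑ q ∈ s.filter (fun q => q.2 = k ∧ D ≤ (q.1 - q.2) + (q.2 - q.1)),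
      e q.1 q.2 ≤ X ^ θ * (2 * lam ^ D / (1 - lam)) := by
    intro D hD
    have h5 := matching_sum θ lam h1.le hlam hlam1
      (s.filter (fun q => q.2 = k ∧ D ≤ (q.1 - q.2) + (q.2 - q.1))) x y hx hy D hD (by
        intro q hq
        exact (mem_filter.1 hq).2.2) X 1
      (a1_img_fst N k x hx _ (by
          intro q hq
          rw [mem_filter, hs, mem_product] at hq
          rw [mem_filter]
          refine ⟨hq.1.1, ?_⟩
          have := hq.2
          omega) hkN hx1)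
      (a1_img_one N y hy _ (by
          intro i hi
          obtain ⟨q, hq, rfl⟩ := mem_image.1 hi
          rw [mem_filter, hs, mem_product] at hq
          exact hq.1.2) hy1)
    rw [mul_one] at h5
    refine le_trans ?_ h5
    exact Finset.sum_le_sum fun q hq => hew q (mem_filter.1 hq).1
  have hOff : ∑ q ∈ s.filter (fun q => q.1 ≠ k ∧ q.2 ≠ k), e q.1 q.2 ≤ 2 * (X * Y) ^ θ := by
    have h5 := matching_sum0 θ lam h1.le hlam hlam1
      (s.filter (fun q => q.1 ≠ k ∧ q.2 ≠ k)) x y hx hy X Y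
      (a1_img_fst N k x hx _ (by
          intro q hq
          rw [mem_filter, hs, mem_product] at hq
          rw [mem_filter]
          exact ⟨hq.1.1, hq.2.1⟩) hkN hx1)
      (a1_img_snd N k y hy _ (by
          intro q hq
          rw [mem_filter, hs, mem_product] at hq
          rw [mem_filter]
          exact ⟨hq.1.2, hq.2.2⟩) hkN hy1)
    refine le_trans (Finset.sum_le_sum fun q hq => hew q (mem_filter.1 hq).1) (h5.trans ?_)
    have h6 : 0 ≤ (X * Y) ^ θ := by positivity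
    nlinarith
  have hkk : e k k ≤ 1 - θ * (X + Y) + X * Y := by
    have h5 := hele k hkN' k hkN'
    have h6 := a1_diag θ h1 h2 X Y hX0 hX1 hY0 hY1
    have e1 : 1 - X = x k := by rw [hX]; ring
    have e2 : 1 - Y = y k := by rw [hY]; ring
    rw [e1, e2] at h6
    simp only [tsub_self, add_zero, pow_zero, mul_one] at h5
    linarith
  have hXθ0 : 0 ≤ X ^ θ := by positivity
  have hYθ0 : 0 ≤ Y ^ θ := by positivity
  -- step 4
  have hineq : θ * (X + Y) ≤ X * Y + 2 * (X * Y) ^ θ + 4 * lam * (X ^ θ + Y ^ θ) := by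
    have h5 : ∑ q ∈ s, e q.1 q.2 ≤ e k k +
        ∑ q ∈ s.filter (fun q => q.1 = k ∧ 1 ≤ (q.1 - q.2) + (q.2 - q.1)), e q.1 q.2 +
        ∑ q ∈ s.filter (fun q => q.2 = k ∧ 1 ≤ (q.1 - q.2) + (q.2 - q.1)), e q.1 q.2 +
        ∑ q ∈ s.filter (fun q => q.1 ≠ k ∧ q.2 ≠ k), e q.1 q.2 := by
      have h6 : e k k = ∑ q ∈ s.filter (fun q => q.1 = k ∧ q.2 = k), e q.1 q.2 := by
        have : s.filter (fun q => q.1 = k ∧ q.2 = k) = {(k, k)} := by
          ext q
          simp only [mem_filter, mem_singleton, hs, mem_product]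
          constructor
          · rintro ⟨-, h7, h8⟩; exact Prod.ext h7 h8
          · rintro rfl; exact ⟨⟨hkN, hkN⟩, rfl, rfl⟩
        rw [this, sum_singleton]
      rw [h6, sum_filter, sum_filter, sum_filter, sum_filter, ← sum_add_distrib,
        ← sum_add_distrib, ← sum_add_distrib]
      refine Finset.sum_le_sum fun q _ => ?_
      have he0 := he q.1 q.2
      by_cases a1 : q.1 = k <;> by_cases a2 : q.2 = k
      · simp [a1, a2]
      · have a3 : 1 ≤ (q.1 - q.2) + (q.2 - q.1) := by omega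
        rw [if_neg (fun h => a2 h.2), if_pos ⟨a1, a3⟩, if_neg (fun h => a2 h.1),
          if_neg (fun h => h.1 a1)]
        linarith
      · have a3 : 1 ≤ (q.1 - q.2) + (q.2 - q.1) := by omega
        rw [if_neg (fun h => a1 h.1), if_neg (fun h => a1 h.1), if_pos ⟨a2, a3⟩,
          if_neg (fun h => h.2 a2)]
        linarith
      · rw [if_neg (fun h => a1 h.1), if_neg (fun h => a1 h.1), if_neg (fun h => a2 h.1),
          if_pos ⟨a1, a2⟩]
        linarith
    have h6 := hRow 1 le_rfl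
    have h7 := hCol 1 le_rfl
    have h8 : Y ^ θ * (2 * lam ^ 1 / (1 - lam)) ≤ Y ^ θ * (4 * lam) := by gcongr
    have h9 : X ^ θ * (2 * lam ^ 1 / (1 - lam)) ≤ X ^ θ * (4 * lam) := by gcongr
    rw [htot] at h5
    linarith
  have hZη : X + Y ≤ η := by linarith
  have hZ8 : (X + Y) ^ (2 * θ - 1) ≤ 1 / 8 :=
    (Real.rpow_le_rpow (by positivity) hZη ht2.le).trans hη8
  have hZ := a1_Z θ h1 h2 lam X Y hlam hX0 hY0 (hZη.trans hη4) hZ8 hineq
  -- step 5
  refine ⟨k, hkN', ?_⟩
  have h5 : ∑ i ∈ range N, ∑ j ∈ range N, (if GoodAt k k i j then 0 else e i j) ≤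
      ∑ q ∈ s.filter (fun q => q.1 = k ∧ 2 ≤ (q.1 - q.2) + (q.2 - q.1)), e q.1 q.2 +
      ∑ q ∈ s.filter (fun q => q.2 = k ∧ 2 ≤ (q.1 - q.2) + (q.2 - q.1)), e q.1 q.2 +
      ∑ q ∈ s.filter (fun q => q.1 ≠ k ∧ q.2 ≠ k), e q.1 q.2 := by
    rw [← sum_product' (range N) (range N) (fun i j => if GoodAt k k i j then 0 else e i j),
      sum_filter, sum_filter, sum_filter, ← sum_add_distrib, ← sum_add_distrib]
    refine Finset.sum_le_sum fun q _ => ?_
    have he0 := he q.1 q.2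
    have n1 : 0 ≤ (if q.1 = k ∧ 2 ≤ (q.1 - q.2) + (q.2 - q.1) then e q.1 q.2 else 0) := by
      split_ifs <;> simp [he0]
    have n2 : 0 ≤ (if q.2 = k ∧ 2 ≤ (q.1 - q.2) + (q.2 - q.1) then e q.1 q.2 else 0) := by
      split_ifs <;> simp [he0]
    have n3 : 0 ≤ (if q.1 ≠ k ∧ q.2 ≠ k then e q.1 q.2 else 0) := by
      split_ifs <;> simp [he0]
    by_cases hg : GoodAt k k q.1 q.2
    · rw [if_pos hg]; linarith
    · rw [if_neg hg]
      unfold GoodAt at hg
      by_cases a1 : q.1 = k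
      · have a3 : 2 ≤ (q.1 - q.2) + (q.2 - q.1) := by omega
        rw [if_pos ⟨a1, a3⟩]; linarith
      · by_cases a2 : q.2 = k
        · have a3 : 2 ≤ (q.1 - q.2) + (q.2 - q.1) := by omega
          rw [if_pos (show q.2 = k ∧ 2 ≤ (q.1 - q.2) + (q.2 - q.1) from ⟨a2, a3⟩)]; linarith
        · rw [if_pos (show q.1 ≠ k ∧ q.2 ≠ k from ⟨a1, a2⟩)]; linarith
  refine h5.trans ?_
  have h6 := hRow 2 (by norm_num)
  have h7 := hCol 2 (by norm_num)
  have h8 : Y ^ θ * (2 * lam ^ 2 / (1 - lam)) ≤ Y ^ θ * (4 * lam ^ 2) := by gcongr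
  have h9 : X ^ θ * (2 * lam ^ 2 / (1 - lam)) ≤ X ^ θ * (4 * lam ^ 2) := by gcongr
  set B : ℝ := (32 * lam) ^ (1 / (1 - θ)) with hB
  have hB0 : 0 ≤ B := by positivity
  have b1 : X ^ θ ≤ B ^ θ := Real.rpow_le_rpow hX0 (by linarith) hθ0.le
  have b2 : Y ^ θ ≤ B ^ θ := Real.rpow_le_rpow hY0 (by linarith) hθ0.le
  have b3 : (X * Y) ^ θ ≤ B ^ (2 * θ) := by
    rw [Real.rpow_mul hB0, Real.rpow_ofNat]
    refine Real.rpow_le_rpow (by positivity) ?_ hθ0.le
    rw [sq]
    exact mul_le_mul (by linarith) (by linarith) hY0 hB0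
  have b4 : B ^ θ = (32 * lam) ^ (θ / (1 - θ)) := by
    rw [hB, ← Real.rpow_mul (by positivity)]
    congr 1
    field_simp
  have b5 : B ^ (2 * θ) = (32 * lam) ^ (2 * θ / (1 - θ)) := by
    rw [hB, ← Real.rpow_mul (by positivity)]
    congr 1
    field_simp
  rw [← b4, ← b5]
  have hl2 : 0 ≤ lam ^ 2 := sq_nonneg _
  nlinarith

end Pool.Agent.IDS
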