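import Pool.Agent.IDS.A0

set_option autoImplicit false

namespace Pool.Agent.IDS

open Finset

/-- [IDS-A2] **Best cell.**  Some cell with `e_ij > 0` satisfies
`(x_i y_j)^θ lam^{|i-j|} ≤ ((1+lam)/(1-lam)) e_ij`.

PROOF.  Otherwise for all cells with `e_ij > 0` we have
`e_ij < ((1-lam)/(1+lam)) (x_i y_j)^θ lam^{|i-j|}`; sum over these cells (nonempty, since
`∑ e = 1`): `1 < ((1-lam)/(1+lam)) ∑ (x_i y_j)^θ lam^{|i-j|} ≤ 1` by `matching_sum0` with
`X = Y = 1`, a contradiction. -/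
theorem best_cell (θ lam : ℝ) (h1 : 1 / 2 ≤ θ) (hl0 : 0 < lam) (hl1 : lam < 1)
    (N : ℕ) (x y : ℕ → ℝ) (e : ℕ → ℕ → ℝ)
    (hx : ∀ i, 0 ≤ x i) (hy : ∀ j, 0 ≤ y j) (he : ∀ i j, 0 ≤ e i j)
    (hxs : ∑ i ∈ range N, x i = 1) (hys : ∑ j ∈ range N, y j = 1)
    (hes : ∑ i ∈ range N, ∑ j ∈ range N, e i j = 1) :
    ∃ i < N, ∃ j < N, 0 < e i j ∧
      (x i * y j) ^ θ * lam ^ ((i - j) + (j - i)) ≤ (1 + lam) / (1 - lam) * e i j := by
  by_contra hcon
  push Not at hcon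
  set s : Finset (ℕ × ℕ) := (range N ×ˢ range N).filter (fun q => 0 < e q.1 q.2) with hs
  have hsum : ∑ q ∈ s, e q.1 q.2 = 1 := by
    rw [hs, sum_filter_of_ne, sum_product, hes]
    intro q _ hne
    exact lt_of_le_of_ne (he q.1 q.2) (Ne.symm hne)
  have hmem : ∀ q ∈ s, q.1 < N ∧ q.2 < N ∧ 0 < e q.1 q.2 := by
    intro q hq
    rw [hs, mem_filter, mem_product, mem_range, mem_range] at hq
    exact ⟨hq.1.1, hq.1.2, hq.2⟩
  have hne : s.Nonempty := by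
    rw [nonempty_iff_ne_empty]
    intro h0
    rw [h0, sum_empty] at hsum
    exact zero_ne_one hsum
  have hX : ∑ i ∈ s.image Prod.fst, x i ≤ 1 := by
    rw [← hxs]
    apply sum_le_sum_of_subset_of_nonneg
    · intro i hi
      obtain ⟨q, hq, rfl⟩ := mem_image.1 hi
      exact mem_range.2 (hmem q hq).1
    · intro i _ _
      exact hx i
  have hY : ∑ j ∈ s.image Prod.snd, y j ≤ 1 := by
    rw [← hys]
    apply sum_le_sum_of_subset_of_nonneg
    · intro j hj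
      obtain ⟨q, hq, rfl⟩ := mem_image.1 hj
      exact mem_range.2 (hmem q hq).2.1
    · intro j _ _
      exact hy j
  have h2 := matching_sum0 θ lam h1 hl0 hl1 s x y hx hy 1 1 hX hY
  rw [one_mul, Real.one_rpow, one_mul] at h2
  have h3 : ∑ q ∈ s, (1 + lam) / (1 - lam) * e q.1 q.2 <
      ∑ q ∈ s, (x q.1 * y q.2) ^ θ * lam ^ ((q.1 - q.2) + (q.2 - q.1)) := by
    apply sum_lt_sum_of_nonempty hne
    intro q hq
    obtain ⟨h4, h5, h6⟩ := hmem q hq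
    exact hcon q.1 h4 q.2 h5 h6
  rw [← mul_sum, hsum, mul_one] at h3
  linarith

end Pool.Agent.IDS
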