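import Pool.Agent.IDS.A1
import Pool.Agent.IDS.A2

set_option autoImplicit false

namespace Pool.Agent.IDS

open Finset

/-! ### normalisation -/

/-- fibre of edges -/
def a3E (p : ℕ) (E : Finset (ℕ × ℕ)) (i j : ℕ) : Finset (ℕ × ℕ) :=
  E.filter (fun e => e.1.factorization p = i ∧ e.2.factorization p = j)

/-- fibre of vertices -/
def a3V (p : ℕ) (V : Finset ℕ) (i : ℕ) : Finset ℕ := V.filter (fun v => v.factorization p = i)

theorem a3_sum_V (p : ℕ) (μ : ℕ → ℝ) (V : Finset ℕ) (N : ℕ)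
    (hN : ∀ v ∈ V, v.factorization p < N) : ∑ i ∈ range N, ms μ (a3V p V i) = ms μ V := by
  unfold ms a3V
  exact Finset.sum_fiberwise_of_maps_to (g := fun v : ℕ => v.factorization p)
    (fun v hv => Finset.mem_range.2 (hN v hv)) μ

theorem a3_sum_E (p : ℕ) (μ ν : ℕ → ℝ) (E : Finset (ℕ × ℕ)) (N : ℕ)
    (hN1 : ∀ e ∈ E, e.1.factorization p < N) (hN2 : ∀ e ∈ E, e.2.factorization p < N) :
    ∑ i ∈ range N, ∑ j ∈ range N, em μ ν (a3E p E i j) = em μ ν E := by
  have h1 : ∀ i, ∑ j ∈ range N, em μ ν (a3E p E i j) =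
      em μ ν (E.filter (fun e => e.1.factorization p = i)) := by
    intro i
    unfold em a3E
    rw [← Finset.sum_fiberwise_of_maps_to (g := fun e : ℕ × ℕ => e.2.factorization p)
      (t := range N) (s := E.filter (fun e => e.1.factorization p = i))
      (fun e he => Finset.mem_range.2 (hN2 e (Finset.mem_filter.1 he).1))]
    refine Finset.sum_congr rfl fun j _ => ?_
    rw [Finset.filter_filter]
  rw [Finset.sum_congr rfl fun i _ => h1 i]
  unfold em
  exact Finset.sum_fiberwise_of_maps_to (g := fun e : ℕ × ℕ => e.1.factorization p)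
    (fun e he => Finset.mem_range.2 (hN1 e he)) _

theorem a3_pos {μ ν : ℕ → ℝ} (hμ : ∀ v, 0 ≤ μ v) (hν : ∀ v, 0 ≤ ν v)
    {V W : Finset ℕ} {E : Finset (ℕ × ℕ)} (hE : E ⊆ V ×ˢ W) (h0 : 0 < em μ ν E) :
    0 < ms μ V ∧ 0 < ms ν W := by
  have h1 := em_le_mul hμ hν hE
  have h2 := ms_nonneg hμ V
  have h3 := ms_nonneg hν W
  have h4 : 0 < ms μ V * ms ν W := lt_of_lt_of_le h0 h1
  constructor
  · rcases h2.eq_or_lt with h | h
    · rw [← h, zero_mul] at h4
      exact absurd h4 (lt_irrefl _)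
    · exact h
  · rcases h3.eq_or_lt with h | h
    · rw [← h, mul_zero] at h4
      exact absurd h4 (lt_irrefl _)
    · exact h

/-- a common bound for the exponents -/
theorem a3_bound (p : ℕ) {V W : Finset ℕ} {E : Finset (ℕ × ℕ)} (hE : E ⊆ V ×ˢ W) :
    ∃ N : ℕ, (∀ v ∈ V, v.factorization p < N) ∧ (∀ w ∈ W, w.factorization p < N) ∧
      (∀ e ∈ E, e.1.factorization p < N) ∧ (∀ e ∈ E, e.2.factorization p < N) := by
  refine ⟨V.sup (fun v => v.factorization p) + W.sup (fun v => v.factorization p) + 1, ?_⟩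
  have h1 : ∀ v ∈ V, v.factorization p ≤ V.sup (fun v => v.factorization p) := fun v hv =>
    Finset.le_sup (f := fun v : ℕ => v.factorization p) hv
  have h2 : ∀ v ∈ W, v.factorization p ≤ W.sup (fun v => v.factorization p) := fun v hv =>
    Finset.le_sup (f := fun v : ℕ => v.factorization p) hv
  refine ⟨fun v hv => ?_, fun v hv => ?_, fun e he => ?_, fun e he => ?_⟩
  · have := h1 v hv; omega
  · have := h2 v hv; omega
  · have := h1 e.1 (Finset.mem_product.1 (hE he)).1; omega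
  · have := h2 e.2 (Finset.mem_product.1 (hE he)).2; omega

/-- choosing one cell -/
theorem a3_cell (θ lam F : ℝ) (p : ℕ) (μ ν : ℕ → ℝ) (hμ : ∀ v, 0 ≤ μ v) (hν : ∀ v, 0 ≤ ν v)
    (V W : Finset ℕ) (E : Finset (ℕ × ℕ)) (hE : E ⊆ V ×ˢ W) (h0 : 0 < em μ ν E) (i j : ℕ)
    (he : 0 < em μ ν (a3E p E i j) / em μ ν E)
    (hle : (ms μ (a3V p V i) / ms μ V * (ms ν (a3V p W j) / ms ν W)) ^ θ *
      lam ^ ((i - j) + (j - i)) ≤ F * (em μ ν (a3E p E i j) / em μ ν E)) :
    StepOK θ p F lam μ ν V W E := by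
  obtain ⟨hA, hB⟩ := a3_pos hμ hν hE h0
  refine ⟨a3V p V i, a3V p W j, a3E p E i j, i, j, Finset.filter_subset _ _,
    Finset.filter_subset _ _, Finset.filter_subset _ _, ?_, ?_, ?_, ?_⟩
  · intro e h
    unfold a3E at h
    rw [Finset.mem_filter] at h
    have h2 := Finset.mem_product.1 (hE h.1)
    unfold a3V
    rw [Finset.mem_product, Finset.mem_filter, Finset.mem_filter]
    exact ⟨⟨h2.1, h.2.1⟩, ⟨h2.2, h.2.2⟩⟩
  · intro e h
    unfold a3E at h
    rw [Finset.mem_filter] at h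
    exact Or.inl h.2
  · have := mul_pos he h0
    rwa [div_mul_cancel₀ _ h0.ne'] at this
  · have hx : 0 ≤ ms μ (a3V p V i) / ms μ V := div_nonneg (ms_nonneg hμ _) hA.le
    have hy : 0 ≤ ms ν (a3V p W j) / ms ν W := div_nonneg (ms_nonneg hν _) hB.le
    have h1 : ms μ (a3V p V i) * ms ν (a3V p W j) =
        (ms μ (a3V p V i) / ms μ V * (ms ν (a3V p W j) / ms ν W)) * (ms μ V * ms ν W) := by
      field_simp
    rw [h1, Real.mul_rpow (mul_nonneg hx hy) (mul_pos hA hB).le]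
    have hAB : 0 ≤ (ms μ V * ms ν W) ^ θ := Real.rpow_nonneg (mul_pos hA hB).le _
    calc em μ ν E * ((ms μ (a3V p V i) / ms μ V * (ms ν (a3V p W j) / ms ν W)) ^ θ *
          (ms μ V * ms ν W) ^ θ) * lam ^ ((i - j) + (j - i))
        = em μ ν E * (ms μ V * ms ν W) ^ θ *
          ((ms μ (a3V p V i) / ms μ V * (ms ν (a3V p W j) / ms ν W)) ^ θ *
            lam ^ ((i - j) + (j - i))) := by ring
      _ ≤ em μ ν E * (ms μ V * ms ν W) ^ θ * (F * (em μ ν (a3E p E i j) / em μ ν E)) :=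
          mul_le_mul_of_nonneg_left hle (mul_nonneg h0.le hAB)
      _ = F * (em μ ν (a3E p E i j) * (ms μ V * ms ν W) ^ θ) := by
          field_simp

theorem a3_good (p : ℕ) (μ ν : ℕ → ℝ) (E : Finset (ℕ × ℕ)) (N k : ℕ)
    (hN1 : ∀ e ∈ E, e.1.factorization p < N) (hN2 : ∀ e ∈ E, e.2.factorization p < N) :
    em μ ν E = em μ ν (E.filter (fun e => GoodAt k k (e.1.factorization p) (e.2.factorization p))) +
      ∑ i ∈ range N, ∑ j ∈ range N, (if GoodAt k k i j then 0 else em μ ν (a3E p E i j)) := by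
  have h1 : em μ ν (E.filter
      (fun e => ¬ GoodAt k k (e.1.factorization p) (e.2.factorization p))) =
      ∑ i ∈ range N, ∑ j ∈ range N, (if GoodAt k k i j then 0 else em μ ν (a3E p E i j)) := by
    rw [← a3_sum_E p μ ν _ N (fun e he => hN1 e (Finset.mem_filter.1 he).1)
      (fun e he => hN2 e (Finset.mem_filter.1 he).1)]
    refine Finset.sum_congr rfl fun i _ => Finset.sum_congr rfl fun j _ => ?_
    unfold a3E
    rw [Finset.filter_filter]
    by_cases hg : GoodAt k k i j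
    · rw [if_pos hg]
      have : E.filter (fun e => ¬ GoodAt k k (e.1.factorization p) (e.2.factorization p) ∧
          (e.1.factorization p = i ∧ e.2.factorization p = j)) = ∅ := by
        apply Finset.filter_eq_empty_iff.2
        rintro e _ ⟨h1, h2, h3⟩
        rw [h2, h3] at h1
        exact h1 hg
      rw [this]
      simp [em]
    · rw [if_neg hg]
      congr 1
      apply Finset.filter_congr
      intro e _
      constructor
      · exact fun h => h.2
      · intro h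
        refine ⟨?_, h⟩
        rw [h.1, h.2]
        exact hg
  rw [← h1]
  unfold em
  exact (Finset.sum_filter_add_sum_filter_not E _ _).symm

/-- [IDS-A3a] **Selection step at a large prime** (small `lam`).

PROOF.  Take `l0` from `opi` (then `l0 ≤ 1/3`).  Since `em μ ν E > 0` and `E ⊆ V × W`,
`0 < em μ ν E ≤ ms μ V * ms ν W` (`em_le_mul`), so both masses are positive.  Let `N` be larger than
all `factorization p` of elements of `V ∪ W` and of all components of `E`.
`V_i = V.filter (·.factorization p = i)`, `W_j` similarly, `E_ij = E.filter (...)`,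
`x_i = ms μ V_i / ms μ V`, `y_j = ms ν W_j / ms ν W`, `e_ij = em μ ν E_ij / em μ ν E`
(`Finset.sum_fiberwise_of_maps_to` gives the three sums `= 1`).
Case 1: some `i, j < N` has `e_ij > (x_i y_j)^θ lam^{|i-j|}`.  Take `V' = V_i, W' = W_j, E' = E_ij`:
`em E * (ms V_i * ms W_j)^θ lam^{|i-j|} = em E (x_i y_j)^θ (ms V ms W)^θ lam^{|i-j|}
< em E_ij (ms V ms W)^θ` and `1 ≤ 1 + 2 bad`.  All edges have exponents `(i, j)`: first alternative
of `GoodAt`.
Case 2: otherwise `opi` gives `k` with bad mass `≤ bad ≤ 1/2`.  Take `V' = V, W' = W, i = j = k`,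
`E' = E.filter (GoodAt k k ..)`: `em E' ≥ (1 - bad) em E`, and `1/(1-bad) ≤ 1 + 2 bad`. -/
theorem step_large (θ : ℝ) (h1 : 1 / 2 < θ) (h2 : θ < 1) :
    ∃ l0 : ℝ, 0 < l0 ∧ l0 < 1 ∧ ∀ (p : ℕ) (lam bad : ℝ), 0 < lam → lam ≤ l0 →
      bad = 2 * (32 * lam) ^ (2 * θ / (1 - θ)) + 8 * lam ^ 2 * (32 * lam) ^ (θ / (1 - θ)) →
      bad ≤ 1 / 2 →
      ∀ (μ ν : ℕ → ℝ), (∀ v, 0 ≤ μ v) → (∀ v, 0 ≤ ν v) →
      ∀ (V W : Finset ℕ) (E : Finset (ℕ × ℕ)), E ⊆ V ×ˢ W → 0 < em μ ν E →
      StepOK θ p (1 + 2 * bad) lam μ ν V W E := by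
  obtain ⟨l0, hl0, hl1, hopi⟩ := opi θ h1 h2
  refine ⟨l0, hl0, by linarith, ?_⟩
  intro p lam bad hlam hlam0 hbad hbad2 μ ν hμ hν V W E hE h0
  obtain ⟨hA, hB⟩ := a3_pos hμ hν hE h0
  obtain ⟨N, hNV, hNW, hN1, hN2⟩ := a3_bound p hE
  have hbad0 : 0 ≤ bad := by rw [hbad]; positivity
  have hx0 : ∀ i, 0 ≤ ms μ (a3V p V i) / ms μ V := fun i =>
    div_nonneg (ms_nonneg hμ _) hA.le
  have hy0 : ∀ j, 0 ≤ ms ν (a3V p W j) / ms ν W := fun i =>
    div_nonneg (ms_nonneg hν _) hB.le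
  have he0 : ∀ i j, 0 ≤ em μ ν (a3E p E i j) / em μ ν E := fun i j =>
    div_nonneg (em_nonneg hμ hν _) h0.le
  by_cases hc : ∀ i < N, ∀ j < N, em μ ν (a3E p E i j) / em μ ν E ≤
      (ms μ (a3V p V i) / ms μ V * (ms ν (a3V p W j) / ms ν W)) ^ θ *
        lam ^ ((i - j) + (j - i))
  · -- the concentrated case
    obtain ⟨k, hk, hkb⟩ := hopi lam hlam hlam0 N (fun i => ms μ (a3V p V i) / ms μ V)
      (fun j => ms ν (a3V p W j) / ms ν W) (fun i j => em μ ν (a3E p E i j) / em μ ν E)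
      hx0 hy0 he0
      (by rw [← Finset.sum_div, a3_sum_V p μ V N hNV, div_self hA.ne'])
      (by rw [← Finset.sum_div, a3_sum_V p ν W N hNW, div_self hB.ne'])
      (by
        simp only [← Finset.sum_div]
        rw [a3_sum_E p μ ν E N hN1 hN2, div_self h0.ne']) hc
    rw [← hbad] at hkb
    have hsplit := a3_good p μ ν E N k hN1 hN2
    have hb : ∑ i ∈ range N, ∑ j ∈ range N,
        (if GoodAt k k i j then 0 else em μ ν (a3E p E i j)) ≤ bad * em μ ν E := by
      have h3 : ∑ i ∈ range N, ∑ j ∈ range N,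
          (if GoodAt k k i j then 0 else em μ ν (a3E p E i j)) =
          (∑ i ∈ range N, ∑ j ∈ range N,
            (if GoodAt k k i j then 0 else em μ ν (a3E p E i j) / em μ ν E)) * em μ ν E := by
        rw [Finset.sum_mul]
        refine Finset.sum_congr rfl fun i _ => ?_
        rw [Finset.sum_mul]
        refine Finset.sum_congr rfl fun j _ => ?_
        split_ifs
        · rw [zero_mul]
        · rw [div_mul_cancel₀ _ h0.ne']
      rw [h3]
      exact mul_le_mul_of_nonneg_right hkb h0.le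
    set E' := E.filter (fun e => GoodAt k k (e.1.factorization p) (e.2.factorization p)) with hE'
    have hge : (1 - bad) * em μ ν E ≤ em μ ν E' := by linarith
    refine ⟨V, W, E', k, k, Finset.Subset.refl _, Finset.Subset.refl _, Finset.filter_subset _ _,
      (Finset.filter_subset _ _).trans hE, ?_, ?_, ?_⟩
    · intro e he
      exact (Finset.mem_filter.1 he).2
    · have : 0 < (1 - bad) * em μ ν E := mul_pos (by linarith) h0
      linarith
    · rw [Nat.sub_self, pow_zero, mul_one]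
      have hAB : 0 ≤ (ms μ V * ms ν W) ^ θ := Real.rpow_nonneg (mul_pos hA hB).le _
      have h5 : em μ ν E ≤ (1 + 2 * bad) * em μ ν E' := by
        have h6 : (1 + 2 * bad) * ((1 - bad) * em μ ν E) ≤ (1 + 2 * bad) * em μ ν E' :=
          mul_le_mul_of_nonneg_left hge (by linarith)
        have h7 : em μ ν E ≤ (1 + 2 * bad) * ((1 - bad) * em μ ν E) := by
          have h8 : 0 ≤ (bad * (1 - 2 * bad)) * em μ ν E :=
            mul_nonneg (mul_nonneg hbad0 (by linarith)) h0.le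
          nlinarith
        linarith
      calc em μ ν E * (ms μ V * ms ν W) ^ θ
          ≤ ((1 + 2 * bad) * em μ ν E') * (ms μ V * ms ν W) ^ θ :=
            mul_le_mul_of_nonneg_right h5 hAB
        _ = (1 + 2 * bad) * (em μ ν E' * (ms μ V * ms ν W) ^ θ) := by ring
  · -- one heavy cell
    push Not at hc
    obtain ⟨i, _, j, _, hij⟩ := hc
    have hnn : 0 ≤ (ms μ (a3V p V i) / ms μ V * (ms ν (a3V p W j) / ms ν W)) ^ θ *
        lam ^ ((i - j) + (j - i)) :=
      mul_nonneg (Real.rpow_nonneg (mul_nonneg (hx0 i) (hy0 j)) _) (pow_nonneg hlam.le _)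
    refine a3_cell θ lam _ p μ ν hμ hν V W E hE h0 i j (lt_of_le_of_lt hnn hij) ?_
    refine hij.le.trans ?_
    have := he0 i j
    nlinarith

/-- [IDS-A3b] **Selection step at a small prime.**  The same normalisation as in `step_large`,
with the cell of `best_cell`: `V' = V_i, W' = W_j, E' = E_ij`. -/
theorem step_small (θ lam : ℝ) (h1 : 1 / 2 ≤ θ) (hl0 : 0 < lam) (hl1 : lam < 1) (p : ℕ)
    (μ ν : ℕ → ℝ) (hμ : ∀ v, 0 ≤ μ v) (hν : ∀ v, 0 ≤ ν v)
    (V W : Finset ℕ) (E : Finset (ℕ × ℕ)) (hE : E ⊆ V ×ˢ W) (h0 : 0 < em μ ν E) :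
    StepOK θ p ((1 + lam) / (1 - lam)) lam μ ν V W E := by
  obtain ⟨hA, hB⟩ := a3_pos hμ hν hE h0
  obtain ⟨N, hNV, hNW, hN1, hN2⟩ := a3_bound p hE
  obtain ⟨i, _, j, _, hpos, hle⟩ := best_cell θ lam h1 hl0 hl1 N
    (fun i => ms μ (a3V p V i) / ms μ V)
    (fun j => ms ν (a3V p W j) / ms ν W) (fun i j => em μ ν (a3E p E i j) / em μ ν E)
    (fun i => div_nonneg (ms_nonneg hμ _) hA.le) (fun i => div_nonneg (ms_nonneg hν _) hB.le)
    (fun i j => div_nonneg (em_nonneg hμ hν _) h0.le)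
    (by rw [← Finset.sum_div, a3_sum_V p μ V N hNV, div_self hA.ne'])
    (by rw [← Finset.sum_div, a3_sum_V p ν W N hNW, div_self hB.ne'])
    (by
      simp only [← Finset.sum_div]
      rw [a3_sum_E p μ ν E N hN1 hN2, div_self h0.ne'])
  exact a3_cell θ lam _ p μ ν hμ hν V W E hE h0 i j hpos hle

end Pool.Agent.IDS
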