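import Pool.Agent.IDS.A3

set_option autoImplicit false

namespace Pool.Agent.IDS

open Finset

/-- the loss at `p` -/
noncomputable def a4_bad (θ lam : ℝ) : ℝ :=
  2 * (32 * lam) ^ (2 * θ / (1 - θ)) + 8 * lam ^ 2 * (32 * lam) ^ (θ / (1 - θ))

theorem a4_bad_nonneg (θ lam : ℝ) (hl : 0 ≤ lam) : 0 ≤ a4_bad θ lam := by
  unfold a4_bad
  have h1 : 0 ≤ 32 * lam := by positivity
  have h2 := Real.rpow_nonneg h1 (2 * θ / (1 - θ))
  have h3 := Real.rpow_nonneg h1 (θ / (1 - θ))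
  positivity

theorem a4_lam_nonneg (η : ℝ) (p : ℕ) : 0 ≤ ((p : ℝ) ^ η)⁻¹ :=
  inv_nonneg.2 (Real.rpow_nonneg (Nat.cast_nonneg p) η)

theorem a4_summable (θ η : ℝ) (h1 : 1 / 2 < θ) (h2 : θ < 1) (hη : 0 < η)
    (h3 : 1 - θ < 2 * θ * η) (h4 : 1 - θ < (2 - θ) * η) :
    Summable fun p : ℕ => a4_bad θ (((p : ℝ) ^ η)⁻¹) := by
  have hθ : 0 < 1 - θ := by linarith
  have hu1 : 0 < 2 * θ / (1 - θ) := div_pos (by linarith) hθ
  have hu2 : 0 < θ / (1 - θ) := div_pos (by linarith) hθ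
  have hs1 : 1 < η * (2 * θ / (1 - θ)) := by
    rw [← mul_div_assoc, lt_div_iff₀ hθ]
    linarith
  have hs2 : 1 < 2 * η + η * (θ / (1 - θ)) := by
    have : 2 * η + η * (θ / (1 - θ)) = ((2 - θ) * η) / (1 - θ) := by
      field_simp
      ring
    rw [this, lt_div_iff₀ hθ]
    linarith
  have hb : ∀ p : ℕ, 1 ≤ p → a4_bad θ (((p : ℝ) ^ η)⁻¹) =
      2 * (32 : ℝ) ^ (2 * θ / (1 - θ)) * (p : ℝ) ^ (-(η * (2 * θ / (1 - θ)))) +
      8 * (32 : ℝ) ^ (θ / (1 - θ)) * (p : ℝ) ^ (-(2 * η + η * (θ / (1 - θ)))) := by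
    intro p hp
    have hp0 : (0 : ℝ) < p := by exact_mod_cast hp
    unfold a4_bad
    rw [← Real.rpow_neg hp0.le, Real.mul_rpow (by norm_num) (Real.rpow_nonneg hp0.le _),
      Real.mul_rpow (by norm_num) (Real.rpow_nonneg hp0.le _), ← Real.rpow_mul hp0.le,
      ← Real.rpow_mul hp0.le, ← Real.rpow_natCast ((p : ℝ) ^ (-η)) 2, ← Real.rpow_mul hp0.le]
    have e1 : (p : ℝ) ^ (-(2 * η + η * (θ / (1 - θ)))) =
        (p : ℝ) ^ (-η * ((2 : ℕ) : ℝ)) * (p : ℝ) ^ (-η * (θ / (1 - θ))) := by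
      rw [← Real.rpow_add hp0]
      congr 1
      push_cast
      ring
    rw [e1, neg_mul η (2 * θ / (1 - θ))]
    ring
  have hsum : Summable fun p : ℕ =>
      2 * (32 : ℝ) ^ (2 * θ / (1 - θ)) * (p : ℝ) ^ (-(η * (2 * θ / (1 - θ)))) +
      8 * (32 : ℝ) ^ (θ / (1 - θ)) * (p : ℝ) ^ (-(2 * η + η * (θ / (1 - θ)))) :=
    ((Real.summable_nat_rpow.2 (by linarith)).mul_left _).add
      ((Real.summable_nat_rpow.2 (by linarith)).mul_left _)
  rw [← summable_nat_add_iff 1] at hsum ⊢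
  refine hsum.congr fun p => ?_
  rw [hb (p + 1) (by omega)]

/-- [IDS-A4] **Selection steps with summable losses.**

PROOF.  `lam p = p^{-η} = ((p:ℝ)^η)⁻¹ < 1` for `p ≥ 2`.  Put
`bad p = 2 (32 lam)^{2θ/(1-θ)} + 8 lam² (32 lam)^{θ/(1-θ)} = C p^{-s₁} + C' p^{-s₂}` with
`s₁ = 2θη/(1-θ) > 1` (by `h3`) and `s₂ = 2η + θη/(1-θ) = (2-θ)η/(1-θ) > 1` (by `h4`);
so `∑ bad p < ∞` (`Real.summable_nat_rpow`).
`F p = 1 + 2 bad p` if `p` is prime and `lam p ≤ l0` and `bad p ≤ 1/2`;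
`F p = (1+lam)/(1-lam)` for the other (finitely many) primes; `F p = 1` if `p` is not prime.
`∏_{p ∈ P} F p ≤ (∏ over the finitely many exceptional primes) * exp (2 ∑ bad)`
(`1 + t ≤ exp t`). -/
theorem step (θ η : ℝ) (h1 : 1 / 2 < θ) (h2 : θ < 1) (hη : 0 < η)
    (h3 : 1 - θ < 2 * θ * η) (h4 : 1 - θ < (2 - θ) * η) :
    ∃ F : ℕ → ℝ, (∀ p, 1 ≤ F p) ∧ (∃ C : ℝ, ∀ P : Finset ℕ, ∏ p ∈ P, F p ≤ C) ∧
      ∀ (p : ℕ), p.Prime → ∀ (μ ν : ℕ → ℝ), (∀ v, 0 ≤ μ v) → (∀ v, 0 ≤ ν v) →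
      ∀ (V W : Finset ℕ) (E : Finset (ℕ × ℕ)), E ⊆ V ×ˢ W → 0 < em μ ν E →
      StepOK θ p (F p) (((p : ℝ) ^ η)⁻¹) μ ν V W E := by
  obtain ⟨l0, hl0, hl01, hlarge⟩ := step_large θ h1 h2
  set lam : ℕ → ℝ := fun p => ((p : ℝ) ^ η)⁻¹ with hlam
  set bad : ℕ → ℝ := fun p => a4_bad θ (lam p) with hbad
  have hlam0 : ∀ p, 0 ≤ lam p := fun p => a4_lam_nonneg η p
  have hbad0 : ∀ p, 0 ≤ bad p := fun p => a4_bad_nonneg θ _ (hlam0 p)
  have hlamp : ∀ p, p.Prime → 0 < lam p ∧ lam p < 1 := by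
    intro p hp
    have hp1 : (1 : ℝ) < p := by exact_mod_cast hp.one_lt
    have h5 : 1 < (p : ℝ) ^ η := Real.one_lt_rpow hp1 hη
    exact ⟨inv_pos.2 (by linarith), inv_lt_one_of_one_lt₀ h5⟩
  have hsum : Summable bad := a4_summable θ η h1 h2 hη h3 h4
  set F : ℕ → ℝ := fun p => if p.Prime then
    (if lam p ≤ l0 ∧ bad p ≤ 1 / 2 then 1 + 2 * bad p else (1 + lam p) / (1 - lam p)) else 1
    with hF
  have hF1 : ∀ p, 1 ≤ F p := by
    intro p
    simp only [hF]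
    split_ifs with h5 h6
    · linarith [hbad0 p]
    · obtain ⟨h7, h8⟩ := hlamp p h5
      rw [le_div_iff₀ (by linarith)]
      linarith
    · exact le_refl 1
  -- eventually all primes are large
  have hev1 : ∀ᶠ p : ℕ in Filter.atTop, lam p ≤ l0 := by
    have h5 : Filter.Tendsto lam Filter.atTop (nhds 0) := by
      have h6 := (tendsto_rpow_neg_atTop hη).comp (tendsto_natCast_atTop_atTop (R := ℝ))
      refine h6.congr fun p => ?_
      simp only [Function.comp, hlam]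
      exact Real.rpow_neg (Nat.cast_nonneg p) η
    exact (h5.eventually (gt_mem_nhds hl0)).mono fun p hp => hp.le
  have hev2 : ∀ᶠ p : ℕ in Filter.atTop, bad p ≤ 1 / 2 :=
    (hsum.tendsto_atTop_zero.eventually (gt_mem_nhds (by norm_num : (0 : ℝ) < 1 / 2))).mono
      fun p hp => hp.le
  obtain ⟨N0, hN0⟩ := Filter.eventually_atTop.1 (hev1.and hev2)
  set g : ℕ → ℝ := fun p => (if p < N0 then Real.log (F p) else 0) + 2 * bad p with hg
  have hlog : ∀ p, 0 ≤ Real.log (F p) := fun p => Real.log_nonneg (hF1 p)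
  have hg0 : ∀ p, 0 ≤ g p := by
    intro p
    simp only [hg]
    have := hbad0 p
    have := hlog p
    split_ifs <;> linarith
  have hgs : Summable g := by
    refine Summable.add ?_ (hsum.mul_left 2)
    refine summable_of_ne_finset_zero (s := Finset.range N0) fun p hp => ?_
    rw [if_neg]
    simpa using hp
  have hFg : ∀ p, F p ≤ Real.exp (g p) := by
    intro p
    have hFpos : 0 < F p := lt_of_lt_of_le one_pos (hF1 p)
    by_cases h5 : p < N0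
    · have h6 : g p = Real.log (F p) + 2 * bad p := by simp only [hg, if_pos h5]
      rw [h6]
      calc F p = Real.exp (Real.log (F p)) := (Real.exp_log hFpos).symm
        _ ≤ _ := Real.exp_le_exp.2 (by linarith [hbad0 p])
    · have h6 : g p = 2 * bad p := by simp only [hg, if_neg h5]; ring
      rw [h6]
      have h7 : F p ≤ 1 + 2 * bad p := by
        simp only [hF]
        split_ifs with h8 h9
        · exact le_refl _
        · exact absurd (hN0 p (not_lt.1 h5)) h9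
        · linarith [hbad0 p]
      refine h7.trans ?_
      rw [add_comm]
      exact Real.add_one_le_exp _
  refine ⟨F, hF1, ⟨Real.exp (∑' p, g p), fun P => ?_⟩, ?_⟩
  · calc ∏ p ∈ P, F p ≤ ∏ p ∈ P, Real.exp (g p) :=
          Finset.prod_le_prod (fun p _ => zero_le_one.trans (hF1 p)) fun p _ => hFg p
      _ = Real.exp (∑ p ∈ P, g p) := (Real.exp_sum P g).symm
      _ ≤ _ := Real.exp_le_exp.2 (hgs.sum_le_tsum P fun p _ => hg0 p)
  · intro p hp μ ν hμ hν V W E hE hE0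
    obtain ⟨h5, h6⟩ := hlamp p hp
    by_cases h7 : lam p ≤ l0 ∧ bad p ≤ 1 / 2
    · have h8 : F p = 1 + 2 * bad p := by simp only [hF, if_pos hp, if_pos h7]
      rw [h8]
      exact hlarge p (lam p) (bad p) h5 h7.1 rfl h7.2 μ ν hμ hν V W E hE hE0
    · have h8 : F p = (1 + lam p) / (1 - lam p) := by simp only [hF, if_pos hp, if_neg h7]
      rw [h8]
      exact step_small θ (lam p) h1.le h5 h6 p μ ν hμ hν V W E hE hE0

end Pool.Agent.IDS
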