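import Mathlib

set_option autoImplicit false

/-!
# Inhomogeneous Duffin-Schaeffer for non-Liouville shifts: basic definitions  ([IDS], MP_3a832c_nt)
-/

namespace Pool.Agent.IDS

open Finset

/-- distance to the nearest integer -/
noncomputable def nd (x : ℝ) : ℝ := |x - round x|

/-- `γ` has finite type with constants `c, τ`: `‖n γ‖ ≥ c / n ^ τ` for all `n ≥ 1`. -/
def FT (γ c : ℝ) (τ : ℕ) : Prop :=
  0 < c ∧ 1 ≤ τ ∧ ∀ n : ℕ, 1 ≤ n → c / (n : ℝ) ^ τ ≤ nd (n * γ)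

/-- total mass of a finite set of numbers -/
def ms (μ : ℕ → ℝ) (V : Finset ℕ) : ℝ := ∑ v ∈ V, μ v

/-- total mass of a finite set of pairs (edges) -/
def em (μ ν : ℕ → ℝ) (E : Finset (ℕ × ℕ)) : ℝ := ∑ e ∈ E, μ e.1 * ν e.2

/-- reduced numerator of `a / b` -/
def rd (a b : ℕ) : ℕ := a / Nat.gcd a b

/-- exponents `(x, y)` are good for `(i, j)`: either equal to `(i, j)`, or `i = j` and exactly one
of `x, y` deviates from `i`, by exactly one. -/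
def GoodAt (i j x y : ℕ) : Prop :=
  (x = i ∧ y = j) ∨
    (i = j ∧ ((y = i ∧ (x = i + 1 ∨ x + 1 = i)) ∨ (x = i ∧ (y = i + 1 ∨ y + 1 = i))))

instance (i j x y : ℕ) : Decidable (GoodAt i j x y) := by unfold GoodAt; infer_instance

/-- the pair `(v, w)` is good for `(a, b)` at every prime. -/
def Good (a b v w : ℕ) : Prop :=
  ∀ p : ℕ, p.Prime →
    GoodAt (a.factorization p) (b.factorization p) (v.factorization p) (w.factorization p)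

/-- `D(v, w) = lcm(v, w) * max(δ_v, δ_w)`, `δ_v = 2 ^ (-κ v)`. -/
noncomputable def DD (κ : ℕ → ℕ) (v w : ℕ) : ℝ :=
  (Nat.lcm v w : ℝ) * max ((1 / 2 : ℝ) ^ κ v) ((1 / 2 : ℝ) ^ κ w)

/-- The data of the core inequality: a finite set `S` of positive integers with levels `κ`
(`δ_v = 2 ^ (-κ v)`), level weights `Ω k ≤ L k ^ (-ε)`, where `L k` bounds the number of dyadic
sizes of the elements of level `k`, and masses `0 ≤ μ v ≤ Ω (κ v) φ(v) δ_v`. -/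
structure Dat (ε : ℝ) (S : Finset ℕ) (κ : ℕ → ℕ) (Ω L : ℕ → ℝ) (μ : ℕ → ℝ) : Prop where
  pos : ∀ v ∈ S, 0 < v
  mu0 : ∀ v, 0 ≤ μ v
  mu1 : ∀ v ∈ S, μ v ≤ Ω (κ v) * ((Nat.totient v : ℝ) * (1 / 2 : ℝ) ^ κ v)
  L1 : ∀ k, 1 ≤ L k
  Om0 : ∀ k, 0 ≤ Ω k
  Om1 : ∀ k, Ω k * (L k) ^ ε ≤ 1
  LS : ∀ k, (((S.filter (fun v => κ v = k)).image (Nat.log 2)).card : ℝ) ≤ L k

/-- cell of edges: dyadic size `A` of `rd v a`, level `k` of `v`, and the same for `w`. -/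
def cell (a b : ℕ) (κ : ℕ → ℕ) (E : Finset (ℕ × ℕ)) (A k A' k' : ℕ) : Finset (ℕ × ℕ) :=
  E.filter (fun e => 2 ^ A ≤ rd e.1 a ∧ rd e.1 a < 2 ^ (A + 1) ∧ κ e.1 = k ∧
    2 ^ A' ≤ rd e.2 b ∧ rd e.2 b < 2 ^ (A' + 1) ∧ κ e.2 = k')

/-- conclusion of one selection step at a prime `p` with parameter `lam` and loss `F` -/
def StepOK (θ : ℝ) (p : ℕ) (F lam : ℝ) (μ ν : ℕ → ℝ) (V W : Finset ℕ)
    (E : Finset (ℕ × ℕ)) : Prop :=
  ∃ (V' W' : Finset ℕ) (E' : Finset (ℕ × ℕ)) (i j : ℕ),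
    V' ⊆ V ∧ W' ⊆ W ∧ E' ⊆ E ∧ E' ⊆ V' ×ˢ W' ∧
    (∀ e ∈ E', GoodAt i j (e.1.factorization p) (e.2.factorization p)) ∧
    0 < em μ ν E' ∧
    em μ ν E * (ms μ V' * ms ν W') ^ θ * lam ^ ((i - j) + (j - i)) ≤
      F * (em μ ν E' * (ms μ V * ms ν W) ^ θ)

/-! ### basic facts -/

theorem nd_nonneg (x : ℝ) : 0 ≤ nd x := abs_nonneg _

theorem nd_le_half (x : ℝ) : nd x ≤ 1 / 2 := abs_sub_round x

theorem nd_le_abs (x : ℝ) (n : ℤ) : nd x ≤ |x - n| := round_le x n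

theorem nd_add_int (x : ℝ) (n : ℤ) : nd (x + n) = nd x := by
  simp [nd]

theorem nd_neg (x : ℝ) : nd (-x) = nd x := by
  apply le_antisymm
  · have h := nd_le_abs (-x) (-(round x))
    have h2 : |(-x) - ((-(round x) : ℤ) : ℝ)| = |x - round x| := by
      push_cast
      rw [← abs_neg]
      ring_nf
    rw [h2] at h
    exact h
  · have h := nd_le_abs x (-(round (-x)))
    have h2 : |x - ((-(round (-x)) : ℤ) : ℝ)| = |(-x) - round (-x)| := by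
      push_cast
      rw [← abs_neg]
      ring_nf
    rw [h2] at h
    exact h

theorem nd_add_le (x y : ℝ) : nd (x + y) ≤ nd x + nd y := by
  have h := nd_le_abs (x + y) (round x + round y)
  refine h.trans ?_
  have : x + y - ((round x + round y : ℤ) : ℝ) = (x - round x) + (y - round y) := by
    push_cast; ring
  rw [this]
  exact abs_add_le _ _

theorem nd_sub_le (x y : ℝ) : nd (x - y) ≤ nd x + nd y := by
  have := nd_add_le x (-y)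
  rw [nd_neg] at this
  simpa [sub_eq_add_neg] using this

theorem exists_int_abs_sub_eq_nd (x : ℝ) : ∃ n : ℤ, |x - n| = nd x := ⟨round x, rfl⟩

theorem ms_nonneg {μ : ℕ → ℝ} (h : ∀ v, 0 ≤ μ v) (V : Finset ℕ) : 0 ≤ ms μ V :=
  Finset.sum_nonneg (fun v _ => h v)

theorem em_nonneg {μ ν : ℕ → ℝ} (h : ∀ v, 0 ≤ μ v) (h' : ∀ v, 0 ≤ ν v)
    (E : Finset (ℕ × ℕ)) : 0 ≤ em μ ν E :=
  Finset.sum_nonneg (fun _ _ => mul_nonneg (h _) (h' _))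

theorem ms_mono {μ : ℕ → ℝ} (h : ∀ v, 0 ≤ μ v) {V V' : Finset ℕ} (hV : V' ⊆ V) :
    ms μ V' ≤ ms μ V :=
  Finset.sum_le_sum_of_subset_of_nonneg hV (fun v _ _ => h v)

theorem em_mono {μ ν : ℕ → ℝ} (h : ∀ v, 0 ≤ μ v) (h' : ∀ v, 0 ≤ ν v)
    {E E' : Finset (ℕ × ℕ)} (hE : E' ⊆ E) : em μ ν E' ≤ em μ ν E :=
  Finset.sum_le_sum_of_subset_of_nonneg hE (fun _ _ _ => mul_nonneg (h _) (h' _))

theorem em_le_mul {μ ν : ℕ → ℝ} (h : ∀ v, 0 ≤ μ v) (h' : ∀ v, 0 ≤ ν v)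
    {V W : Finset ℕ} {E : Finset (ℕ × ℕ)} (hE : E ⊆ V ×ˢ W) :
    em μ ν E ≤ ms μ V * ms ν W := by
  refine (em_mono h h' hE).trans (le_of_eq ?_)
  unfold em ms
  rw [Finset.sum_mul_sum, Finset.sum_product]

theorem rd_pos {a b : ℕ} (ha : 0 < a) : 0 < rd a b :=
  Nat.div_pos (Nat.le_of_dvd ha (Nat.gcd_dvd_left a b)) (Nat.gcd_pos_of_pos_left b ha)

theorem rd_mul (a v : ℕ) : v * rd a v = a * rd v a := by
  unfold rd
  rw [Nat.gcd_comm v a, ← Nat.mul_div_assoc _ (Nat.gcd_dvd_left a v),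
    ← Nat.mul_div_assoc _ (Nat.gcd_dvd_right a v), Nat.mul_comm]

theorem rd_mul_gcd (a b : ℕ) : rd a b * Nat.gcd a b = a :=
  Nat.div_mul_cancel (Nat.gcd_dvd_left a b)

theorem rd_coprime {a b : ℕ} (ha : 0 < a) : Nat.Coprime (rd a b) (rd b a) := by
  unfold rd
  rw [Nat.gcd_comm b a]
  exact Nat.coprime_div_gcd_div_gcd (Nat.gcd_pos_of_pos_left b ha)

theorem lcm_eq (v w : ℕ) : Nat.lcm v w = v * rd w v := by
  unfold Nat.lcm rd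
  rw [Nat.gcd_comm w v, Nat.mul_div_assoc _ (Nat.gcd_dvd_right v w)]

theorem Dat.Om_le_one {ε : ℝ} (hε : 0 < ε) {S : Finset ℕ} {κ : ℕ → ℕ} {Ω L μ : ℕ → ℝ}
    (h : Dat ε S κ Ω L μ) (k : ℕ) : Ω k ≤ 1 := by
  have h1 : (1 : ℝ) ≤ (L k) ^ ε := Real.one_le_rpow (h.L1 k) hε.le
  have h2 := h.Om1 k
  have h3 := h.Om0 k
  nlinarith

theorem Dat.mu_le {ε : ℝ} (hε : 0 < ε) {S : Finset ℕ} {κ : ℕ → ℕ} {Ω L μ : ℕ → ℝ}
    (h : Dat ε S κ Ω L μ) {v : ℕ} (hv : v ∈ S) :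
    μ v ≤ (Nat.totient v : ℝ) * (1 / 2 : ℝ) ^ κ v := by
  refine (h.mu1 v hv).trans ?_
  have h1 := h.Om_le_one hε (κ v)
  have h2 : 0 ≤ (Nat.totient v : ℝ) * (1 / 2 : ℝ) ^ κ v := by positivity
  nlinarith

end Pool.Agent.IDS
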