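import Pool.Agent.IDS.Base

set_option autoImplicit false

namespace Pool.Agent.IDS

open Finset

/-- a set with large gaps in an interval is small -/
theorem k2b_gap (O : ℕ) (g : ℝ) (hg : 0 < g) (T : Finset ℕ) (hT : T ⊆ Ico O (2 * O))
    (h : ∀ o ∈ T, ∀ o' ∈ T, o < o' → g < ((o' - o : ℕ) : ℝ)) :
    (T.card : ℝ) ≤ (O : ℝ) / g + 1 := by
  have hcard : T.card ≤ (Finset.range (⌊(O : ℝ) / g⌋₊ + 1)).card := by
    apply Finset.card_le_card_of_injOn (fun o => ⌊((o - O : ℕ) : ℝ) / g⌋₊)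
    · intro o ho
      have ho' := Finset.mem_Ico.1 (hT ho)
      rw [Finset.mem_coe, Finset.mem_range, Nat.lt_succ_iff]
      apply Nat.floor_le_floor
      apply div_le_div_of_nonneg_right _ hg.le
      have : o - O ≤ O := by omega
      exact_mod_cast this
    · have key : ∀ o ∈ T, ∀ o' ∈ T, o < o' →
          ⌊((o - O : ℕ) : ℝ) / g⌋₊ ≠ ⌊((o' - O : ℕ) : ℝ) / g⌋₊ := by
        intro o ho o' ho' hlt heq
        have h1 := h o ho o' ho' hlt
        have hO := (Finset.mem_Ico.1 (hT ho)).1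
        have h2 : ((o' - O : ℕ) : ℝ) = ((o - O : ℕ) : ℝ) + ((o' - o : ℕ) : ℝ) := by
          rw [← Nat.cast_add]
          congr 1
          omega
        have h3 : ((o - O : ℕ) : ℝ) / g + 1 < ((o' - O : ℕ) : ℝ) / g := by
          rw [h2, add_div]
          have : 1 < ((o' - o : ℕ) : ℝ) / g := by rwa [one_lt_div hg]
          linarith
        have h4 : ((o' - O : ℕ) : ℝ) / g < ⌊((o' - O : ℕ) : ℝ) / g⌋₊ + 1 := Nat.lt_floor_add_one _
        have h5 : (⌊((o - O : ℕ) : ℝ) / g⌋₊ : ℝ) ≤ ((o - O : ℕ) : ℝ) / g :=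
          Nat.floor_le (by positivity)
        rw [heq] at h5
        linarith
      intro o ho o' ho' heq
      rcases lt_trichotomy o o' with hlt | heq' | hlt
      · exact absurd heq (key o ho o' ho' hlt)
      · exact heq'
      · exact absurd heq.symm (key o' ho' o ho hlt)
  rw [Finset.card_range] at hcard
  have h1 : (T.card : ℝ) ≤ ((⌊(O : ℝ) / g⌋₊ + 1 : ℕ) : ℝ) := by exact_mod_cast hcard
  refine h1.trans ?_
  push_cast
  have := Nat.floor_le (a := (O : ℝ) / g) (by positivity)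
  linarith

/-- a rotation by a small multiple is not small -/
theorem k2b_lower (γ c : ℝ) (τ : ℕ) (h : FT γ c τ) (s : ℝ) (hs : 1 ≤ s) (c1 j m : ℕ)
    (hc1 : 1 ≤ c1) (hc1' : (c1 : ℝ) ≤ s ^ 64) (hj : 1 ≤ j) (hj' : (j : ℝ) ≤ s) (hm : 1 ≤ m)
    (M : ℝ) (hm' : (m : ℝ) ≤ M) :
    c / (s ^ 65 * M) ^ τ ≤ nd (j * (γ * (c1 * m))) := by
  have h1 := h.2.2 (c1 * j * m) (Nat.mul_pos (Nat.mul_pos hc1 hj) hm)
  have h2 : (((c1 * j * m : ℕ) : ℝ) * γ) = j * (γ * (c1 * m)) := by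
    push_cast
    ring
  rw [h2] at h1
  refine le_trans ?_ h1
  have hpos : (0 : ℝ) < ((c1 * j * m : ℕ) : ℝ) := by
    exact_mod_cast Nat.mul_pos (Nat.mul_pos hc1 hj) hm
  apply div_le_div_of_nonneg_left h.1.le (pow_pos hpos _)
  apply pow_le_pow_left₀ hpos.le
  push_cast
  have h3 : (c1 : ℝ) * j ≤ s ^ 64 * s :=
    mul_le_mul hc1' hj' (by positivity) (by positivity)
  have h4 : (c1 : ℝ) * j * m ≤ s ^ 64 * s * M :=
    mul_le_mul h3 hm' (by positivity) (by positivity)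
  calc (c1 : ℝ) * j * m ≤ s ^ 64 * s * M := h4
    _ = s ^ 65 * M := by ring

/-- [IDS-K2] **Few special coefficients.**

PROOF.  Put `β = (C1 - 16)/2 ≥ 17 τ`.  From `R^{C1} ≤ 4 c1 X O ≤ 4 R^16 X²`: `X ≥ R^β / 2`.
Let `R0 = (64 · 2^τ / c)^2 + 1`.
If `R < R0`: the count is `≤ O ≤ R0^{1/4} R^{-1/4} O`.
Let `R ≥ R0`, so `√R ≥ 64 · 2^τ / c`.
(i) `O ≤ √R`: no `o` is special: `o < 2 O ≤ 2 √R`, `j ≤ R^{1/4}`, `c1 ≤ R^16`, hence
`nd (c1 j o γ) ≥ c/(c1 j o)^τ ≥ c/(2 R^{16.75})^τ`, while special means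
`nd < 16/(√R X) ≤ 32 R^{-1/2-β}`; and `32 R^{-1/2-β} ≤ c 2^{-τ} R^{-16.75 τ}` because
`R^{β + 1/2 - 16.75 τ} ≥ R^{1/2} ≥ 32 · 2^τ/c`.
(ii) `O > √R`: for a fixed `j ≤ R^{1/4}` let `o < o'` both be special for `j`; then
`nd (c1 j (o'-o) γ) < 32/(√R X) ≤ 64 R^{-1/2-β}`, and if `o' - o ≤ √R`, then
`nd ≥ c/(c1 j (o'-o))^τ ≥ c R^{-16.75τ}`, contradiction with `√R ≥ 64/c`.  So the special `o` for
`j` have gaps `> √R`: at most `O/√R + 1` of them.  Sum over `j ≤ R^{1/4}`: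
`R^{1/4}(O/√R + 1) ≤ 2 R^{-1/4} O`. -/
theorem few_special (γ c : ℝ) (τ : ℕ) (h : FT γ c τ) :
    ∃ C : ℝ, 0 < C ∧ ∀ (R : ℝ) (c1 X O C1 : ℕ) (Sp : Finset ℕ), 1 ≤ R → 1 ≤ c1 → 1 ≤ O → O ≤ X →
      16 + 34 * τ ≤ C1 → (c1 : ℝ) ≤ R ^ 16 → R ^ C1 ≤ 4 * c1 * X * O →
      Sp ⊆ Ico O (2 * O) →
      (∀ o ∈ Sp, ∃ j : ℕ, 1 ≤ j ∧ (j : ℝ) ≤ R ^ ((1 : ℝ) / 4) ∧
        nd (j * (γ * (c1 * o))) < 16 / (Real.sqrt R * X)) →
      (Sp.card : ℝ) ≤ C * R ^ (-(1 : ℝ) / 4) * O := by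
  obtain ⟨hc0, hτ, hFT⟩ := h
  have h : FT γ c τ := ⟨hc0, hτ, hFT⟩
  refine ⟨2 + 64 * 2 ^ τ / c, by positivity, ?_⟩
  intro R c1 X O C1 Sp hR hc1 hO hOX hC1 hc1R hRC hSp hsp
  -- the fourth root of `R`
  obtain ⟨s, hs, hsR⟩ : ∃ s : ℝ, s = R ^ ((1 : ℝ) / 4) ∧ s ^ 4 = R := by
    refine ⟨_, rfl, ?_⟩
    rw [← Real.rpow_natCast, ← Real.rpow_mul (by linarith)]
    norm_num
  have hs1 : 1 ≤ s := by
    rw [hs]
    exact Real.one_le_rpow hR (by norm_num)
  have hs0 : 0 < s := by linarith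
  have hsinv : R ^ (-(1 : ℝ) / 4) = s⁻¹ := by
    rw [hs, ← Real.rpow_neg (by linarith)]
    norm_num
  have hsqrt : Real.sqrt R = s ^ 2 := by
    rw [← hsR]
    have : s ^ 4 = (s ^ 2) ^ 2 := by ring
    rw [this, Real.sqrt_sq (by positivity)]
  have hO0 : (0 : ℝ) < O := by exact_mod_cast hO
  have hcardO : (Sp.card : ℝ) ≤ O := by
    have h1 := Finset.card_le_card hSp
    rw [Nat.card_Ico] at h1
    have h2 : Sp.card ≤ O := by omega
    exact_mod_cast h2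
  rw [hsinv]
  rcases lt_or_ge (s ^ 2) (64 * 2 ^ τ / c) with hsmall | hbig
  · -- `R` bounded
    have h1 : s ≤ 2 + 64 * 2 ^ τ / c := by
      have : s ≤ s ^ 2 := by nlinarith
      linarith
    calc (Sp.card : ℝ) ≤ 1 * O := by rw [one_mul]; exact hcardO
      _ ≤ ((2 + 64 * 2 ^ τ / c) * s⁻¹) * O := by
        apply mul_le_mul_of_nonneg_right _ hO0.le
        rw [← div_eq_mul_inv, one_le_div hs0]
        exact h1
      _ = _ := by ring
  have hbig' : 64 * 2 ^ τ ≤ c * s ^ 2 := by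
    rw [div_le_iff₀ hc0] at hbig
    linarith
  have h2τ : (1 : ℝ) ≤ 2 ^ τ := one_le_pow₀ (by norm_num)
  -- lower bound of `X`
  have hc1s : (c1 : ℝ) ≤ s ^ 64 := by
    have h1 : R ^ 16 = s ^ 64 := by rw [← hsR, ← pow_mul]
    rw [← h1]
    exact hc1R
  have hX : s ^ (68 * τ) ≤ 2 * X := by
    have hX0 : (0 : ℝ) < X := lt_of_lt_of_le hO0 (by exact_mod_cast hOX)
    have h1 : R ^ (16 + 34 * τ) ≤ R ^ C1 := pow_le_pow_right₀ hR hC1
    have h2 : R ^ C1 ≤ 4 * s ^ 64 * X * X := by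
      refine hRC.trans ?_
      have hOX' : (O : ℝ) ≤ X := by exact_mod_cast hOX
      have h3 : (4 : ℝ) * c1 * X ≤ 4 * s ^ 64 * X := by
        apply mul_le_mul_of_nonneg_right _ hX0.le
        linarith
      exact mul_le_mul h3 hOX' hO0.le (by positivity)
    have h3 : s ^ 64 * (s ^ (68 * τ)) ^ 2 ≤ s ^ 64 * (2 * X) ^ 2 := by
      calc s ^ 64 * (s ^ (68 * τ)) ^ 2 = R ^ (16 + 34 * τ) := by
            rw [← hsR, ← pow_mul, ← pow_mul, ← pow_add]
            congr 1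
            ring
        _ ≤ 4 * s ^ 64 * X * X := h1.trans h2
        _ = s ^ 64 * (2 * X) ^ 2 := by ring
    have h4 : (s ^ (68 * τ)) ^ 2 ≤ (2 * (X : ℝ)) ^ 2 := le_of_mul_le_mul_left h3 (by positivity)
    exact le_of_sq_le_sq h4 (by positivity)
  have hX0 : (0 : ℝ) < X := lt_of_lt_of_le hO0 (by exact_mod_cast hOX)
  have hP0 : (0 : ℝ) < s ^ (68 * τ) := by positivity
  have hspec : (16 : ℝ) / (Real.sqrt R * X) ≤ 32 / (s ^ 2 * s ^ (68 * τ)) := by
    rw [hsqrt, div_le_div_iff₀ (by positivity) (by positivity)]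
    have : s ^ 2 * s ^ (68 * τ) ≤ s ^ 2 * (2 * X) := mul_le_mul_of_nonneg_left hX (by positivity)
    linarith
  -- the key inequality
  have hkey : ∀ (B : ℝ), 0 < B → c / (s ^ (67 * τ)) < B / (s ^ 2 * s ^ (68 * τ)) → c * s ^ 2 < B := by
    intro B hB hlt
    rw [div_lt_div_iff₀ (by positivity) (by positivity)] at hlt
    have h1 : s ^ (68 * τ) = s ^ (67 * τ) * s ^ τ := by
      rw [← pow_add]
      congr 1
      ring
    rw [h1] at hlt
    have h2 : (c * s ^ 2 * s ^ τ) * s ^ (67 * τ) < B * s ^ (67 * τ) := by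
      calc (c * s ^ 2 * s ^ τ) * s ^ (67 * τ) = c * (s ^ 2 * (s ^ (67 * τ) * s ^ τ)) := by ring
        _ < B * s ^ (67 * τ) := hlt
    have h3 : c * s ^ 2 * s ^ τ < B := lt_of_mul_lt_mul_right h2 (by positivity)
    have h4 : c * s ^ 2 * 1 ≤ c * s ^ 2 * s ^ τ :=
      mul_le_mul_of_nonneg_left (one_le_pow₀ hs1) (by positivity)
    linarith
  rcases le_or_gt (O : ℝ) (s ^ 2) with hOs | hOs
  · -- no special `o`
    have hempty : Sp = ∅ := by
      rw [Finset.eq_empty_iff_forall_notMem]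
      intro o ho
      obtain ⟨j, hj1, hj2, hj3⟩ := hsp o ho
      rw [← hs] at hj2
      have ho' := Finset.mem_Ico.1 (hSp ho)
      have hoM : (o : ℝ) ≤ 2 * s ^ 2 := by
        have : (o : ℝ) < 2 * O := by exact_mod_cast ho'.2
        linarith
      have h1 := k2b_lower γ c τ h s hs1 c1 j o hc1 hc1s hj1 hj2 (by omega) _ hoM
      have h2 : c / (s ^ 65 * (2 * s ^ 2)) ^ τ = (c / 2 ^ τ) / s ^ (67 * τ) := by
        have : s ^ 65 * (2 * s ^ 2) = 2 * s ^ 67 := by ring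
        rw [this, mul_pow, ← pow_mul, div_div]
      rw [h2] at h1
      have h3 : c / 2 ^ τ / s ^ (67 * τ) < 32 / (s ^ 2 * s ^ (68 * τ)) :=
        lt_of_le_of_lt h1 (lt_of_lt_of_le hj3 hspec)
      have h4 : c / s ^ (67 * τ) < (32 * 2 ^ τ) / (s ^ 2 * s ^ (68 * τ)) := by
        have h5 := mul_lt_mul_of_pos_right h3 (by positivity : (0 : ℝ) < 2 ^ τ)
        calc c / s ^ (67 * τ) = c / 2 ^ τ / s ^ (67 * τ) * 2 ^ τ := by
              field_simp
          _ < 32 / (s ^ 2 * s ^ (68 * τ)) * 2 ^ τ := h5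
          _ = _ := by ring
      have h5 := hkey _ (by positivity) h4
      linarith
    rw [hempty, Finset.card_empty, Nat.cast_zero]
    positivity
  · -- large gaps
    have hcover : Sp ⊆ (Finset.Icc 1 ⌊s⌋₊).biUnion (fun j => Sp.filter (fun o : ℕ =>
        nd (j * (γ * (c1 * o))) < 16 / (Real.sqrt R * X))) := by
      intro o ho
      obtain ⟨j, hj1, hj2, hj3⟩ := hsp o ho
      rw [← hs] at hj2
      rw [Finset.mem_biUnion]
      exact ⟨j, Finset.mem_Icc.2 ⟨hj1, Nat.le_floor hj2⟩, Finset.mem_filter.2 ⟨ho, hj3⟩⟩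
    have hone : ∀ j ∈ Finset.Icc 1 ⌊s⌋₊, ((Sp.filter (fun o : ℕ =>
        nd (j * (γ * (c1 * o))) < 16 / (Real.sqrt R * X))).card : ℝ) ≤ 2 * O / s ^ 2 := by
      intro j hj
      obtain ⟨hj1, hj2⟩ := Finset.mem_Icc.1 hj
      have hj3 : (j : ℝ) ≤ s := (Nat.le_floor_iff hs0.le).1 hj2
      have h1 := k2b_gap O (s ^ 2) (by positivity) _
        ((Finset.filter_subset (fun o : ℕ => nd (j * (γ * (c1 * o))) < 16 / (Real.sqrt R * X))
          Sp).trans hSp) ?_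
      · refine h1.trans ?_
        have h2 : 1 ≤ (O : ℝ) / s ^ 2 := by
          rw [one_le_div (by positivity)]
          exact hOs.le
        rw [mul_div_assoc]
        linarith
      · intro o ho o' ho' hlt
        rw [Finset.mem_filter] at ho ho'
        by_contra hcon
        rw [not_lt] at hcon
        have h2 := k2b_lower γ c τ h s hs1 c1 j (o' - o) hc1 hc1s hj1 hj3 (by omega) _ hcon
        have h3 : c / (s ^ 65 * s ^ 2) ^ τ = c / s ^ (67 * τ) := by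
          rw [← pow_add, ← pow_mul]
        rw [h3] at h2
        have h4 : (j : ℝ) * (γ * (c1 * ((o' - o : ℕ) : ℝ))) =
            j * (γ * (c1 * o')) - j * (γ * (c1 * o)) := by
          rw [Nat.cast_sub hlt.le]
          ring
        rw [h4] at h2
        have h5 := nd_sub_le (j * (γ * (c1 * o'))) (j * (γ * (c1 * o)))
        have h6 : c / s ^ (67 * τ) < 64 / (s ^ 2 * s ^ (68 * τ)) := by
          calc c / s ^ (67 * τ) ≤ nd (j * (γ * (c1 * o'))) + nd (j * (γ * (c1 * o))) := h2.trans h5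
            _ < 32 / (s ^ 2 * s ^ (68 * τ)) + 32 / (s ^ 2 * s ^ (68 * τ)) :=
              add_lt_add (lt_of_lt_of_le ho'.2 hspec) (lt_of_lt_of_le ho.2 hspec)
            _ = _ := by ring
        have h7 := hkey _ (by norm_num) h6
        linarith
    have hcard : (Sp.card : ℝ) ≤ ∑ j ∈ Finset.Icc 1 ⌊s⌋₊, ((Sp.filter (fun o : ℕ =>
        nd (j * (γ * (c1 * o))) < 16 / (Real.sqrt R * X))).card : ℝ) := by
      have h1 := (Finset.card_le_card hcover).trans Finset.card_biUnion_le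
      exact_mod_cast h1
    calc (Sp.card : ℝ) ≤ ∑ j ∈ Finset.Icc 1 ⌊s⌋₊, 2 * O / s ^ 2 := hcard.trans (Finset.sum_le_sum hone)
      _ = ⌊s⌋₊ * (2 * O / s ^ 2) := by
        rw [Finset.sum_const, Nat.card_Icc, nsmul_eq_mul]
        norm_num
      _ ≤ s * (2 * O / s ^ 2) := by
        apply mul_le_mul_of_nonneg_right (Nat.floor_le hs0.le) (by positivity)
      _ = 2 * s⁻¹ * O := by
        field_simp
      _ ≤ (2 + 64 * 2 ^ τ / c) * s⁻¹ * O := by
        apply mul_le_mul_of_nonneg_right _ hO0.le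
        apply mul_le_mul_of_nonneg_right _ (by positivity)
        have : 0 < 64 * 2 ^ τ / c := by positivity
        linarith

end Pool.Agent.IDS
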