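import Pool.Agent.IDS.K2a
import Pool.Agent.IDS.K2b

set_option autoImplicit false

namespace Pool.Agent.IDS

open Finset

/-- the case `O ≤ X` of Lemma K -/
theorem k3_aux (γ c : ℝ) (τ : ℕ) (h : FT γ c τ) :
    ∃ C : ℝ, 0 < C ∧ ∀ (R ϑ : ℝ) (c1 X O C1 : ℕ), 1 ≤ R → 1 ≤ c1 → 1 ≤ O → O ≤ X →
      16 + 34 * τ ≤ C1 → (c1 : ℝ) ≤ R ^ 16 → R ^ C1 ≤ 4 * c1 * X * O →
      (((Ico X (2 * X) ×ˢ Ico O (2 * O)).filter (fun q : ℕ × ℕ =>
        nd (γ * (c1 * q.1 * q.2) - ϑ) ≤ 2 / R)).card : ℝ) ≤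
        C * R ^ (-(1 : ℝ) / 4) * (X * O) := by
  obtain ⟨C0, hC0, hfew⟩ := few_special γ c τ h
  refine ⟨C0 + 12, by linarith, ?_⟩
  intro R ϑ c1 X O C1 hR hc1 hO hOX hC1 hcR hRC
  have hR0 : (0 : ℝ) < R := by linarith
  have hX1 : 1 ≤ X := hO.trans hOX
  have hXr : (1 : ℝ) ≤ X := by exact_mod_cast hX1
  have hOr : (1 : ℝ) ≤ O := by exact_mod_cast hO
  have hOXr : (O : ℝ) ≤ X := by exact_mod_cast hOX
  have hXO : (0 : ℝ) < X * O := by positivity
  have hq0 : 0 < R ^ (-(1 : ℝ) / 4) := Real.rpow_pos_of_pos hR0 _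
  set F := (Ico X (2 * X) ×ˢ Ico O (2 * O)).filter (fun q : ℕ × ℕ =>
        nd (γ * (c1 * q.1 * q.2) - ϑ) ≤ 2 / R) with hF
  have hcardX : (Ico X (2 * X)).card = X := by rw [Nat.card_Ico]; omega
  have hcardO : (Ico O (2 * O)).card = O := by rw [Nat.card_Ico]; omega
  by_cases hcase : (X : ℝ) < R ^ ((1 : ℝ) / 4)
  · -- `R ≤ 2`
    have hτ : 1 ≤ τ := h.2.1
    have h1 : R ^ 50 ≤ R ^ C1 := pow_le_pow_right₀ hR (by omega)
    have h2 : (4 : ℝ) * c1 * X * O ≤ 4 * R ^ 16 * X ^ 2 := by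
      have : (4 : ℝ) * c1 * X * O ≤ 4 * R ^ 16 * X * X := by gcongr
      nlinarith [this]
    have h3 : (R ^ 17) ^ 2 ≤ (2 * (X : ℝ)) ^ 2 := by
      have h4 : R ^ 16 * (R ^ 17) ^ 2 ≤ R ^ 16 * (2 * (X : ℝ)) ^ 2 := by
        calc R ^ 16 * (R ^ 17) ^ 2 = R ^ 50 := by ring
          _ ≤ 4 * R ^ 16 * X ^ 2 := (h1.trans hRC).trans h2
          _ = _ := by ring
      exact le_of_mul_le_mul_left h4 (by positivity)
    have h5 : R ^ 17 ≤ 2 * (X : ℝ) := by
      exact (abs_le_of_sq_le_sq' h3 (by positivity)).2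
    have h6 : R ^ ((1 : ℝ) / 4) ≤ R := by
      calc R ^ ((1 : ℝ) / 4) ≤ R ^ (1 : ℝ) := Real.rpow_le_rpow_of_exponent_le hR (by norm_num)
        _ = R := Real.rpow_one R
    have h7 : R ≤ 2 := by
      have h8 : R * R ^ 16 ≤ R * 2 := by
        have e1 : R * R ^ 16 = R ^ 17 := by ring
        rw [e1]
        linarith
      have h9 : R ^ 16 ≤ 2 := le_of_mul_le_mul_left h8 hR0
      exact (le_self_pow₀ hR (by norm_num)).trans h9
    have h8 : (1 : ℝ) / 2 ≤ R ^ (-(1 : ℝ) / 4) := by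
      have : R ^ ((1 : ℝ) / 4) ≤ 2 := h6.trans h7
      rw [show (-(1 : ℝ) / 4) = -((1 : ℝ) / 4) by ring, Real.rpow_neg hR0.le]
      rw [div_le_iff₀ (by norm_num), ← div_eq_inv_mul, le_div_iff₀ (Real.rpow_pos_of_pos hR0 _)]
      linarith
    have h9 : (F.card : ℝ) ≤ X * O := by
      have : F.card ≤ X * O := by
        calc F.card ≤ (Ico X (2 * X) ×ˢ Ico O (2 * O)).card := card_filter_le _ _
          _ = X * O := by rw [card_product, hcardX, hcardO]
      exact_mod_cast this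
    have h10 : (1 : ℝ) ≤ (C0 + 12) * R ^ (-(1 : ℝ) / 4) := by nlinarith
    nlinarith
  · push Not at hcase
    classical
    set Sp := (Ico O (2 * O)).filter (fun o : ℕ => ∃ j : ℕ, 1 ≤ j ∧ (j : ℝ) ≤ R ^ ((1 : ℝ) / 4) ∧
        nd (j * (γ * (c1 * o))) < 16 / (Real.sqrt R * X)) with hSp
    have hSpc : (Sp.card : ℝ) ≤ C0 * R ^ (-(1 : ℝ) / 4) * O :=
      hfew R c1 X O C1 Sp hR hc1 hO hOX hC1 hcR hRC (filter_subset _ _)
        (fun o ho => (mem_filter.1 ho).2)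
    have hfib : ∀ o ∈ Ico O (2 * O), ((F.filter (fun q => q.2 = o)).card : ℝ) ≤
        (if o ∈ Sp then (X : ℝ) else 0) + 10 * R ^ (-(1 : ℝ) / 4) * X := by
      intro o ho
      have hle : (F.filter (fun q => q.2 = o)).card ≤
          ((Ico X (X + X)).filter (fun x : ℕ => nd ((γ * (c1 * o)) * x - ϑ) ≤ 2 / R)).card := by
        apply card_le_card_of_injOn (fun q => q.1)
        · intro q hq
          simp only [hF, coe_filter, mem_filter, mem_product, mem_Ico, Set.mem_ofPred_eq] at hq ⊢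
          obtain ⟨⟨⟨⟨ha, hb⟩, hc⟩, hd⟩, he⟩ := hq
          refine ⟨⟨ha, by omega⟩, ?_⟩
          rw [he] at hd
          have e1 : γ * (c1 * (q.1 : ℝ) * o) - ϑ = (γ * (c1 * o)) * q.1 - ϑ := by ring
          rw [e1] at hd
          exact hd
        · intro q hq q' hq' hqq
          simp only [coe_filter, Set.mem_ofPred_eq] at hq hq' hqq
          exact Prod.ext hqq (hq.2.trans hq'.2.symm)
      by_cases hoS : o ∈ Sp
      · rw [if_pos hoS]
        have h1 : ((Ico X (X + X)).filter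
            (fun x : ℕ => nd ((γ * (c1 * o)) * x - ϑ) ≤ 2 / R)).card ≤ X := by
          refine (card_filter_le _ _).trans ?_
          rw [Nat.card_Ico]; omega
        have h2 : ((F.filter (fun q => q.2 = o)).card : ℝ) ≤ X := by exact_mod_cast hle.trans h1
        have h3 : 0 ≤ 10 * R ^ (-(1 : ℝ) / 4) * X := by positivity
        linarith
      · rw [if_neg hoS, zero_add]
        have h1 := rot_generic R (γ * (c1 * o)) ϑ X hR hcase (by
          intro j hj hjR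
          by_contra hcon
          push Not at hcon
          exact hoS (mem_filter.2 ⟨ho, j, hj, hjR, hcon⟩)) X
        refine le_trans ?_ h1
        exact_mod_cast hle
    have hsum : (F.card : ℝ) = ∑ o ∈ Ico O (2 * O), ((F.filter (fun q => q.2 = o)).card : ℝ) := by
      have := card_eq_sum_card_fiberwise (s := F) (t := Ico O (2 * O)) (f := fun q => q.2) (by
        intro q hq
        simp only [hF, coe_filter, mem_product, Set.mem_ofPred_eq] at hq
        exact hq.1.2)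
      rw [this]
      push_cast
      rfl
    rw [hsum]
    calc ∑ o ∈ Ico O (2 * O), ((F.filter (fun q => q.2 = o)).card : ℝ)
        ≤ ∑ o ∈ Ico O (2 * O), ((if o ∈ Sp then (X : ℝ) else 0) +
            10 * R ^ (-(1 : ℝ) / 4) * X) := sum_le_sum hfib
      _ = Sp.card * X + O * (10 * R ^ (-(1 : ℝ) / 4) * X) := by
          have e1 : (Ico O (2 * O)).filter (fun o => o ∈ Sp) = Sp := by
            have : Sp ⊆ Ico O (2 * O) := filter_subset _ _
            ext o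
            simp only [mem_filter]
            exact ⟨fun h => h.2, fun h => ⟨this h, h⟩⟩
          rw [sum_add_distrib, sum_const, hcardO, nsmul_eq_mul, ← sum_filter, sum_const,
            nsmul_eq_mul, e1]
      _ ≤ (C0 * R ^ (-(1 : ℝ) / 4) * O) * X + O * (10 * R ^ (-(1 : ℝ) / 4) * X) := by gcongr
      _ = (C0 + 10) * R ^ (-(1 : ℝ) / 4) * (X * O) := by ring
      _ ≤ (C0 + 12) * R ^ (-(1 : ℝ) / 4) * (X * O) := by gcongr; norm_num

/-- [IDS-K3] **Lemma K.**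

PROOF.  By symmetry (swap the two coordinates; `Finset.card` of the image under `Prod.swap`) let
`O ≤ X`.  If `X < R^{1/4}`: as in `few_special` `X ≥ R^β/2` with `β = (C1-16)/2 ≥ 17`, so
`R^{β-1/4} ≤ 2`, `R ≤ 2`, and the count is `≤ X O ≤ 2 R^{-1/4} X O`.
If `X ≥ R^{1/4}`: for a non-special `o` (in the sense of `few_special`) the number of `x` is
`≤ 10 R^{-1/4} X` by `rot_generic` with `ω = γ (c1 o)`, `m = X`; the special `o` number
`≤ C R^{-1/4} O` and contribute at most `X` each.  Total `≤ (10 + C + 2) R^{-1/4} X O`. -/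
theorem lemK (γ c : ℝ) (τ : ℕ) (h : FT γ c τ) :
    ∃ C : ℝ, 0 < C ∧ ∀ (R ϑ : ℝ) (c1 X O C1 : ℕ), 1 ≤ R → 1 ≤ c1 → 1 ≤ O → 1 ≤ X →
      16 + 34 * τ ≤ C1 → (c1 : ℝ) ≤ R ^ 16 → R ^ C1 ≤ 4 * c1 * X * O →
      (((Ico X (2 * X) ×ˢ Ico O (2 * O)).filter (fun q : ℕ × ℕ =>
        nd (γ * (c1 * q.1 * q.2) - ϑ) ≤ 2 / R)).card : ℝ) ≤
        C * R ^ (-(1 : ℝ) / 4) * (X * O) := by
  obtain ⟨C, hC, hmain⟩ := k3_aux γ c τ h
  refine ⟨C, hC, ?_⟩
  intro R ϑ c1 X O C1 hR hc1 hO hX hC1 hcR hRC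
  rcases le_total O X with hOX | hXO
  · exact hmain R ϑ c1 X O C1 hR hc1 hO hOX hC1 hcR hRC
  · have h1 := hmain R ϑ c1 O X C1 hR hc1 hX hXO hC1 hcR (by
      calc R ^ C1 ≤ 4 * c1 * X * O := hRC
        _ = 4 * c1 * O * X := by ring)
    have h2 : ((Ico X (2 * X) ×ˢ Ico O (2 * O)).filter (fun q : ℕ × ℕ =>
        nd (γ * (c1 * q.1 * q.2) - ϑ) ≤ 2 / R)).card ≤
        ((Ico O (2 * O) ×ˢ Ico X (2 * X)).filter (fun q : ℕ × ℕ =>
        nd (γ * (c1 * q.1 * q.2) - ϑ) ≤ 2 / R)).card := by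
      apply card_le_card_of_injOn Prod.swap
      · intro q hq
        simp only [coe_filter, mem_product, Set.mem_ofPred_eq, Prod.fst_swap, Prod.snd_swap]
          at hq ⊢
        refine ⟨⟨hq.1.2, hq.1.1⟩, ?_⟩
        have e1 : γ * (c1 * (q.2 : ℝ) * q.1) - ϑ = γ * (c1 * q.1 * q.2) - ϑ := by ring
        rw [e1]
        exact hq.2
      · intro q _ q' _ hqq
        exact Prod.swap_injective hqq
    calc _ ≤ (((Ico O (2 * O) ×ˢ Ico X (2 * X)).filter (fun q : ℕ × ℕ =>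
        nd (γ * (c1 * q.1 * q.2) - ϑ) ≤ 2 / R)).card : ℝ) := by exact_mod_cast h2
      _ ≤ C * R ^ (-(1 : ℝ) / 4) * (O * X) := h1
      _ = C * R ^ (-(1 : ℝ) / 4) * (X * O) := by ring

end Pool.Agent.IDS
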