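import Pool.Agent.IDS.B1
import Pool.Agent.IDS.K3

set_option autoImplicit false

namespace Pool.Agent.IDS

open Finset

/-- counting the elements of `E1` by fibres -/
theorem c4_part (γ R : ℝ) (c1 X O Y Z : ℕ) (K : ℝ) (ϑ : ℕ × ℕ → ℝ) (E1 : Finset (ℕ × ℕ))
    (x o y z : ℕ × ℕ → ℕ)
    (hx : ∀ e ∈ E1, X ≤ x e ∧ x e < 2 * X) (ho : ∀ e ∈ E1, O ≤ o e ∧ o e < 2 * O)
    (hy : ∀ e ∈ E1, Y ≤ y e ∧ y e < 2 * Y) (hz : ∀ e ∈ E1, Z ≤ z e ∧ z e < 2 * Z)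
    (hinj : ∀ e ∈ E1, ∀ e' ∈ E1, x e = x e' → o e = o e' → y e = y e' → z e = z e' → e = e')
    (hnd : ∀ e ∈ E1, nd (γ * (c1 * (x e) * (o e)) - ϑ (y e, z e)) ≤ 2 / R)
    (hK : ∀ t : ℝ, (((Ico X (2 * X) ×ˢ Ico O (2 * O)).filter (fun q : ℕ × ℕ =>
        nd (γ * (c1 * q.1 * q.2) - t) ≤ 2 / R)).card : ℝ) ≤ K) :
    (E1.card : ℝ) ≤ (Y * Z : ℕ) * K := by
  classical
  set S : Finset (Σ _ : ℕ × ℕ, ℕ × ℕ) := (Ico Y (2 * Y) ×ˢ Ico Z (2 * Z)).sigma fun yz =>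
    (Ico X (2 * X) ×ˢ Ico O (2 * O)).filter
      (fun q : ℕ × ℕ => nd (γ * (c1 * q.1 * q.2) - ϑ yz) ≤ 2 / R) with hS
  have h1 : E1.card ≤ S.card := by
    refine Finset.card_le_card_of_injOn
      (fun e => (⟨(y e, z e), (x e, o e)⟩ : Σ _ : ℕ × ℕ, ℕ × ℕ)) ?_ ?_
    · intro e he
      have he' : e ∈ E1 := he
      show (⟨(y e, z e), (x e, o e)⟩ : Σ _ : ℕ × ℕ, ℕ × ℕ) ∈ S
      rw [hS, Finset.mem_sigma, Finset.mem_product, Finset.mem_filter, Finset.mem_product]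
      simp only [Finset.mem_Ico]
      exact ⟨⟨hy e he', hz e he'⟩, ⟨hx e he', ho e he'⟩, hnd e he'⟩
    · intro e he e' he' h
      simp only [Sigma.mk.injEq, Prod.mk.injEq, heq_eq_eq] at h
      exact hinj e he e' he' h.2.1 h.2.2 h.1.1 h.1.2
  have h2 : (S.card : ℝ) ≤ (Y * Z : ℕ) * K := by
    rw [hS, Finset.card_sigma]
    push_cast
    refine (Finset.sum_le_sum fun yz _ => hK (ϑ yz)).trans (le_of_eq ?_)
    rw [Finset.sum_const, Finset.card_product, Nat.card_Ico, Nat.card_Ico, nsmul_eq_mul]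
    have e1 : 2 * Y - Y = Y := by omega
    have e2 : 2 * Z - Z = Z := by omega
    rw [e1, e2]
    push_cast
    ring
  exact (by exact_mod_cast h1 : (E1.card : ℝ) ≤ S.card).trans h2

/-- [IDS-C4] **Alignment count in a box.**

PROOF.  By `good_struct`, `e = (v, w)` satisfies `rd v w = α n d'`, `rd w v = β n' d` with
`α = rd a b, β = rd b a, n = rd v a, d = rd a v, n' = rd w b, d' = rd b w`, and `e` is determined by
`(n, d, n', d')` (`v d = a n`, `w d' = b n'`).  Split `E'` in two parts.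
Part 1: `R^{C1} ≤ rd v w`.  Then `R^{C1} ≤ α n d' < 4 α 2^A 2^{B'}`.  For each of the
`2^{B} · 2^{A'}` pairs `(d, n')` the pairs `(n, d') ∈ [2^A, 2^{A+1}) × [2^{B'}, 2^{B'+1})` satisfy
`nd (γ (α n d') - γ β n' d) ≤ 2/R` (`nd_neg`); by `lemK` (with `c1 = α`, `X = 2^A`, `O = 2^{B'}`) there
are at most `C R^{-1/4} 2^{A+B'}` of them.
Part 2: `R^{C1} ≤ rd w v`: the same with the roles `(n', d)`, `c1 = β`, `X = 2^{A'}`, `O = 2^B`,
for each of the `2^A 2^{B'}` pairs `(n, d')`.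
Total `2 C R^{-1/4} 2^{A+B+A'+B'}`. -/
theorem box_count (γ c : ℝ) (τ C1 : ℕ) (h : FT γ c τ) (hC1 : 16 + 34 * τ ≤ C1) :
    ∃ C : ℝ, 0 < C ∧ ∀ (R : ℝ) (a b : ℕ) (E' : Finset (ℕ × ℕ)) (A B A' B' : ℕ), 1 ≤ R →
      0 < a → 0 < b → (rd a b : ℝ) ≤ R ^ 16 → (rd b a : ℝ) ≤ R ^ 16 →
      (∀ e ∈ E', 0 < e.1 ∧ 0 < e.2 ∧ Good a b e.1 e.2 ∧
        nd (γ * ((rd e.2 e.1 : ℝ) - rd e.1 e.2)) ≤ 2 / R ∧
        (R ^ C1 ≤ (rd e.1 e.2 : ℝ) ∨ R ^ C1 ≤ (rd e.2 e.1 : ℝ)) ∧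
        2 ^ A ≤ rd e.1 a ∧ rd e.1 a < 2 ^ (A + 1) ∧ 2 ^ B ≤ rd a e.1 ∧ rd a e.1 < 2 ^ (B + 1) ∧
        2 ^ A' ≤ rd e.2 b ∧ rd e.2 b < 2 ^ (A' + 1) ∧
        2 ^ B' ≤ rd b e.2 ∧ rd b e.2 < 2 ^ (B' + 1)) →
      (E'.card : ℝ) ≤ C * R ^ (-(1 : ℝ) / 4) * 2 ^ (A + B + A' + B') := by
  obtain ⟨C, hC, hK⟩ := lemK γ c τ h
  refine ⟨2 * C, by positivity, ?_⟩
  intro R a b E' A B A' B' hR ha hb hα hβ hE
  classical
  have hR0 : 0 < R := by linarith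
  -- injectivity
  have hinj : ∀ e ∈ E', ∀ e' ∈ E', rd e.1 a = rd e'.1 a → rd a e.1 = rd a e'.1 →
      rd e.2 b = rd e'.2 b → rd b e.2 = rd b e'.2 → e = e' := by
    intro e he e' he' h1 h2 h3 h4
    have k1 : e.1 * rd a e.1 = a * rd e.1 a := rd_mul a e.1
    have k2 : e'.1 * rd a e'.1 = a * rd e'.1 a := rd_mul a e'.1
    have k3 : e.2 * rd b e.2 = b * rd e.2 b := rd_mul b e.2
    have k4 : e'.2 * rd b e'.2 = b * rd e'.2 b := rd_mul b e'.2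
    rw [h1, ← k2, h2] at k1
    rw [h3, ← k4, h4] at k3
    have p1 : 0 < rd a e'.1 := rd_pos ha
    have p2 : 0 < rd b e'.2 := rd_pos hb
    exact Prod.ext (Nat.eq_of_mul_eq_mul_right p1 k1) (Nat.eq_of_mul_eq_mul_right p2 k3)
  have hstruct : ∀ e ∈ E', (rd e.1 e.2 : ℝ) = rd a b * rd e.1 a * rd b e.2 ∧
      (rd e.2 e.1 : ℝ) = rd b a * rd e.2 b * rd a e.1 := by
    intro e he
    obtain ⟨h1, h2, h3, -⟩ := hE e he
    obtain ⟨-, g1, g2, -⟩ := good_struct a b e.1 e.2 ha hb h1 h2 h3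
    constructor
    · rw [g1]; push_cast; ring
    · rw [g2]; push_cast; ring
  have hα1 : 1 ≤ rd a b := rd_pos ha
  have hβ1 : 1 ≤ rd b a := rd_pos hb
  have hRpow : 0 ≤ R ^ (-(1 : ℝ) / 4) := Real.rpow_nonneg hR0.le _
  -- part 1
  have hP1 : (((E'.filter fun e => R ^ C1 ≤ (rd e.1 e.2 : ℝ)).card : ℕ) : ℝ) ≤
      C * R ^ (-(1 : ℝ) / 4) * 2 ^ (A + B + A' + B') := by
    rcases (E'.filter fun e => R ^ C1 ≤ (rd e.1 e.2 : ℝ)).eq_empty_or_nonempty with h0 | ⟨e₀, h0⟩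
    · rw [h0, Finset.card_empty]
      push_cast
      positivity
    rw [Finset.mem_filter] at h0
    have hcond : R ^ C1 ≤ 4 * (rd a b : ℝ) * ((2 ^ A : ℕ) : ℝ) * ((2 ^ B' : ℕ) : ℝ) := by
      refine h0.2.trans ?_
      rw [(hstruct e₀ h0.1).1]
      obtain ⟨-, -, -, -, -, -, h3, -, -, -, -, -, h4⟩ := hE e₀ h0.1
      have h3' : (rd e₀.1 a : ℝ) ≤ 2 * ((2 ^ A : ℕ) : ℝ) := by
        have : rd e₀.1 a ≤ 2 * 2 ^ A := by rw [pow_succ] at h3; omega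
        exact_mod_cast this
      have h4' : (rd b e₀.2 : ℝ) ≤ 2 * ((2 ^ B' : ℕ) : ℝ) := by
        have : rd b e₀.2 ≤ 2 * 2 ^ B' := by rw [pow_succ] at h4; omega
        exact_mod_cast this
      have h5 : (0 : ℝ) ≤ rd a b := Nat.cast_nonneg _
      calc (rd a b : ℝ) * rd e₀.1 a * rd b e₀.2
          ≤ (rd a b : ℝ) * (2 * ((2 ^ A : ℕ) : ℝ)) * (2 * ((2 ^ B' : ℕ) : ℝ)) := by
            refine mul_le_mul (mul_le_mul_of_nonneg_left h3' h5) h4' (Nat.cast_nonneg _) ?_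
            positivity
        _ = _ := by ring
    have hkey := c4_part γ R (rd a b) (2 ^ A) (2 ^ B') (2 ^ B) (2 ^ A')
      (C * R ^ (-(1 : ℝ) / 4) * (((2 ^ A : ℕ) : ℝ) * ((2 ^ B' : ℕ) : ℝ)))
      (fun q => γ * ((rd b a : ℝ) * q.2 * q.1))
      (E'.filter fun e => R ^ C1 ≤ (rd e.1 e.2 : ℝ))
      (fun e => rd e.1 a) (fun e => rd b e.2) (fun e => rd a e.1) (fun e => rd e.2 b)
      (fun e he => by
        obtain ⟨-, -, -, -, -, g1, g2, -⟩ := hE e (Finset.mem_filter.1 he).1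
        exact ⟨g1, by rw [pow_succ] at g2; omega⟩)
      (fun e he => by
        obtain ⟨-, -, -, -, -, -, -, -, -, -, -, g1, g2⟩ := hE e (Finset.mem_filter.1 he).1
        exact ⟨g1, by rw [pow_succ] at g2; omega⟩)
      (fun e he => by
        obtain ⟨-, -, -, -, -, -, -, g1, g2, -⟩ := hE e (Finset.mem_filter.1 he).1
        exact ⟨g1, by rw [pow_succ] at g2; omega⟩)
      (fun e he => by
        obtain ⟨-, -, -, -, -, -, -, -, -, g1, g2, -⟩ := hE e (Finset.mem_filter.1 he).1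
        exact ⟨g1, by rw [pow_succ] at g2; omega⟩)
      (fun e he e' he' q1 q2 q3 q4 => hinj e (Finset.mem_filter.1 he).1 e'
        (Finset.mem_filter.1 he').1 q1 q3 q4 q2)
      (fun e he => by
        obtain ⟨-, -, -, g1, -⟩ := hE e (Finset.mem_filter.1 he).1
        obtain ⟨g2, g3⟩ := hstruct e (Finset.mem_filter.1 he).1
        rw [g2, g3, ← nd_neg] at g1
        refine le_trans (le_of_eq ?_) g1
        congr 1
        simp only
        ring)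
      (fun t => hK R t (rd a b) (2 ^ A) (2 ^ B') C1 hR hα1 Nat.one_le_two_pow
        Nat.one_le_two_pow hC1 hα hcond)
    refine hkey.trans (le_of_eq ?_)
    push_cast
    rw [pow_add, pow_add, pow_add]
    ring
  -- part 2
  have hP2 : (((E'.filter fun e => R ^ C1 ≤ (rd e.2 e.1 : ℝ)).card : ℕ) : ℝ) ≤
      C * R ^ (-(1 : ℝ) / 4) * 2 ^ (A + B + A' + B') := by
    rcases (E'.filter fun e => R ^ C1 ≤ (rd e.2 e.1 : ℝ)).eq_empty_or_nonempty with h0 | ⟨e₀, h0⟩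
    · rw [h0, Finset.card_empty]
      push_cast
      positivity
    rw [Finset.mem_filter] at h0
    have hcond : R ^ C1 ≤ 4 * (rd b a : ℝ) * ((2 ^ A' : ℕ) : ℝ) * ((2 ^ B : ℕ) : ℝ) := by
      refine h0.2.trans ?_
      rw [(hstruct e₀ h0.1).2]
      obtain ⟨-, -, -, -, -, -, -, -, h4, -, h3, -⟩ := hE e₀ h0.1
      have h3' : (rd e₀.2 b : ℝ) ≤ 2 * ((2 ^ A' : ℕ) : ℝ) := by
        have : rd e₀.2 b ≤ 2 * 2 ^ A' := by rw [pow_succ] at h3; omega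
        exact_mod_cast this
      have h4' : (rd a e₀.1 : ℝ) ≤ 2 * ((2 ^ B : ℕ) : ℝ) := by
        have : rd a e₀.1 ≤ 2 * 2 ^ B := by rw [pow_succ] at h4; omega
        exact_mod_cast this
      have h5 : (0 : ℝ) ≤ rd b a := Nat.cast_nonneg _
      calc (rd b a : ℝ) * rd e₀.2 b * rd a e₀.1
          ≤ (rd b a : ℝ) * (2 * ((2 ^ A' : ℕ) : ℝ)) * (2 * ((2 ^ B : ℕ) : ℝ)) := by
            refine mul_le_mul (mul_le_mul_of_nonneg_left h3' h5) h4' (Nat.cast_nonneg _) ?_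
            positivity
        _ = _ := by ring
    have hkey := c4_part γ R (rd b a) (2 ^ A') (2 ^ B) (2 ^ A) (2 ^ B')
      (C * R ^ (-(1 : ℝ) / 4) * (((2 ^ A' : ℕ) : ℝ) * ((2 ^ B : ℕ) : ℝ)))
      (fun q => γ * ((rd a b : ℝ) * q.1 * q.2))
      (E'.filter fun e => R ^ C1 ≤ (rd e.2 e.1 : ℝ))
      (fun e => rd e.2 b) (fun e => rd a e.1) (fun e => rd e.1 a) (fun e => rd b e.2)
      (fun e he => by
        obtain ⟨-, -, -, -, -, -, -, -, -, g1, g2, -⟩ := hE e (Finset.mem_filter.1 he).1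
        exact ⟨g1, by rw [pow_succ] at g2; omega⟩)
      (fun e he => by
        obtain ⟨-, -, -, -, -, -, -, g1, g2, -⟩ := hE e (Finset.mem_filter.1 he).1
        exact ⟨g1, by rw [pow_succ] at g2; omega⟩)
      (fun e he => by
        obtain ⟨-, -, -, -, -, g1, g2, -⟩ := hE e (Finset.mem_filter.1 he).1
        exact ⟨g1, by rw [pow_succ] at g2; omega⟩)
      (fun e he => by
        obtain ⟨-, -, -, -, -, -, -, -, -, -, -, g1, g2⟩ := hE e (Finset.mem_filter.1 he).1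
        exact ⟨g1, by rw [pow_succ] at g2; omega⟩)
      (fun e he e' he' q1 q2 q3 q4 => hinj e (Finset.mem_filter.1 he).1 e'
        (Finset.mem_filter.1 he').1 q3 q2 q1 q4)
      (fun e he => by
        obtain ⟨-, -, -, g1, -⟩ := hE e (Finset.mem_filter.1 he).1
        obtain ⟨g2, g3⟩ := hstruct e (Finset.mem_filter.1 he).1
        rw [g2, g3] at g1
        refine le_trans (le_of_eq ?_) g1
        congr 1
        simp only
        ring)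
      (fun t => hK R t (rd b a) (2 ^ A') (2 ^ B) C1 hR hβ1 Nat.one_le_two_pow
        Nat.one_le_two_pow hC1 hβ hcond)
    refine hkey.trans (le_of_eq ?_)
    push_cast
    rw [pow_add, pow_add, pow_add]
    ring
  have hsub : E' ⊆ (E'.filter fun e => R ^ C1 ≤ (rd e.1 e.2 : ℝ)) ∪
      (E'.filter fun e => R ^ C1 ≤ (rd e.2 e.1 : ℝ)) := by
    intro e he
    obtain ⟨-, -, -, -, h5, -⟩ := hE e he
    rw [Finset.mem_union, Finset.mem_filter, Finset.mem_filter]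
    rcases h5 with h5 | h5
    · exact Or.inl ⟨he, h5⟩
    · exact Or.inr ⟨he, h5⟩
  have hcard := (Finset.card_le_card hsub).trans (Finset.card_union_le _ _)
  have hcard' : (E'.card : ℝ) ≤ ((E'.filter fun e => R ^ C1 ≤ (rd e.1 e.2 : ℝ)).card : ℝ) +
      ((E'.filter fun e => R ^ C1 ≤ (rd e.2 e.1 : ℝ)).card : ℝ) := by exact_mod_cast hcard
  linarith

end Pool.Agent.IDS
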