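import Pool.Agent.IDS.C4
import Pool.Agent.IDS.C2b
import Pool.Agent.IDS.C5a

set_option autoImplicit false

namespace Pool.Agent.IDS

open Finset

theorem c5b_interp (ε : ℝ) (hε : 0 < ε) (hε1 : ε ≤ 1) (w z σ X K : ℝ) (hw : 0 ≤ w)
    (hz : 1 ≤ z) (hσ : 0 < σ) (hK : 0 ≤ K) (h1 : w * z ^ ε ≤ 1) (hX1 : X ≤ K * w)
    (hX2 : X ≤ K * (w * z * σ)) : X ≤ K * σ ^ ε := by
  have hz0 : 0 < z := by linarith
  have hzε : 0 < z ^ ε := Real.rpow_pos_of_pos hz0 _
  by_cases hc : 1 ≤ z * σ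
  · refine hX1.trans (mul_le_mul_of_nonneg_left ?_ hK)
    have h2 : 1 ≤ z ^ ε * σ ^ ε := by
      rw [← Real.mul_rpow hz0.le hσ.le]
      exact Real.one_le_rpow hc hε.le
    have h3 : z ^ ε * w ≤ z ^ ε * σ ^ ε := by
      rw [mul_comm] at h1
      exact h1.trans h2
    exact le_of_mul_le_mul_left h3 hzε
  · push Not at hc
    refine hX2.trans (mul_le_mul_of_nonneg_left ?_ hK)
    have h2 : z = z ^ ε * z ^ (1 - ε) := by
      rw [← Real.rpow_add hz0]
      simp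
    have h3 : z ≤ σ⁻¹ := by
      rw [le_inv_comm₀ hz0 hσ]
      rw [← one_div, le_div_iff₀ hz0]
      linarith [mul_comm z σ]
    have h4 : z ^ (1 - ε) ≤ (σ⁻¹) ^ (1 - ε) :=
      Real.rpow_le_rpow hz0.le h3 (by linarith)
    have h5 : 0 < z ^ (1 - ε) := Real.rpow_pos_of_pos hz0 _
    calc w * z * σ = (w * z ^ ε) * (z ^ (1 - ε) * σ) := by
          conv_lhs => rw [h2]
          ring
      _ ≤ 1 * (z ^ (1 - ε) * σ) := by
          apply mul_le_mul_of_nonneg_right h1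
          positivity
      _ ≤ (σ⁻¹) ^ (1 - ε) * σ := by
          rw [one_mul]
          exact mul_le_mul_of_nonneg_right h4 hσ.le
      _ = σ ^ ε := by
          rw [Real.inv_rpow hσ.le, ← Real.rpow_neg hσ.le]
          nth_rewrite 2 [← Real.rpow_one σ]
          rw [← Real.rpow_add hσ]
          congr 1
          ring

/-- each element of a part -/
theorem c5b_elt (v a A B : ℕ) (h1 : rd v a < 2 ^ (A + 1)) (h2 : 2 ^ B ≤ rd a v) :
    (v : ℝ) ≤ a * 2 ^ (A + 1) / 2 ^ B := by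
  have e := rd_mul a v
  rw [le_div_iff₀ (by positivity)]
  have : v * 2 ^ B ≤ a * 2 ^ (A + 1) := by
    calc v * 2 ^ B ≤ v * rd a v := Nat.mul_le_mul_left _ h2
      _ = a * rd v a := e
      _ ≤ a * 2 ^ (A + 1) := Nat.mul_le_mul_left _ h1.le
  exact_mod_cast this

/-- [IDS-C5b] **Cell bound with alignment** (regime I, `rd a b, rd b a ≤ R^16`).

PROOF.  Let `P = cell a b κ E' A k A' k'`, `L₁ = L k`, `L₂ = L k'`.
(1) Trivial bound: `cell_bound` with `c₁ = Ω k, c₂ = Ω k'`: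
`em P ≤ 16 Ω k Ω k' Q`, `Q = a b 2^{2A+2A'} (1/2)^{k+k'}`.
(2) Partition `P` by `B = log₂ (rd a v)`, `B' = log₂ (rd b w)`; by `few_sizes` (applied to the image
of `P` under `Prod.fst`, whose elements lie in `S.filter (κ = k)`) there are at most
`3 L₁ · 3 L₂` nonempty parts.  For `e = (v, w)` in a part:
`μ v ≤ Ω k v (1/2)^k`, `v = a rd v a / rd a v ≤ a 2^{A+1} / 2^B`, the same for `w`; so
`μ v μ w ≤ 4 Ω k Ω k' a b 2^{A+A'-B-B'} (1/2)^{k+k'}`, and the part has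
`≤ C R^{-1/4} 2^{A+B+A'+B'}` elements by `box_count`.  So each part has mass
`≤ 4 C R^{-1/4} Ω k Ω k' Q`, and `em P ≤ 36 C L₁ L₂ R^{-1/4} Ω k Ω k' Q`.
(3) With `C'' = max 16 (36 C)`, `σ = R^{-1/4}`, `z = L₁ L₂ ≥ 1`: `Ω k Ω k' ≤ z^{-ε}`
(`Dat.Om1`), so `em P ≤ C'' Q z^{-ε} min(1, z σ) ≤ C'' Q σ^ε`:
if `z σ ≥ 1` then `z^{-ε} ≤ σ^ε`; if `z σ < 1` then `z^{1-ε} σ ≤ σ^{-(1-ε)} σ = σ^ε`
(`0 < ε ≤ 1`).  `σ^ε = R^{-ε/4}`. -/
theorem cell_aligned (γ c : ℝ) (τ C1 : ℕ) (h : FT γ c τ) (hC1 : 16 + 34 * τ ≤ C1)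
    (ε : ℝ) (hε : 0 < ε) (hε1 : ε ≤ 1) :
    ∃ C : ℝ, 0 < C ∧ ∀ (S : Finset ℕ) (κ : ℕ → ℕ) (Ω L μ : ℕ → ℝ), Dat ε S κ Ω L μ →
      ∀ (R : ℝ) (a b : ℕ) (E' : Finset (ℕ × ℕ)), 1 ≤ R → 0 < a → 0 < b →
      (rd a b : ℝ) ≤ R ^ 16 → (rd b a : ℝ) ≤ R ^ 16 → E' ⊆ S ×ˢ S →
      (∀ e ∈ E', Good a b e.1 e.2 ∧ nd (γ * ((rd e.2 e.1 : ℝ) - rd e.1 e.2)) ≤ 2 / R ∧
        (R ^ C1 ≤ (rd e.1 e.2 : ℝ) ∨ R ^ C1 ≤ (rd e.2 e.1 : ℝ))) →
      ∀ A k A' k', em μ μ (cell a b κ E' A k A' k') ≤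
        C * R ^ (-ε / 4) * a * b * 2 ^ (2 * A + 2 * A') * (1 / 2 : ℝ) ^ (k + k') := by
  classical
  obtain ⟨C0, hC0, hbox⟩ := box_count γ c τ C1 h hC1
  refine ⟨16 + 36 * C0, by positivity, ?_⟩
  intro S κ Ω L μ hD R a b E' hR ha hb hab hba hE hprop A k A' k'
  have hR0 : 0 < R := by linarith
  set P := cell a b κ E' A k A' k' with hP
  have hPE : P ⊆ E' := Finset.filter_subset _ _
  have hPS : P ⊆ S ×ˢ S := hPE.trans hE
  set σ : ℝ := R ^ (-(1 : ℝ) / 4) with hσ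
  have hσ0 : 0 < σ := Real.rpow_pos_of_pos hR0 _
  set Q : ℝ := a * b * 2 ^ (2 * A + 2 * A') * (1 / 2 : ℝ) ^ (k + k') with hQ
  have hQ0 : 0 ≤ Q := by positivity
  have hΩ1 := hD.Om0 k
  have hΩ2 := hD.Om0 k'
  have hL1 := hD.L1 k
  have hL2 := hD.L1 k'
  -- (1)
  have hb1 : em μ μ P ≤ 16 * (Ω k * Ω k') * Q := by
    have := cell_bound S κ μ hD.mu0 E' a b ha hb hD.pos hE (fun e he => (hprop e he).1)
      A k A' k' (Ω k) (Ω k') hΩ1 hΩ2
      (fun v hv hk => by have := hD.mu1 v hv; rwa [hk] at this)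
      (fun v hv hk => by have := hD.mu1 v hv; rwa [hk] at this)
    calc em μ μ P ≤ _ := this
      _ = 16 * (Ω k * Ω k') * Q := by rw [hQ]; ring
  -- (2)
  have hb2 : em μ μ P ≤ 36 * C0 * (L k * L k') * σ * (Ω k * Ω k') * Q := by
    set I1 := (P.image Prod.fst).image (fun v => Nat.log 2 (rd a v)) with hI1
    set I2 := (P.image Prod.snd).image (fun w => Nat.log 2 (rd b w)) with hI2
    have hmem : ∀ e ∈ P, (2 ^ A ≤ rd e.1 a ∧ rd e.1 a < 2 ^ (A + 1) ∧ κ e.1 = k ∧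
        2 ^ A' ≤ rd e.2 b ∧ rd e.2 b < 2 ^ (A' + 1) ∧ κ e.2 = k') :=
      fun e he => (Finset.mem_filter.1 he).2
    have hS1 : ∀ e ∈ P, e.1 ∈ S ∧ e.2 ∈ S := fun e he => Finset.mem_product.1 (hPS he)
    have hcard1 : (I1.card : ℝ) ≤ 3 * L k := by
      have h1 : I1.card ≤ 3 * ((P.image Prod.fst).image (Nat.log 2)).card := by
        apply few_sizes a A ha
        intro v hv
        obtain ⟨e, he, rfl⟩ := Finset.mem_image.1 hv
        exact ⟨hD.pos _ (hS1 e he).1, (hmem e he).1, (hmem e he).2.1⟩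
      have h2 : ((P.image Prod.fst).image (Nat.log 2)).card ≤
          ((S.filter (fun v => κ v = k)).image (Nat.log 2)).card := by
        apply Finset.card_le_card
        apply Finset.image_subset_image
        intro v hv
        obtain ⟨e, he, rfl⟩ := Finset.mem_image.1 hv
        exact Finset.mem_filter.2 ⟨(hS1 e he).1, (hmem e he).2.2.1⟩
      have h3 := hD.LS k
      have h4 : (I1.card : ℝ) ≤ 3 * (((P.image Prod.fst).image (Nat.log 2)).card : ℝ) := by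
        exact_mod_cast h1
      have h5 : (((P.image Prod.fst).image (Nat.log 2)).card : ℝ) ≤
          (((S.filter (fun v => κ v = k)).image (Nat.log 2)).card : ℝ) := by exact_mod_cast h2
      linarith
    have hcard2 : (I2.card : ℝ) ≤ 3 * L k' := by
      have h1 : I2.card ≤ 3 * ((P.image Prod.snd).image (Nat.log 2)).card := by
        apply few_sizes b A' hb
        intro v hv
        obtain ⟨e, he, rfl⟩ := Finset.mem_image.1 hv
        exact ⟨hD.pos _ (hS1 e he).2, (hmem e he).2.2.2.1, (hmem e he).2.2.2.2.1⟩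
      have h2 : ((P.image Prod.snd).image (Nat.log 2)).card ≤
          ((S.filter (fun v => κ v = k')).image (Nat.log 2)).card := by
        apply Finset.card_le_card
        apply Finset.image_subset_image
        intro v hv
        obtain ⟨e, he, rfl⟩ := Finset.mem_image.1 hv
        exact Finset.mem_filter.2 ⟨(hS1 e he).2, (hmem e he).2.2.2.2.2⟩
      have h3 := hD.LS k'
      have h4 : (I2.card : ℝ) ≤ 3 * (((P.image Prod.snd).image (Nat.log 2)).card : ℝ) := by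
        exact_mod_cast h1
      have h5 : (((P.image Prod.snd).image (Nat.log 2)).card : ℝ) ≤
          (((S.filter (fun v => κ v = k')).image (Nat.log 2)).card : ℝ) := by exact_mod_cast h2
      linarith
    have hpart : ∀ j ∈ I1 ×ˢ I2,
        ∑ e ∈ P.filter (fun e => (Nat.log 2 (rd a e.1), Nat.log 2 (rd b e.2)) = j),
          μ e.1 * μ e.2 ≤ 4 * C0 * σ * (Ω k * Ω k') * Q := by
      rintro ⟨B, B'⟩ _
      set T := P.filter (fun e => (Nat.log 2 (rd a e.1), Nat.log 2 (rd b e.2)) = (B, B'))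
        with hT
      have hTP : ∀ e ∈ T, e ∈ P ∧ Nat.log 2 (rd a e.1) = B ∧ Nat.log 2 (rd b e.2) = B' := by
        intro e he
        obtain ⟨h1, h2⟩ := Finset.mem_filter.1 he
        simp only [Prod.mk.injEq] at h2
        exact ⟨h1, h2.1, h2.2⟩
      have hlog : ∀ e ∈ T, 2 ^ B ≤ rd a e.1 ∧ rd a e.1 < 2 ^ (B + 1) ∧
          2 ^ B' ≤ rd b e.2 ∧ rd b e.2 < 2 ^ (B' + 1) := by
        intro e he
        obtain ⟨_, h1, h2⟩ := hTP e he
        refine ⟨?_, ?_, ?_, ?_⟩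
        · rw [← h1]; exact Nat.pow_log_le_self 2 (rd_pos ha).ne'
        · rw [← h1]; exact Nat.lt_pow_succ_log_self (by norm_num) _
        · rw [← h2]; exact Nat.pow_log_le_self 2 (rd_pos hb).ne'
        · rw [← h2]; exact Nat.lt_pow_succ_log_self (by norm_num) _
      have hcardT : (T.card : ℝ) ≤ C0 * σ * 2 ^ (A + B + A' + B') := by
        apply hbox R a b T A B A' B' hR ha hb hab hba
        intro e he
        obtain ⟨h1, _, _⟩ := hTP e he
        obtain ⟨g1, g2, _, g4, g5, _⟩ := hmem e h1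
        obtain ⟨l1, l2, l3, l4⟩ := hlog e he
        obtain ⟨p1, p2, p3⟩ := hprop e (hPE h1)
        exact ⟨hD.pos _ (hS1 e h1).1, hD.pos _ (hS1 e h1).2, p1, p2, p3, g1, g2, l1, l2, g4, g5,
          l3, l4⟩
      have helt : ∀ e ∈ T, μ e.1 * μ e.2 ≤
          (Ω k * (a * 2 ^ (A + 1) / 2 ^ B * (1 / 2 : ℝ) ^ k)) *
          (Ω k' * (b * 2 ^ (A' + 1) / 2 ^ B' * (1 / 2 : ℝ) ^ k')) := by
        intro e he
        obtain ⟨h1, _, _⟩ := hTP e he
        obtain ⟨g1, g2, g3, g4, g5, g6⟩ := hmem e h1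
        obtain ⟨l1, l2, l3, l4⟩ := hlog e he
        have m1 := hD.mu1 _ (hS1 e h1).1
        have m2 := hD.mu1 _ (hS1 e h1).2
        rw [g3] at m1
        rw [g6] at m2
        have t1 : (Nat.totient e.1 : ℝ) ≤ a * 2 ^ (A + 1) / 2 ^ B := by
          refine le_trans ?_ (c5b_elt e.1 a A B g2 l1)
          exact_mod_cast Nat.totient_le _
        have t2 : (Nat.totient e.2 : ℝ) ≤ b * 2 ^ (A' + 1) / 2 ^ B' := by
          refine le_trans ?_ (c5b_elt e.2 b A' B' g5 l3)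
          exact_mod_cast Nat.totient_le _
        apply mul_le_mul
        · refine m1.trans ?_
          gcongr
        · refine m2.trans ?_
          gcongr
        · exact hD.mu0 _
        · positivity
      calc ∑ e ∈ T, μ e.1 * μ e.2 ≤ ∑ e ∈ T,
            (Ω k * (a * 2 ^ (A + 1) / 2 ^ B * (1 / 2 : ℝ) ^ k)) *
            (Ω k' * (b * 2 ^ (A' + 1) / 2 ^ B' * (1 / 2 : ℝ) ^ k')) := Finset.sum_le_sum helt
        _ = (T.card : ℝ) * ((Ω k * (a * 2 ^ (A + 1) / 2 ^ B * (1 / 2 : ℝ) ^ k)) *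
            (Ω k' * (b * 2 ^ (A' + 1) / 2 ^ B' * (1 / 2 : ℝ) ^ k'))) := by
            rw [Finset.sum_const, nsmul_eq_mul]
        _ ≤ (C0 * σ * 2 ^ (A + B + A' + B')) *
            ((Ω k * (a * 2 ^ (A + 1) / 2 ^ B * (1 / 2 : ℝ) ^ k)) *
            (Ω k' * (b * 2 ^ (A' + 1) / 2 ^ B' * (1 / 2 : ℝ) ^ k'))) := by
            apply mul_le_mul_of_nonneg_right hcardT
            positivity
        _ = 4 * C0 * σ * (Ω k * Ω k') * Q := by
            rw [hQ, pow_add (2 : ℝ) (A + B + A') B', pow_add (2 : ℝ) (A + B) A',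
              pow_add (2 : ℝ) A B, pow_add (2 : ℝ) (2 * A) (2 * A'), pow_succ (2 : ℝ) A,
              pow_succ (2 : ℝ) A', pow_add (1 / 2 : ℝ) k k', two_mul A, two_mul A',
              pow_add (2 : ℝ) A A, pow_add (2 : ℝ) A' A']
            have hB : (2 : ℝ) ^ B ≠ 0 := by positivity
            have hB' : (2 : ℝ) ^ B' ≠ 0 := by positivity
            generalize (2 : ℝ) ^ B = x at *
            generalize (2 : ℝ) ^ B' = y at *
            generalize (1 / 2 : ℝ) ^ k = u at *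
            generalize (1 / 2 : ℝ) ^ k' = u' at *
            generalize (2 : ℝ) ^ A = p at *
            generalize (2 : ℝ) ^ A' = p' at *
            field_simp
            ring
    have hsum : em μ μ P = ∑ j ∈ I1 ×ˢ I2,
        ∑ e ∈ P.filter (fun e => (Nat.log 2 (rd a e.1), Nat.log 2 (rd b e.2)) = j),
          μ e.1 * μ e.2 := by
      unfold em
      symm
      apply Finset.sum_fiberwise_of_maps_to
      intro e he
      refine Finset.mem_product.2 ⟨?_, ?_⟩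
      · exact Finset.mem_image.2 ⟨e.1, Finset.mem_image_of_mem _ he, rfl⟩
      · exact Finset.mem_image.2 ⟨e.2, Finset.mem_image_of_mem _ he, rfl⟩
    rw [hsum]
    calc ∑ j ∈ I1 ×ˢ I2,
        ∑ e ∈ P.filter (fun e => (Nat.log 2 (rd a e.1), Nat.log 2 (rd b e.2)) = j),
          μ e.1 * μ e.2 ≤ ∑ j ∈ I1 ×ˢ I2, 4 * C0 * σ * (Ω k * Ω k') * Q :=
          Finset.sum_le_sum hpart
      _ = ((I1.card : ℝ) * I2.card) * (4 * C0 * σ * (Ω k * Ω k') * Q) := by
          rw [Finset.sum_const, Finset.card_product, nsmul_eq_mul, Nat.cast_mul]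
      _ ≤ ((3 * L k) * (3 * L k')) * (4 * C0 * σ * (Ω k * Ω k') * Q) := by
          apply mul_le_mul_of_nonneg_right
          · apply mul_le_mul hcard1 hcard2 (by positivity) (by positivity)
          · positivity
      _ = 36 * C0 * (L k * L k') * σ * (Ω k * Ω k') * Q := by ring
  -- (3)
  have hz : 1 ≤ L k * L k' := by nlinarith
  have hw1 : (Ω k * Ω k') * (L k * L k') ^ ε ≤ 1 := by
    have h1 := hD.Om1 k
    have h2 := hD.Om1 k'
    rw [Real.mul_rpow (by linarith) (by linarith)]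
    have h3 : 0 ≤ Ω k * (L k) ^ ε := mul_nonneg hΩ1 (Real.rpow_nonneg (by linarith) _)
    have h4 : 0 ≤ Ω k' * (L k') ^ ε := mul_nonneg hΩ2 (Real.rpow_nonneg (by linarith) _)
    calc (Ω k * Ω k') * ((L k) ^ ε * (L k') ^ ε) = (Ω k * (L k) ^ ε) * (Ω k' * (L k') ^ ε) := by
          ring
      _ ≤ 1 * 1 := mul_le_mul h1 h2 h4 (by norm_num)
      _ = 1 := one_mul 1
  have hw0 : 0 ≤ Ω k * Ω k' := mul_nonneg hΩ1 hΩ2
  have hfin := c5b_interp ε hε hε1 (Ω k * Ω k') (L k * L k') σ (em μ μ P) ((16 + 36 * C0) * Q)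
    hw0 hz hσ0 (by positivity) hw1 (by
      refine hb1.trans ?_
      have : 0 ≤ 36 * C0 * Q * (Ω k * Ω k') := by positivity
      nlinarith) (by
      refine hb2.trans ?_
      have : 0 ≤ 16 * Q * ((Ω k * Ω k') * (L k * L k') * σ) := by positivity
      nlinarith)
  have hσε : σ ^ ε = R ^ (-ε / 4) := by
    rw [hσ, ← Real.rpow_mul hR0.le]
    congr 1
    ring
  rw [hσε] at hfin
  calc em μ μ P ≤ (16 + 36 * C0) * Q * R ^ (-ε / 4) := hfin
    _ = (16 + 36 * C0) * R ^ (-ε / 4) * a * b * 2 ^ (2 * A + 2 * A') *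
        (1 / 2 : ℝ) ^ (k + k') := by rw [hQ]; ring

end Pool.Agent.IDS
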