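import Pool.Agent.IDS.O2b

set_option autoImplicit false

namespace Pool.Agent.IDS

open Finset MeasureTheory

/-- [IDS-O2c] **Overlap estimate.**  `D = lcm(q, r) max(2^{-κ q}, 2^{-κ r})`.

PROOF.  Let `ρ = q 2^{-κ q}`, `σ = r 2^{-κ r}`, `m = rd q r`, `m' = rd r q`; `D = max (m' ρ) (m σ)`
(`lcm_eq`, `Nat.lcm_comm`).  (i) If `nd (γ (m' - m)) > 2D` the intersection is empty: for `x` in both
sets choose integers `a, b` with `|q x - γ - a| ≤ ρ`, `|r x - γ - b| ≤ σ`; then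
`m' (q x - γ - a) - m (r x - γ - b) = -γ (m' - m) - (m' a - m b)` (as `m' q = m r`), so
`nd (γ (m'-m)) ≤ m' ρ + m σ ≤ 2D`.  (ii) In general by `overlap_one` (both ways) the measure is
`≤ 4ρσ + 2 min(σ/m', ρ/m) = 4ρσ + 2ρσ min(1/(m'ρ), 1/(mσ)) = 4ρσ + 2ρσ/D`. -/
theorem overlap (γ : ℝ) (κ : ℕ → ℕ) (q r : ℕ) (hq : 1 ≤ q) (hr : 1 ≤ r)
    (h1 : (q : ℝ) * (1 / 2 : ℝ) ^ κ q ≤ 1 / 2) (h2 : (r : ℝ) * (1 / 2 : ℝ) ^ κ r ≤ 1 / 2) :
    (volume (EE γ q (q * (1 / 2 : ℝ) ^ κ q) ∩ EE γ r (r * (1 / 2 : ℝ) ^ κ r))).toReal ≤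
      4 * (q * (1 / 2 : ℝ) ^ κ q) * (r * (1 / 2 : ℝ) ^ κ r) +
      (if nd (γ * ((rd r q : ℝ) - rd q r)) ≤ 2 * DD κ q r then
        2 * (q * (1 / 2 : ℝ) ^ κ q) * (r * (1 / 2 : ℝ) ^ κ r) / DD κ q r else 0) := by
  have hq0 : (0 : ℝ) < q := by exact_mod_cast hq
  have hr0 : (0 : ℝ) < r := by exact_mod_cast hr
  have hδ : (0 : ℝ) < (1 / 2 : ℝ) ^ κ q := by positivity
  have hε : (0 : ℝ) < (1 / 2 : ℝ) ^ κ r := by positivity
  have hl1 : (Nat.lcm q r : ℝ) = q * rd r q := by exact_mod_cast lcm_eq q r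
  have hl2 : (Nat.lcm q r : ℝ) = r * rd q r := by
    rw [Nat.lcm_comm]; exact_mod_cast lcm_eq r q
  have hm' : (0 : ℝ) < rd r q := by exact_mod_cast rd_pos hr
  have hm : (0 : ℝ) < rd q r := by exact_mod_cast rd_pos hq
  have hqr : (q : ℝ) * rd r q = r * rd q r := by rw [← hl1, hl2]
  have hDD : DD κ q r = (q * rd r q : ℝ) * max ((1 / 2 : ℝ) ^ κ q) ((1 / 2 : ℝ) ^ κ r) := by
    unfold DD
    rw [hl1]
  set δ : ℝ := (1 / 2 : ℝ) ^ κ q with hδd
  set ε : ℝ := (1 / 2 : ℝ) ^ κ r with hεd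
  have hρ0 : 0 < q * δ := by positivity
  have hσ0 : 0 < r * ε := by positivity
  split_ifs with h
  · rcases le_total δ ε with hle | hle
    · rw [hDD, max_eq_right hle, Set.inter_comm]
      refine (overlap_one γ r q (r * ε) (q * δ) hr hq hσ0.le h2 hρ0.le h1).trans (le_of_eq ?_)
      rw [hqr]
      field_simp
      ring
    · rw [hDD, max_eq_left hle]
      refine (overlap_one γ q r (q * δ) (r * ε) hq hr hρ0.le h1 hσ0.le h2).trans (le_of_eq ?_)
      field_simp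
      ring
  · have hempty : EE γ q (q * δ) ∩ EE γ r (r * ε) = ∅ := by
      rw [Set.eq_empty_iff_forall_notMem]
      rintro x ⟨⟨_, hx1⟩, ⟨_, hx2⟩⟩
      apply h
      obtain ⟨a, ha⟩ := exists_int_abs_sub_eq_nd (q * x - γ)
      obtain ⟨b, hb⟩ := exists_int_abs_sub_eq_nd (r * x - γ)
      rw [← ha] at hx1
      rw [← hb] at hx2
      have hk := nd_le_abs (γ * ((rd r q : ℝ) - rd q r)) ((rd q r : ℤ) * b - (rd r q : ℤ) * a)
      refine hk.trans ?_
      have e : γ * ((rd r q : ℝ) - rd q r) - (((rd q r : ℤ) * b - (rd r q : ℤ) * a : ℤ) : ℝ) =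
          rd q r * (r * x - γ - b) - rd r q * (q * x - γ - a) := by
        push_cast
        linear_combination x * hqr
      rw [e]
      refine (abs_sub _ _).trans ?_
      rw [abs_mul, abs_mul, abs_of_pos hm, abs_of_pos hm', hDD]
      have k1 : (rd q r : ℝ) * |r * x - γ - b| ≤ rd q r * (r * ε) :=
        mul_le_mul_of_nonneg_left hx2 hm.le
      have k2 : (rd r q : ℝ) * |q * x - γ - a| ≤ rd r q * (q * δ) :=
        mul_le_mul_of_nonneg_left hx1 hm'.le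
      have k3 : (q * rd r q : ℝ) * δ ≤ (q * rd r q : ℝ) * max δ ε :=
        mul_le_mul_of_nonneg_left (le_max_left _ _) (by positivity)
      have k4 : (q * rd r q : ℝ) * ε ≤ (q * rd r q : ℝ) * max δ ε :=
        mul_le_mul_of_nonneg_left (le_max_right _ _) (by positivity)
      have k5 : (rd q r : ℝ) * (r * ε) = (q * rd r q : ℝ) * ε := by rw [hqr]; ring
      have k6 : (rd r q : ℝ) * (q * δ) = (q * rd r q : ℝ) * δ := by ring
      linarith
    rw [hempty]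
    simp only [measure_empty, ENNReal.toReal_zero, add_zero]
    positivity

end Pool.Agent.IDS
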