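import Pool.Agent.IDS.O2c

set_option autoImplicit false

namespace Pool.Agent.IDS

open Finset MeasureTheory

/-- the sum of the core inequality -/
noncomputable def core (γ : ℝ) (κ : ℕ → ℕ) (μ : ℕ → ℝ) (S : Finset ℕ) : ℝ :=
  ∑ e ∈ (S ×ˢ S).filter (fun e => e.1 ≠ e.2 ∧
    nd (γ * ((rd e.2 e.1 : ℝ) - rd e.1 e.2)) ≤ 2 * DD κ e.1 e.2),
    μ e.1 * μ e.2 / DD κ e.1 e.2

theorem o3_gen {P : Measure ℝ} [IsProbabilityMeasure P] (S : Finset ℕ) (E : ℕ → Set ℝ)
    (hE : ∀ q, MeasurableSet (E q)) (c : ℕ → ℝ) :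
    (∑ q ∈ S, c q * P.real (E q)) ^ 2 * P.real {x | ∀ q ∈ S, x ∉ E q} ≤
      ∑ q ∈ S, ∑ r ∈ S, c q * c r * P.real (E q ∩ E r) -
        (∑ q ∈ S, c q * P.real (E q)) ^ 2 := by
  set W := ∑ q ∈ S, c q * P.real (E q) with hW
  let f : ℝ → ℝ := fun x => ∑ q ∈ S, c q * (E q).indicator 1 x
  have hfi : ∀ A : Set ℝ, MeasurableSet A → Integrable (fun x => A.indicator (1 : ℝ → ℝ) x) P :=
    fun A hA => (integrable_const (1 : ℝ)).indicator hA
  have hval : ∀ A : Set ℝ, MeasurableSet A →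
      ∫ x, A.indicator (1 : ℝ → ℝ) x ∂P = P.real A := fun A hA => integral_indicator_one hA
  have h1 : ∫ x, f x ∂P = W := by
    simp only [f]
    rw [integral_finsetSum _ fun q _ => (hfi _ (hE q)).const_mul _]
    refine Finset.sum_congr rfl fun q _ => ?_
    rw [integral_const_mul, hval _ (hE q)]
  have hf2 : ∀ x, f x ^ 2 = ∑ q ∈ S, ∑ r ∈ S, c q * c r * (E q ∩ E r).indicator 1 x := by
    intro x
    simp only [f]
    rw [pow_two, Finset.sum_mul_sum]
    refine Finset.sum_congr rfl fun q _ => Finset.sum_congr rfl fun r _ => ?_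
    rw [Set.inter_indicator_one]
    simp only [Pi.mul_apply]
    ring
  have hfint : Integrable f P := integrable_finsetSum _ fun q _ => (hfi _ (hE q)).const_mul _
  have hf2int : Integrable (fun x => f x ^ 2) P := by
    simp_rw [hf2]
    exact integrable_finsetSum _ fun q _ => integrable_finsetSum _ fun r _ =>
      (hfi _ ((hE q).inter (hE r))).const_mul _
  have h2 : ∫ x, f x ^ 2 ∂P = ∑ q ∈ S, ∑ r ∈ S, c q * c r * P.real (E q ∩ E r) := by
    simp_rw [hf2]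
    rw [integral_finsetSum _ fun q _ => integrable_finsetSum _ fun r _ =>
      (hfi _ ((hE q).inter (hE r))).const_mul _]
    refine Finset.sum_congr rfl fun q _ => ?_
    rw [integral_finsetSum _ fun r _ => (hfi _ ((hE q).inter (hE r))).const_mul _]
    refine Finset.sum_congr rfl fun r _ => ?_
    rw [integral_const_mul, hval _ ((hE q).inter (hE r))]
  have h3e : ∀ x, (f x - W) ^ 2 = f x ^ 2 - 2 * W * f x + W ^ 2 := fun x => by ring
  have h3int : Integrable (fun x => (f x - W) ^ 2) P := by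
    simp_rw [h3e]
    exact (hf2int.sub (hfint.const_mul _)).add (integrable_const _)
  have h3 : ∫ x, (f x - W) ^ 2 ∂P =
      ∑ q ∈ S, ∑ r ∈ S, c q * c r * P.real (E q ∩ E r) - W ^ 2 := by
    simp_rw [h3e]
    have ha : Integrable (fun x => f x ^ 2 - 2 * W * f x) P := hf2int.sub (hfint.const_mul _)
    rw [integral_add ha (integrable_const _),
      integral_sub hf2int (hfint.const_mul _), integral_const_mul, h1, h2]
    simp
    ring
  have hB : MeasurableSet {x | ∀ q ∈ S, x ∉ E q} := by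
    have : {x | ∀ q ∈ S, x ∉ E q} = ⋂ q ∈ S, (E q)ᶜ := by
      ext x; simp
    rw [this]
    exact Finset.measurableSet_biInter _ fun q _ => (hE q).compl
  rw [← h3]
  calc W ^ 2 * P.real {x | ∀ q ∈ S, x ∉ E q}
      = ∫ x, W ^ 2 * ({x | ∀ q ∈ S, x ∉ E q}.indicator 1 x) ∂P := by
        rw [integral_const_mul, hval _ hB]
    _ ≤ ∫ x, (f x - W) ^ 2 ∂P := by
        refine integral_mono ((hfi _ hB).const_mul _) h3int fun x => ?_
        by_cases hx : x ∈ {x | ∀ q ∈ S, x ∉ E q}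
        · have hfx : f x = 0 := by
            simp only [f]
            refine Finset.sum_eq_zero fun q hq => ?_
            rw [Set.indicator_of_notMem (hx q hq), mul_zero]
          simp only [Set.indicator_of_mem hx, hfx]
          simp
        · simp only [Set.indicator_of_notMem hx]
          rw [mul_zero]
          positivity

/-- [IDS-O3] **Second moment.**

PROOF.  `μ q = ω q φ(q) 2^{-κ q}`, `0 ≤ ω ≤ 1`.  Let `f = ∑_{q∈S} c_q 1_{EE_q}`,
`c_q = ω q φ(q)/q ∈ [0, 1]`, `ρ_q = q 2^{-κ q}`, so `c_q ρ_q = μ q`.  `∫_0^1 f = 2 W`, `W = ms μ S`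
(`volume_EE`).  `∫ f² = ∑_{q,r} c_q c_r |EE_q ∩ EE_r|
≤ ∑_q c_q² 2ρ_q + ∑_{q≠r} c_q c_r (4 ρ_q ρ_r + [aligned] 2 ρ_q ρ_r/DD)
≤ 2W + 4W² + 2 core` (`overlap`; diagonal `c_q² 2 ρ_q ≤ 2 c_q ρ_q = 2 μ q`).
On the set `B` of the statement (`B ⊆ [0,1]`) `f = 0`, so
`4W² |B| ≤ ∫_0^1 (f - 2W)² = ∫ f² - 8W² + 4W² ≤ 2W + 2 core`.
(One may work with finite sums of real numbers `∫_{[0,1]}`, `MeasureTheory.integral_finset_sum`,
`integral_indicator_one`-type lemmas.) -/
theorem second_moment (γ : ℝ) (κ : ℕ → ℕ) (μ ω : ℕ → ℝ) (S : Finset ℕ)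
    (hS : ∀ q ∈ S, 1 ≤ q ∧ (q : ℝ) * (1 / 2 : ℝ) ^ κ q ≤ 1 / 2)
    (hω0 : ∀ q, 0 ≤ ω q) (hω1 : ∀ q, ω q ≤ 1)
    (hμ : ∀ q, μ q = ω q * ((Nat.totient q : ℝ) * (1 / 2 : ℝ) ^ κ q)) :
    (2 * ms μ S) ^ 2 *
      (volume {x : ℝ | x ∈ Set.Icc (0 : ℝ) 1 ∧ ∀ q ∈ S, x ∉ EE γ q (q * (1 / 2 : ℝ) ^ κ q)}).toReal
      ≤ 2 * ms μ S + 2 * core γ κ μ S := by
  classical
  set ρ : ℕ → ℝ := fun q => (q : ℝ) * (1 / 2 : ℝ) ^ κ q with hρ
  set c : ℕ → ℝ := fun q => ω q * ((Nat.totient q : ℝ) / q) with hc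
  let P : Measure ℝ := volume.restrict (Set.Icc (0 : ℝ) 1)
  have hP : IsProbabilityMeasure P := ⟨by simp [P]⟩
  have hρ0 : ∀ q, 0 ≤ ρ q := fun q => by simp only [hρ]; positivity
  have hc0 : ∀ q, 0 ≤ c q := fun q => mul_nonneg (hω0 q) (by positivity)
  have hc1 : ∀ q, c q ≤ 1 := by
    intro q
    have h1 : (Nat.totient q : ℝ) / q ≤ 1 :=
      div_le_one_of_le₀ (by exact_mod_cast Nat.totient_le q) (Nat.cast_nonneg _)
    have h2 : 0 ≤ (Nat.totient q : ℝ) / q := by positivity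
    calc c q = ω q * ((Nat.totient q : ℝ) / q) := rfl
      _ ≤ 1 * 1 := mul_le_mul (hω1 q) h1 h2 zero_le_one
      _ = 1 := one_mul 1
  have hcρ : ∀ q ∈ S, c q * ρ q = μ q := by
    intro q hq
    have hq0 : (q : ℝ) ≠ 0 := by
      have := (hS q hq).1
      exact_mod_cast (by omega : q ≠ 0)
    simp only [hc, hρ, hμ q]
    field_simp
  have hsub : ∀ A : Set ℝ, MeasurableSet A → A ⊆ Set.Icc (0 : ℝ) 1 →
      P.real A = (volume A).toReal := by
    intro A hA h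
    simp only [P, Measure.real]
    rw [Measure.restrict_apply hA, Set.inter_eq_self_of_subset_left h]
  have hE : ∀ q, MeasurableSet (EE γ q (ρ q)) := fun q => measurableSet_EE γ q _
  have hEs : ∀ q, EE γ q (ρ q) ⊆ Set.Icc (0 : ℝ) 1 := fun q x hx => hx.1
  have hEv : ∀ q ∈ S, P.real (EE γ q (ρ q)) = 2 * ρ q := by
    intro q hq
    rw [hsub _ (hE q) (hEs q)]
    exact volume_EE γ q (ρ q) (hS q hq).1 (hρ0 q) (hS q hq).2
  have hgen := o3_gen (P := P) S (fun q => EE γ q (ρ q)) hE c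
  have hW : ∑ q ∈ S, c q * P.real (EE γ q (ρ q)) = 2 * ms μ S := by
    unfold ms
    rw [Finset.mul_sum]
    refine Finset.sum_congr rfl fun q hq => ?_
    rw [hEv q hq, ← hcρ q hq]
    ring
  have hBm : MeasurableSet {x : ℝ | ∀ q ∈ S, x ∉ EE γ q (ρ q)} := by
    have : {x : ℝ | ∀ q ∈ S, x ∉ EE γ q (ρ q)} = ⋂ q ∈ S, (EE γ q (ρ q))ᶜ := by
      ext x; simp
    rw [this]
    exact Finset.measurableSet_biInter _ fun q _ => (hE q).compl
  have hB : P.real {x : ℝ | ∀ q ∈ S, x ∉ EE γ q (ρ q)} =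
      (volume {x : ℝ | x ∈ Set.Icc (0 : ℝ) 1 ∧ ∀ q ∈ S, x ∉ EE γ q (ρ q)}).toReal := by
    simp only [P, Measure.real]
    rw [Measure.restrict_apply hBm]
    congr 2
    ext x
    simp only [Set.mem_inter_iff, Set.mem_ofPred_eq]
    exact and_comm
  rw [hW, hB] at hgen
  refine hgen.trans ?_
  -- the double sum
  have hpair : ∀ q ∈ S, ∀ r ∈ S, c q * c r * P.real (EE γ q (ρ q) ∩ EE γ r (ρ r)) ≤
      4 * (μ q * μ r) + (if q = r then 2 * μ q else 0) +
        (if q ≠ r ∧ nd (γ * ((rd r q : ℝ) - rd q r)) ≤ 2 * DD κ q r then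
          2 * (μ q * μ r / DD κ q r) else 0) := by
    intro q hq r hr
    have hmq : 0 ≤ μ q := by rw [← hcρ q hq]; exact mul_nonneg (hc0 q) (hρ0 q)
    have hmr : 0 ≤ μ r := by rw [← hcρ r hr]; exact mul_nonneg (hc0 r) (hρ0 r)
    by_cases hqr : q = r
    · subst hqr
      rw [Set.inter_self, hEv q hq, if_pos rfl, if_neg (by simp)]
      have h1 : c q * c q * (2 * ρ q) = c q * (2 * μ q) := by rw [← hcρ q hq]; ring
      have h2 : c q * (2 * μ q) ≤ 1 * (2 * μ q) :=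
        mul_le_mul_of_nonneg_right (hc1 q) (by positivity)
      have h3 : 0 ≤ 4 * (μ q * μ q) := by positivity
      linarith
    · rw [if_neg hqr, hsub _ ((hE q).inter (hE r)) (fun x hx => hEs q hx.1), add_zero]
      have h1 := overlap γ κ q r (hS q hq).1 (hS r hr).1 (hS q hq).2 (hS r hr).2
      have h2 : 0 ≤ c q * c r := mul_nonneg (hc0 q) (hc0 r)
      refine (mul_le_mul_of_nonneg_left h1 h2).trans (le_of_eq ?_)
      by_cases hal : nd (γ * ((rd r q : ℝ) - rd q r)) ≤ 2 * DD κ q r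
      · rw [if_pos hal, if_pos ⟨hqr, hal⟩, ← hcρ q hq, ← hcρ r hr]
        simp only [hρ]
        ring
      · rw [if_neg hal, if_neg (fun h => hal h.2), ← hcρ q hq, ← hcρ r hr]
        simp only [hρ]
        ring
  have hsum : ∑ q ∈ S, ∑ r ∈ S, c q * c r * P.real (EE γ q (ρ q) ∩ EE γ r (ρ r)) ≤
      (2 * ms μ S) ^ 2 + (2 * ms μ S + 2 * core γ κ μ S) := by
    refine (Finset.sum_le_sum fun q hq => Finset.sum_le_sum fun r hr => hpair q hq r hr).trans ?_
    simp only [Finset.sum_add_distrib]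
    have e1 : ∑ q ∈ S, ∑ r ∈ S, 4 * (μ q * μ r) = (2 * ms μ S) ^ 2 := by
      unfold ms
      simp only [← Finset.mul_sum]
      rw [← Finset.sum_mul]
      ring
    have e2 : ∑ q ∈ S, ∑ r ∈ S, (if q = r then 2 * μ q else 0) = 2 * ms μ S := by
      unfold ms
      rw [Finset.mul_sum]
      refine Finset.sum_congr rfl fun q hq => ?_
      rw [Finset.sum_ite_eq, if_pos hq]
    have e3 : ∑ q ∈ S, ∑ r ∈ S, (if q ≠ r ∧ nd (γ * ((rd r q : ℝ) - rd q r)) ≤ 2 * DD κ q r then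
          2 * (μ q * μ r / DD κ q r) else 0) = 2 * core γ κ μ S := by
      unfold core
      rw [Finset.mul_sum, Finset.sum_filter, Finset.sum_product]
    rw [e1, e2, e3]
    linarith
  linarith

end Pool.Agent.IDS
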