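import Pool.Agent.IDS.Base
import Pool.Agent.Lib.helper69.DivisorBound

set_option autoImplicit false

namespace Pool.Agent.IDS

open Finset

theorem t1_root_le {x n : ℝ} {τ : ℕ} (hτ : 1 ≤ τ) (hx : 0 ≤ x) (hn : 0 ≤ n) (h : x ≤ n ^ τ) :
    x ^ ((1 : ℝ) / τ) ≤ n := by
  have h1 := Real.rpow_le_rpow hx h (by positivity : (0 : ℝ) ≤ 1 / τ)
  rw [one_div] at h1 ⊢
  rwa [Real.pow_rpow_inv_natCast hn (by omega)] at h1

/-- [IDS-T1] **Aligned multiples of `a` in `[M, 2M)`.**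

PROOF.  Put `G = (c R/4)^{1/τ}`, so `(4/(cR))^{1/τ} = 1/G` and `G ≤ 2M` by `hM`.
If `b < b'` are in `T`, then (`nd_sub_le`) `nd (γ a (b' - b)) ≤ 4/R`, hence
`c/(a(b'-b))^τ ≤ 4/R`, `a b' - a b ≥ G`.  The numbers `a b`, `b ∈ T`, lie in `[M, 2M)` with gaps
`≥ G`, so `card T ≤ M/G + 1 ≤ 3M/G`. -/
theorem aligned_count (γ c : ℝ) (τ : ℕ) (h : FT γ c τ) (R : ℝ) (hR : 1 ≤ R) (a M : ℕ) (z : ℤ)
    (ha : 1 ≤ a) (hM : c * R / 4 ≤ (2 * (M : ℝ)) ^ τ) (T : Finset ℕ)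
    (hT : ∀ b ∈ T, M ≤ a * b ∧ a * b < 2 * M ∧ nd (γ * ((a : ℝ) * b - z)) ≤ 2 / R) :
    (T.card : ℝ) ≤ 3 * M * (4 / (c * R)) ^ ((1 : ℝ) / τ) := by
  obtain ⟨hc, hτ, hft⟩ := h
  have hRpos : 0 < R := by linarith
  have hx : 0 < c * R / 4 := by positivity
  set G : ℝ := (c * R / 4) ^ ((1 : ℝ) / τ) with hG
  have hGpos : 0 < G := Real.rpow_pos_of_pos hx _
  have hinv : (4 / (c * R)) ^ ((1 : ℝ) / τ) = G⁻¹ := by
    rw [hG, ← Real.inv_rpow hx.le, inv_div]
  have hM0 : (0 : ℝ) ≤ M := Nat.cast_nonneg M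
  have hGM : G ≤ 2 * M := t1_root_le hτ hx.le (by positivity) hM
  have hgap : ∀ b ∈ T, ∀ b' ∈ T, b < b' → G ≤ (a : ℝ) * b' - a * b := by
    intro b hb b' hb' hlt
    have h1 : nd ((((a * (b' - b) : ℕ)) : ℝ) * γ) ≤ 4 / R := by
      have h2 := nd_sub_le (γ * ((a : ℝ) * b' - z)) (γ * ((a : ℝ) * b - z))
      have h3 : γ * ((a : ℝ) * b' - z) - γ * ((a : ℝ) * b - z) =
          (((a * (b' - b) : ℕ)) : ℝ) * γ := by
        rw [Nat.cast_mul, Nat.cast_sub hlt.le]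
        ring
      rw [h3] at h2
      have h4 := (hT b hb).2.2
      have h5 := (hT b' hb').2.2
      calc _ ≤ _ := h2
        _ ≤ 2 / R + 2 / R := add_le_add h5 h4
        _ = 4 / R := by ring
    have hn1 : 1 ≤ a * (b' - b) := Nat.mul_pos ha (by omega)
    have h2 := (hft _ hn1).trans h1
    set n : ℕ := a * (b' - b) with hn
    have hnpos : (0 : ℝ) < n := by exact_mod_cast hn1
    have h3 : c * R / 4 ≤ (n : ℝ) ^ τ := by
      have hp : (0 : ℝ) < (n : ℝ) ^ τ := by positivity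
      rw [div_le_div_iff₀ hp hRpos] at h2
      linarith
    have h4 := t1_root_le hτ hx.le hnpos.le h3
    have h5 : (n : ℝ) = (a : ℝ) * b' - a * b := by
      rw [hn, Nat.cast_mul, Nat.cast_sub hlt.le]
      ring
    rw [← h5]
    exact h4
  have hcard : T.card ≤ (range (⌊(M : ℝ) / G⌋₊ + 1)).card := by
    refine Finset.card_le_card_of_injOn (fun b => ⌊((a : ℝ) * b - M) / G⌋₊) ?_ ?_
    · intro b hb
      have h1 := hT b hb
      have h2 : (a : ℝ) * b < 2 * M := by exact_mod_cast h1.2.1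
      simp only [Finset.coe_range, Set.mem_Iio]
      refine Nat.lt_succ_of_le (Nat.floor_le_floor ?_)
      gcongr
      linarith
    · have hstep : ∀ b ∈ T, ∀ b' ∈ T, b < b' →
          ⌊((a : ℝ) * b - M) / G⌋₊ < ⌊((a : ℝ) * b' - M) / G⌋₊ := by
        intro b hb b' hb' hlt
        have h1 := hgap b hb b' hb' hlt
        have h2 : (M : ℝ) ≤ (a : ℝ) * b := by exact_mod_cast (hT b hb).1
        have h3 : 0 ≤ ((a : ℝ) * b - M) / G := div_nonneg (by linarith) hGpos.le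
        have h4 : ((a : ℝ) * b - M) / G + 1 ≤ ((a : ℝ) * b' - M) / G := by
          rw [div_add_one hGpos.ne']
          gcongr
          linarith
        have h5 := Nat.floor_le_floor h4
        rw [Nat.floor_add_one h3] at h5
        omega
      intro b hb b' hb' heq
      simp only at heq
      rcases lt_trichotomy b b' with h1 | h1 | h1
      · exact absurd heq (hstep b hb b' hb' h1).ne
      · exact h1
      · exact absurd heq (hstep b' hb' b hb h1).ne'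
  rw [Finset.card_range] at hcard
  have h1 : (T.card : ℝ) ≤ M / G + 1 := by
    have h2 : (T.card : ℝ) ≤ ((⌊(M : ℝ) / G⌋₊ + 1 : ℕ) : ℝ) := by exact_mod_cast hcard
    have h3 : ((⌊(M : ℝ) / G⌋₊ : ℕ) : ℝ) ≤ M / G := Nat.floor_le (by positivity)
    push_cast at h2
    linarith
  have h2 : 1 ≤ 2 * M / G := by
    rw [le_div_iff₀ hGpos]
    linarith
  rw [hinv]
  calc (T.card : ℝ) ≤ M / G + 1 := h1
    _ ≤ M / G + 2 * M / G := by linarith
    _ = 3 * M * G⁻¹ := by rw [div_eq_mul_inv, div_eq_mul_inv]; ring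

end Pool.Agent.IDS
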