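import Pool.Agent.IDS.T1
import Pool.Agent.IDS.T3

set_option autoImplicit false

namespace Pool.Agent.IDS

open Finset

theorem t4b_rpow {c R : ℝ} (hc : 0 < c) (hR : 1 ≤ R) (τ : ℕ) :
    (4 / (c * R)) ^ ((1 : ℝ) / τ) = (4 / c) ^ ((1 : ℝ) / τ) * R ^ (-(1 : ℝ) / τ) := by
  have hR0 : 0 < R := by linarith
  have h1 : 4 / (c * R) = 4 / c * R⁻¹ := by
    rw [← div_div, div_eq_mul_inv (4 / c)]
  rw [h1, Real.mul_rpow (by positivity) (by positivity), Real.inv_rpow hR0.le, ← Real.rpow_neg hR0.le,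
    neg_div]

/-- the free part of one row -/
theorem t4b_row (γ c : ℝ) (τ C1 : ℕ) (h : FT γ c τ) (N : ℕ) (δ C0 : ℝ) (hδ : 0 < δ)
    (hC0 : 1 ≤ C0)
    (hcf : ∀ (ι : Type) [Fintype ι] [DecidableEq ι], Fintype.card ι ≤ N →
      ∀ (b : ℕ) (T : Finset (ι → ℕ)), 0 < b → (∀ f ∈ T, ∏ i, f i = b) →
      (T.card : ℝ) ≤ C0 * (b : ℝ) ^ δ)
    (R : ℝ) (hR : 1 ≤ R) (I : Finset (Fin N)) (M : ℕ) (hM1 : 1 ≤ M) (hMR : (M : ℝ) ≤ R ^ C1)
    (hM : c * R / 4 ≤ (2 * (M : ℝ)) ^ τ) (T : Finset (Fin N → Fin N → ℕ))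
    (hag : ∀ d ∈ T, ∀ d' ∈ T, ∀ i j, (i ∉ I ∨ j ∈ I) → d i j = d' i j)
    (hT : ∀ d ∈ T, (∀ i j, 0 < d i j) ∧ ∀ i ∈ I, M ≤ ∏ j, d i j ∧ ∏ j, d i j < 2 * M ∧
        nd (γ * (((∏ j, d i j : ℕ) : ℝ) - ((∏ k, d k i : ℕ) : ℝ))) ≤ 2 / R)
    (i : Fin N) (hi : i ∈ I) :
    ((T.image (fun d => fun j : {j // ¬ j ∈ I} => d i j.1)).card : ℝ) ≤
      (3 * (4 / c) ^ ((1 : ℝ) / τ) * C0 * 2 ^ δ) * ((M : ℝ) * R ^ (-(1 : ℝ) / τ)) *
        R ^ ((C1 : ℝ) * δ) := by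
  classical
  have hR0 : 0 < R := by linarith
  have hc : 0 < c := h.1
  have hM0 : (0 : ℝ) < M := by exact_mod_cast hM1
  rcases T.eq_empty_or_nonempty with hE | ⟨d0, hd0⟩
  · rw [hE, image_empty, card_empty, Nat.cast_zero]
    positivity
  have hsplit : ∀ d : Fin N → Fin N → ℕ,
      (∏ j : {j // j ∈ I}, d i j.1) * (∏ j : {j // ¬ j ∈ I}, d i j.1) = ∏ j, d i j := by
    intro d
    rw [← Fintype.prod_subtype_mul_prod_subtype (fun j => j ∈ I) (d i)]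
    congr 1
    refine prod_congr ?_ fun _ _ => rfl
    ext x
    simp only [mem_univ]
  obtain ⟨a, ha⟩ : ∃ a, a = ∏ j : {j // j ∈ I}, d0 i j.1 := ⟨_, rfl⟩
  obtain ⟨z, hz⟩ : ∃ z, z = ∏ k, d0 k i := ⟨_, rfl⟩
  have ha' : ∀ d ∈ T, ∏ j : {j // j ∈ I}, d i j.1 = a := by
    intro d hd
    rw [ha]
    exact prod_congr rfl fun j _ => hag d hd d0 hd0 i j.1 (Or.inr j.2)
  have hz' : ∀ d ∈ T, ∏ k, d k i = z := by
    intro d hd
    rw [hz]
    exact prod_congr rfl fun k _ => hag d hd d0 hd0 k i (Or.inr hi)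
  have hapos : 1 ≤ a := by
    rw [ha]
    exact Finset.prod_pos fun (j : {j // j ∈ I}) _ => (hT d0 hd0).1 i j.1
  set B := T.image (fun d => ∏ j : {j // ¬ j ∈ I}, d i j.1) with hB
  have hBal : ∀ b ∈ B, M ≤ a * b ∧ a * b < 2 * M ∧
      nd (γ * ((a : ℝ) * b - ((z : ℤ) : ℝ))) ≤ 2 / R := by
    intro b hb
    rw [hB, mem_image] at hb
    obtain ⟨d, hd, rfl⟩ := hb
    obtain ⟨h1, h2, h3⟩ := (hT d hd).2 i hi
    have h4 := hsplit d
    rw [ha' d hd] at h4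
    rw [h4]
    refine ⟨h1, h2, ?_⟩
    rw [hz' d hd] at h3
    have h5 : ((a : ℝ) * ((∏ j : {j // ¬ j ∈ I}, d i j.1 : ℕ) : ℝ)) =
        ((∏ j, d i j : ℕ) : ℝ) := by
      rw [← h4, Nat.cast_mul]
    rw [h5]
    simpa using h3
  have hBcard := aligned_count γ c τ h R hR a M z hapos hM B hBal
  have hBb : ∀ b ∈ B, 0 < b ∧ (b : ℝ) ≤ 2 * M := by
    intro b hb
    obtain ⟨h1, h2, -⟩ := hBal b hb
    constructor
    · rcases Nat.eq_zero_or_pos b with h3 | h3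
      · rw [h3, mul_zero] at h1
        omega
      · exact h3
    · have h3 : b ≤ a * b := Nat.le_mul_of_pos_left b hapos
      have h4 : b ≤ 2 * M := by omega
      exact_mod_cast h4
  set A := T.image (fun d => fun j : {j // ¬ j ∈ I} => d i j.1) with hA
  have hmaps : ∀ f ∈ A, (∏ j, f j) ∈ B := by
    intro f hf
    rw [hA, mem_image] at hf
    obtain ⟨d, hd, rfl⟩ := hf
    rw [hB, mem_image]
    exact ⟨d, hd, rfl⟩
  have hfib : ∀ b ∈ B, ((A.filter (fun f => ∏ j, f j = b)).card : ℝ) ≤ C0 * (2 * (M : ℝ)) ^ δ := by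
    intro b hb
    obtain ⟨h1, h2⟩ := hBb b hb
    have hcard : Fintype.card {j : Fin N // ¬ j ∈ I} ≤ N := by
      have := Fintype.card_subtype_le (fun j : Fin N => ¬ j ∈ I)
      rwa [Fintype.card_fin] at this
    refine (hcf {j : Fin N // ¬ j ∈ I} hcard b _ h1 ?_).trans ?_
    · intro f hf
      exact (mem_filter.1 hf).2
    · apply mul_le_mul_of_nonneg_left _ (by linarith)
      exact Real.rpow_le_rpow (Nat.cast_nonneg _) h2 hδ.le
  have hcardA : (A.card : ℝ) ≤ B.card * (C0 * (2 * (M : ℝ)) ^ δ) := by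
    rw [Finset.card_eq_sum_card_fiberwise (f := fun f : {j : Fin N // ¬ j ∈ I} → ℕ => ∏ j, f j)
      (t := B) hmaps]
    push_cast
    refine (sum_le_sum hfib).trans ?_
    rw [sum_const, nsmul_eq_mul]
  have h2M : (2 * (M : ℝ)) ^ δ ≤ 2 ^ δ * R ^ ((C1 : ℝ) * δ) := by
    rw [Real.mul_rpow (by norm_num) hM0.le]
    apply mul_le_mul_of_nonneg_left _ (by positivity)
    refine (Real.rpow_le_rpow hM0.le hMR hδ.le).trans ?_
    rw [← Real.rpow_natCast, ← Real.rpow_mul hR0.le]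
  rw [t4b_rpow hc hR] at hBcard
  have hq : 0 ≤ (4 / c) ^ ((1 : ℝ) / τ) := by positivity
  have hq2 : 0 ≤ R ^ (-(1 : ℝ) / τ) := by positivity
  calc (A.card : ℝ) ≤ B.card * (C0 * (2 * (M : ℝ)) ^ δ) := hcardA
    _ ≤ (3 * M * ((4 / c) ^ ((1 : ℝ) / τ) * R ^ (-(1 : ℝ) / τ))) *
        (C0 * (2 ^ δ * R ^ ((C1 : ℝ) * δ))) := by
        apply mul_le_mul hBcard _ (by positivity) (by positivity)
        exact mul_le_mul_of_nonneg_left h2M (by linarith)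
    _ = _ := by ring

/-- [IDS-T4b] **The free entries.**  All matrices of `T` agree at the entries `(i, j)` with `i ∉ I`
or `j ∈ I`; only the entries `i ∈ I`, `j ∉ I` are free.

PROOF.  Let `T ≠ ∅`, `d₀ ∈ T`.  For `d ∈ T` and `i ∈ I`: the column product `z_i = ∏_k d k i` is the
same as for `d₀` (all its entries are fixed), `a_i = ∏_{j∈I} d i j` is fixed, and
`∏_j d i j = a_i b_i(d)` with `b_i(d) = ∏_{j∉I} d i j`; so `b_i(d)` satisfies `M ≤ a_i b_i < 2M` and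
`nd (γ (a_i b_i - z_i)) ≤ 2/R`: by `aligned_count` at most `3 M (4/(cR))^{1/τ}` values; given `b_i`,
the free part of row `i` (a function on `{j // j ∉ I}` with product `b_i ≤ 2M ≤ 2R^{C1}`) has at
most `C₀ b_i^{δ'} ≤ C₀ (2 R^{C1})^{δ'}` possibilities (`card_factor`), `δ' = δ/((t+1)(C1+1))`.
A matrix `d ∈ T` is determined by its `t` free row parts: `card T ≤ (product of the t counts)`.
`(4/(cR))^{1/τ} = (4/c)^{1/τ} R^{-1/τ}`. -/
theorem free_count (γ c : ℝ) (τ C1 : ℕ) (h : FT γ c τ) (N t : ℕ) (δ : ℝ) (hδ : 0 < δ) :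
    ∃ C : ℝ, 1 ≤ C ∧ ∀ (R : ℝ), 1 ≤ R → ∀ (I : Finset (Fin N)), I.card = t →
      ∀ (M : ℕ), 1 ≤ M → (M : ℝ) ≤ R ^ C1 → c * R / 4 ≤ (2 * (M : ℝ)) ^ τ →
      ∀ (T : Finset (Fin N → Fin N → ℕ)),
      (∀ d ∈ T, ∀ d' ∈ T, ∀ i j, (i ∉ I ∨ j ∈ I) → d i j = d' i j) →
      (∀ d ∈ T, (∀ i j, 0 < d i j) ∧ ∀ i ∈ I, M ≤ ∏ j, d i j ∧ ∏ j, d i j < 2 * M ∧
        nd (γ * (((∏ j, d i j : ℕ) : ℝ) - ((∏ k, d k i : ℕ) : ℝ))) ≤ 2 / R) →
      (T.card : ℝ) ≤ C * ((M : ℝ) * R ^ (-(1 : ℝ) / τ)) ^ t * R ^ δ := by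
  classical
  obtain ⟨C0, hC0, hcf⟩ := card_factor N (δ / (((t : ℝ) + 1) * ((C1 : ℝ) + 1))) (by positivity)
  set δ' : ℝ := δ / (((t : ℝ) + 1) * ((C1 : ℝ) + 1)) with hδ'
  have hδ'0 : 0 < δ' := by positivity
  have hδt : (C1 : ℝ) * δ' * t ≤ δ := by
    rw [hδ', mul_comm (C1 : ℝ), mul_assoc, div_mul_eq_mul_div, div_le_iff₀ (by positivity)]
    apply mul_le_mul_of_nonneg_left _ hδ.le
    have h1 : (0 : ℝ) ≤ C1 := Nat.cast_nonneg _
    have h2 : (0 : ℝ) ≤ t := Nat.cast_nonneg _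
    nlinarith
  set K : ℝ := max 1 (3 * (4 / c) ^ ((1 : ℝ) / τ) * C0 * 2 ^ δ') with hK
  have hK1 : 1 ≤ K := le_max_left _ _
  refine ⟨K ^ t, one_le_pow₀ hK1, ?_⟩
  intro R hR I hI M hM1 hMR hM T hag hT
  have hR0 : 0 < R := by linarith
  have hM0 : (0 : ℝ) < M := by exact_mod_cast hM1
  have hrow := t4b_row γ c τ C1 h N δ' C0 hδ'0 hC0 hcf R hR I M hM1 hMR hM T hag hT
  have hinj : T.card ≤ (Fintype.piFinset (fun i : {i // i ∈ I} =>
      T.image (fun d => fun j : {j // ¬ j ∈ I} => d i.1 j.1))).card := by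
    apply Finset.card_le_card_of_injOn (fun d => fun i : {i // i ∈ I} =>
      fun j : {j // ¬ j ∈ I} => d i.1 j.1)
    · intro d hd
      rw [mem_coe, Fintype.mem_piFinset]
      intro i
      exact mem_image_of_mem _ hd
    · intro d hd d' hd' hdd
      funext i j
      by_cases hij : i ∉ I ∨ j ∈ I
      · exact hag d hd d' hd' i j hij
      · push Not at hij
        exact congrFun (congrFun hdd ⟨i, hij.1⟩) ⟨j, hij.2⟩
  have h1 : (T.card : ℝ) ≤ ∏ i : {i // i ∈ I},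
      ((T.image (fun d => fun j : {j // ¬ j ∈ I} => d i.1 j.1)).card : ℝ) := by
    rw [Fintype.card_piFinset] at hinj
    exact_mod_cast hinj
  have h2 : ∏ i : {i // i ∈ I},
      ((T.image (fun d => fun j : {j // ¬ j ∈ I} => d i.1 j.1)).card : ℝ) ≤
      ∏ _i : {i // i ∈ I}, (K * ((M : ℝ) * R ^ (-(1 : ℝ) / τ)) * R ^ ((C1 : ℝ) * δ')) := by
    apply prod_le_prod
    · intro i _
      exact Nat.cast_nonneg _
    · intro i _
      refine (hrow i.1 i.2).trans ?_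
      have hle := le_max_right (1 : ℝ) (3 * (4 / c) ^ ((1 : ℝ) / τ) * C0 * 2 ^ δ')
      rw [← hK] at hle
      exact mul_le_mul_of_nonneg_right (mul_le_mul_of_nonneg_right hle (by positivity))
        (by positivity)
  refine h1.trans (h2.trans ?_)
  rw [prod_const, card_univ, Fintype.card_coe, hI, mul_pow, mul_pow, ← Real.rpow_mul_natCast hR0.le]
  apply mul_le_mul_of_nonneg_left _ (by positivity)
  exact Real.rpow_le_rpow_of_exponent_le hR hδt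

end Pool.Agent.IDS
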