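import Pool.Agent.IDS.T2a
import Pool.Agent.IDS.T2b
import Pool.Agent.IDS.T5

set_option autoImplicit false

namespace Pool.Agent.IDS

open Finset

/-- [IDS-T6] **Count of pairs of factorizations with aligned entries.**

PROOF.  `t = 1 + τ (C1 + 3) ≥ 2` (`τ ≥ 1`), `δ = 1/(2τ)`, `P = R^{1/(2τ)} ≤ R`,
`n0 = 1 + 2 τ C1 t (t-1) + t`.  For `p = (y, z) ∈ T` let `d = d(p)` be a refinement (`refinement`);
its entries are positive; it determines `p`.  `d i i = 1`: `d i i` divides `y i` and `z i`, which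
are coprime.  With `w i j = log (d i j) ≥ 0` and `B = C1 log R` (`∑_j w i j = log (y i) ≤ B` by the last
hypothesis) `choose_subset` (`L = Lg`) gives `I ⊆ Lg`, `I.card = t`, with
`∑_{i≠j∈I} log (d i j) ≤ t(t-1)/(n-1) · C1 log R ≤ log R/(2τ)`, i.e. `∏_{i,j∈I} d i j ≤ P` (the
diagonal entries are `1`).  So `card T ≤ ∑_{I ⊆ Lg, I.card = t} #{matrices as in matrix_count}`
`≤ 2^{2n} C ∏ Y_i · P R^δ R^{-t/τ}`, and `P R^δ R^{-t/τ} = R^{(1-t)/τ} = R^{-(C1+3)}`.
(Use `matrix_count` with `N = 2n`.) -/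
theorem cw_count (γ c : ℝ) (τ C1 : ℕ) (h : FT γ c τ) :
    ∃ n0 : ℕ, ∀ n : ℕ, n0 ≤ n → ∃ C : ℝ, 1 ≤ C ∧ ∀ (R : ℝ), 1 ≤ R →
      ∀ (Lg : Finset (Fin (2 * n))), Lg.card = n →
      ∀ (Y : Fin (2 * n) → ℕ) (M : ℕ), (∀ i, 1 ≤ Y i ∧ (Y i : ℝ) ≤ R ^ C1) →
      (∀ i ∈ Lg, Y i = M) → 1 ≤ M → (M : ℝ) ≤ R ^ C1 → c * R / 4 ≤ (2 * (M : ℝ)) ^ τ →
      ∀ (T : Finset ((Fin (2 * n) → ℕ) × (Fin (2 * n) → ℕ))),
      (∀ p ∈ T, (∀ i, Y i ≤ p.1 i ∧ p.1 i < 2 * Y i) ∧ (∀ i, 0 < p.2 i) ∧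
        (∀ i, Nat.Coprime (p.1 i) (p.2 i)) ∧ ∏ i, p.1 i = ∏ i, p.2 i ∧
        (∀ i ∈ Lg, nd (γ * ((p.1 i : ℝ) - p.2 i)) ≤ 2 / R) ∧
        (∀ i, (p.1 i : ℝ) ≤ R ^ C1)) →
      (T.card : ℝ) ≤ C * (∏ i, (Y i : ℝ)) * R ^ (-((C1 : ℝ) + 3)) := by
  classical
  obtain ⟨hc, hτ, hft⟩ := id h
  have hτ0 : (0 : ℝ) < τ := by exact_mod_cast hτ
  set t : ℕ := 1 + τ * (C1 + 3) with ht
  have ht2 : 2 ≤ t := by
    have : 1 * 3 ≤ τ * (C1 + 3) := Nat.mul_le_mul hτ (by omega)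
    omega
  set δ : ℝ := 1 / (2 * τ) with hδ
  have hδ0 : 0 < δ := by positivity
  refine ⟨1 + 2 * τ * C1 * t * (t - 1) + t, fun n hn => ?_⟩
  obtain ⟨C₁, hC₁, hmc⟩ := matrix_count γ c τ C1 h (2 * n) t δ hδ0
  refine ⟨2 ^ (2 * n) * C₁, ?_, ?_⟩
  · have h1 : (1 : ℝ) ≤ 2 ^ (2 * n) := one_le_pow₀ (by norm_num)
    nlinarith
  intro R hR Lg hLg Y M hY hYM hM1 hM2 hM3 T hT
  have hR0 : 0 < R := by linarith
  have hlogR : 0 ≤ Real.log R := Real.log_nonneg hR
  set P : ℝ := R ^ δ with hP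
  have hP1 : 1 ≤ P := Real.one_le_rpow hR hδ0.le
  have hδ1 : δ ≤ 1 := by
    rw [hδ, div_le_one (by positivity)]
    have : (1 : ℝ) ≤ τ := by exact_mod_cast hτ
    linarith
  have hP2 : P ≤ R := by
    calc P = R ^ δ := rfl
      _ ≤ R ^ (1 : ℝ) := Real.rpow_le_rpow_of_exponent_le hR hδ1
      _ = R := Real.rpow_one R
  have key : ∀ p ∈ T, ∃ dI : (Fin (2 * n) → Fin (2 * n) → ℕ) × Finset (Fin (2 * n)),
      (∀ i, p.1 i = ∏ j, dI.1 i j) ∧ (∀ j, p.2 j = ∏ i, dI.1 i j) ∧ (∀ i j, 0 < dI.1 i j) ∧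
      dI.2 ⊆ Lg ∧ dI.2.card = t ∧ ((∏ i ∈ dI.2, ∏ j ∈ dI.2, dI.1 i j : ℕ) : ℝ) ≤ P := by
    intro p hp
    obtain ⟨hp1, hp2, hp3, hp4, -, hp6⟩ := hT p hp
    have hpos : ∀ i, 0 < p.1 i := fun i => lt_of_lt_of_le (hY i).1 (hp1 i).1
    obtain ⟨d, hd1, hd2⟩ := refinement (2 * n) p.1 p.2 hpos hp2 hp4
    have hd0 : ∀ i j, 0 < d i j := by
      intro i j
      rw [Nat.pos_iff_ne_zero]
      intro h0
      have h1 := hpos i
      rw [hd1 i, Finset.prod_eq_zero (Finset.mem_univ j) h0] at h1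
      exact absurd h1 (lt_irrefl _)
    have hdd : ∀ i, d i i = 1 := by
      intro i
      have h1 : d i i ∣ p.1 i := by
        rw [hd1 i]
        exact Finset.dvd_prod_of_mem (fun j => d i j) (Finset.mem_univ i)
      have h2 : d i i ∣ p.2 i := by
        rw [hd2 i]
        exact Finset.dvd_prod_of_mem (fun k => d k i) (Finset.mem_univ i)
      exact Nat.dvd_one.1 ((hp3 i) ▸ Nat.dvd_gcd h1 h2)
    obtain ⟨I, hI1, hI2, hI3⟩ := choose_subset (2 * n) Lg t ht2 (by rw [hLg]; omega)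
      (fun i j => Real.log (d i j)) (fun i j => Real.log_nonneg (by exact_mod_cast hd0 i j))
      (C1 * Real.log R) (by
        intro i _
        rw [← Real.log_prod (fun j _ => by
          have := hd0 i j
          positivity)]
        have h1 : ∏ j, ((d i j : ℕ) : ℝ) = ((p.1 i : ℕ) : ℝ) := by
          rw [hd1 i]
          push_cast
          rfl
        rw [h1, ← Real.log_pow]
        exact Real.log_le_log (by exact_mod_cast hpos i) (hp6 i))
    refine ⟨(d, I), hd1, hd2, hd0, hI1, hI2, ?_⟩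
    show ((∏ i ∈ I, ∏ j ∈ I, d i j : ℕ) : ℝ) ≤ P
    have hprodpos : 0 < ((∏ i ∈ I, ∏ j ∈ I, d i j : ℕ) : ℝ) := by
      exact_mod_cast Finset.prod_pos fun i _ => Finset.prod_pos fun j _ => hd0 i j
    have h1 : Real.log ((∏ i ∈ I, ∏ j ∈ I, d i j : ℕ) : ℝ) =
        ∑ i ∈ I, ∑ j ∈ I.erase i, Real.log (d i j) := by
      push_cast
      rw [Real.log_prod (fun i _ => by
        apply ne_of_gt
        exact Finset.prod_pos fun j _ => by exact_mod_cast hd0 i j)]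
      apply Finset.sum_congr rfl
      intro i hi
      rw [Real.log_prod (fun j _ => by
        have := hd0 i j
        positivity), ← Finset.add_sum_erase I _ hi, hdd i]
      simp
    have hn1 : (1 : ℝ) < n := by
      have : 1 < n := by omega
      exact_mod_cast this
    have h2 : (t : ℝ) * (t - 1) / ((Lg.card : ℝ) - 1) * (C1 * Real.log R) ≤ δ * Real.log R := by
      rw [hLg]
      have h3 : (t : ℝ) * (t - 1) / ((n : ℝ) - 1) * C1 ≤ δ := by
        rw [div_mul_eq_mul_div, div_le_iff₀ (by linarith), hδ, div_mul_eq_mul_div,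
          le_div_iff₀ (by positivity), one_mul]
        have h5 : t * (t - 1) * C1 * (2 * τ) ≤ n - 1 := by
          have h6 : t * (t - 1) * C1 * (2 * τ) = 2 * τ * C1 * t * (t - 1) := by ring
          rw [h6]
          omega
        have h7 : ((t * (t - 1) * C1 * (2 * τ) : ℕ) : ℝ) ≤ ((n - 1 : ℕ) : ℝ) := by
          exact_mod_cast h5
        rw [Nat.cast_sub (by omega), Nat.cast_mul, Nat.cast_mul, Nat.cast_mul, Nat.cast_mul,
          Nat.cast_sub (by omega), Nat.cast_one, Nat.cast_ofNat] at h7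
        exact h7
      calc (t : ℝ) * (t - 1) / ((n : ℝ) - 1) * (C1 * Real.log R)
          = ((t : ℝ) * (t - 1) / ((n : ℝ) - 1) * C1) * Real.log R := by ring
        _ ≤ δ * Real.log R := mul_le_mul_of_nonneg_right h3 hlogR
    have h4 : Real.log ((∏ i ∈ I, ∏ j ∈ I, d i j : ℕ) : ℝ) ≤ Real.log P := by
      rw [h1, hP, Real.log_rpow hR0]
      exact hI3.trans h2
    exact (Real.log_le_log_iff hprodpos (by linarith)).1 h4
  choose! f hf using key
  have hbound : ∀ I ∈ (Finset.univ : Finset (Finset (Fin (2 * n)))),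
      ((T.filter (fun p => (f p).2 = I)).card : ℝ) ≤
        C₁ * (∏ i, (Y i : ℝ)) * P * R ^ δ * R ^ (-(t : ℝ) / τ) := by
    intro I _
    have hYp : 0 ≤ ∏ i, (Y i : ℝ) := Finset.prod_nonneg fun i _ => Nat.cast_nonneg _
    by_cases hI : ∃ p ∈ T, (f p).2 = I
    · obtain ⟨p₀, hp₀, hp₀I⟩ := hI
      have hI1 : I ⊆ Lg := by rw [← hp₀I]; exact (hf p₀ hp₀).2.2.2.1
      have hI2 : I.card = t := by rw [← hp₀I]; exact (hf p₀ hp₀).2.2.2.2.1
      have hcard : (T.filter (fun p => (f p).2 = I)).card =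
          ((T.filter (fun p => (f p).2 = I)).image (fun p => (f p).1)).card := by
        rw [Finset.card_image_of_injOn]
        intro p hp q hq hpq
        rw [Finset.mem_coe, Finset.mem_filter] at hp hq
        have hpq' : (f p).1 = (f q).1 := hpq
        apply Prod.ext
        · funext i
          rw [(hf p hp.1).1 i, (hf q hq.1).1 i, hpq']
        · funext i
          rw [(hf p hp.1).2.1 i, (hf q hq.1).2.1 i, hpq']
      rw [hcard]
      refine hmc R hR I hI2 Y M hY (fun i hi => hYM i (hI1 hi)) hM1 hM2 hM3 P hP1 hP2 _ ?_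
      intro d hd
      obtain ⟨p, hp, rfl⟩ := Finset.mem_image.1 hd
      rw [Finset.mem_filter] at hp
      obtain ⟨hpT, hpI⟩ := hp
      obtain ⟨e1, e2, e3, e4, e5, e6⟩ := hf p hpT
      obtain ⟨hp1, hp2, hp3, hp4, hp5, hp6⟩ := hT p hpT
      refine ⟨e3, fun i => by rw [← e1 i]; exact hp1 i, fun i hi => ?_, ?_⟩
      · have := hp5 i (hI1 hi)
        rw [e1 i, e2 i] at this
        exact this
      · rw [hpI] at e6
        exact e6
    · push Not at hI
      rw [Finset.filter_false_of_mem hI, Finset.card_empty, Nat.cast_zero]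
      positivity
  have hcardT : (T.card : ℝ) ≤
      2 ^ (2 * n) * (C₁ * (∏ i, (Y i : ℝ)) * P * R ^ δ * R ^ (-(t : ℝ) / τ)) := by
    rw [Finset.card_eq_sum_card_fiberwise (f := fun p => (f p).2)
      (t := (Finset.univ : Finset (Finset (Fin (2 * n)))))
      (fun p _ => Finset.mem_coe.2 (Finset.mem_univ _)), Nat.cast_sum]
    refine (Finset.sum_le_sum hbound).trans (le_of_eq ?_)
    rw [Finset.sum_const, Finset.card_univ, Fintype.card_finset, Fintype.card_fin, nsmul_eq_mul]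
    push_cast
    ring
  refine hcardT.trans (le_of_eq ?_)
  have hexp : P * R ^ δ * R ^ (-(t : ℝ) / τ) = R ^ (-((C1 : ℝ) + 3)) := by
    rw [hP, ← Real.rpow_add hR0, ← Real.rpow_add hR0]
    congr 1
    rw [hδ, ht]
    push_cast
    field_simp
    ring
  rw [← hexp]
  ring

end Pool.Agent.IDS
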