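import Pool.Agent.IDS.Base

set_option autoImplicit false

namespace Pool.Agent.IDS

open Finset Matrix

/-- the symmetric matrix of two-step walks `v → w → v'` -/
noncomputable def SM (μ ν : ℕ → ℝ) (V W : Finset ℕ) (E : Finset (ℕ × ℕ)) : Matrix V V ℝ :=
  fun i j => ∑ w ∈ W, if ((i : ℕ), w) ∈ E ∧ ((j : ℕ), w) ∈ E then
    ν w * (Real.sqrt (μ i) * Real.sqrt (μ j)) else 0

theorem t7a_cs {ι : Type*} [Fintype ι] (x y : ι → ℝ) :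
    (x ⬝ᵥ y) ^ 2 ≤ (x ⬝ᵥ x) * (y ⬝ᵥ y) := by
  have h := Finset.sum_mul_sq_le_sq_mul_sq (Finset.univ : Finset ι) x y
  simp only [dotProduct]
  calc (∑ i, x i * y i) ^ 2 ≤ (∑ i, x i ^ 2) * ∑ i, y i ^ 2 := h
    _ = (∑ i, x i * x i) * ∑ i, y i * y i := by
        congr 1 <;> exact Finset.sum_congr rfl (fun i _ => by ring)

theorem t7a_symm_pow {ι : Type*} [Fintype ι] [DecidableEq ι] (S : Matrix ι ι ℝ) (hS : S.IsSymm)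
    (N : ℕ) : (S ^ N).IsSymm := by
  unfold Matrix.IsSymm at *
  rw [Matrix.transpose_pow, hS]

theorem t7a_split {ι : Type*} [Fintype ι] [DecidableEq ι] (S : Matrix ι ι ℝ) (hS : S.IsSymm)
    (x : ι → ℝ) (N : ℕ) :
    x ⬝ᵥ (S ^ (2 * N)).mulVec x = (S ^ N).mulVec x ⬝ᵥ (S ^ N).mulVec x := by
  have h1 : S ^ (2 * N) = S ^ N * S ^ N := by rw [two_mul, pow_add]
  rw [h1, ← Matrix.mulVec_mulVec, Matrix.dotProduct_mulVec]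
  congr 1
  have h2 := t7a_symm_pow S hS N
  conv_rhs => rw [← h2.eq]
  rw [Matrix.mulVec_transpose]

/-- [IDS-T7a] PROOF. Induction on `r ≥ 1`.  `r = 1`: Cauchy-Schwarz
`(x·Sx)² ≤ (x·x)(Sx·Sx) = (x·x)(x·S²x)` (`S` symmetric).  Step: `(x·Sx)^{2^r} ≥ 0` (even exponent), so
squaring the induction hypothesis is allowed, and `(x·S^{2^r}x)² ≤ (x·x)(x·S^{2^{r+1}}x)` by
Cauchy-Schwarz again. -/
theorem quad_pow {ι : Type*} [Fintype ι] [DecidableEq ι] (S : Matrix ι ι ℝ) (hS : S.IsSymm)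
    (x : ι → ℝ) (r : ℕ) (hr : 1 ≤ r) :
    (x ⬝ᵥ S.mulVec x) ^ (2 ^ r) ≤ (x ⬝ᵥ x) ^ (2 ^ r - 1) * (x ⬝ᵥ (S ^ (2 ^ r)).mulVec x) := by
  have hxx : 0 ≤ x ⬝ᵥ x := by
    simp only [dotProduct]
    exact Finset.sum_nonneg (fun i _ => mul_self_nonneg _)
  have key : ∀ N : ℕ, (x ⬝ᵥ (S ^ N).mulVec x) ^ 2 ≤ (x ⬝ᵥ x) * (x ⬝ᵥ (S ^ (2 * N)).mulVec x) := by
    intro N
    rw [t7a_split S hS x N]
    exact t7a_cs _ _
  induction r, hr using Nat.le_induction with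
  | base =>
    have := key 1
    simpa using this
  | succ r hr ih =>
    have hpos : 0 ≤ (x ⬝ᵥ S.mulVec x) ^ (2 ^ r) := by
      obtain ⟨s, rfl⟩ : ∃ s, r = s + 1 := ⟨r - 1, by omega⟩
      rw [pow_succ, pow_mul]
      exact sq_nonneg _
    have h1 : (x ⬝ᵥ S.mulVec x) ^ (2 ^ (r + 1)) = ((x ⬝ᵥ S.mulVec x) ^ (2 ^ r)) ^ 2 := by
      rw [← pow_mul, ← pow_succ]
    have h2 : (2 ^ (r + 1) - 1 : ℕ) = (2 ^ r - 1) * 2 + 1 := by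
      have : 1 ≤ 2 ^ r := Nat.one_le_two_pow
      rw [pow_succ]; omega
    have h3 := key (2 ^ r)
    have h4 : (2 : ℕ) ^ (r + 1) = 2 * 2 ^ r := by rw [pow_succ]; ring
    rw [h1]
    calc ((x ⬝ᵥ S.mulVec x) ^ (2 ^ r)) ^ 2
        ≤ ((x ⬝ᵥ x) ^ (2 ^ r - 1) * (x ⬝ᵥ (S ^ (2 ^ r)).mulVec x)) ^ 2 :=
          pow_le_pow_left₀ hpos ih 2
      _ = (x ⬝ᵥ x) ^ ((2 ^ r - 1) * 2) * (x ⬝ᵥ (S ^ (2 ^ r)).mulVec x) ^ 2 := by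
          rw [mul_pow, ← pow_mul]
      _ ≤ (x ⬝ᵥ x) ^ ((2 ^ r - 1) * 2) * ((x ⬝ᵥ x) * (x ⬝ᵥ (S ^ (2 * 2 ^ r)).mulVec x)) :=
          mul_le_mul_of_nonneg_left h3 (pow_nonneg hxx _)
      _ = (x ⬝ᵥ x) ^ (2 ^ (r + 1) - 1) * (x ⬝ᵥ (S ^ (2 ^ (r + 1))).mulVec x) := by
          rw [h2, h4, pow_succ]; ring

/-- [IDS-T7a] PROOF. `T = S^N` is symmetric, `x·S^{2N}x = Tx·Tx = ∑_i (∑_j T_ij x_j)²
≤ ∑_i (∑_j T_ij²)(x·x) = tr(T Tᵀ)(x·x) = tr(S^{2N})(x·x)`. -/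
theorem quad_trace {ι : Type*} [Fintype ι] [DecidableEq ι] (S : Matrix ι ι ℝ) (hS : S.IsSymm)
    (x : ι → ℝ) (N : ℕ) :
    x ⬝ᵥ (S ^ (2 * N)).mulVec x ≤ (x ⬝ᵥ x) * Matrix.trace (S ^ (2 * N)) := by
  rw [t7a_split S hS x N]
  have hsym := t7a_symm_pow S hS N
  set T := S ^ N with hT
  have h1 : S ^ (2 * N) = T * Tᵀ := by rw [two_mul, pow_add, ← hT, hsym.eq]
  rw [h1]
  have h2 : Matrix.trace (T * Tᵀ) = ∑ i, (T i) ⬝ᵥ (T i) := by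
    simp only [Matrix.trace, Matrix.diag_apply, Matrix.mul_apply, Matrix.transpose_apply, dotProduct]
  rw [h2, Finset.mul_sum]
  have h3 : T.mulVec x ⬝ᵥ T.mulVec x = ∑ i, (T i ⬝ᵥ x) ^ 2 := by
    simp only [dotProduct, Matrix.mulVec]
    exact Finset.sum_congr rfl (fun i _ => by ring)
  rw [h3]
  refine Finset.sum_le_sum (fun i _ => ?_)
  have := t7a_cs (T i) x
  linarith [mul_comm (T i ⬝ᵥ T i) (x ⬝ᵥ x)]

end Pool.Agent.IDS
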