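import Pool.Agent.IDS.T7a

set_option autoImplicit false

namespace Pool.Agent.IDS

open Finset Matrix

theorem t7b_em (V W : Finset ℕ) (μ ν : ℕ → ℝ) (E : Finset (ℕ × ℕ)) (hE : E ⊆ V ×ˢ W) :
    em μ ν E = ∑ w ∈ W, ν w * ∑ v ∈ V, if (v, w) ∈ E then μ v else 0 := by
  have h1 : em μ ν E = ∑ e ∈ V ×ˢ W, if e ∈ E then μ e.1 * ν e.2 else 0 := by
    unfold em
    rw [← Finset.sum_filter]
    congr 1
    ext e
    simp only [Finset.mem_filter]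
    exact ⟨fun h => ⟨hE h, h⟩, fun h => h.2⟩
  rw [h1, Finset.sum_product_right]
  refine Finset.sum_congr rfl (fun w _ => ?_)
  rw [Finset.mul_sum]
  refine Finset.sum_congr rfl (fun v _ => ?_)
  by_cases h : (v, w) ∈ E
  · simp only [h, if_true]; ring
  · simp only [h, if_false]; ring

theorem t7b_quad (V W : Finset ℕ) (μ ν : ℕ → ℝ) (hμ : ∀ v, 0 ≤ μ v) (E : Finset (ℕ × ℕ)) :
    (fun i : V => Real.sqrt (μ i)) ⬝ᵥ
        (SM μ ν V W E).mulVec (fun i : V => Real.sqrt (μ i)) =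
      ∑ w ∈ W, ν w * (∑ v ∈ V, if (v, w) ∈ E then μ v else 0) ^ 2 := by
  have h1 : ∀ w ∈ W, ν w * (∑ v ∈ V, if (v, w) ∈ E then μ v else 0) ^ 2 =
      ∑ i : V, ∑ j : V, (if ((i : ℕ), w) ∈ E ∧ ((j : ℕ), w) ∈ E then
        ν w * (μ i * μ j) else 0) := by
    intro w _
    rw [← Finset.sum_coe_sort V, sq, Finset.sum_mul_sum, Finset.mul_sum]
    refine Finset.sum_congr rfl (fun i _ => ?_)
    rw [Finset.mul_sum]
    refine Finset.sum_congr rfl (fun j _ => ?_)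
    by_cases hi : ((i : ℕ), w) ∈ E <;> by_cases hj : ((j : ℕ), w) ∈ E <;> simp [hi, hj]
  rw [Finset.sum_congr rfl h1, Finset.sum_comm]
  simp only [dotProduct, Matrix.mulVec]
  refine Finset.sum_congr rfl (fun i _ => ?_)
  rw [Finset.sum_comm, Finset.mul_sum]
  refine Finset.sum_congr rfl (fun j _ => ?_)
  simp only [SM]
  rw [Finset.sum_mul, Finset.mul_sum]
  refine Finset.sum_congr rfl (fun w _ => ?_)
  by_cases h : ((i : ℕ), w) ∈ E ∧ ((j : ℕ), w) ∈ E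
  · rw [if_pos h, if_pos h]
    have e1 := Real.mul_self_sqrt (hμ i)
    have e2 := Real.mul_self_sqrt (hμ j)
    calc Real.sqrt (μ i) * (ν w * (Real.sqrt (μ i) * Real.sqrt (μ j)) * Real.sqrt (μ j))
        = ν w * ((Real.sqrt (μ i) * Real.sqrt (μ i)) * (Real.sqrt (μ j) * Real.sqrt (μ j))) := by ring
      _ = ν w * (μ i * μ j) := by rw [e1, e2]
  · rw [if_neg h, if_neg h]; ring

theorem t7b_symm (V W : Finset ℕ) (μ ν : ℕ → ℝ) (E : Finset (ℕ × ℕ)) :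
    (SM μ ν V W E).IsSymm := by
  ext i j
  simp only [Matrix.transpose_apply, SM]
  refine Finset.sum_congr rfl (fun w _ => ?_)
  by_cases h : ((i : ℕ), w) ∈ E ∧ ((j : ℕ), w) ∈ E
  · rw [if_pos h, if_pos h.symm, mul_comm (Real.sqrt (μ i))]
  · rw [if_neg h, if_neg (fun h' => h h'.symm)]

/-- [IDS-T7b] **Trace inequality.**

PROOF.  With `x_i = √(μ i)` (`i ∈ V`) and `S = SM μ ν V W E` (symmetric):
`em μ ν E = ∑_{w∈W} ν w (∑_{v : (v,w)∈E} μ v)`, so by Cauchy-Schwarz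
`(em)² ≤ (∑_w ν w) ∑_w ν w (∑_{v:(v,w)∈E} μ v)² = ms ν W * (x · S x)`
(`x_i x_j √(μ i)√(μ j) = μ i μ j`).  Then `(em)^{2·2^r} ≤ (ms ν W)^{2^r} (x·Sx)^{2^r}`,
`(x·Sx)^{2^r} ≤ (x·x)^{2^r-1}(x·S^{2^r}x) ≤ (x·x)^{2^r} tr(S^{2^r})` (`quad_pow`, `quad_trace` with
`2^r = 2·2^{r-1}`), and `x·x = ms μ V`. -/
theorem trace_ineq (r : ℕ) (hr : 1 ≤ r) (V W : Finset ℕ) (μ ν : ℕ → ℝ)
    (hμ : ∀ v, 0 ≤ μ v) (hν : ∀ v, 0 ≤ ν v) (E : Finset (ℕ × ℕ)) (hE : E ⊆ V ×ˢ W) :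
    (em μ ν E) ^ (2 * 2 ^ r) ≤
      (ms μ V) ^ (2 ^ r) * (ms ν W) ^ (2 ^ r) * Matrix.trace ((SM μ ν V W E) ^ (2 ^ r)) := by
  set S := SM μ ν V W E with hS
  set x : V → ℝ := fun i => Real.sqrt (μ i) with hx
  have hsym : S.IsSymm := t7b_symm V W μ ν E
  have hxx : x ⬝ᵥ x = ms μ V := by
    simp only [dotProduct, hx, ms]
    rw [← Finset.sum_coe_sort V]
    exact Finset.sum_congr rfl (fun i _ => Real.mul_self_sqrt (hμ i))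
  have hms : 0 ≤ ms μ V := ms_nonneg hμ V
  have hmsW : 0 ≤ ms ν W := ms_nonneg hν W
  have hem : 0 ≤ em μ ν E := em_nonneg hμ hν E
  -- Cauchy-Schwarz
  have h1 : (em μ ν E) ^ 2 ≤ ms ν W * (x ⬝ᵥ S.mulVec x) := by
    rw [hS, hx, t7b_quad V W μ ν hμ E, t7b_em V W μ ν E hE]
    have hcs := Finset.sum_mul_sq_le_sq_mul_sq W (fun w => Real.sqrt (ν w))
      (fun w => Real.sqrt (ν w) * ∑ v ∈ V, if (v, w) ∈ E then μ v else 0)
    calc (∑ w ∈ W, ν w * ∑ v ∈ V, if (v, w) ∈ E then μ v else 0) ^ 2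
        = (∑ w ∈ W, Real.sqrt (ν w) * (Real.sqrt (ν w) *
            ∑ v ∈ V, if (v, w) ∈ E then μ v else 0)) ^ 2 := by
          congr 1
          refine Finset.sum_congr rfl (fun w _ => ?_)
          rw [← mul_assoc, Real.mul_self_sqrt (hν w)]
      _ ≤ (∑ w ∈ W, Real.sqrt (ν w) ^ 2) * ∑ w ∈ W, (Real.sqrt (ν w) *
            ∑ v ∈ V, if (v, w) ∈ E then μ v else 0) ^ 2 := hcs
      _ = ms ν W * ∑ w ∈ W, ν w * (∑ v ∈ V, if (v, w) ∈ E then μ v else 0) ^ 2 := by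
          unfold ms
          congr 1
          · exact Finset.sum_congr rfl (fun w _ => Real.sq_sqrt (hν w))
          · refine Finset.sum_congr rfl (fun w _ => ?_)
            rw [mul_pow, Real.sq_sqrt (hν w)]
  have h2 : (em μ ν E) ^ (2 * 2 ^ r) ≤ (ms ν W) ^ (2 ^ r) * (x ⬝ᵥ S.mulVec x) ^ (2 ^ r) := by
    rw [pow_mul, ← mul_pow]
    exact pow_le_pow_left₀ (sq_nonneg _) h1 _
  have h3 := quad_pow S hsym x r hr
  have h4 : x ⬝ᵥ (S ^ (2 ^ r)).mulVec x ≤ (x ⬝ᵥ x) * Matrix.trace (S ^ (2 ^ r)) := by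
    obtain ⟨s, rfl⟩ : ∃ s, r = s + 1 := ⟨r - 1, by omega⟩
    have h5 := quad_trace S hsym x (2 ^ s)
    have h6 : 2 ^ (s + 1) = 2 * 2 ^ s := by rw [pow_succ]; ring
    rw [h6]
    exact h5
  have h7 : (x ⬝ᵥ S.mulVec x) ^ (2 ^ r) ≤ (ms μ V) ^ (2 ^ r) * Matrix.trace (S ^ (2 ^ r)) := by
    rw [hxx] at h3 h4
    have hp : 1 ≤ 2 ^ r := Nat.one_le_two_pow
    calc (x ⬝ᵥ S.mulVec x) ^ (2 ^ r)
        ≤ (ms μ V) ^ (2 ^ r - 1) * (x ⬝ᵥ (S ^ (2 ^ r)).mulVec x) := h3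
      _ ≤ (ms μ V) ^ (2 ^ r - 1) * (ms μ V * Matrix.trace (S ^ (2 ^ r))) :=
          mul_le_mul_of_nonneg_left h4 (pow_nonneg hms _)
      _ = (ms μ V) ^ (2 ^ r - 1 + 1) * Matrix.trace (S ^ (2 ^ r)) := by rw [pow_succ]; ring
      _ = (ms μ V) ^ (2 ^ r) * Matrix.trace (S ^ (2 ^ r)) := by rw [Nat.sub_add_cancel hp]
  calc (em μ ν E) ^ (2 * 2 ^ r) ≤ (ms ν W) ^ (2 ^ r) * (x ⬝ᵥ S.mulVec x) ^ (2 ^ r) := h2
    _ ≤ (ms ν W) ^ (2 ^ r) * ((ms μ V) ^ (2 ^ r) * Matrix.trace (S ^ (2 ^ r))) :=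
        mul_le_mul_of_nonneg_left h7 (pow_nonneg hmsW _)
    _ = _ := by ring

end Pool.Agent.IDS
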