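import Pool.Agent.IDS.C3
import Pool.Agent.IDS.C6
import Pool.Agent.IDS.T11
import Pool.Agent.IDS.O3

set_option autoImplicit false

namespace Pool.Agent.IDS

open Finset

theorem z1_sum {α : Type*} (T : Finset α) (g D : α → ℝ) (idx : α → ℕ) (sc M : ℕ → ℝ)
    (A q : ℝ) (hq0 : 0 < q) (hq1 : q < 1) (hg : ∀ e ∈ T, 0 ≤ g e)
    (hD : ∀ e ∈ T, 0 < D e) (hsc : ∀ n, 0 < sc n) (h2 : ∀ e ∈ T, sc (idx e) ≤ 2 * D e)
    (hM : ∀ n, ∑ e ∈ T.filter (fun e => idx e = n), g e ≤ M n)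
    (hMA : ∀ n, M n * (2 / sc n) ≤ A * q ^ n) (hA : 0 ≤ A) :
    ∑ e ∈ T, g e / D e ≤ A / (1 - q) := by
  classical
  rw [← Finset.sum_fiberwise_of_maps_to (s := T) (t := T.image idx) (g := idx)
    (fun e he => Finset.mem_image_of_mem idx he)]
  have h1 : ∀ n ∈ T.image idx, ∑ e ∈ T.filter (fun e => idx e = n), g e / D e ≤ A * q ^ n := by
    intro n _
    refine le_trans ?_ (hMA n)
    have h3 : ∀ e ∈ T.filter (fun e => idx e = n), g e / D e ≤ g e * (2 / sc n) := by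
      intro e he
      rw [Finset.mem_filter] at he
      have h4 := h2 e he.1
      rw [he.2] at h4
      have h5 := hD e he.1
      rw [div_eq_mul_inv]
      apply mul_le_mul_of_nonneg_left _ (hg e he.1)
      rw [inv_eq_one_div, div_le_div_iff₀ h5 (hsc n)]
      linarith
    refine (Finset.sum_le_sum h3).trans ?_
    rw [← Finset.sum_mul]
    exact mul_le_mul_of_nonneg_right (hM n) (div_nonneg (by norm_num) (hsc n).le)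
  refine (Finset.sum_le_sum h1).trans ?_
  rw [← Finset.mul_sum, div_eq_mul_inv]
  apply mul_le_mul_of_nonneg_left _ hA
  rw [← tsum_geometric_of_lt_one hq0.le hq1]
  exact (summable_geometric_of_lt_one hq0.le hq1).sum_le_tsum _ (fun n _ => pow_nonneg hq0.le n)

theorem z1_dd {κ : ℕ → ℕ} {v w : ℕ} (h : κ v ≤ κ w) :
    DD κ v w = (Nat.lcm v w : ℝ) * (1 / 2 : ℝ) ^ κ v := by
  unfold DD
  rw [max_eq_left]
  exact pow_le_pow_of_le_one (by norm_num) (by norm_num) h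

theorem z1_dd_comm (κ : ℕ → ℕ) (v w : ℕ) : DD κ v w = DD κ w v := by
  unfold DD
  rw [Nat.lcm_comm, max_comm]

theorem z1_dd_pos (κ : ℕ → ℕ) {v w : ℕ} (hv : 0 < v) (hw : 0 < w) : 0 < DD κ v w := by
  unfold DD
  have h1 : 0 < Nat.lcm v w := Nat.lcm_pos hv hw
  have h2 : (0 : ℝ) < (1 / 2 : ℝ) ^ κ v := by positivity
  have h3 : (0 : ℝ) < max ((1 / 2 : ℝ) ^ κ v) ((1 / 2 : ℝ) ^ κ w) := lt_max_of_lt_left h2
  have h4 : (0 : ℝ) < (Nat.lcm v w : ℝ) := by exact_mod_cast h1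
  exact mul_pos h4 h3

theorem z1_pow {s : ℝ} (hs : 0 < s) : (0 : ℝ) < (2 : ℝ) ^ (-s) ∧ (2 : ℝ) ^ (-s) < 1 :=
  ⟨Real.rpow_pos_of_pos (by norm_num) _,
    Real.rpow_lt_one_of_one_lt_of_neg (by norm_num) (by linarith)⟩

theorem z1_b (C X s : ℝ) (n : ℕ) :
    C * X * ((2 : ℝ) ^ n) ^ (-(1 + s)) * (2 / (1 / (2 : ℝ) ^ n)) =
      2 * C * X * ((2 : ℝ) ^ (-s)) ^ n := by
  have h0 : (0 : ℝ) < (2 : ℝ) ^ n := by positivity
  have h1 : ((2 : ℝ) ^ n) ^ (-(1 + s)) = ((2 : ℝ) ^ n) ^ (-s) * ((2 : ℝ) ^ n)⁻¹ := by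
    rw [show -(1 + s) = -s + (-1) by ring, Real.rpow_add h0, Real.rpow_neg_one]
  rw [h1, Real.rpow_pow_comm (by norm_num)]
  field_simp

theorem z1_a (C X : ℝ) (hC : 0 ≤ C) (hX : 0 ≤ X) (n : ℕ) :
    C * X * ((2 : ℝ) ^ (n + 1)) ^ (2 * (1 - (51 / 100 : ℝ))) * (2 / (2 : ℝ) ^ (n + 1)) ≤
      2 * C * X * ((2 : ℝ) ^ (-(1 / 50 : ℝ))) ^ n := by
  have h0 : (0 : ℝ) < (2 : ℝ) ^ (n + 1) := by positivity
  have h1 : ((2 : ℝ) ^ (n + 1)) ^ (2 * (1 - (51 / 100 : ℝ))) =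
      ((2 : ℝ) ^ (n + 1)) ^ (-(1 / 50 : ℝ)) * (2 : ℝ) ^ (n + 1) := by
    rw [show (2 * (1 - (51 / 100 : ℝ))) = -(1 / 50) + 1 by norm_num, Real.rpow_add h0,
      Real.rpow_one]
  have h2 : C * X * ((2 : ℝ) ^ (n + 1)) ^ (2 * (1 - (51 / 100 : ℝ))) * (2 / (2 : ℝ) ^ (n + 1)) =
      2 * C * X * ((2 : ℝ) ^ (-(1 / 50 : ℝ))) ^ (n + 1) := by
    rw [h1, Real.rpow_pow_comm (by norm_num)]
    field_simp
  rw [h2]
  obtain ⟨h3, h4⟩ := z1_pow (s := 1 / 50) (by norm_num)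
  apply mul_le_mul_of_nonneg_left _ (by positivity)
  exact pow_le_pow_of_le_one h3.le h4.le (Nat.le_succ n)

theorem z1_W {W x : ℝ} (hW : 0 ≤ W) (hx0 : 0 ≤ x) (hx : x ≤ 3 / 2) :
    W ^ x ≤ (1 + W) ^ (3 / 2 : ℝ) :=
  (Real.rpow_le_rpow hW (by linarith) hx0).trans
    (Real.rpow_le_rpow_of_exponent_le (by linarith) hx)

theorem z1_half (γ c : ℝ) (τ : ℕ) (h : FT γ c τ) (ε : ℝ) (hε : 0 < ε) (hε1 : ε ≤ 1) :
    ∃ C : ℝ, 0 < C ∧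
      ∀ (S : Finset ℕ) (κ : ℕ → ℕ) (Ω L μ : ℕ → ℝ), Dat ε S κ Ω L μ →
      ∑ e ∈ (S ×ˢ S).filter (fun e => (e.1 ≠ e.2 ∧
        nd (γ * ((rd e.2 e.1 : ℝ) - rd e.1 e.2)) ≤ 2 * DD κ e.1 e.2) ∧ κ e.1 ≤ κ e.2),
        μ e.1 * μ e.2 / DD κ e.1 e.2 ≤ C * (1 + ms μ S) ^ (3 / 2 : ℝ) := by
  classical
  obtain ⟨Ck, hCk, hk⟩ := kappa (51 / 100) (by norm_num) (by norm_num)
  obtain ⟨CI, hCI, hI⟩ := kappaI γ c τ (16 + 34 * τ) h le_rfl ε hε hε1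
  obtain ⟨ξ, CII, hξ, hξ1, hCII, hII⟩ := kappaII γ c τ (16 + 34 * τ) h ε hε
  have hε' : 0 < ε / 20 := by positivity
  obtain ⟨qa0, qa1⟩ := z1_pow (s := 1 / 50) (by norm_num)
  obtain ⟨qb0, qb1⟩ := z1_pow hε'
  obtain ⟨qc0, qc1⟩ := z1_pow hξ
  have ha : 0 < 1 - (2 : ℝ) ^ (-(1 / 50 : ℝ)) := by linarith
  have hb : 0 < 1 - (2 : ℝ) ^ (-(ε / 20)) := by linarith
  have hc : 0 < 1 - (2 : ℝ) ^ (-ξ) := by linarith
  refine ⟨2 * Ck / (1 - (2 : ℝ) ^ (-(1 / 50 : ℝ))) + 2 * CI / (1 - (2 : ℝ) ^ (-(ε / 20))) +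
    2 * CII / (1 - (2 : ℝ) ^ (-ξ)), by positivity, ?_⟩
  intro S κ Ω L μ hdat
  have hW : 0 ≤ ms μ S := ms_nonneg hdat.mu0 S
  have hidx : ∀ e : ℕ × ℕ, ∃ n : ℕ,
      (1 ≤ DD κ e.1 e.2 → (2 : ℝ) ^ n ≤ DD κ e.1 e.2 ∧ DD κ e.1 e.2 < (2 : ℝ) ^ (n + 1)) ∧
      (0 < DD κ e.1 e.2 → DD κ e.1 e.2 < 1 →
        (2 : ℝ) ^ n ≤ (DD κ e.1 e.2)⁻¹ ∧ (DD κ e.1 e.2)⁻¹ < (2 : ℝ) ^ (n + 1)) := by
    intro e
    rcases le_or_gt 1 (DD κ e.1 e.2) with h1 | h1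
    · obtain ⟨n, hn⟩ := exists_nat_pow_near h1 (by norm_num : (1 : ℝ) < 2)
      exact ⟨n, fun _ => hn, fun _ h2 => absurd h2 (not_lt.2 h1)⟩
    · by_cases h0 : 0 < DD κ e.1 e.2
      · obtain ⟨n, hn⟩ := exists_nat_pow_near ((one_le_inv₀ h0).2 h1.le)
          (by norm_num : (1 : ℝ) < 2)
        exact ⟨n, fun h2 => absurd h2 (not_le.2 h1), fun _ _ => hn⟩
      · exact ⟨0, fun h2 => absurd h2 (not_le.2 h1), fun h2 => absurd h2 h0⟩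
  choose idx hidx1 hidx2 using hidx
  set T := (S ×ˢ S).filter (fun e => (e.1 ≠ e.2 ∧
        nd (γ * ((rd e.2 e.1 : ℝ) - rd e.1 e.2)) ≤ 2 * DD κ e.1 e.2) ∧ κ e.1 ≤ κ e.2) with hT
  have hTm : ∀ e ∈ T, e ∈ S ×ˢ S ∧ e.1 ≠ e.2 ∧
      nd (γ * ((rd e.2 e.1 : ℝ) - rd e.1 e.2)) ≤ 2 * DD κ e.1 e.2 ∧ κ e.1 ≤ κ e.2 := by
    intro e he
    rw [hT, Finset.mem_filter] at he
    exact ⟨he.1, he.2.1.1, he.2.1.2, he.2.2⟩
  have hDpos : ∀ e ∈ T, 0 < DD κ e.1 e.2 := by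
    intro e he
    have h1 := (hTm e he).1
    rw [Finset.mem_product] at h1
    exact z1_dd_pos κ (hdat.pos _ h1.1) (hdat.pos _ h1.2)
  have hgpos : ∀ e ∈ T, 0 ≤ μ e.1 * μ e.2 := fun e _ => mul_nonneg (hdat.mu0 _) (hdat.mu0 _)
  -- three parts
  set Ta := T.filter (fun e => 1 ≤ DD κ e.1 e.2) with hTa
  set Tb := T.filter (fun e => ¬ 1 ≤ DD κ e.1 e.2) with hTb
  set Tc := Tb.filter (fun e => ((2 : ℝ) ^ idx e) ^ (16 + 34 * τ) ≤ (rd e.1 e.2 : ℝ) ∨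
    ((2 : ℝ) ^ idx e) ^ (16 + 34 * τ) ≤ (rd e.2 e.1 : ℝ)) with hTc
  set Td := Tb.filter (fun e => ¬ (((2 : ℝ) ^ idx e) ^ (16 + 34 * τ) ≤ (rd e.1 e.2 : ℝ) ∨
    ((2 : ℝ) ^ idx e) ^ (16 + 34 * τ) ≤ (rd e.2 e.1 : ℝ))) with hTd
  have hsplit : ∑ e ∈ T, μ e.1 * μ e.2 / DD κ e.1 e.2 =
      ∑ e ∈ Ta, μ e.1 * μ e.2 / DD κ e.1 e.2 + (∑ e ∈ Tc, μ e.1 * μ e.2 / DD κ e.1 e.2 +
        ∑ e ∈ Td, μ e.1 * μ e.2 / DD κ e.1 e.2) := by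
    rw [hTc, hTd, Finset.sum_filter_add_sum_filter_not, hTa, hTb,
      Finset.sum_filter_add_sum_filter_not]
  have hbT : ∀ e ∈ Tb, e ∈ T ∧ DD κ e.1 e.2 < 1 := by
    intro e he
    rw [hTb, Finset.mem_filter] at he
    exact ⟨he.1, not_le.1 he.2⟩
  have hbR : ∀ e ∈ Tb, DD κ e.1 e.2 ≤ 1 / (2 : ℝ) ^ idx e ∧
      1 / (2 : ℝ) ^ idx e ≤ 2 * DD κ e.1 e.2 := by
    intro e he
    obtain ⟨h1, h2⟩ := hbT e he
    have h3 := hDpos e h1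
    obtain ⟨h4, h5⟩ := hidx2 e h3 h2
    have h6 : (0 : ℝ) < (2 : ℝ) ^ idx e := by positivity
    constructor
    · rw [le_div_iff₀ h6]
      calc DD κ e.1 e.2 * (2 : ℝ) ^ idx e ≤ DD κ e.1 e.2 * (DD κ e.1 e.2)⁻¹ :=
            mul_le_mul_of_nonneg_left h4 h3.le
        _ = 1 := mul_inv_cancel₀ h3.ne'
    · rw [div_le_iff₀ h6]
      have h7 : DD κ e.1 e.2 * (DD κ e.1 e.2)⁻¹ < DD κ e.1 e.2 * (2 : ℝ) ^ (idx e + 1) :=
        mul_lt_mul_of_pos_left h5 h3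
      rw [mul_inv_cancel₀ h3.ne', pow_succ] at h7
      linarith
  have hA : ∑ e ∈ Ta, μ e.1 * μ e.2 / DD κ e.1 e.2 ≤
      2 * Ck * (ms μ S) ^ (2 * (51 / 100 : ℝ)) / (1 - (2 : ℝ) ^ (-(1 / 50 : ℝ))) := by
    have haT : ∀ e ∈ Ta, e ∈ T ∧ 1 ≤ DD κ e.1 e.2 := by
      intro e he
      rw [hTa, Finset.mem_filter] at he
      exact he
    refine z1_sum Ta (fun e => μ e.1 * μ e.2) (fun e => DD κ e.1 e.2) idx
      (fun n => (2 : ℝ) ^ (n + 1))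
      (fun n => Ck * (ms μ S) ^ (2 * (51 / 100 : ℝ)) *
        ((2 : ℝ) ^ (n + 1)) ^ (2 * (1 - (51 / 100 : ℝ))))
      _ _ qa0 qa1 (fun e he => hgpos e (haT e he).1) (fun e he => hDpos e (haT e he).1)
      (fun n => by positivity) ?_ ?_ ?_ (by positivity)
    · intro e he
      have h1 := (hidx1 e (haT e he).2).1
      show (2 : ℝ) ^ (idx e + 1) ≤ 2 * DD κ e.1 e.2
      rw [pow_succ]
      linarith
    · intro n
      have h1 := hk S κ μ ((2 : ℝ) ^ (n + 1)) hdat.mu0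
        (fun v hv => ⟨hdat.pos v hv, hdat.mu_le hε hv⟩) (by positivity)
      refine le_trans ?_ h1
      refine em_mono hdat.mu0 hdat.mu0 ?_
      intro e he
      rw [Finset.mem_filter] at he
      obtain ⟨h2, h3⟩ := haT e he.1
      obtain ⟨h4, h5, h6, h7⟩ := hTm e h2
      rw [Finset.mem_filter]
      refine ⟨h4, h7, ?_⟩
      rw [← z1_dd h7, ← he.2]
      exact (hidx1 e h3).2.le
    · intro n
      exact z1_a Ck _ hCk.le (by positivity) n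
  have hC : ∑ e ∈ Tc, μ e.1 * μ e.2 / DD κ e.1 e.2 ≤
      2 * CI * (ms μ S) ^ (1 + ε / 20) / (1 - (2 : ℝ) ^ (-(ε / 20))) := by
    have hcT : ∀ e ∈ Tc, e ∈ Tb ∧ (((2 : ℝ) ^ idx e) ^ (16 + 34 * τ) ≤ (rd e.1 e.2 : ℝ) ∨
        ((2 : ℝ) ^ idx e) ^ (16 + 34 * τ) ≤ (rd e.2 e.1 : ℝ)) := by
      intro e he
      rw [hTc, Finset.mem_filter] at he
      exact he
    refine z1_sum Tc (fun e => μ e.1 * μ e.2) (fun e => DD κ e.1 e.2) idx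
      (fun n => 1 / (2 : ℝ) ^ n)
      (fun n => CI * (ms μ S) ^ (1 + ε / 20) * ((2 : ℝ) ^ n) ^ (-(1 + ε / 20)))
      _ _ qb0 qb1 (fun e he => hgpos e (hbT e (hcT e he).1).1)
      (fun e he => hDpos e (hbT e (hcT e he).1).1)
      (fun n => by positivity) (fun e he => (hbR e (hcT e he).1).2) ?_ ?_ (by positivity)
    · intro n
      have h1 := hI S κ Ω L μ hdat ((2 : ℝ) ^ n) (one_le_pow₀ (by norm_num))
      refine le_trans ?_ h1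
      refine em_mono hdat.mu0 hdat.mu0 ?_
      intro e he
      rw [Finset.mem_filter] at he
      obtain ⟨h2, h3⟩ := hcT e he.1
      have hR := (hbR e h2).1
      obtain ⟨h4, h5, h6, h7⟩ := hTm e (hbT e h2).1
      rw [he.2] at h3 hR
      rw [Finset.mem_filter]
      refine ⟨h4, h7, ?_, ?_, h3⟩
      · rw [← z1_dd h7]
        exact hR
      · refine h6.trans ?_
        have : (2 : ℝ) / 2 ^ n = 2 * (1 / 2 ^ n) := by ring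
        rw [this]
        linarith
    · intro n
      exact (z1_b CI _ (ε / 20) n).le
  have hDd : ∑ e ∈ Td, μ e.1 * μ e.2 / DD κ e.1 e.2 ≤
      2 * CII * (ms μ S) ^ (1 + ξ) / (1 - (2 : ℝ) ^ (-ξ)) := by
    have hcT : ∀ e ∈ Td, e ∈ Tb ∧ (rd e.1 e.2 : ℝ) ≤ ((2 : ℝ) ^ idx e) ^ (16 + 34 * τ) ∧
        (rd e.2 e.1 : ℝ) ≤ ((2 : ℝ) ^ idx e) ^ (16 + 34 * τ) := by
      intro e he
      rw [hTd, Finset.mem_filter] at he
      obtain ⟨h1, h2⟩ := he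
      push Not at h2
      exact ⟨h1, h2.1.le, h2.2.le⟩
    refine z1_sum Td (fun e => μ e.1 * μ e.2) (fun e => DD κ e.1 e.2) idx
      (fun n => 1 / (2 : ℝ) ^ n)
      (fun n => CII * (ms μ S) ^ (1 + ξ) * ((2 : ℝ) ^ n) ^ (-(1 + ξ)))
      _ _ qc0 qc1 (fun e he => hgpos e (hbT e (hcT e he).1).1)
      (fun e he => hDpos e (hbT e (hcT e he).1).1)
      (fun n => by positivity) (fun e he => (hbR e (hcT e he).1).2) ?_ ?_ (by positivity)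
    · intro n
      have h1 := hII S κ Ω L μ hdat ((2 : ℝ) ^ n) (one_le_pow₀ (by norm_num))
      refine le_trans ?_ h1
      refine em_mono hdat.mu0 hdat.mu0 ?_
      intro e he
      rw [Finset.mem_filter] at he
      obtain ⟨h2, h3, h3'⟩ := hcT e he.1
      have hR := (hbR e h2).1
      obtain ⟨h4, h5, h6, h7⟩ := hTm e (hbT e h2).1
      rw [he.2] at h3 h3' hR
      rw [Finset.mem_filter]
      refine ⟨h4, h7, h5, ?_, ?_, h3, h3'⟩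
      · rw [← z1_dd h7]
        exact hR
      · refine h6.trans ?_
        have : (2 : ℝ) / 2 ^ n = 2 * (1 / 2 ^ n) := by ring
        rw [this]
        linarith
    · intro n
      exact (z1_b CII _ ξ n).le
  rw [hsplit]
  have w1 := z1_W hW (x := 2 * (51 / 100 : ℝ)) (by norm_num) (by norm_num)
  have w2 := z1_W hW (x := 1 + ε / 20) (by positivity) (by linarith)
  have w3 := z1_W hW (x := 1 + ξ) (by positivity) (by linarith)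
  have e1 : 2 * Ck * (ms μ S) ^ (2 * (51 / 100 : ℝ)) / (1 - (2 : ℝ) ^ (-(1 / 50 : ℝ))) ≤
      2 * Ck / (1 - (2 : ℝ) ^ (-(1 / 50 : ℝ))) * (1 + ms μ S) ^ (3 / 2 : ℝ) := by
    rw [mul_div_right_comm]
    exact mul_le_mul_of_nonneg_left w1 (by positivity)
  have e2 : 2 * CI * (ms μ S) ^ (1 + ε / 20) / (1 - (2 : ℝ) ^ (-(ε / 20))) ≤
      2 * CI / (1 - (2 : ℝ) ^ (-(ε / 20))) * (1 + ms μ S) ^ (3 / 2 : ℝ) := by
    rw [mul_div_right_comm]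
    exact mul_le_mul_of_nonneg_left w2 (by positivity)
  have e3 : 2 * CII * (ms μ S) ^ (1 + ξ) / (1 - (2 : ℝ) ^ (-ξ)) ≤
      2 * CII / (1 - (2 : ℝ) ^ (-ξ)) * (1 + ms μ S) ^ (3 / 2 : ℝ) := by
    rw [mul_div_right_comm]
    exact mul_le_mul_of_nonneg_left w3 (by positivity)
  rw [add_mul, add_mul]
  linarith

/-- [IDS-Z1] **Core inequality.**

PROOF.  `C1 = 16 + 34 τ`, `W = ms μ S`.  All summands of `core` are `≥ 0` and symmetric in `(v, w)`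
(`DD` symmetric, `nd (-x) = nd x`), so `core ≤ 2 ∑_{κ v ≤ κ w}`; for `κ v ≤ κ w`
`DD κ v w = lcm v w (1/2)^{κ v} =: D > 0`.  For an edge let `s ∈ ℤ` with `2^{s-1} < D ≤ 2^s`.
(a) `s ≥ -1`: the edges with this `s` have total mass `≤ C W^{2θ} 2^{2(1-θ)s}` by `kappa`
(`t = 2^s`, `θ = 51/100` say; `Dat.mu_le`), so they contribute
`≤ 2^{1-s} C W^{2θ} 2^{2(1-θ)s} = 2 C W^{2θ} 2^{-(2θ-1)s}`; sum over `s ≥ -1`: `≤ C' W^{2θ}`.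
(b) `s ≤ -2`: with `R = 2^{-s} ≥ 4`: `D ≤ 1/R`, `1/D < 2R`, and `nd (γ(m'-m)) ≤ 2D ≤ 2/R`.  Split by
`max(m, m') ≥ R^{C1}` or `< R^{C1}`: by `kappaI` and `kappaII` the mass is
`≤ C (W^{1+ε/20} R^{-(1+ε/20)} + W^{1+ξ} R^{-(1+ξ)})`, contribution `≤ 2R` times this; sum over
`R = 2^{-s}`: geometric.
Total `≤ C (W^{2θ} + W^{1+ε/20} + W^{1+ξ}) ≤ 3 C (1+W)^ϑ`, `ϑ = max(2θ, 1+ε/20, 1+ξ) < 2`.
(Only finitely many `s` occur.  `Finset.sum_fiberwise` over the values of `s`; bound each fiber, then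
the finite geometric sums by the infinite ones.) -/
theorem core_ineq (γ c : ℝ) (τ : ℕ) (h : FT γ c τ) (ε : ℝ) (hε : 0 < ε) (hε1 : ε ≤ 1) :
    ∃ ϑ C : ℝ, 0 < ϑ ∧ ϑ < 2 ∧ 0 < C ∧
      ∀ (S : Finset ℕ) (κ : ℕ → ℕ) (Ω L μ : ℕ → ℝ), Dat ε S κ Ω L μ →
      core γ κ μ S ≤ C * (1 + ms μ S) ^ ϑ := by
  classical
  obtain ⟨C, hC, hb⟩ := z1_half γ c τ h ε hε hε1
  refine ⟨3 / 2, 2 * C, by norm_num, by norm_num, by positivity, ?_⟩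
  intro S κ Ω L μ hdat
  have h1 := hb S κ Ω L μ hdat
  unfold core
  rw [← Finset.sum_filter_add_sum_filter_not _ (fun e : ℕ × ℕ => κ e.1 ≤ κ e.2),
    Finset.filter_filter, Finset.filter_filter]
  have h2 : ∑ e ∈ (S ×ˢ S).filter (fun e => (e.1 ≠ e.2 ∧
        nd (γ * ((rd e.2 e.1 : ℝ) - rd e.1 e.2)) ≤ 2 * DD κ e.1 e.2) ∧ ¬ κ e.1 ≤ κ e.2),
        μ e.1 * μ e.2 / DD κ e.1 e.2 ≤ ∑ e ∈ (S ×ˢ S).filter (fun e => (e.1 ≠ e.2 ∧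
        nd (γ * ((rd e.2 e.1 : ℝ) - rd e.1 e.2)) ≤ 2 * DD κ e.1 e.2) ∧ κ e.1 ≤ κ e.2),
        μ e.1 * μ e.2 / DD κ e.1 e.2 := by
    have h3 : ∑ e ∈ (S ×ˢ S).filter (fun e => (e.1 ≠ e.2 ∧
        nd (γ * ((rd e.2 e.1 : ℝ) - rd e.1 e.2)) ≤ 2 * DD κ e.1 e.2) ∧ ¬ κ e.1 ≤ κ e.2),
        μ e.1 * μ e.2 / DD κ e.1 e.2 = ∑ e ∈ ((S ×ˢ S).filter (fun e => (e.1 ≠ e.2 ∧
        nd (γ * ((rd e.2 e.1 : ℝ) - rd e.1 e.2)) ≤ 2 * DD κ e.1 e.2) ∧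
          ¬ κ e.1 ≤ κ e.2)).image Prod.swap, μ e.1 * μ e.2 / DD κ e.1 e.2 := by
      rw [Finset.sum_image (fun a _ b _ hab => Prod.swap_injective hab)]
      refine Finset.sum_congr rfl fun e _ => ?_
      rw [Prod.fst_swap, Prod.snd_swap, z1_dd_comm κ e.2 e.1, mul_comm (μ e.2)]
    rw [h3]
    apply Finset.sum_le_sum_of_subset_of_nonneg
    · intro e he
      rw [Finset.mem_image] at he
      obtain ⟨a, ha, rfl⟩ := he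
      rw [Finset.mem_filter, Finset.mem_product] at ha
      obtain ⟨⟨ha1, ha2⟩, ⟨ha3, ha4⟩, ha5⟩ := ha
      rw [Finset.mem_filter, Finset.mem_product]
      refine ⟨⟨ha2, ha1⟩, ⟨ha3.symm, ?_⟩, (not_le.1 ha5).le⟩
      rw [Prod.fst_swap, Prod.snd_swap, z1_dd_comm κ a.2 a.1]
      have h4 : γ * ((rd a.1 a.2 : ℝ) - rd a.2 a.1) = -(γ * ((rd a.2 a.1 : ℝ) - rd a.1 a.2)) := by
        ring
      rw [h4, nd_neg]
      exact ha4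
    · intro e he _
      rw [Finset.mem_filter, Finset.mem_product] at he
      exact div_nonneg (mul_nonneg (hdat.mu0 _) (hdat.mu0 _))
        (z1_dd_pos κ (hdat.pos _ he.1.1) (hdat.pos _ he.1.2)).le
  have h5 : 2 * C * (1 + ms μ S) ^ (3 / 2 : ℝ) =
      C * (1 + ms μ S) ^ (3 / 2 : ℝ) + C * (1 + ms μ S) ^ (3 / 2 : ℝ) := by ring
  rw [h5]
  exact add_le_add h1 (h2.trans h1)

end Pool.Agent.IDS
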