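import Pool.Agent.IDS.Z1

set_option autoImplicit false

namespace Pool.Agent.IDS

open Finset MeasureTheory Filter

theorem z2a_limit (C ϑ b : ℝ) (hϑ2 : ϑ < 2) (hϑ0 : 0 < ϑ) (hC : 0 < C)
    (h : ∀ A : ℝ, ∃ W : ℝ, A ≤ W ∧ (2 * W) ^ 2 * b ≤ 2 * W + 2 * (C * (1 + W) ^ ϑ)) :
    b ≤ 0 := by
  by_contra hb
  push Not at hb
  have h1 : Tendsto (fun W : ℝ => W ^ (-(1 : ℝ))) atTop (nhds 0) :=
    tendsto_rpow_neg_atTop one_pos
  have h2 : Tendsto (fun W : ℝ => W ^ (-(2 - ϑ))) atTop (nhds 0) :=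
    tendsto_rpow_neg_atTop (by linarith)
  have h3 : Tendsto (fun W : ℝ => 2 * W ^ (-(1 : ℝ)) + 2 * C * 2 ^ ϑ * W ^ (-(2 - ϑ))) atTop
      (nhds 0) := by
    have := (h1.const_mul 2).add (h2.const_mul (2 * C * 2 ^ ϑ))
    simpa using this
  have h4 : ∀ᶠ W : ℝ in atTop, 2 * W ^ (-(1 : ℝ)) + 2 * C * 2 ^ ϑ * W ^ (-(2 - ϑ)) < 4 * b :=
    h3.eventually_lt_const (by linarith)
  rw [eventually_atTop] at h4
  obtain ⟨A, hA⟩ := h4
  obtain ⟨W, hW, hineq⟩ := h (max A 1)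
  have hW1 : 1 ≤ W := (le_max_right _ _).trans hW
  have hW0 : 0 < W := by linarith
  have h5 := hA W ((le_max_left _ _).trans hW)
  have h6 : (1 + W) ^ ϑ ≤ 2 ^ ϑ * W ^ ϑ := by
    rw [← Real.mul_rpow (by norm_num) hW0.le]
    exact Real.rpow_le_rpow (by linarith) (by linarith) hϑ0.le
  have h7 : W ^ 2 * W ^ (-(1 : ℝ)) = W := by
    rw [Real.rpow_neg hW0.le, Real.rpow_one]
    field_simp
  have h8 : W ^ 2 * W ^ (-(2 - ϑ)) = W ^ ϑ := by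
    rw [← Real.rpow_natCast, ← Real.rpow_add hW0]
    congr 1
    push_cast
    ring
  have h9 : W ^ 2 * (2 * W ^ (-(1 : ℝ)) + 2 * C * 2 ^ ϑ * W ^ (-(2 - ϑ))) =
      2 * W + 2 * C * (2 ^ ϑ * W ^ ϑ) := by
    calc _ = 2 * (W ^ 2 * W ^ (-(1 : ℝ))) + 2 * C * (2 ^ ϑ * (W ^ 2 * W ^ (-(2 - ϑ)))) := by ring
      _ = _ := by rw [h7, h8]
  have h10 : 2 * C * (1 + W) ^ ϑ ≤ 2 * C * (2 ^ ϑ * W ^ ϑ) :=
    mul_le_mul_of_nonneg_left h6 (by linarith)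
  have h11 : W ^ 2 * (2 * W ^ (-(1 : ℝ)) + 2 * C * 2 ^ ϑ * W ^ (-(2 - ϑ))) < W ^ 2 * (4 * b) :=
    mul_lt_mul_of_pos_left h5 (by positivity)
  nlinarith

/-- [IDS-Z2] **Full measure for level data.**

PROOF.  Let `μ q = Ω (κ q) (φ(q) 2^{-κ q})` for all `q`.  For a finite `F ⊆ S`: `Dat ε F κ Ω L μ`
(`hL` gives `LS`).  Fix `N`.  The sum of `μ` over `S ∩ [N, ∞)` diverges, so there are finite
`F ⊆ S ∩ [N, ∞)` with `W = ms μ F` as large as we want.  `second_moment` (`ω = Ω ∘ κ ≤ 1`,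
`Dat.Om_le_one`-type argument) and `core_ineq` give, for
`B_N = {x ∈ [0,1] : x ∉ EE_q for all q ∈ S, q ≥ N} ⊆ B_F`:
`4 W² |B_N| ≤ 2W + 2C (1+W)^ϑ`; let `W → ∞`: `|B_N| = 0`.  Countable union over `N`: for a.e.
`x ∈ [0,1]` and every `N` there is `q ≥ N` in `S` with `x ∈ EE_q`. -/
theorem full_measure_levels (γ c : ℝ) (τ : ℕ) (h : FT γ c τ) (ε : ℝ) (hε : 0 < ε) (hε1 : ε ≤ 1)
    (S : Set ℕ) (κ : ℕ → ℕ) (Ω L : ℕ → ℝ)
    (hS : ∀ q ∈ S, 1 ≤ q ∧ (q : ℝ) * (1 / 2 : ℝ) ^ κ q ≤ 1 / 2)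
    (hL1 : ∀ k, 1 ≤ L k) (hΩ0 : ∀ k, 0 ≤ Ω k) (hΩ : ∀ k, Ω k * (L k) ^ ε ≤ 1)
    (hL : ∀ (F : Finset ℕ) (k : ℕ), (∀ q ∈ F, q ∈ S ∧ κ q = k) →
      ((F.image (Nat.log 2)).card : ℝ) ≤ L k)
    (hdiv : ¬ Summable (S.indicator
      (fun q => Ω (κ q) * ((Nat.totient q : ℝ) * (1 / 2 : ℝ) ^ κ q)))) :
    ∀ᵐ x ∂(volume.restrict (Set.Icc (0 : ℝ) 1)),
      ∃ᶠ q : ℕ in atTop, q ∈ S ∧ nd (q * x - γ) ≤ q * (1 / 2 : ℝ) ^ κ q := by
  classical
  obtain ⟨ϑ, C, hϑ0, hϑ2, hC, hcore⟩ := core_ineq γ c τ h ε hε hε1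
  set μ : ℕ → ℝ := fun q => Ω (κ q) * ((Nat.totient q : ℝ) * (1 / 2 : ℝ) ^ κ q) with hμdef
  have hμ0 : ∀ q, 0 ≤ μ q := fun q => mul_nonneg (hΩ0 _) (by positivity)
  have hω1 : ∀ q, Ω (κ q) ≤ 1 := by
    intro q
    have h1 : (1 : ℝ) ≤ (L (κ q)) ^ ε := Real.one_le_rpow (hL1 _) hε.le
    have h2 := hΩ (κ q)
    have h3 := hΩ0 (κ q)
    nlinarith
  have hDat : ∀ F : Finset ℕ, (∀ q ∈ F, q ∈ S) → Dat ε F κ Ω L μ := by
    intro F hF
    refine ⟨fun v hv => (hS v (hF v hv)).1, hμ0, fun v _ => le_refl _, hL1, hΩ0, hΩ, fun k => ?_⟩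
    apply hL
    intro q hq
    rw [mem_filter] at hq
    exact ⟨hF q hq.1, hq.2⟩
  have hbound : ∀ F : Finset ℕ, (∀ q ∈ F, q ∈ S) → (2 * ms μ F) ^ 2 *
      (volume {x : ℝ | x ∈ Set.Icc (0 : ℝ) 1 ∧ ∀ q ∈ F, x ∉ EE γ q (q * (1 / 2 : ℝ) ^ κ q)}).toReal
      ≤ 2 * ms μ F + 2 * (C * (1 + ms μ F) ^ ϑ) := by
    intro F hF
    have h1 := second_moment γ κ μ (fun q => Ω (κ q)) F (fun q hq => hS q (hF q hq))
      (fun q => hΩ0 _) hω1 (fun q => rfl)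
    have h2 := hcore F κ Ω L μ (hDat F hF)
    linarith
  -- the sets `B_N` are null sets
  have hnull : ∀ N : ℕ, volume {x : ℝ | x ∈ Set.Icc (0 : ℝ) 1 ∧ ∀ q ∈ S, N ≤ q →
      x ∉ EE γ q (q * (1 / 2 : ℝ) ^ κ q)} = 0 := by
    intro N
    set B : Set ℝ := {x : ℝ | x ∈ Set.Icc (0 : ℝ) 1 ∧ ∀ q ∈ S, N ≤ q →
      x ∉ EE γ q (q * (1 / 2 : ℝ) ^ κ q)} with hB
    have hfin : ∀ T : Set ℝ, T ⊆ Set.Icc (0 : ℝ) 1 → volume T ≠ ⊤ := by
      intro T hT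
      apply ne_top_of_le_ne_top _ (measure_mono hT)
      rw [Real.volume_Icc]
      exact ENNReal.ofReal_ne_top
    have hBfin : volume B ≠ ⊤ := hfin B (fun x hx => hx.1)
    have hb : (volume B).toReal ≤ 0 := by
      apply z2a_limit C ϑ _ hϑ2 hϑ0 hC
      intro A
      -- a finite set of large mass
      have hunb : ∃ u : Finset ℕ, A + ∑ q ∈ Finset.range N, μ q <
          ∑ q ∈ u, S.indicator μ q := by
        by_contra hcon
        push Not at hcon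
        apply hdiv
        apply summable_of_sum_le (c := A + ∑ q ∈ Finset.range N, μ q)
        · intro q
          exact Set.indicator_nonneg (fun q _ => hμ0 q) q
        · exact hcon
      obtain ⟨u, hu⟩ := hunb
      set F : Finset ℕ := (u.filter (fun q => q ∈ S)).filter (fun q => N ≤ q) with hFdef
      have hF : ∀ q ∈ F, q ∈ S := fun q hq => (mem_filter.1 (mem_filter.1 hq).1).2
      have hFN : ∀ q ∈ F, N ≤ q := fun q hq => (mem_filter.1 hq).2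
      have h1 : ∑ q ∈ u, S.indicator μ q = ∑ q ∈ u.filter (fun q => q ∈ S), μ q := by
        rw [sum_filter]
        apply sum_congr rfl
        intro q _
        by_cases hq : q ∈ S
        · rw [Set.indicator_of_mem hq, if_pos hq]
        · rw [Set.indicator_of_notMem hq, if_neg hq]
      have h2 : ∑ q ∈ u.filter (fun q => q ∈ S), μ q ≤ ms μ F + ∑ q ∈ Finset.range N, μ q := by
        rw [← sum_filter_add_sum_filter_not (u.filter (fun q => q ∈ S)) (fun q => N ≤ q)]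
        apply add_le_add (le_refl _)
        apply sum_le_sum_of_subset_of_nonneg
        · intro q hq
          rw [mem_filter] at hq
          rw [Finset.mem_range]
          exact not_le.1 hq.2
        · intro q _ _
          exact hμ0 q
      refine ⟨ms μ F, by linarith, ?_⟩
      refine le_trans ?_ (hbound F hF)
      apply mul_le_mul_of_nonneg_left _ (by positivity)
      apply ENNReal.toReal_mono
      · exact hfin _ (fun x hx => hx.1)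
      · apply measure_mono
        intro x hx
        exact ⟨hx.1, fun q hq => hx.2 q (hF q hq) (hFN q hq)⟩
    have h0 : (volume B).toReal = 0 := le_antisymm hb ENNReal.toReal_nonneg
    rcases (ENNReal.toReal_eq_zero_iff _).1 h0 with h1 | h1
    · exact h1
    · exact absurd h1 hBfin
  have hae : ∀ᵐ x ∂(volume.restrict (Set.Icc (0 : ℝ) 1)), ∀ N : ℕ,
      x ∉ {x : ℝ | x ∈ Set.Icc (0 : ℝ) 1 ∧ ∀ q ∈ S, N ≤ q →
        x ∉ EE γ q (q * (1 / 2 : ℝ) ^ κ q)} := by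
    rw [ae_all_iff]
    intro N
    apply ae_restrict_of_ae
    rw [ae_iff]
    simp only [not_not]
    exact hnull N
  filter_upwards [hae, ae_restrict_mem measurableSet_Icc] with x hx hx1
  rw [frequently_atTop]
  intro N
  have h1 := hx N
  simp only [not_and, not_forall, not_not] at h1
  obtain ⟨q, hqS, hqN, hq⟩ := h1 hx1
  exact ⟨q, hqN, hqS, hq.2⟩

end Pool.Agent.IDS
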