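import Pool.Agent.IDS.Base

set_option autoImplicit false

namespace Pool.Agent.IDS

open Finset MeasureTheory Filter

/-- [IDS-Z2] **Not Liouville implies finite type.**

PROOF.  `¬ Liouville γ`: there is `n` such that for all integers `a`, `b > 1`:
`γ = a/b` (impossible, irrational) or `|γ - a/b| ≥ 1/b^n`.  So for `b ≥ 2`, with `a = round (bγ)`:
`nd (b γ) = |bγ - a| ≥ b/b^n ≥ 1/b^n`.  `b = 1`: `nd γ > 0` (irrational).
`τ = n + 1`, `c = min (nd γ) 1`. -/
theorem exists_FT (γ : ℝ) (hγ : Irrational γ) (hL : ¬ Liouville γ) :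
    ∃ (c : ℝ) (τ : ℕ), FT γ c τ := by
  unfold Liouville at hL
  push Not at hL
  obtain ⟨n, hn⟩ := hL
  have hnd : 0 < nd γ := by
    unfold nd
    rw [abs_pos, sub_ne_zero]
    intro h
    exact hγ ⟨(round γ : ℤ), by rw [Rat.cast_intCast]; exact h.symm⟩
  refine ⟨min (nd γ) 1, n + 1, lt_min hnd one_pos, by omega, ?_⟩
  intro b hb
  rcases Nat.lt_or_ge 1 b with hb1 | hb1
  · have hbR : (1 : ℝ) < (b : ℝ) := by exact_mod_cast hb1
    have hb0 : (0 : ℝ) < (b : ℝ) := by linarith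
    have h := hn (round ((b : ℝ) * γ)) (b : ℤ) (by exact_mod_cast hb1)
    have hne : γ ≠ ((round ((b : ℝ) * γ) : ℤ) : ℝ) / ((b : ℤ) : ℝ) := by
      intro h1
      apply hγ
      refine ⟨((round ((b : ℝ) * γ) : ℤ) : ℚ) / ((b : ℤ) : ℚ), ?_⟩
      rw [Rat.cast_div, Rat.cast_intCast, Rat.cast_intCast]
      exact h1.symm
    have h2 := h hne
    rw [Int.cast_natCast] at h2
    have h3 : nd ((b : ℝ) * γ) = (b : ℝ) * |γ - ((round ((b : ℝ) * γ) : ℤ) : ℝ) / (b : ℝ)| := by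
      unfold nd
      rw [← abs_of_pos hb0, ← abs_mul, abs_of_pos hb0]
      congr 1
      field_simp
    rw [h3]
    have h4 : (min (nd γ) 1) / (b : ℝ) ^ (n + 1) ≤ 1 / (b : ℝ) ^ (n + 1) := by
      apply div_le_div_of_nonneg_right (min_le_right _ _) (by positivity)
    have h5 : (1 : ℝ) / (b : ℝ) ^ (n + 1) ≤ 1 / (b : ℝ) ^ n := by
      apply one_div_le_one_div_of_le (by positivity)
      apply pow_le_pow_right₀ hbR.le (by omega)
    have h6 : (1 : ℝ) / (b : ℝ) ^ n ≤ (b : ℝ) * (1 / (b : ℝ) ^ n) := by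
      have : (0 : ℝ) ≤ 1 / (b : ℝ) ^ n := by positivity
      nlinarith
    have h7 : (b : ℝ) * (1 / (b : ℝ) ^ n) ≤
        (b : ℝ) * |γ - ((round ((b : ℝ) * γ) : ℤ) : ℝ) / (b : ℝ)| :=
      mul_le_mul_of_nonneg_left h2 hb0.le
    linarith
  · have hb2 : b = 1 := by omega
    subst hb2
    simp

end Pool.Agent.IDS
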