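import Pool.Agent.IDS.Z3b

set_option autoImplicit false

namespace Pool.Agent.IDS

open Finset MeasureTheory Filter

theorem z3c_level {x : ℝ} (h0 : 0 < x) (h1 : x ≤ 1) :
    ∃ k : ℕ, (1 / 2 : ℝ) ^ k ≤ x ∧ x < 2 * (1 / 2 : ℝ) ^ k := by
  obtain ⟨n, hn1, hn2⟩ := exists_nat_pow_near_of_lt_one h0 h1 (y := (1 / 2 : ℝ)) (by norm_num)
    (by norm_num)
  rcases lt_or_eq_of_le hn2 with h | h
  · refine ⟨n + 1, hn1.le, ?_⟩
    rw [pow_succ]
    linarith
  · refine ⟨n, h.ge, ?_⟩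
    rw [h]
    have : (0 : ℝ) < (1 / 2) ^ n := by positivity
    linarith

theorem z3c_log {q q₀ b : ℕ} (hq : 1 ≤ q) (hq₀ : 1 ≤ q₀) (h : q ≤ b * q₀) :
    Nat.log 2 q ≤ Nat.log 2 q₀ + b := by
  have h1 : q₀ < 2 ^ (Nat.log 2 q₀ + 1) := Nat.lt_pow_succ_log_self (by norm_num) q₀
  have h2 : b < 2 ^ b := Nat.lt_two_pow_self
  have hb : 1 ≤ b := by
    by_contra hcon
    have : b = 0 := by omega
    rw [this, Nat.zero_mul] at h
    omega
  have h3 : q < 2 ^ (Nat.log 2 q₀ + b + 1) := by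
    calc q ≤ b * q₀ := h
      _ < 2 ^ b * 2 ^ (Nat.log 2 q₀ + 1) := Nat.mul_lt_mul'' h2 h1
      _ = 2 ^ (Nat.log 2 q₀ + b + 1) := by rw [← pow_add]; congr 1; omega
  have h4 := Nat.log_lt_of_lt_pow (by omega) h3
  omega

/-- [IDS-Z3c] **Comparable sizes.**

PROOF.  `kk` as in `main_general` (define it by choice for `0 < ψ q < 1/2`, `0` otherwise).
For `q, r` with `kk q = kk r = k`: `ψ q/q < 2 · 2^{-k} ≤ 2 ψ r/r` and conversely, so `q ≤ B r`.
So all elements of a set `F` as in `hLS` lie in `[q₀, B q₀]` (`q₀ = min F`), and the number of dyadic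
sizes is `≤ log₂ B + 2 ≤ B + 2`: take `L = B + 2` constant, `ε = 1`; dividing the divergent series by
the constant `L` does not matter. -/
theorem main_comparable (γ : ℝ) (hγ : Irrational γ) (hL : ¬ Liouville γ) (ψ : ℕ → ℝ)
    (hψ : ∀ q, 0 ≤ ψ q) (B : ℝ)
    (hB : ∀ q r : ℕ, 1 ≤ q → 1 ≤ r → 0 < ψ q → 0 < ψ r → ψ q / q ≤ 2 * (ψ r / r) →
      ψ r / r ≤ 2 * (ψ q / q) → (q : ℝ) ≤ B * r)
    (hdiv : ¬ Summable (fun q : ℕ => (Nat.totient q : ℝ) * ψ q / q)) :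
    volume (LimSet γ ψ) = 1 := by
  classical
  have hex : ∀ q : ℕ, ∃ k : ℕ, 1 ≤ q → 0 < ψ q → ψ q < 1 / 2 →
      (1 / 2 : ℝ) ^ k ≤ ψ q / q ∧ ψ q / q < 2 * (1 / 2 : ℝ) ^ k := by
    intro q
    by_cases h : 1 ≤ q ∧ 0 < ψ q ∧ ψ q < 1 / 2
    · obtain ⟨h1, h2, h3⟩ := h
      have hq : (1 : ℝ) ≤ q := by exact_mod_cast h1
      obtain ⟨k, hk⟩ := z3c_level (x := ψ q / q) (by positivity) (by
        rw [div_le_one (by linarith)]
        linarith)
      exact ⟨k, fun _ _ _ => hk⟩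
    · exact ⟨0, fun h1 h2 h3 => absurd ⟨h1, h2, h3⟩ h⟩
  choose kk hkk using hex
  set b : ℕ := ⌈B⌉₊ with hb
  have hBb : B ≤ b := Nat.le_ceil B
  refine main_general γ hγ hL ψ hψ 1 one_pos (fun _ => (b : ℝ) + 1)
    (fun _ => by have : (0 : ℝ) ≤ b := Nat.cast_nonneg b; linarith) kk hkk ?_ ?_
  · intro F k hF
    rcases F.eq_empty_or_nonempty with rfl | hne
    · simp only [image_empty, card_empty, Nat.cast_zero]
      positivity
    · obtain ⟨q₀, hq₀, hmin⟩ := F.exists_min_image (fun q => q) hne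
      have hsub : F.image (Nat.log 2) ⊆ Finset.Icc (Nat.log 2 q₀) (Nat.log 2 q₀ + b) := by
        intro x hx
        obtain ⟨q, hq, rfl⟩ := Finset.mem_image.1 hx
        rw [Finset.mem_Icc]
        refine ⟨Nat.log_mono_right (hmin q hq), ?_⟩
        obtain ⟨a1, a2, a3, a4⟩ := hF q hq
        obtain ⟨b1, b2, b3, b4⟩ := hF q₀ hq₀
        have c1 := hkk q a1 a2 a3
        have c2 := hkk q₀ b1 b2 b3
        rw [a4] at c1
        rw [b4] at c2
        have d1 : (q : ℝ) ≤ B * q₀ := hB q q₀ a1 b1 a2 b2 (by linarith [c1.2, c2.1])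
          (by linarith [c2.2, c1.1])
        refine z3c_log a1 b1 ?_
        have d2 : (q : ℝ) ≤ b * q₀ :=
          d1.trans (mul_le_mul_of_nonneg_right hBb (Nat.cast_nonneg _))
        exact_mod_cast d2
      have hcard := Finset.card_le_card hsub
      rw [Nat.card_Icc] at hcard
      have : (F.image (Nat.log 2)).card ≤ b + 1 := by omega
      exact_mod_cast this
  · intro hsum
    apply hdiv
    have hne : ((b : ℝ) + 1) ^ (1 : ℝ) ≠ 0 := by
      rw [Real.rpow_one]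
      positivity
    exact (summable_div_const_iff hne).1 hsum

end Pool.Agent.IDS
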