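import Pool.Agent.IDS.Z3b

set_option autoImplicit false

namespace Pool.Agent.IDS

open Finset MeasureTheory Filter

/-- the level of a ratio -/
noncomputable def z3dk (ψ : ℕ → ℝ) (q : ℕ) : ℕ :=
  open Classical in
  if h : ∃ k : ℕ, (1 / 2 : ℝ) ^ k ≤ ψ q / q then Nat.find h else 0

theorem z3dk_spec (ψ : ℕ → ℝ) (q : ℕ) (hq : 1 ≤ q) (h0 : 0 < ψ q) (h1 : ψ q < 1 / 2) :
    1 ≤ z3dk ψ q ∧ (1 / 2 : ℝ) ^ z3dk ψ q ≤ ψ q / q ∧
      ψ q / q < 2 * (1 / 2 : ℝ) ^ z3dk ψ q := by
  classical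
  have hq0 : (0 : ℝ) < q := by exact_mod_cast hq
  have hq1 : (1 : ℝ) ≤ q := by exact_mod_cast hq
  have ht : 0 < ψ q / q := div_pos h0 hq0
  have ht1 : ψ q / q < 1 := by
    rw [div_lt_one hq0]
    linarith
  have hex : ∃ k : ℕ, (1 / 2 : ℝ) ^ k ≤ ψ q / q := by
    obtain ⟨k, hk⟩ := exists_pow_lt_of_lt_one ht (by norm_num : (1 / 2 : ℝ) < 1)
    exact ⟨k, hk.le⟩
  have hdef : z3dk ψ q = Nat.find hex := by
    unfold z3dk
    rw [dif_pos hex]
  rw [hdef]
  have hs := Nat.find_spec hex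
  have hpos : 1 ≤ Nat.find hex := by
    by_contra hcon
    have h2 : Nat.find hex = 0 := by omega
    rw [h2, pow_zero] at hs
    linarith
  refine ⟨hpos, hs, ?_⟩
  have hm := Nat.find_min hex (m := Nat.find hex - 1) (by omega)
  push Not at hm
  have h3 : (1 / 2 : ℝ) ^ (Nat.find hex - 1) = 2 * (1 / 2 : ℝ) ^ Nat.find hex := by
    obtain ⟨m, hm'⟩ : ∃ m, Nat.find hex = m + 1 := ⟨Nat.find hex - 1, by omega⟩
    rw [hm', Nat.add_sub_cancel, pow_succ]
    ring
  rw [← h3]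
  exact hm

theorem z3d_half (γ : ℝ) (ψ : ℕ → ℝ) (h : ∃ᶠ q : ℕ in atTop, 1 / 2 ≤ ψ q) :
    volume (LimSet γ ψ) = 1 := by
  have h1 : LimSet γ ψ = Set.Icc (0 : ℝ) 1 := by
    ext x
    constructor
    · exact fun hx => hx.1
    · intro hx
      refine ⟨hx, ?_⟩
      refine (h.and_eventually (eventually_ge_atTop 1)).mono ?_
      rintro q ⟨h2, h3⟩
      exact ⟨h3, (exists_residue_iff γ x (ψ q) q h3).2 ((nd_le_half _).trans h2)⟩
  rw [h1, Real.volume_Icc]
  norm_num

/-- [IDS-Z3d] **Extra divergence by an arbitrary power of the logarithm.**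

PROOF.  `kk` as above; for `q` with `0 < ψ q < 1/2`, `kk q = k`: `q 2^{-k} ≤ ψ q < 1/2`, so
`log₂ q < k`: at most `k + 1` sizes; `L k = k + 1`.  `q/ψ q > 2^{k-1}`, so
`1 + log (1 + q/ψ q) ≥ 1 + (k-1) log 2 ≥ (k+1)/3`; so
`φ ψ/(q (k+1)^ε) ≥ 3^{-ε} φ ψ/(q (1+log(1+q/ψ))^ε)`, and the divergence hypothesis of `main_general` holds
(finitely many `q` with `ψ q ≥ 1/2` are irrelevant, if there are infinitely many the claim is
trivial as in `main_general`). -/
theorem main_log (γ : ℝ) (hγ : Irrational γ) (hL : ¬ Liouville γ) (ψ : ℕ → ℝ)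
    (hψ : ∀ q, 0 ≤ ψ q) (ε : ℝ) (hε : 0 < ε)
    (hdiv : ¬ Summable (fun q : ℕ => (Nat.totient q : ℝ) * ψ q / q /
      (1 + Real.log (1 + q / ψ q)) ^ ε)) :
    volume (LimSet γ ψ) = 1 := by
  by_cases hinf : ∃ᶠ q : ℕ in atTop, 1 / 2 ≤ ψ q
  · exact z3d_half γ ψ hinf
  rw [not_frequently] at hinf
  refine main_general γ hγ hL ψ hψ ε hε (fun k => (k : ℝ) + 1) (fun k => by
    have : (0 : ℝ) ≤ k := Nat.cast_nonneg k
    linarith) (z3dk ψ) (fun q hq h0 h1 => (z3dk_spec ψ q hq h0 h1).2) ?_ ?_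
  · intro F k hF
    have h1 : F.image (Nat.log 2) ⊆ Finset.range k := by
      intro m hm
      obtain ⟨q, hq, rfl⟩ := Finset.mem_image.1 hm
      obtain ⟨hq1, h0, h1, hk⟩ := hF q hq
      obtain ⟨-, h2, -⟩ := z3dk_spec ψ q hq1 h0 h1
      rw [hk] at h2
      have hq0 : (0 : ℝ) < q := by exact_mod_cast hq1
      rw [le_div_iff₀ hq0] at h2
      have h3 : (q : ℝ) < 2 ^ k := by
        have h4 : (1 / 2 : ℝ) ^ k * q < 1 / 2 := lt_of_le_of_lt h2 h1
        have h5 : (2 : ℝ) ^ k * ((1 / 2 : ℝ) ^ k * q) = q := by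
          rw [← mul_assoc, ← mul_pow]
          norm_num
        have h6 : (0 : ℝ) < 2 ^ k := by positivity
        nlinarith
      have h4 : q < 2 ^ k := by exact_mod_cast h3
      rw [Finset.mem_range]
      exact Nat.log_lt_of_lt_pow (by omega) h4
    have h2 := Finset.card_le_card h1
    rw [Finset.card_range] at h2
    have h3 : ((F.image (Nat.log 2)).card : ℝ) ≤ k := by exact_mod_cast h2
    linarith
  · intro hsum
    apply hdiv
    refine Summable.of_norm_bounded_eventually_nat (hsum.mul_left (3 ^ ε)) ?_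
    filter_upwards [hinf] with q hq
    push Not at hq
    rcases Nat.eq_zero_or_pos q with hq0 | hq1
    · subst hq0
      simp
    rcases (hψ q).lt_or_eq with h0 | h0
    · obtain ⟨hk1, -, hk2⟩ := z3dk_spec ψ q hq1 h0 hq
      set k := z3dk ψ q with hk
      have hq0 : (0 : ℝ) < q := by exact_mod_cast hq1
      have hlog : (((k : ℝ) - 1) * Real.log 2) ≤ Real.log (1 + q / ψ q) := by
        have h3 : (2 : ℝ) ^ ((k : ℝ) - 1) ≤ 1 + q / ψ q := by
          have h4 : (2 : ℝ) ^ ((k : ℝ) - 1) = 2 ^ k / 2 := by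
            rw [Real.rpow_sub (by norm_num), Real.rpow_one, Real.rpow_natCast]
          rw [h4]
          have h5 : ψ q / q * (q / ψ q) = 1 := by field_simp
          have h6 : (1 / 2 : ℝ) ^ k * 2 ^ k = 1 := by
            rw [← mul_pow]
            norm_num
          have h7 : 0 < q / ψ q := div_pos hq0 h0
          have h8 : (0 : ℝ) < 2 ^ k := by positivity
          have h9 : 2 ^ k < 2 * (q / ψ q) := by
            have h13 := mul_lt_mul_of_pos_right hk2 h7
            have h10 : 1 < 2 * (1 / 2 : ℝ) ^ k * (q / ψ q) := by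
              rwa [h5] at h13
            have h11 : (2 : ℝ) ^ k * 1 < 2 ^ k * (2 * (1 / 2 : ℝ) ^ k * (q / ψ q)) :=
              mul_lt_mul_of_pos_left h10 h8
            have h12 : (2 : ℝ) ^ k * (2 * (1 / 2 : ℝ) ^ k * (q / ψ q)) = 2 * (q / ψ q) := by
              linear_combination 2 * (q / ψ q) * h6
            rw [h12, mul_one] at h11
            exact h11
          linarith
        have h4 := Real.log_le_log (by positivity) h3
        rwa [Real.log_rpow (by norm_num)] at h4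
      have hlog2 := Real.log_two_gt_d9
      have hkr : (1 : ℝ) ≤ k := by exact_mod_cast hk1
      have hmain : (k : ℝ) + 1 ≤ 3 * (1 + Real.log (1 + q / ψ q)) := by
        nlinarith
      have hB : 0 < 1 + Real.log (1 + q / ψ q) := by nlinarith
      have hk0 : (0 : ℝ) < (k : ℝ) + 1 := by linarith
      have hpow : ((k : ℝ) + 1) ^ ε ≤ 3 ^ ε * (1 + Real.log (1 + q / ψ q)) ^ ε := by
        rw [← Real.mul_rpow (by norm_num) hB.le]
        exact Real.rpow_le_rpow hk0.le hmain hε.le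
      have hT : 0 ≤ (Nat.totient q : ℝ) * ψ q / q := by positivity
      have hp1 : 0 < ((k : ℝ) + 1) ^ ε := Real.rpow_pos_of_pos hk0 _
      have hp2 : 0 < (1 + Real.log (1 + q / ψ q)) ^ ε := Real.rpow_pos_of_pos hB _
      rw [Real.norm_of_nonneg (div_nonneg hT hp2.le)]
      rw [← mul_div_assoc, div_le_div_iff₀ hp2 hp1]
      have h5 := mul_le_mul_of_nonneg_left hpow hT
      linarith
    · rw [← h0]
      simp

end Pool.Agent.IDS
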